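import Pool.Agent.Lib.HS.Bd.SpecLowC
import Pool.Agent.Lib.HS.Cel3
import Pool.Agent.Lib.MP_a54f13_nt.Hp.Nm

/-!
PROJECT H*, LOW BANDS (MP_a54f13_nt): the amplifier inequality for the system of cells (`StmtAIl`), helper73.
-/

set_option autoImplicit false

namespace Pool.Agent.A54.HS

open MeasureTheory Filter Topology Set
open scoped ContDiff ComplexConjugate UpperHalfPlane MatrixGroups ENNReal
open Pool.Agent.A54.Dyn (G fl base ze io mk4 dom)
open Pool.Agent.A54.Av (Mat NonSc)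
open Pool.Agent.A54.Hp Pool.Agent.A54.Hp.Hk Pool.Agent.A54.Hp.A2M

noncomputable section

namespace AIlL

lemma KK_big {K₁ : ℝ} (h : 1 ≤ K₁) :
    ∃ w₁ : ℝ, 0 < w₁ ∧ w₁ ≤ 1 ∧ ∀ w : ℝ, 0 < w → w ≤ w₁ → K₁ ≤ KK w := by
  refine ⟨K₁ ^ (-2 : ℝ), Real.rpow_pos_of_pos (by linarith) _,
    Real.rpow_le_one_of_one_le_of_nonpos h (by norm_num), ?_⟩
  intro w hw hw1
  unfold KK
  have h1 := Real.rpow_le_rpow_of_nonpos hw hw1 (by norm_num : (-(1 / 2) : ℝ) ≤ 0)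
  rw [← Real.rpow_mul (by linarith)] at h1
  norm_num at h1
  norm_num
  exact h1

lemma pow_big (D : ℝ) {e : ℝ} (he : 0 < e) : ∃ K₁ : ℝ, 1 ≤ K₁ ∧ ∀ K : ℝ, K₁ ≤ K → D ≤ K ^ e := by
  refine ⟨max D 1 ^ (1 / e), Real.one_le_rpow (le_max_right _ _) (by positivity), ?_⟩
  intro K hK
  have h0 : 0 ≤ max D 1 := le_trans zero_le_one (le_max_right _ _)
  have h1 := Real.rpow_le_rpow (Real.rpow_nonneg h0 _) hK he.le
  rw [← Real.rpow_mul h0, one_div, inv_mul_cancel₀ he.ne', Real.rpow_one] at h1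
  exact (le_max_left _ _).trans h1

lemma KK_w {w : ℝ} (hw : 0 < w) : 1 / KK w ^ 2 = w := by
  unfold KK
  rw [← Real.rpow_natCast, ← Real.rpow_mul hw.le, one_div, ← Real.rpow_neg hw.le]
  norm_num

lemma KK_e {w : ℝ} (hw : 0 < w) : w ^ (49 / 200 : ℝ) = KK w ^ (-(49 / 100) : ℝ) := by
  unfold KK
  rw [← Real.rpow_mul hw.le]
  norm_num

end AIlL

theorem stmtAIl (hNu : StmtNuL) (hAI3 : StmtAI3) (hBd : StmtBd) : StmtAIl := by
  classical
  intro k R C κ hk hR hC hMc hκ hκ1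
  have hk0 : (251 : ℝ) ≤ k := by exact_mod_cast hk
  have hkp : (0 : ℝ) < k := by linarith
  have hκ2 : κ ≤ 1 / 50200 := hκ1.trans (one_div_le_one_div_of_le (by norm_num) (by linarith))
  obtain ⟨κ', hκ'⟩ : ∃ κ' : ℝ, κ' = κ / 1000000 := ⟨_, rfl⟩
  have hκ'0 : 0 < κ' := by rw [hκ']; positivity
  obtain ⟨M₀, hM₀1, hM₀⟩ := hBd κ' hκ'0
  obtain ⟨C₂, hC₂1, hC₂⟩ := ai3c hNu hAI3 k R (by omega) hR
  obtain ⟨μ, hμ⟩ : ∃ μ : ℝ, μ = (1 - 2 * κ) / (2 * (k : ℝ)) := ⟨_, rfl⟩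
  have hμ0 : 0 < μ := by rw [hμ]; exact div_pos (by linarith) (by linarith)
  have hμk : μ * k = (1 - 2 * κ) / 2 := by rw [hμ]; field_simp
  obtain ⟨K1, hK11, hK1⟩ := AIlL.pow_big M₀ hμ0
  obtain ⟨K2, hK21, hK2⟩ := AIlL.pow_big ((24 * k : ℝ) ^ 2) hμ0
  obtain ⟨K3, hK31, hK3⟩ := AIlL.pow_big (2 * (96 * k : ℝ) ^ k * C₂) (by norm_num : (0 : ℝ) < 1 / 200)
  obtain ⟨K4, hK41, hK4⟩ := AIlL.pow_big ((96 * k : ℝ) ^ (2 * k) * C₂) (e := κ / 1000 - κ')
    (by rw [hκ']; linarith)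
  obtain ⟨w₁, hw₁0, hw₁1, hw₁⟩ := AIlL.KK_big (K₁ := max (max K1 K2) (max K3 K4))
    (le_max_of_le_left (le_max_of_le_left hK11))
  refine ⟨w₁, hw₁0, hw₁1, ?_⟩
  intro l Φ hE w A hw hw1 hA V hV hAV M hM hGd
  have hK := hw₁ w hw hw1
  rw [AIlL.KK_e hw] at hAV
  obtain ⟨K, hKd⟩ : ∃ K : ℝ, K = KK w := ⟨_, rfl⟩
  have hSw : (sy R w C V).w = w := AIlL.KK_w hw
  rw [← hKd] at hK hAV hM ⊢
  have k1 : M₀ ≤ K ^ μ := hK1 K ((le_max_left _ _).trans ((le_max_left _ _).trans hK))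
  have k2 : (24 * k : ℝ) ^ 2 ≤ K ^ μ := hK2 K ((le_max_right _ _).trans ((le_max_left _ _).trans hK))
  have k3 := hK3 K ((le_max_left _ _).trans ((le_max_right _ _).trans hK))
  have k4 := hK4 K ((le_max_right _ _).trans ((le_max_right _ _).trans hK))
  have hK1' : 1 ≤ K := hK11.trans ((le_max_left _ _).trans ((le_max_left _ _).trans hK))
  have hK0 : 0 < K := by linarith
  rw [← hμ] at hM
  have hM1 : 1 ≤ M := by rw [hM]; exact Real.one_le_rpow hK1' hμ0.le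
  have hM0 : 0 < M := by linarith
  obtain ⟨hB1, hB2⟩ := hM₀ l M (by rw [hM]; exact k1) hGd
  have hsub : Bad l M ⊆ Pm M := Finset.filter_subset _ _
  have hPp : ∀ p ∈ Bad l M, p.Prime ∧ M < (p : ℝ) ∧ (p : ℝ) ≤ 2 * M := by
    intro p hp
    have h1 := hsub hp
    unfold Pm at h1
    rw [Finset.mem_filter, Finset.mem_Ioc] at h1
    exact ⟨h1.2, (Nat.floor_lt hM0.le).1 h1.1.1, (Nat.le_floor_iff (by linarith)).1 h1.1.2⟩
  refine ⟨?_, fun p hp => ⟨(hPp p hp).1, (hPp p hp).2.1.le, (hPp p hp).2.2⟩, ?_⟩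
  · have h1 : (24 * k : ℝ) ≤ M ^ (1 - κ') := by
      have h2 : M ^ (1 / 2 : ℝ) ≤ M ^ (1 - κ') :=
        Real.rpow_le_rpow_of_exponent_le hM1 (by rw [hκ']; linarith)
      have h3 : (24 * k : ℝ) ≤ M ^ (1 / 2 : ℝ) := by
        rw [← Real.sqrt_eq_rpow]
        exact Real.le_sqrt_of_sq_le (by rw [hM]; exact k2)
      exact h3.trans h2
    have h4 := h1.trans hB1
    exact_mod_cast h4
  · intro Q hQ hQc W hW hWc
    have hQM : Q ⊆ Pm M := hQ.trans hsub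
    obtain ⟨q, hq⟩ : ∃ q : ℝ, q = (Q.card : ℝ) := ⟨_, rfl⟩
    obtain ⟨x, hx⟩ : ∃ x : ℝ, x = (W.card : ℝ) := ⟨_, rfl⟩
    obtain ⟨a, ha⟩ : ∃ a : ℝ, a = 96 * (k : ℝ) := ⟨_, rfl⟩
    have ha0 : 0 < a := by rw [ha]; linarith
    rw [← ha] at k3 k4
    have hq0 : 0 ≤ q := by rw [hq]; positivity
    have hx0 : 0 ≤ x := by rw [hx]; positivity
    have hqb : M ^ (1 - κ') ≤ a * q := by
      refine hB1.trans ?_
      rw [hq, ha]
      exact_mod_cast hQc
    have hMp : 0 < M ^ (1 - κ') := Real.rpow_pos_of_pos hM0 _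
    rw [← hx] at hWc
    have hCel : CelF Φ R A (cel R w) W :=
      ⟨fun z hz => ⟨meas_cel R w z, cel_sub R w z, (hV z (hW hz)).1, (hV z (hW hz)).2⟩,
        fun i _ j _ hij => cel_disj R w hij⟩
    have hfin := Trp_finite stmtNm (by linarith : (0 : ℝ) ≤ R) (c := cel R w) (W := W)
      (fun i _ => cel_sub R w i) (Lv2_size hM1 hQM (2 * k))
    have hcond : C₂ ≤ q ^ k * (A * x) := by
      have e1 : (M ^ (1 - κ')) ^ k = K ^ ((1 - 2 * κ) / 2 * (1 - κ')) := by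
        rw [hM, ← Real.rpow_mul hK0.le, ← Real.rpow_natCast, ← Real.rpow_mul hK0.le, ← hμk]
        congr 1
        ring
      have h5 : (M ^ (1 - κ')) ^ k ≤ a ^ k * q ^ k := by
        rw [← mul_pow]
        exact pow_le_pow_left₀ hMp.le hqb k
      have h6 : K ^ (-(49 / 100) : ℝ) / 2 ≤ K ^ (κ / 5) * (A * x) := by
        refine hAV.trans ?_
        calc A * (V.card : ℝ) ≤ A * (K ^ (κ / 5) * x) := mul_le_mul_of_nonneg_left hWc hA.le
          _ = _ := by ring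
      have h7 : K ^ (-(κ / 5)) * (K ^ (-(49 / 100) : ℝ) / 2) ≤ A * x := by
        have h8 := mul_le_mul_of_nonneg_left h6 (Real.rpow_pos_of_pos hK0 (-(κ / 5))).le
        rw [← mul_assoc (K ^ (-(κ / 5))), ← Real.rpow_add hK0] at h8
        rw [show -(κ / 5) + κ / 5 = 0 by ring, Real.rpow_zero, one_mul] at h8
        exact h8
      have h9 : K ^ (1 / 200 : ℝ) / 2 ≤ (M ^ (1 - κ')) ^ k * (K ^ (-(κ / 5)) * (K ^ (-(49 / 100) : ℝ) / 2)) := by
        have e2 : (M ^ (1 - κ')) ^ k * (K ^ (-(κ / 5)) * (K ^ (-(49 / 100) : ℝ) / 2)) =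
            K ^ ((1 - 2 * κ) / 2 * (1 - κ') + (-(κ / 5)) + (-(49 / 100))) / 2 := by
          rw [e1, Real.rpow_add hK0, Real.rpow_add hK0]
          ring
        rw [e2]
        refine div_le_div_of_nonneg_right (Real.rpow_le_rpow_of_exponent_le hK1' ?_) (by norm_num)
        rw [hκ']
        nlinarith
      have h10 : a ^ k * C₂ ≤ a ^ k * (q ^ k * (A * x)) := by
        calc a ^ k * C₂ ≤ K ^ (1 / 200 : ℝ) / 2 := by linarith
          _ ≤ (M ^ (1 - κ')) ^ k * (K ^ (-(κ / 5)) * (K ^ (-(49 / 100) : ℝ) / 2)) := h9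
          _ ≤ (a ^ k * q ^ k) * (A * x) := mul_le_mul h5 h7 (by positivity) (by positivity)
          _ = _ := by ring
      exact le_of_mul_le_mul_left h10 (by positivity)
    have hmain := hC₂ l Φ hE (Fin 3 → ℤ) (cel R w) W A hA hCel M hM1 Q hQM (fun p hp => hB2 p (hQ hp))
      (by rw [← hq, ← hx]; exact hcond) hfin.toFinset (by rw [Set.Finite.coe_toFinset])
    refine ⟨hfin.toFinset, ?_, ?_⟩
    · intro t ht
      obtain ⟨h1, h2, ⟨h3, n, hn, hd⟩, h4⟩ := hfin.mem_toFinset.1 ht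
      have hn0 : 0 < n := Nat.pos_of_ne_zero hn.1
      refine ⟨h1, h2, Prim_of_Pr h3, n, ⟨hn.1, ?_, ?_⟩, ?_⟩
      · rw [← ArithmeticFunction.cardFactors_apply]
        exact hn.2.2
      · intro p hp
        exact hn.2.1 p (Nat.prime_of_mem_primeFactorsList hp) (Nat.dvd_of_mem_primeFactorsList hp)
      · have h5 := hMc w hw (hw1.trans hw₁1) t.1 t.2.1 t.2.2 n hn0 (by rw [hd]; ring) h4
        rw [hSw]
        exact h5
    · rw [← hq, ← hx] at hmain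
      rw [← hx]
      obtain ⟨T, hT⟩ : ∃ T : ℝ, T = (hfin.toFinset.card : ℝ) := ⟨_, rfl⟩
      rw [← hT] at hmain ⊢
      have hT0 : 0 ≤ T := by rw [hT]; positivity
      have e1 : M ^ (2 * k) = (M ^ (1 - κ')) ^ (2 * k) * (M ^ κ') ^ (2 * k) := by
        rw [← mul_pow, ← Real.rpow_add hM0, show 1 - κ' + κ' = 1 by ring, Real.rpow_one]
      have h5 : (M ^ (1 - κ')) ^ (2 * k) ≤ a ^ (2 * k) * q ^ (2 * k) := by
        rw [← mul_pow]
        exact pow_le_pow_left₀ hMp.le hqb _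
      have h6 : (M ^ κ') ^ (2 * k) ≤ K ^ κ' := by
        rw [hM, ← Real.rpow_mul hK0.le, ← Real.rpow_natCast, ← Real.rpow_mul hK0.le]
        refine Real.rpow_le_rpow_of_exponent_le hK1' ?_
        push_cast
        have e2 : μ * κ' * (2 * (k : ℝ)) = (1 - 2 * κ) * κ' := by
          calc μ * κ' * (2 * (k : ℝ)) = 2 * κ' * (μ * k) := by ring
            _ = _ := by rw [hμk]; ring
        rw [e2]
        nlinarith
      have h7 : M ^ (2 * k) ≤ a ^ (2 * k) * q ^ (2 * k) * K ^ κ' := by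
        rw [e1]
        exact mul_le_mul h5 h6 (by positivity) (by positivity)
      have h8 : K ^ (κ / 1000) = K ^ (κ / 1000 - κ') * K ^ κ' := by
        rw [← Real.rpow_add hK0]
        congr 1
        ring
      have hKκ : 0 < K ^ κ' := Real.rpow_pos_of_pos hK0 _
      have hMk : 0 < M ^ (2 * k) := by positivity
      calc A * M ^ (4 * k) * x ^ 2 = (A * M ^ (2 * k) * x ^ 2) * M ^ (2 * k) := by
            rw [show 4 * k = 2 * k + 2 * k by ring, pow_add]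
            ring
        _ ≤ (A * M ^ (2 * k) * x ^ 2) * (a ^ (2 * k) * q ^ (2 * k) * K ^ κ') :=
            mul_le_mul_of_nonneg_left h7 (by positivity)
        _ = (a ^ (2 * k) * K ^ κ') * (M ^ (2 * k) * q ^ (2 * k) * A * x ^ 2) := by ring
        _ ≤ (a ^ (2 * k) * K ^ κ') * (C₂ * T) := mul_le_mul_of_nonneg_left hmain (by positivity)
        _ = (a ^ (2 * k) * C₂) * (K ^ κ' * T) := by ring
        _ ≤ K ^ (κ / 1000 - κ') * (K ^ κ' * T) := mul_le_mul_of_nonneg_right k4 (by positivity)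
        _ = K ^ (κ / 1000) * T := by rw [h8]; ring

end

end Pool.Agent.A54.HS
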