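import Pool.Agent.Lib.HS.Bd.SpecLowC

/-!
# HS/Bd/Lw: the low bands for cells (`StmtBdLow`), assembly
-/

set_option autoImplicit false

namespace Pool.Agent.A54.HS

open MeasureTheory Filter Topology Set
open scoped ContDiff ComplexConjugate UpperHalfPlane MatrixGroups ENNReal
open Pool.Agent.A54.Dyn (G fl base ze io mk4 dom)
open Pool.Agent.A54.Av (Mat NonSc)
open Pool.Agent.A54.Hp Pool.Agent.A54.Hp.Hk Pool.Agent.A54.Hp.A2M

noncomputable section

namespace BdLowL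

lemma rp_mem {R w : ℝ} {z : Fin 3 → ℤ} (h : (cel R w z).Nonempty) : rp R w z ∈ cel R w z := by
  unfold rp
  rw [dif_pos h]
  exact h.some_mem

/-- powers are large -/
lemma big (D a : ℝ) (ha : 0 < a) : ∃ K1 : ℝ, 1 ≤ K1 ∧ ∀ K : ℝ, K1 ≤ K → D ≤ K ^ a := by
  have h := (tendsto_rpow_atTop ha).eventually (eventually_ge_atTop D)
  obtain ⟨K1, hK1⟩ := Filter.eventually_atTop.1 h
  exact ⟨max 1 K1, le_max_left _ _, fun K hK => hK1 K ((le_max_right _ _).trans hK)⟩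

lemma KK_pos {w : ℝ} (hw : 0 < w) : 0 < KK w := Real.rpow_pos_of_pos hw _

lemma KK_rpow {w : ℝ} (hw : 0 < w) (a : ℝ) : KK w ^ (-2 * a) = w ^ a := by
  unfold KK
  rw [← Real.rpow_mul hw.le]
  congr 1
  ring

lemma KK_sq {w : ℝ} (hw : 0 < w) : 1 / KK w ^ 2 = w := by
  have h1 : KK w ^ (2 : ℕ) = w⁻¹ := by
    unfold KK
    rw [← Real.rpow_natCast, ← Real.rpow_mul hw.le, ← Real.rpow_neg_one]
    congr 1
    norm_num
  rw [h1]
  simp

lemma KK_ge {w K1 : ℝ} (hK1 : 1 ≤ K1) (hw : 0 < w) (h : w ≤ 1 / K1 ^ 2) : K1 ≤ KK w := by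
  have h0 : 0 < K1 := by linarith
  have h1 : 1 / KK w ^ 2 ≤ 1 / K1 ^ 2 := by rw [KK_sq hw]; exact h
  have hp := KK_pos hw
  have h2 : K1 ^ 2 ≤ KK w ^ 2 := by
    rwa [one_div_le_one_div (by positivity) (by positivity)] at h1
  exact le_of_sq_le_sq' h2 hp.le
where
  le_of_sq_le_sq' {a b : ℝ} (h : a ^ 2 ≤ b ^ 2) (hb : 0 ≤ b) : a ≤ b := abs_le_of_sq_le_sq' h hb |>.2

end BdLowL

open BdLowL

theorem stmtBdLow (hLow : HSLow.S_Low) (hMc : StmtMc) (hOv : StmtOv) (hSp : StmtSp) (hCz : StmtCz)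
    (hAIl : StmtAIl) (hIsU : StmtIsU) : StmtBdLow := by
  classical
  intro b₀ hb hb'
  obtain ⟨κ, hκdef⟩ : ∃ κ : ℝ, κ = min (b₀ / 4) (1 / (200 * ((251 : ℕ) : ℝ))) := ⟨_, rfl⟩
  have hκ : 0 < κ := by
    rw [hκdef]
    refine lt_min (by linarith) (by norm_num)
  have hκb : κ ≤ b₀ / 4 := hκdef ▸ min_le_left _ _
  have hκk : κ ≤ 1 / (200 * ((251 : ℕ) : ℝ)) := hκdef ▸ min_le_right _ _
  have hκs : κ ≤ 1 / 50200 := by
    refine hκk.trans ?_
    norm_num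
  refine ⟨κ / 4000, by positivity, by linarith, ?_⟩
  intro K₀ R hK₀ hR
  obtain ⟨C, hC1, hC⟩ := hMc R hR
  obtain ⟨BO, hBO1, hBO⟩ := hOv R hR
  obtain ⟨BS, hBS1, hBS⟩ := hSp R hR
  obtain ⟨CZ, hCZ1, hCZ⟩ := hCz R hR
  obtain ⟨wA, hwA0, hwA1, hwA⟩ := hAIl 251 R C κ le_rfl hR hC1 hC hκ hκk
  obtain ⟨CU, hCU0, hCU⟩ := hIsU R hR
  obtain ⟨KL, hKL⟩ := hLow 251 C R κ (by norm_num) hC1 hR hκ hκk
  obtain ⟨B, hBdef⟩ : ∃ B : ℝ, B = BO * ((2 * C) ^ 251) ^ 14 + BS := ⟨_, rfl⟩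
  have hC2 : (1 : ℝ) ≤ (2 * C) ^ 251 := one_le_pow₀ (by linarith)
  have hBOB : BO * ((2 * C) ^ 251) ^ 14 ≤ B := by rw [hBdef]; linarith
  have hBSB : BS ≤ B := by
    rw [hBdef]
    have : 0 ≤ BO * ((2 * C) ^ 251) ^ 14 := by positivity
    linarith
  have hB1 : 1 ≤ B := hBS1.trans hBSB
  -- thresholds
  obtain ⟨k1, hk11, hk1⟩ := big B (κ / 1000) (by positivity)
  obtain ⟨k2, hk21, hk2⟩ := big 2 (κ / 2000) (by positivity)
  obtain ⟨k3, hk31, hk3⟩ := big 2 (1 / 100) (by norm_num)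
  obtain ⟨k4, hk41, hk4⟩ := big (4 * (CZ * CZ)) 1 (by norm_num)
  obtain ⟨k5, hk51, hk5⟩ := big (2 * (CU * (CZ * CZ) ^ (1 / 4 : ℝ))) (1 / 1000) (by norm_num)
  obtain ⟨K1, hK1def⟩ : ∃ K1 : ℝ, K1 = k1 + k2 + k3 + k4 + k5 + |KL| := ⟨_, rfl⟩
  have hab := abs_nonneg KL
  have hK11 : 1 ≤ K1 := by rw [hK1def]; linarith
  refine ⟨min wA (1 / K1 ^ 2), lt_min hwA0 (by positivity), (min_le_left _ _).trans hwA1, ?_⟩
  intro l Φ hE hCsp w hw hww hGd A hA hA2 V hV hlo hup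
  have hwwA : w ≤ wA := hww.trans (min_le_left _ _)
  have hw1 : w ≤ 1 := hwwA.trans hwA1
  have hK1w : K1 ≤ KK w := KK_ge hK11 hw (hww.trans (min_le_right _ _))
  have hKpos := KK_pos hw
  have hKge : 1 ≤ KK w := hK11.trans hK1w
  have g1 : B ≤ KK w ^ (κ / 1000) := hk1 _ (by linarith)
  have g2 : 2 ≤ KK w ^ (κ / 2000) := hk2 _ (by linarith)
  have g3 : 2 ≤ KK w ^ (1 / 100 : ℝ) := hk3 _ (by linarith)
  have g4 : 4 * (CZ * CZ) ≤ KK w ^ (1 : ℝ) := hk4 _ (by linarith)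
  have g5 : 2 * (CU * (CZ * CZ) ^ (1 / 4 : ℝ)) ≤ KK w ^ (1 / 1000 : ℝ) := hk5 _ (by linarith)
  have g6 : KL ≤ KK w := by linarith [le_abs_self KL]
  by_contra hcon
  rw [not_le] at hcon
  have hne : ∀ z ∈ V, (cel R w z).Nonempty := by
    intro z hz
    by_contra h
    rw [Set.not_nonempty_iff_eq_empty] at h
    have h1 := (hV z hz).1
    rw [h] at h1
    have h2 : ms Φ ∅ = 0 := by unfold ms; simp
    rw [h2, nonpos_iff_eq_zero, ENNReal.ofReal_eq_zero] at h1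
    linarith
  -- the cusp cells
  let P : (Fin 3 → ℤ) → Prop := fun z => ∀ n : HSL.MZ, n ≠ 0 → n.trace = 0 → n.det = 0 →
    |HSL.fr (rp R w z).1 (rp R w z).1 n 0 1| ≤ KK w ^ κ →
    |HSL.fr (rp R w z).1 (rp R w z).1 n 1 0| ≤ KK w ^ κ →
    KK w ^ (-2 + κ) ≤ |HSL.fr (rp R w z).1 (rp R w z).1 n 0 0|
  set V' := V.filter (fun z => P z) with hV'
  set Vb := V.filter (fun z => ¬ P z) with hVb
  have hsum : V'.card + Vb.card = V.card := Finset.card_filter_add_card_filter_not _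
  have hV's : V' ⊆ V := Finset.filter_subset _ _
  obtain ⟨η, hη⟩ : ∃ η : ℝ, η = CZ * KK w ^ (-2 + κ) := ⟨_, rfl⟩
  obtain ⟨Kc, hKc⟩ : ∃ Kc : ℝ, Kc = CZ * KK w ^ (κ / 2) := ⟨_, rfl⟩
  have hηpos : 0 < η := by rw [hη]; positivity
  have hKcpos : 0 < Kc := by rw [hKc]; positivity
  have hηK : η ≤ Kc := by
    rw [hη, hKc]
    refine mul_le_mul_of_nonneg_left ?_ (by linarith)
    exact Real.rpow_le_rpow_of_exponent_le hKge (by linarith)
  have hprod : η * Kc = (CZ * CZ) * KK w ^ (-2 + 3 * κ / 2) := by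
    rw [hη, hKc]
    have : KK w ^ (-2 + κ) * KK w ^ (κ / 2) = KK w ^ (-2 + 3 * κ / 2) := by
      rw [← Real.rpow_add hKpos]
      congr 1
      ring
    calc CZ * KK w ^ (-2 + κ) * (CZ * KK w ^ (κ / 2))
        = (CZ * CZ) * (KK w ^ (-2 + κ) * KK w ^ (κ / 2)) := by ring
      _ = _ := by rw [this]
  have hsmall : η * Kc ≤ 1 / 4 := by
    rw [hprod]
    have h1 : KK w ^ (-2 + 3 * κ / 2) ≤ KK w ^ (-1 : ℝ) :=
      Real.rpow_le_rpow_of_exponent_le hKge (by linarith)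
    have h2 : KK w ^ (-1 : ℝ) * KK w ^ (1 : ℝ) = 1 := by
      rw [← Real.rpow_add hKpos]
      norm_num
    have h3 : 0 < KK w ^ (-1 : ℝ) := Real.rpow_pos_of_pos hKpos _
    have h4 : (CZ * CZ) * KK w ^ (-2 + 3 * κ / 2) ≤ (CZ * CZ) * KK w ^ (-1 : ℝ) :=
      mul_le_mul_of_nonneg_left h1 (by positivity)
    have h5 : 4 * (CZ * CZ) * KK w ^ (-1 : ℝ) ≤ KK w ^ (1 : ℝ) * KK w ^ (-1 : ℝ) :=
      mul_le_mul_of_nonneg_right g4 h3.le
    rw [mul_comm (KK w ^ (1 : ℝ)), h2] at h5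
    linarith
  have hmass : A * (Vb.card : ℝ) ≤ w ^ (49 / 200 : ℝ) / 2 := by
    have h1 : ∀ z ∈ Vb, cel R w z ⊆ Zc R η Kc := by
      intro z hz
      have hz1 := (Finset.mem_filter.1 hz).1
      have hz2 := (Finset.mem_filter.1 hz).2
      simp only [P] at hz2
      push Not at hz2
      obtain ⟨n, hn0, hnt, hnd, hn1, hn2, hn3⟩ := hz2
      rw [hη, hKc]
      exact hCZ w hw hw1 κ hκ (by linarith) C V z (hne z hz1) n hn0 hnt hnd hn1 hn2 hn3
    have h2 : celU R w Vb ⊆ Zc R η Kc := by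
      intro g hg
      exact h1 (cub w g) hg.2 (mem_cel.2 ⟨hg.1, rfl⟩)
    have h3 : ENNReal.ofReal (A * (Vb.card : ℝ)) ≤ ms Φ (celU R w Vb) := by
      rw [ms_celU]
      calc ENNReal.ofReal (A * (Vb.card : ℝ)) = ∑ _z ∈ Vb, ENNReal.ofReal A := by
            rw [Finset.sum_const, nsmul_eq_mul, ENNReal.ofReal_mul hA.le, ENNReal.ofReal_natCast,
              mul_comm]
        _ ≤ _ := Finset.sum_le_sum fun z hz => (hV z (Finset.mem_filter.1 hz).1).1
    have h4 := (hCU l Φ hE hCsp η Kc hηpos hηK hsmall).2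
    have h5 : A * (Vb.card : ℝ) ≤ CU * (η * Kc) ^ (1 / 4 : ℝ) := by
      have h6 := (h3.trans (ms_mono Φ h2)).trans h4
      exact (ENNReal.ofReal_le_ofReal_iff (by positivity)).1 h6
    refine h5.trans ?_
    have h7 : (η * Kc) ^ (1 / 4 : ℝ) = (CZ * CZ) ^ (1 / 4 : ℝ) * KK w ^ ((-2 + 3 * κ / 2) * (1 / 4)) := by
      rw [hprod, Real.mul_rpow (by positivity) (Real.rpow_nonneg hKpos.le _), ← Real.rpow_mul hKpos.le]
    have h8 : w ^ (49 / 200 : ℝ) = KK w ^ (-(49 / 100) : ℝ) := by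
      rw [← KK_rpow hw]
      congr 1
      norm_num
    have h9 : KK w ^ (1 / 1000 : ℝ) * KK w ^ ((-2 + 3 * κ / 2) * (1 / 4)) ≤ KK w ^ (-(49 / 100) : ℝ) := by
      rw [← Real.rpow_add hKpos]
      exact Real.rpow_le_rpow_of_exponent_le hKge (by linarith)
    have h10 : 0 < KK w ^ ((-2 + 3 * κ / 2) * (1 / 4)) := Real.rpow_pos_of_pos hKpos _
    have h11 := mul_le_mul_of_nonneg_right g5 h10.le
    rw [h7, h8]
    have h12 : 2 * (CU * ((CZ * CZ) ^ (1 / 4 : ℝ) * KK w ^ ((-2 + 3 * κ / 2) * (1 / 4)))) ≤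
        KK w ^ (-(49 / 100) : ℝ) := by
      calc 2 * (CU * ((CZ * CZ) ^ (1 / 4 : ℝ) * KK w ^ ((-2 + 3 * κ / 2) * (1 / 4))))
          = 2 * (CU * (CZ * CZ) ^ (1 / 4 : ℝ)) * KK w ^ ((-2 + 3 * κ / 2) * (1 / 4)) := by ring
        _ ≤ _ := h11
        _ ≤ _ := h9
    linarith
  have hVr : (V'.card : ℝ) + Vb.card = V.card := by exact_mod_cast hsum
  have hhalf : A * (V.card : ℝ) ≤ 2 * (A * (V'.card : ℝ)) := by
    have h1 : A * (V.card : ℝ) = A * V'.card + A * Vb.card := by rw [← hVr]; ring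
    linarith
  have hlo' : w ^ (49 / 200 : ℝ) / 2 ≤ A * (V'.card : ℝ) := by linarith
  have hV'le : (V'.card : ℝ) ≤ V.card := by
    have : (0 : ℝ) ≤ Vb.card := Nat.cast_nonneg _
    linarith
  obtain ⟨M, hM⟩ : ∃ M : ℝ, M = KK w ^ ((1 - 2 * κ) / (2 * ((251 : ℕ) : ℝ))) := ⟨_, rfl⟩
  have hMw : M = w ^ (-((1 - 2 * κ) / 1004)) := by
    rw [hM]
    unfold KK
    rw [← Real.rpow_mul hw.le]
    congr 1
    push_cast
    ring
  have hGdC : ¬ GdC (1 / 10000) l M := by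
    intro hg
    apply hGd
    refine ⟨M, ?_, ?_, hg⟩
    · rw [hMw]
      apply Real.rpow_le_rpow_of_exponent_ge hw hw1
      have h1 : 1 / (1000 * K₀) ≤ 1 / 2000 :=
        one_div_le_one_div_of_le (by norm_num) (by linarith)
      linarith
    · rw [hMw]
      apply Real.rpow_le_rpow_of_exponent_ge hw hw1
      linarith
  obtain ⟨a1, a2, a3⟩ := hwA l Φ hE w A hw hwwA hA V' (fun z hz => hV z (hV's hz)) hlo' M hM hGdC
  have hne' : ∀ z ∈ V', (cel R w z).Nonempty := fun z hz => hne z (hV's hz)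
  have hMm : M = HSLow.Mk 251 κ (sy R w C V').K := by rw [hM]; rfl
  refine hKL (sy R w C V') A B M (Bad l M) rfl rfl g6 ?_
  have hSw : (sy R w C V').w = w := KK_sq hw
  exact
    { unim := by
        intro i hi
        exact ⟨(rp R w i).2, fun a b => (rp_mem (hne' i hi)).1 a b⟩
      hB := hB1
      hB' := g1
      ovl := by
        intro i hi h m hd hm T hT
        exact (hBO w hw hw1 C V' hne' ((2 * C) ^ 251) hC2 i hi h m hd hm T hT).trans hBOB
      sep := by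
        intro ζ r hr F hF hF2
        refine (hBS w hw hw1 C V' hne' ζ r hr F hF hF2).trans ?_
        refine mul_le_mul_of_nonneg_right hBSB ?_
        rw [hSw] at hr ⊢
        have : 0 < r := hw.trans_le hr
        positivity
      hM := hMm
      prm := a2
      big := a1
      hA := hA
      lo := by
        have h1 : w ^ (1 + κ / 4000) = KK w ^ (-2 - κ / 2000) := by
          rw [← KK_rpow hw]
          congr 1
          ring
        have h2 : KK w ^ (-2 - κ / 1000) * KK w ^ (κ / 2000) = KK w ^ (-2 - κ / 2000) := by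
          rw [← Real.rpow_add hKpos]
          congr 1
          ring
        have h3 : 0 < KK w ^ (-2 - κ / 1000) := Real.rpow_pos_of_pos hKpos _
        have h4 : KK w ^ (-2 - κ / 1000) * 2 ≤ KK w ^ (-2 - κ / 2000) := by
          rw [← h2]
          exact mul_le_mul_of_nonneg_left g2 h3.le
        have h5 : A * (A * (V.card : ℝ)) ≤ A * (2 * (A * (V'.card : ℝ))) :=
          mul_le_mul_of_nonneg_left hhalf hA.le
        change KK w ^ (-2 - κ / 1000) ≤ A ^ 2 * (V'.card : ℝ)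
        rw [h1] at hcon
        have h6 : A ^ 2 * (V.card : ℝ) = A * (A * (V.card : ℝ)) := by ring
        have h7 : A * (2 * (A * (V'.card : ℝ))) = 2 * (A ^ 2 * (V'.card : ℝ)) := by ring
        linarith
      up := by
        have h1 : w ^ b₀ = KK w ^ (-2 * b₀) := (KK_rpow hw b₀).symm
        have h2 : KK w ^ (-2 * b₀) ≤ KK w ^ (-(8 * κ)) :=
          Real.rpow_le_rpow_of_exponent_le hKge (by linarith)
        change A * (V'.card : ℝ) ≤ KK w ^ (-(8 * κ))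
        have h3 : A * (V'.card : ℝ) ≤ A * (V.card : ℝ) := mul_le_mul_of_nonneg_left hV'le hA.le
        linarith
      crd := by
        change KK w ^ (1 / 2 : ℝ) ≤ (V'.card : ℝ)
        have h1 : w ^ (49 / 200 : ℝ) = KK w ^ (-(49 / 100) : ℝ) := by
          rw [← KK_rpow hw]
          congr 1
          norm_num
        have h2 : w ^ (1 / 2 : ℝ) = KK w ^ (-1 : ℝ) := by
          rw [← KK_rpow hw]
          congr 1
          norm_num
        rw [h1] at hlo'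
        rw [h2] at hA2
        have h3 : KK w ^ (-1 : ℝ) * (2 * KK w ^ (1 / 2 : ℝ)) ≤ KK w ^ (-(49 / 100) : ℝ) := by
          have e1 : KK w ^ (-1 : ℝ) * KK w ^ (1 / 2 : ℝ) * KK w ^ (1 / 100 : ℝ) =
              KK w ^ (-(49 / 100) : ℝ) := by
            rw [← Real.rpow_add hKpos, ← Real.rpow_add hKpos]
            congr 1
            norm_num
          rw [← e1]
          have h4 : 0 < KK w ^ (-1 : ℝ) * KK w ^ (1 / 2 : ℝ) := by positivity
          have h5 := mul_le_mul_of_nonneg_left g3 h4.le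
          linarith
        have h4 : A * (V'.card : ℝ) ≤ KK w ^ (-1 : ℝ) * (V'.card : ℝ) :=
          mul_le_mul_of_nonneg_right hA2 (Nat.cast_nonneg _)
        have h5 : 0 < KK w ^ (-1 : ℝ) := Real.rpow_pos_of_pos hKpos _
        have h6 : KK w ^ (-1 : ℝ) * KK w ^ (1 / 2 : ℝ) ≤ KK w ^ (-1 : ℝ) * (V'.card : ℝ) := by
          linarith
        exact le_of_mul_le_mul_left h6 h5
      cusp := fun i hi => (Finset.mem_filter.1 hi).2
      ai := a3 }

end

end Pool.Agent.A54.HS
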