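import Pool.Agent.Lib.HS.Bd.SpecLow

/-!
# HS/Bd/Lw/C2: divisible returns with a common prime (`tC2 : S_C2`), helper44
-/

set_option autoImplicit false

namespace HSLow

open Matrix HSL

namespace C2M

/-- the divisible returns of one level -/
theorem level_card (S : Sys) (k : ℕ) (Q : Finset ℕ) (B : ℝ) (i : S.ι) (v : MZ) (hi : i ∈ S.V) (hB : 1 ≤ B)
    (hQ : ∀ p ∈ Q, p.Prime ∧ ¬ (p : ℤ) ∣ 2 * v.det) (hO : S.Ovl ((2 * S.C) ^ k) B) (hv : v.trace = 0)
    (m : ℕ) (W : Finset (S.ι × MZ)) (hW : ∀ u ∈ W, Dv S k Q i v u m) :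
    (W.card : ℝ) ≤ 2 ^ (4 * k) * B := by
  classical
  rcases W.eq_empty_or_nonempty with hemp | ⟨u₀, hu₀⟩
  · rw [hemp, Finset.card_empty]
    push_cast
    positivity
  obtain ⟨-, -, hL, -, -⟩ := hW u₀ hu₀
  obtain ⟨hm, hlen, hmQ⟩ := hL
  have hm0 : 0 < m := Nat.pos_of_ne_zero hm
  have hcop : IsCoprime (2 * v.det) ((m ^ 2 : ℕ) : ℤ) := by
    rw [Int.isCoprime_iff_nat_coprime, Int.natAbs_natCast]
    apply Nat.Coprime.pow_right
    by_contra hc
    obtain ⟨p, hp, h1, h2⟩ := Nat.Prime.not_coprime_iff_dvd.1 hc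
    have h3 : p ∈ Q := hmQ p ((Nat.mem_primeFactorsList hm).2 ⟨hp, h2⟩)
    exact (hQ p h3).2 (Int.natCast_dvd.2 h1)
  let rep : S.ι × MZ → MZ := fun u => (Quotient.mk eqv u.2).out
  have hrep : ∀ u : S.ι × MZ, ∃ γ : MZ, γ.det = 1 ∧ u.2 = γ * rep u := fun u =>
    Quotient.exact (s := eqv) (Quotient.out_eq (Quotient.mk eqv u.2))
  set T := W.image rep with hT
  -- facts about the representative
  have hfac : ∀ u ∈ W, Prim (rep u) ∧ (rep u).det = ((m ^ 2 : ℕ) : ℤ) ∧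
      ∀ a b, ((m ^ 2 : ℕ) : ℤ) ∣ (rep u * v * (rep u).adjugate) a b := by
    intro u hu
    obtain ⟨-, hP, -, hR, hd⟩ := hW u hu
    obtain ⟨γ, g1, g2⟩ := hrep u
    refine ⟨?_, ?_, ?_⟩
    · intro r hr
      apply hP r
      intro a b
      rw [g2, Matrix.mul_apply]
      exact Finset.dvd_sum (fun j _ => Dvd.dvd.mul_left (hr j b) _)
    · have e1 := hR.1
      rw [g2, Matrix.det_mul, g1, one_mul] at e1
      rw [e1]
      push_cast
      ring
    · -- rep = adj γ * u.2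
      have e2 : rep u = γ.adjugate * u.2 := by
        conv_rhs => rw [g2, ← Matrix.mul_assoc, Matrix.adjugate_mul, g1, one_smul, Matrix.one_mul]
      have e3 : rep u * v * (rep u).adjugate = γ.adjugate * (u.2 * v * u.2.adjugate) * γ := by
        have e4 : (rep u).adjugate = u.2.adjugate * γ := by
          rw [e2, Matrix.adjugate_mul_distrib]
          congr 1
          have := Matrix.adjugate_adjugate' γ
          simpa using this
        rw [e4]
        conv_lhs => rw [e2]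
        simp only [Matrix.mul_assoc]
      intro a b
      rw [e3]
      have e5 : ((m ^ 2 : ℕ) : ℤ) = (m : ℤ) ^ 2 := by push_cast; ring
      rw [e5, Matrix.mul_apply]
      refine Finset.dvd_sum (fun j _ => Dvd.dvd.mul_right ?_ _)
      rw [Matrix.mul_apply]
      exact Finset.dvd_sum (fun j' _ => Dvd.dvd.mul_left (hd j' j) _)
  have hTc : T.card ≤ (m ^ 2).divisors.card := by
    refine Pool.Agent.A54.HSBd.tree_good (pow_pos hm0 2) hv hcop T ?_ ?_ ?_ ?_
    · intro h hh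
      obtain ⟨u, hu, rfl⟩ := Finset.mem_image.1 hh
      exact (hfac u hu).1
    · intro h hh
      obtain ⟨u, hu, rfl⟩ := Finset.mem_image.1 hh
      exact (hfac u hu).2.1
    · intro h hh
      obtain ⟨u, hu, rfl⟩ := Finset.mem_image.1 hh
      exact (hfac u hu).2.2
    · intro h hh h' hh' γ hγ hγ'
      obtain ⟨u, hu, rfl⟩ := Finset.mem_image.1 hh
      obtain ⟨u', hu', rfl⟩ := Finset.mem_image.1 hh'
      have e1 : Quotient.mk eqv (rep u) = Quotient.mk eqv (rep u') :=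
        Quotient.sound (s := eqv) ⟨γ, hγ, hγ'⟩
      have e2 : Quotient.mk eqv (rep u) = Quotient.mk eqv u.2 := Quotient.out_eq _
      have e3 : Quotient.mk eqv (rep u') = Quotient.mk eqv u'.2 := Quotient.out_eq _
      show (Quotient.mk eqv u.2).out = (Quotient.mk eqv u'.2).out
      rw [← e2, ← e3, e1]
  have hTd : (T.card : ℝ) ≤ 2 ^ (4 * k) := by
    have h1 : (m ^ 2).divisors.card ≤ 2 ^ (4 * k) := by
      refine (card_divisors_le _ (pow_ne_zero _ hm0.ne')).trans ?_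
      refine Nat.pow_le_pow_right (by norm_num) ?_
      rw [pow_two, length_mul hm0.ne' hm0.ne']
      omega
    exact_mod_cast hTc.trans h1
  have h1 : W.card = ∑ N ∈ T, (W.filter (fun u => rep u = N)).card :=
    Finset.card_eq_sum_card_fiberwise (fun u hu => Finset.mem_coe.2
      (Finset.mem_image_of_mem rep (Finset.mem_coe.1 hu)))
  have h2 : ∀ N ∈ T, ((W.filter (fun u => rep u = N)).card : ℝ) ≤ B := by
    intro N hN
    obtain ⟨u₁, hu₁, hN1⟩ := Finset.mem_image.1 hN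
    choose γ hγ1 hγ2 using hrep
    have hNdet : N.det = (m : ℤ) ^ 2 := by
      rw [← hN1, (hfac u₁ hu₁).2.1]
      push_cast
      ring
    have h3 : (W.filter (fun u => rep u = N)).card =
        ((W.filter (fun u => rep u = N)).image (fun u => (u.1, γ u))).card := by
      rw [Finset.card_image_of_injOn]
      intro u hu w hw huw
      obtain ⟨hu4, hu5⟩ := Finset.mem_filter.1 (Finset.mem_coe.1 hu)
      obtain ⟨hv4, hv5⟩ := Finset.mem_filter.1 (Finset.mem_coe.1 hw)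
      have e1 := (Prod.mk.inj huw).1
      have e2 := (Prod.mk.inj huw).2
      refine Prod.ext e1 ?_
      rw [hγ2 u, hγ2 w, e2, hu5, hv5]
    rw [h3]
    refine hO i hi N m hNdet hm0 _ ?_
    intro t ht
    obtain ⟨u, hu, rfl⟩ := Finset.mem_image.1 ht
    obtain ⟨hu4, hu5⟩ := Finset.mem_filter.1 hu
    obtain ⟨hV, -, -, hR, -⟩ := hW u hu4
    refine ⟨hV, hγ1 u, ?_⟩
    show Ret ((2 * S.C) ^ k) S.w (S.g i) (S.g u.1) m (γ u * N)
    rw [← hu5, ← hγ2 u]
    exact hR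
  rw [h1]
  push_cast
  calc ∑ N ∈ T, ((W.filter (fun u => rep u = N)).card : ℝ) ≤ ∑ _N ∈ T, B := Finset.sum_le_sum h2
    _ = (T.card : ℝ) * B := by rw [Finset.sum_const, nsmul_eq_mul]
    _ ≤ 2 ^ (4 * k) * B := mul_le_mul_of_nonneg_right hTd (by linarith)

/-- pairs of levels with a common prime -/
theorem pairs_card (k : ℕ) (Q : Finset ℕ) (M Z : ℝ) (hM : 1 ≤ M) (hQ : ∀ p ∈ Q, p.Prime ∧ M ≤ (p : ℝ))
    (P : Finset (ℕ × ℕ)) (hP : ∀ t ∈ P, Lev Q (2 * k) t.1 ∧ Lev Q (2 * k) t.2 ∧ (t.1 : ℝ) ≤ Z ∧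
      (t.2 : ℝ) ≤ Z ∧ 1 < Nat.gcd t.1 t.2) : (P.card : ℝ) ≤ 2 * k * (Z ^ 2 / M) := by
  classical
  rcases P.eq_empty_or_nonempty with hemp | ⟨t₀, ht₀⟩
  · rw [hemp, Finset.card_empty]
    push_cast
    positivity
  have hZ0 : 0 ≤ Z := (Nat.cast_nonneg _).trans (hP t₀ ht₀).2.2.1
  have hM0 : 0 < M := by linarith
  set n := ⌊Z⌋₊ with hn
  have hnZ : (n : ℝ) ≤ Z := Nat.floor_le hZ0
  have hsub : P ⊆ ((Finset.Ioc 0 n).filter (fun m => Lev Q (2 * k) m)).biUnion (fun m =>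
      m.primeFactors.biUnion (fun p => ((Finset.Ioc 0 n).filter (fun m' => p ∣ m')).image
        (fun m' => (m, m')))) := by
    intro t ht
    obtain ⟨h1, h2, h3, h4, h5⟩ := hP t ht
    obtain ⟨p, hp, hpd⟩ := Nat.exists_prime_and_dvd (by omega : Nat.gcd t.1 t.2 ≠ 1)
    have hp1 : p ∣ t.1 := hpd.trans (Nat.gcd_dvd_left _ _)
    have hp2 : p ∣ t.2 := hpd.trans (Nat.gcd_dvd_right _ _)
    rw [Finset.mem_biUnion]
    refine ⟨t.1, ?_, ?_⟩
    · rw [Finset.mem_filter, Finset.mem_Ioc]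
      exact ⟨⟨Nat.pos_of_ne_zero h1.1, Nat.le_floor h3⟩, h1⟩
    · rw [Finset.mem_biUnion]
      refine ⟨p, Nat.mem_primeFactors.2 ⟨hp, hp1, h1.1⟩, ?_⟩
      rw [Finset.mem_image]
      refine ⟨t.2, ?_, rfl⟩
      rw [Finset.mem_filter, Finset.mem_Ioc]
      exact ⟨⟨Nat.pos_of_ne_zero h2.1, Nat.le_floor h4⟩, hp2⟩
  have hc := (Finset.card_le_card hsub).trans Finset.card_biUnion_le
  have hinner : ∀ m ∈ (Finset.Ioc 0 n).filter (fun m => Lev Q (2 * k) m),
      ((m.primeFactors.biUnion (fun p => ((Finset.Ioc 0 n).filter (fun m' => p ∣ m')).image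
        (fun m' => (m, m')))).card : ℝ) ≤ 2 * k * (Z / M) := by
    intro m hm
    obtain ⟨-, hm1, hm2, hm3⟩ := Finset.mem_filter.1 hm
    have h1 : ((m.primeFactors.biUnion (fun p => ((Finset.Ioc 0 n).filter (fun m' => p ∣ m')).image
        (fun m' => (m, m')))).card : ℝ) ≤ ∑ p ∈ m.primeFactors,
          ((((Finset.Ioc 0 n).filter (fun m' => p ∣ m')).image (fun m' => (m, m'))).card : ℝ) := by
      exact_mod_cast Finset.card_biUnion_le
    refine h1.trans ?_
    have h2 : ∀ p ∈ m.primeFactors,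
        ((((Finset.Ioc 0 n).filter (fun m' => p ∣ m')).image (fun m' => (m, m'))).card : ℝ) ≤ Z / M := by
      intro p hp
      have hpQ : p ∈ Q := hm3 p ((Nat.mem_primeFactorsList hm1).2
        ⟨Nat.prime_of_mem_primeFactors hp, Nat.dvd_of_mem_primeFactors hp⟩)
      have h3 : (((Finset.Ioc 0 n).filter (fun m' => p ∣ m')).image (fun m' => (m, m'))).card ≤ n / p := by
        refine Finset.card_image_le.trans ?_
        rw [Nat.Ioc_filter_dvd_card_eq_div]
      have h4 : ((n / p : ℕ) : ℝ) ≤ (n : ℝ) / p := Nat.cast_div_le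
      have hpM := (hQ p hpQ).2
      calc ((((Finset.Ioc 0 n).filter (fun m' => p ∣ m')).image (fun m' => (m, m'))).card : ℝ)
          ≤ ((n / p : ℕ) : ℝ) := by exact_mod_cast h3
        _ ≤ (n : ℝ) / p := h4
        _ ≤ Z / M := div_le_div₀ hZ0 hnZ hM0 hpM
    calc ∑ p ∈ m.primeFactors,
          ((((Finset.Ioc 0 n).filter (fun m' => p ∣ m')).image (fun m' => (m, m'))).card : ℝ)
        ≤ ∑ p ∈ m.primeFactors, Z / M := Finset.sum_le_sum h2
      _ = (m.primeFactors.card : ℝ) * (Z / M) := by rw [Finset.sum_const, nsmul_eq_mul]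
      _ ≤ 2 * k * (Z / M) := by
          refine mul_le_mul_of_nonneg_right ?_ (by positivity)
          have h5 : m.primeFactors.card ≤ 2 * k := by
            rw [← hm2]
            exact List.toFinset_card_le _
          exact_mod_cast h5
  have hc' : (P.card : ℝ) ≤ ∑ m ∈ (Finset.Ioc 0 n).filter (fun m => Lev Q (2 * k) m),
      ((m.primeFactors.biUnion (fun p => ((Finset.Ioc 0 n).filter (fun m' => p ∣ m')).image
        (fun m' => (m, m')))).card : ℝ) := by exact_mod_cast hc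
  calc (P.card : ℝ) ≤ _ := hc'
    _ ≤ ∑ m ∈ (Finset.Ioc 0 n).filter (fun m => Lev Q (2 * k) m), 2 * k * (Z / M) :=
        Finset.sum_le_sum hinner
    _ = (((Finset.Ioc 0 n).filter (fun m => Lev Q (2 * k) m)).card : ℝ) * (2 * k * (Z / M)) := by
        rw [Finset.sum_const, nsmul_eq_mul]
    _ ≤ Z * (2 * k * (Z / M)) := by
        refine mul_le_mul_of_nonneg_right ?_ (by positivity)
        have h6 : ((Finset.Ioc 0 n).filter (fun m => Lev Q (2 * k) m)).card ≤ n := by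
          refine (Finset.card_filter_le _ _).trans ?_
          simp
        exact (by exact_mod_cast h6 : (((Finset.Ioc 0 n).filter (fun m => Lev Q (2 * k) m)).card : ℝ) ≤
          (n : ℝ)).trans hnZ
    _ = 2 * k * (Z ^ 2 / M) := by ring

end C2M

open C2M

theorem tC2 : S_C2 := by
  classical
  intro k hk
  refine ⟨(2 ^ (4 * k)) ^ 2 * (2 * k), ?_, ?_⟩
  · have h1 : (1 : ℝ) ≤ 2 ^ (4 * k) := one_le_pow₀ (by norm_num)
    have h2 : (1 : ℝ) ≤ (2 ^ (4 * k)) ^ 2 := one_le_pow₀ h1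
    have h3 : (1 : ℝ) ≤ 2 * (k : ℝ) := by
      have : (1 : ℝ) ≤ (k : ℝ) := by exact_mod_cast hk
      linarith
    exact one_le_mul_of_one_le_of_one_le h2 h3
  intro S Q B M Z i v hi hB hM hQ hO hv A hA
  choose! lv lv' h1 h2 h3 h4 h5 using hA
  -- the pairs of levels
  set P := A.image (fun t => (lv t, lv' t)) with hPdef
  have hP : (P.card : ℝ) ≤ 2 * k * (Z ^ 2 / M) := by
    refine pairs_card k Q M Z hM (fun p hp => ⟨(hQ p hp).1, (hQ p hp).2.1⟩) P ?_
    intro t ht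
    obtain ⟨s, hs, rfl⟩ := Finset.mem_image.1 ht
    exact ⟨(h1 s hs).2.2.1, (h2 s hs).2.2.1, h3 s hs, h4 s hs, h5 s hs⟩
  have hfib : ∀ r ∈ P, ((A.filter (fun t => (lv t, lv' t) = r)).card : ℝ) ≤
      (2 ^ (4 * k) * B) * (2 ^ (4 * k) * B) := by
    intro r hr
    set F := A.filter (fun t => (lv t, lv' t) = r) with hF
    have hFm : ∀ t ∈ F, t ∈ A ∧ lv t = r.1 ∧ lv' t = r.2 := by
      intro t ht
      obtain ⟨e1, e2⟩ := Finset.mem_filter.1 ht
      exact ⟨e1, by rw [← e2], by rw [← e2]⟩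
    have hsub : F ⊆ (F.image Prod.fst) ×ˢ (F.image Prod.snd) := by
      intro t ht
      rw [Finset.mem_product]
      exact ⟨Finset.mem_image_of_mem _ ht, Finset.mem_image_of_mem _ ht⟩
    have c1 : ((F.image Prod.fst).card : ℝ) ≤ 2 ^ (4 * k) * B := by
      refine level_card S k Q B i v hi hB (fun p hp => ⟨(hQ p hp).1, (hQ p hp).2.2⟩) hO hv r.1 _ ?_
      intro u hu
      obtain ⟨t, ht, rfl⟩ := Finset.mem_image.1 hu
      obtain ⟨e1, e2, e3⟩ := hFm t ht
      rw [← e2]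
      exact h1 t e1
    have c2 : ((F.image Prod.snd).card : ℝ) ≤ 2 ^ (4 * k) * B := by
      refine level_card S k Q B i v hi hB (fun p hp => ⟨(hQ p hp).1, (hQ p hp).2.2⟩) hO hv r.2 _ ?_
      intro u hu
      obtain ⟨t, ht, rfl⟩ := Finset.mem_image.1 hu
      obtain ⟨e1, e2, e3⟩ := hFm t ht
      rw [← e3]
      exact h2 t e1
    have c3 := Finset.card_le_card hsub
    rw [Finset.card_product] at c3
    calc (F.card : ℝ) ≤ ((F.image Prod.fst).card : ℝ) * ((F.image Prod.snd).card : ℝ) := by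
          exact_mod_cast c3
      _ ≤ (2 ^ (4 * k) * B) * (2 ^ (4 * k) * B) :=
          mul_le_mul c1 c2 (Nat.cast_nonneg _) (by positivity)
  have hsum : (A.card : ℝ) = ∑ r ∈ P, ((A.filter (fun t => (lv t, lv' t) = r)).card : ℝ) := by
    have e := Finset.card_eq_sum_card_fiberwise (s := A) (t := P) (f := fun t => (lv t, lv' t))
      (fun t ht => Finset.mem_coe.2 (Finset.mem_image_of_mem _ (Finset.mem_coe.1 ht)))
    rw [e]
    push_cast
    rfl
  rw [hsum]
  calc ∑ r ∈ P, ((A.filter (fun t => (lv t, lv' t) = r)).card : ℝ)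
      ≤ ∑ _r ∈ P, (2 ^ (4 * k) * B) * (2 ^ (4 * k) * B) := Finset.sum_le_sum hfib
    _ = (P.card : ℝ) * ((2 ^ (4 * k) * B) * (2 ^ (4 * k) * B)) := by
        rw [Finset.sum_const, nsmul_eq_mul]
    _ ≤ (2 * k * (Z ^ 2 / M)) * ((2 ^ (4 * k) * B) * (2 ^ (4 * k) * B)) :=
        mul_le_mul_of_nonneg_right hP (by positivity)
    _ = (2 ^ (4 * k)) ^ 2 * (2 * k) * B ^ 2 * (Z ^ 2 / M) := by ring

end HSLow
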