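import Pool.Agent.Lib.HS.Bd.SpecLow

/-!
H* Low C3: primitive loops on a line (spec HS/Bd/SpecLow, S_C3; helper33).
-/

set_option autoImplicit false

namespace HSLow

open Matrix HSL

private lemma C3_prim0 : ¬ Prim (0 : MZ) := by
  intro h
  have h1 := h 2 (fun i j => by simp)
  exact absurd h1 (by decide)

private lemma C3_frdet (a : MR) (v : MZ) (ha : a.det = 1) :
    (fr a a v).det = ((v.det : ℤ) : ℝ) := by
  unfold fr
  rw [det_mul, det_mul, det_adjugate]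
  simp only [Fintype.card_fin, ha]
  have : (toR v).det = ((v.det : ℤ) : ℝ) := by
    simp [toR, det_fin_two]
  rw [this]
  simp

private lemma C3_frtr (a : MR) (v : MZ) (ha : a.det = 1) :
    fr a a v 0 0 + fr a a v 1 1 = ((v.trace : ℤ) : ℝ) := by
  have h1 : (fr a a v).trace = ((v.trace : ℤ) : ℝ) := by
    unfold fr
    rw [Matrix.trace_mul_comm, ← Matrix.mul_assoc, Matrix.mul_adjugate, ha, one_smul,
      Matrix.one_mul]
    simp [toR, trace_fin_two]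
  rw [trace_fin_two] at h1
  exact h1

/-- determinant of a nonzero traceless vector of a thin tube -/
private lemma C3_det (hFb : S_Fb) (R w τ : ℝ) (a : MR) (v : MZ) (ha : a.det = 1)
    (hR : ∀ i j, |a i j| ≤ R) (hw : 0 ≤ w) (hw1 : w ≤ 1) (hτ : 0 ≤ τ) (hsm : 4 * R ^ 2 * (w * τ) < 1)
    (hv : v.trace = 0) (hP : v ≠ 0) (hB : Bx w τ (fr a a v)) :
    v.det ≠ 0 ∧ |((v.det : ℤ) : ℝ)| ≤ 2 * τ ^ 2 := by
  obtain ⟨b1, b2, b3, b4⟩ := hB
  have htr : fr a a v 1 1 = - fr a a v 0 0 := by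
    have h := C3_frtr a v ha
    rw [hv] at h
    push_cast at h
    linarith
  have hdet := C3_frdet a v ha
  rw [det_fin_two, htr] at hdet
  have hwτ : 0 ≤ w * τ := mul_nonneg hw hτ
  have hle : w * τ ≤ τ := by nlinarith
  have hprod : |fr a a v 0 1 * fr a a v 1 0| ≤ (w * τ) ^ 2 := by
    rw [abs_mul, sq]
    exact mul_le_mul b3 b4 (abs_nonneg _) hwτ
  have hsq : (fr a a v 0 0) ^ 2 ≤ τ ^ 2 := by
    have := abs_le.1 b1
    nlinarith [this.1, this.2]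
  constructor
  · intro h0
    rw [h0] at hdet
    simp only [Int.cast_zero] at hdet
    have hp := abs_le.1 hprod
    have h00 : (fr a a v 0 0) ^ 2 ≤ (w * τ) ^ 2 := by nlinarith [hp.1, hp.2]
    have h00' : |fr a a v 0 0| ≤ w * τ := abs_le_of_sq_le_sq h00 hwτ
    refine hP (hFb.2.2.2.2.2.2.2 R (w * τ) a a v ha ha hR hR ?_ hsm)
    intro i j
    fin_cases i <;> fin_cases j
    · exact h00'
    · exact b3
    · exact b4
    · show |fr a a v 1 1| ≤ w * τ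
      rw [htr, abs_neg]; exact h00'
  · rw [← hdet]
    have hp := abs_le.1 hprod
    have h2 : (w * τ) ^ 2 ≤ τ ^ 2 := by
      apply pow_le_pow_left₀ hwτ hle
    rw [abs_le]
    constructor <;> nlinarith [hp.1, hp.2, sq_nonneg (fr a a v 0 0)]

/-- nonzero integers of bounded size -/
private lemma C3_count (X : ℝ) (hX : 0 ≤ X) (F : Finset ℤ) (hF : ∀ c ∈ F, c ≠ 0 ∧ |(c : ℝ)| ≤ X) :
    (F.card : ℝ) ≤ 2 * X := by
  have h1 : F ⊆ (Finset.Icc (-⌊X⌋) ⌊X⌋).erase 0 := by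
    intro c hc
    obtain ⟨h2, h3⟩ := hF c hc
    rw [Finset.mem_erase, Finset.mem_Icc]
    obtain ⟨h4, h5⟩ := abs_le.1 h3
    have h6 : c ≤ ⌊X⌋ := Int.le_floor.2 h5
    have h7 : -c ≤ ⌊X⌋ := Int.le_floor.2 (by push_cast; linarith)
    exact ⟨h2, by omega, h6⟩
  have h0 : 0 ≤ ⌊X⌋ := Int.floor_nonneg.2 hX
  have h8 : ((Finset.Icc (-⌊X⌋) ⌊X⌋).erase 0).card = (2 * ⌊X⌋).toNat := by
    rw [Finset.card_erase_of_mem (Finset.mem_Icc.2 ⟨by omega, h0⟩), Int.card_Icc]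
    omega
  have h9 : (F.card : ℤ) ≤ 2 * ⌊X⌋ := by
    have := Finset.card_le_card h1
    rw [h8] at this
    omega
  have h10 : (F.card : ℝ) ≤ 2 * (⌊X⌋ : ℝ) := by exact_mod_cast h9
  have h11 := Int.floor_le X
  linarith

private lemma C3_fib {α β : Type} [DecidableEq β] (F : Finset α) (f : α → β) (b : ℝ)
    (h : ∀ y ∈ F.image f, ((F.filter (fun x => f x = y)).card : ℝ) ≤ b) :
    (F.card : ℝ) ≤ ((F.image f).card : ℝ) * b := by
  have h1 : F.card = ∑ y ∈ F.image f, (F.filter (fun x => f x = y)).card :=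
    Finset.card_eq_sum_card_fiberwise (fun u hu => Finset.mem_coe.2
      (Finset.mem_image_of_mem f (Finset.mem_coe.1 hu)))
  rw [h1]
  push_cast
  calc ∑ y ∈ F.image f, ((F.filter (fun x => f x = y)).card : ℝ) ≤ ∑ _y ∈ F.image f, b :=
        Finset.sum_le_sum h
    _ = _ := by rw [Finset.sum_const, nsmul_eq_mul]

theorem tC3 (hFb : S_Fb) (hPar : S_Par) (hFrm : S_Frm) (hFbr : S_Fbr) : S_C3 := by
  classical
  intro k C R ε hk hC hR hε
  obtain ⟨CF, hCF, hF⟩ := hFbr (ε / 4) (by positivity)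
  obtain ⟨C', hC'def⟩ : ∃ C' : ℝ, C' = (2 * C) ^ k := ⟨_, rfl⟩
  have hC' : 1 ≤ C' := by
    rw [hC'def]
    exact one_le_pow₀ (by linarith)
  obtain ⟨D0, hD0⟩ : ∃ D0 : ℝ, D0 = 64 * C' ^ 4 := ⟨_, rfl⟩
  have hC'2 : 1 ≤ C' ^ 2 := one_le_pow₀ hC'
  have hC'4 : C' ^ 2 ≤ C' ^ 4 := pow_le_pow_right₀ hC' (by norm_num)
  have hD0' : 1 ≤ D0 := by rw [hD0]; linarith
  have hDpos : 0 < D0 ^ (ε / 4) := Real.rpow_pos_of_pos (by linarith) _
  have hR2 : 1 ≤ R ^ 2 := one_le_pow₀ hR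
  have hx1 : 1 ≤ R ^ 2 * C' ^ 2 := by nlinarith
  have hx2 : 0 ≤ 8 * C' ^ 2 * CF * D0 ^ (ε / 4) * 2 ^ (8 * k) := by positivity
  refine ⟨32 * (R ^ 2 * C' ^ 2) + 8 * C' ^ 2 * CF * D0 ^ (ε / 4) * 2 ^ (8 * k), by linarith, ?_⟩
  intro S B S0 Z hSC hSR hK hB hZ hS0 hsm hU hO i hi hGd H hH v hPv hvt A hA hAt
  have hw0 : 0 ≤ S.w := by unfold Sys.w; positivity
  have hw1 : S.w ≤ 1 := by
    unfold Sys.w
    rw [div_le_one (by positivity)]
    exact one_le_pow₀ hK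
  obtain ⟨hgd, hgR⟩ := hU i hi
  rw [hSR] at hgR
  have hZ2 : 1 ≤ Z ^ 2 := one_le_pow₀ hZ
  have hZ4 : Z ^ 2 ≤ Z ^ 4 := pow_le_pow_right₀ hZ (by norm_num)
  obtain ⟨T, hT⟩ : ∃ T : ℝ, T = 4 * C' ^ 2 * Z ^ 2 := ⟨_, rfl⟩
  have hT0 : 0 ≤ T := by rw [hT]; positivity
  have hsmall : 4 * R ^ 2 * (S.w * T) < 1 := by
    have h1 : 32 * (R ^ 2 * C' ^ 2) * (S.w * Z ^ 2) ≤ 1 := by
      refine le_trans ?_ hsm
      exact mul_le_mul_of_nonneg_right (by linarith) (by positivity)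
    have h2 : 4 * R ^ 2 * (S.w * T) = 16 * (R ^ 2 * C' ^ 2) * (S.w * Z ^ 2) := by rw [hT]; ring
    rw [h2]
    nlinarith
  -- the loops
  have key : ∀ t ∈ A, Bx S.w (2 * C' ^ 2 * Z ^ 2) (fr (S.g i) (S.g i) (lp t)) ∧
      ∃ n0 : ℕ, (n0 : ℝ) ≤ Z ^ 2 ∧ (lp t).det = (n0 : ℤ) ^ 2 := by
    intro t ht
    have hm := hA ht
    unfold prs at hm
    rw [Finset.mem_filter, Finset.mem_product] at hm
    obtain ⟨⟨hm1, hm2⟩, hm3⟩ := hm
    obtain ⟨hV1, -, m1, hr1, hl1, -⟩ := hH _ hm1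
    obtain ⟨hV2, -, m2, hr2, hl2, -⟩ := hH _ hm2
    rw [hSC, ← hC'def] at hr1 hr2
    rw [← hm3] at hr2
    have hm1p := hr1.2.1
    have hm2p := hr2.2.1
    have hd : (lp t).det = ((m1 * m2 : ℕ) : ℤ) ^ 2 := by
      unfold HSL.lp
      rw [det_mul, det_adjugate, hr1.1, hr2.1]
      push_cast
      simp
      ring
    have hn := hFrm C' S.w (S.g i) (S.g t.1.1) m1 m2 (m1 * m2) t.1.2 t.2.2 (lp t) 1 hgd
      (hU _ hV1).1 hw0 hw1 hC' hr1 hr2 one_ne_zero (Nat.mul_pos hm1p hm2p) hd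
      (by rw [one_smul]; rfl)
    have hnn : ((m1 * m2 : ℕ) : ℝ) ≤ Z ^ 2 := by
      push_cast
      rw [sq]
      exact mul_le_mul hl1 hl2 (Nat.cast_nonneg _) (by linarith)
    obtain ⟨q1, q2, q3, q4⟩ := hn
    have e1 : 2 * C' ^ 2 * ((m1 * m2 : ℕ) : ℝ) ≤ 2 * C' ^ 2 * Z ^ 2 :=
      mul_le_mul_of_nonneg_left hnn (by positivity)
    have e2 : 2 * C' ^ 2 * S.w * ((m1 * m2 : ℕ) : ℝ) ≤ S.w * (2 * C' ^ 2 * Z ^ 2) := by
      have := mul_le_mul_of_nonneg_left e1 hw0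
      linarith
    exact ⟨⟨q1.trans e1, q2.trans e1, q3.trans e2, q4.trans e2⟩, m1 * m2, hnn, hd⟩
  have keytf : ∀ t ∈ A, (tf (lp t)).trace = 0 ∧ Bx S.w T (fr (S.g i) (S.g i) (tf (lp t))) := by
    intro t ht
    have h := hFb.2.2.2.2.1 S.w (2 * C' ^ 2 * Z ^ 2) (S.g i) (lp t) hw0 hgd (key t ht).1
    refine ⟨h.1, ?_⟩
    have e : 2 * (2 * C' ^ 2 * Z ^ 2) = T := by rw [hT]; ring
    rw [← e]
    exact h.2
  -- multiples of `v`
  have hmul : ∀ y ∈ (A.image lp).image tf, ∃ c : ℤ, y = c • v ∧ c ≠ 0 ∧ |(c : ℝ)| ≤ T / S0 := by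
    intro y hy
    obtain ⟨s, hs, rfl⟩ := Finset.mem_image.1 hy
    obtain ⟨t, ht, rfl⟩ := Finset.mem_image.1 hs
    obtain ⟨a1, a2, a3⟩ := hAt t ht
    obtain ⟨b1, b2⟩ := keytf t ht
    have hbr : brk v (tf (lp t)) = 0 := by
      have : brk v (tf (lp t)) = - brk (tf (lp t)) v := by unfold brk; rw [neg_sub]
      rw [this, a3, neg_zero]
    obtain ⟨c, hc⟩ := hPar.1 v (tf (lp t)) hvt b1 hPv hbr
    have hc0 : c ≠ 0 := by
      intro h0
      rw [h0, zero_smul] at hc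
      exact a1 hc
    refine ⟨c, hc, hc0, ?_⟩
    by_contra hcon
    push Not at hcon
    have hcp : 0 < |(c : ℝ)| := abs_pos.2 (by exact_mod_cast hc0)
    have h1 : T / |(c : ℝ)| ≤ S0 := by
      rw [div_lt_iff₀ hS0] at hcon
      rw [div_le_iff₀ hcp]
      linarith
    have h2 : |(c : ℝ)| * (T / |(c : ℝ)|) = T := by field_simp
    rw [hc, ← h2] at b2
    have h3 := (hFb.2.2.2.1 S.w (T / |(c : ℝ)|) (S.g i) (S.g i) c v hc0).1 b2
    have h4 := hFb.2.2.1 S.w _ S0 _ hw0 h1 h3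
    have h5 := hGd v ⟨hvt, h4⟩
    rw [h5] at hPv
    exact C3_prim0 hPv
  have hW : (((A.image lp).image tf).card : ℝ) ≤ 2 * (T / S0) := by
    choose! c hc1 hc2 hc3 using hmul
    have hinj : Set.InjOn c ((A.image lp).image tf : Set MZ) := by
      intro y hy y' hy' he
      rw [hc1 y (Finset.mem_coe.1 hy), hc1 y' (Finset.mem_coe.1 hy'), he]
    rw [← Finset.card_image_of_injOn hinj]
    refine C3_count _ (by positivity) _ ?_
    intro z hz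
    obtain ⟨y, hy, rfl⟩ := Finset.mem_image.1 hz
    exact ⟨hc2 y hy, hc3 y hy⟩
  -- loops with given traceless part
  have hL : ((A.image lp).card : ℝ) ≤ (((A.image lp).image tf).card : ℝ) *
      (CF * (D0 * Z ^ 4) ^ (ε / 4)) := by
    refine C3_fib _ tf _ ?_
    intro y hy
    have hkn : ∀ s ∈ A.image lp, ∃ n0 : ℕ, (n0 : ℝ) ≤ Z ^ 2 ∧ s.det = (n0 : ℤ) ^ 2 := by
      intro s hs
      obtain ⟨t, ht, rfl⟩ := Finset.mem_image.1 hs
      exact (key t ht).2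
    choose! n0 hn1 hn2 using hkn
    have hinj : Function.Injective (fun s : MZ => ((s, n0 s) : MZ × ℕ)) := by
      intro s s' h
      exact (Prod.mk.inj h).1
    rw [← Finset.card_image_of_injective _ hinj]
    have hyd : y.det ≠ 0 ∧ |((y.det : ℤ) : ℝ)| ≤ 2 * T ^ 2 := by
      obtain ⟨s, hs, rfl⟩ := Finset.mem_image.1 hy
      obtain ⟨t, ht, rfl⟩ := Finset.mem_image.1 hs
      obtain ⟨b1, b2⟩ := keytf t ht
      exact C3_det hFb R S.w T (S.g i) _ hgd hgR hw0 hw1 hT0 hsmall b1 (hAt t ht).1 b2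
    have hbig : 64 * C' ^ 2 * Z ^ 2 ≤ D0 * Z ^ 4 := by
      rw [hD0]
      exact mul_le_mul (by linarith) hZ4 (by positivity) (by positivity)
    have hcz : 1 ≤ C' ^ 2 * Z ^ 2 := one_le_mul_of_one_le_of_one_le hC'2 hZ2
    refine hF (D0 * Z ^ 4) (by nlinarith) y hyd.1 ?_ _ ?_
    · refine hyd.2.trans ?_
      rw [hT, hD0]
      have : 2 * (4 * C' ^ 2 * Z ^ 2) ^ 2 = 32 * (C' ^ 4 * Z ^ 4) := by ring
      rw [this]
      have : 0 ≤ C' ^ 4 * Z ^ 4 := by positivity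
      nlinarith
    · intro r hr
      obtain ⟨s, hs, rfl⟩ := Finset.mem_image.1 hr
      obtain ⟨hs1, hs2⟩ := Finset.mem_filter.1 hs
      refine ⟨hs2, hn2 s hs1, ?_, ?_⟩
      · obtain ⟨t, ht, rfl⟩ := Finset.mem_image.1 hs1
        obtain ⟨q1, q2, -, -⟩ := (key t ht).1
        show |(((lp t).trace : ℤ) : ℝ)| ≤ D0 * Z ^ 4
        rw [← C3_frtr (S.g i) (lp t) hgd]
        refine (abs_add_le _ _).trans ?_
        nlinarith
      · show 2 * ((n0 s : ℕ) : ℝ) ≤ D0 * Z ^ 4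
        have := hn1 s hs1
        nlinarith
  -- pairs with given loop
  have hAc : (A.card : ℝ) ≤ ((A.image lp).card : ℝ) * (B * 2 ^ (8 * k)) := by
    refine C3_fib _ lp _ ?_
    intro s hs
    have h1 := mult S k Z B hB (by rw [hSC]; exact hO) i hi H hH s (A.filter (fun t => lp t = s))
      ((Finset.filter_subset _ _).trans hA) (fun t ht => (Finset.mem_filter.1 ht).2)
    obtain ⟨t, ht, rfl⟩ := Finset.mem_image.1 hs
    rw [(hAt t ht).2.1] at h1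
    simpa using h1
  have hpow : (D0 * Z ^ 4) ^ (ε / 4) = D0 ^ (ε / 4) * Z ^ ε := by
    rw [Real.mul_rpow (by linarith) (by positivity), ← Real.rpow_natCast Z 4,
      ← Real.rpow_mul (by linarith)]
    congr 2
    push_cast
    ring
  have hZε : 0 < Z ^ ε := Real.rpow_pos_of_pos (by linarith) _
  rw [hpow] at hL
  have hfin : (A.card : ℝ) ≤ 2 * (T / S0) * (CF * (D0 ^ (ε / 4) * Z ^ ε)) * (B * 2 ^ (8 * k)) := by
    refine hAc.trans (mul_le_mul_of_nonneg_right ?_ (by positivity))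
    exact hL.trans (mul_le_mul_of_nonneg_right hW (by positivity))
  refine hfin.trans ?_
  have e1 : 2 * (T / S0) * (CF * (D0 ^ (ε / 4) * Z ^ ε)) * (B * 2 ^ (8 * k)) =
      8 * C' ^ 2 * CF * D0 ^ (ε / 4) * 2 ^ (8 * k) * (B * Z ^ ε * (Z ^ 2 / S0)) := by
    rw [hT]
    field_simp
    ring
  have e2 : (32 * (R ^ 2 * C' ^ 2) + 8 * C' ^ 2 * CF * D0 ^ (ε / 4) * 2 ^ (8 * k)) * B * Z ^ ε *
      (Z ^ 2 / S0) = (32 * (R ^ 2 * C' ^ 2) + 8 * C' ^ 2 * CF * D0 ^ (ε / 4) * 2 ^ (8 * k)) *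
      (B * Z ^ ε * (Z ^ 2 / S0)) := by ring
  rw [e1, e2]
  refine mul_le_mul_of_nonneg_right (by linarith) ?_
  have : 0 ≤ Z ^ 2 / S0 := by positivity
  positivity

end HSLow
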