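import Pool.Agent.Lib.HS.Bd.SpecLow
import Pool.Agent.Lib.HS.L.Spl

/-!
H* Low Cls: choice of the sub-pool (spec HS/Bd/SpecLow, S_Cls; helper28).
-/

set_option autoImplicit false

namespace HSLow

open Matrix HSL

private lemma Cls_prim0 : ¬ Prim (0 : MZ) := by
  intro h
  have h1 := h 2 (fun i j => by simp)
  exact absurd h1 (by decide)

private lemma Cls_frdet (a : MR) (v : MZ) (ha : a.det = 1) :
    (fr a a v).det = ((v.det : ℤ) : ℝ) := by
  unfold fr
  rw [det_mul, det_mul, det_adjugate]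
  simp only [Fintype.card_fin, ha]
  have : (toR v).det = ((v.det : ℤ) : ℝ) := by
    simp [toR, det_fin_two]
  rw [this]
  simp

private lemma Cls_frtr (a : MR) (v : MZ) (ha : a.det = 1) (hv : v.trace = 0) :
    fr a a v 1 1 = - fr a a v 0 0 := by
  have h1 : (fr a a v).trace = 0 := by
    unfold fr
    rw [Matrix.trace_mul_comm, ← Matrix.mul_assoc, Matrix.mul_adjugate, ha, one_smul,
      Matrix.one_mul]
    have : (toR v).trace = ((v.trace : ℤ) : ℝ) := by
      simp [toR, trace_fin_two]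
    rw [this, hv]; simp
  rw [trace_fin_two] at h1
  linarith

/-- determinant of a primitive traceless vector of a thin tube -/
private lemma Cls_det (hFb : S_Fb) (R w τ : ℝ) (a : MR) (v : MZ) (ha : a.det = 1)
    (hR : ∀ i j, |a i j| ≤ R) (hw : 0 ≤ w) (hw1 : w ≤ 1) (hτ : 0 ≤ τ) (hsm : 4 * R ^ 2 * (w * τ) < 1)
    (hv : v.trace = 0) (hP : Prim v) (hB : Bx w τ (fr a a v)) :
    v.det ≠ 0 ∧ |((v.det : ℤ) : ℝ)| ≤ 2 * τ ^ 2 := by
  obtain ⟨b1, b2, b3, b4⟩ := hB
  have htr := Cls_frtr a v ha hv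
  have hdet := Cls_frdet a v ha
  rw [det_fin_two, htr] at hdet
  have hwτ : 0 ≤ w * τ := mul_nonneg hw hτ
  have hle : w * τ ≤ τ := by nlinarith
  have hprod : |fr a a v 0 1 * fr a a v 1 0| ≤ (w * τ) ^ 2 := by
    rw [abs_mul, sq]
    exact mul_le_mul b3 b4 (abs_nonneg _) hwτ
  have hsq : (fr a a v 0 0) ^ 2 ≤ τ ^ 2 := by
    have := abs_le.1 b1
    nlinarith [this.1, this.2]
  constructor
  · intro h0
    rw [h0] at hdet
    simp only [Int.cast_zero] at hdet
    have hp := abs_le.1 hprod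
    have h00 : (fr a a v 0 0) ^ 2 ≤ (w * τ) ^ 2 := by nlinarith [hp.1, hp.2]
    have h00' : |fr a a v 0 0| ≤ w * τ := abs_le_of_sq_le_sq h00 hwτ
    have hz : v = 0 := by
      refine hFb.2.2.2.2.2.2.2 R (w * τ) a a v ha ha hR hR ?_ hsm
      intro i j
      fin_cases i <;> fin_cases j
      · exact h00'
      · exact b3
      · exact b4
      · show |fr a a v 1 1| ≤ w * τ
        rw [htr, abs_neg]; exact h00'
    exact Cls_prim0 (hz ▸ hP)
  · rw [← hdet]
    have hp := abs_le.1 hprod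
    have h2 : (w * τ) ^ 2 ≤ τ ^ 2 := by
      apply pow_le_pow_left₀ hwτ hle
    rw [abs_le]
    constructor <;> nlinarith [hp.1, hp.2, sq_nonneg (fr a a v 0 0)]

/-- the number of the primes -/
private lemma Cls_card (pool : Finset ℕ) (M B : ℝ) (n : ℕ) (N : ℤ) (hN : N ≠ 0) (hM : 1 < M)
    (hp : ∀ p ∈ pool, p.Prime ∧ M ≤ (p : ℝ)) (hB : |(N : ℝ)| ≤ B) (hBM : B < M ^ (n + 1)) :
    (pool.filter (fun p : ℕ => (p : ℤ) ∣ N)).card ≤ n := by
  by_contra hcon
  push Not at hcon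
  set F := pool.filter (fun p : ℕ => (p : ℤ) ∣ N) with hF
  have h1 : (∏ p ∈ F, p) ∣ N.natAbs := by
    apply Finset.prod_primes_dvd
    · intro p hpF
      exact (hp p (Finset.mem_filter.1 hpF).1).1.prime
    · intro p hpF
      exact Int.natCast_dvd.1 (Finset.mem_filter.1 hpF).2
  have h2 : (∏ p ∈ F, p) ≤ N.natAbs :=
    Nat.le_of_dvd (Int.natAbs_pos.2 hN) h1
  have h3 : M ^ F.card ≤ ((∏ p ∈ F, p : ℕ) : ℝ) := by
    rw [Nat.cast_prod, ← Finset.prod_const]
    apply Finset.prod_le_prod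
    · intro p _; linarith
    · intro p hpF
      exact (hp p (Finset.mem_filter.1 hpF).1).2
  have h4 : ((∏ p ∈ F, p : ℕ) : ℝ) ≤ (N.natAbs : ℝ) := by exact_mod_cast h2
  have h5 : (N.natAbs : ℝ) = |(N : ℝ)| := by
    rw [Nat.cast_natAbs, Int.cast_abs]
  have h6 : M ^ (n + 1) ≤ M ^ F.card := pow_le_pow_right₀ hM.le hcon
  linarith

/-- double counting -/
private lemma Cls_dc {ι : Type} (W : Finset ι) (m : ℕ) (hm : 0 < m)
    (bad : ι → ℕ → Prop) (hb : ∀ i ∈ W, ∀ F : Finset ℕ, (∀ j ∈ F, j < 2 * m ∧ bad i j) → F.card ≤ m) :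
    ∃ j < 2 * m, ∃ W' : Finset ι, W' ⊆ W ∧ W.card ≤ 2 * W'.card ∧ ∀ i ∈ W', ¬ bad i j := by
  classical
  by_contra hcon
  push Not at hcon
  have h1 : ∀ j ∈ Finset.range (2 * m), W.card + 1 ≤ 2 * (W.filter (fun i => bad i j)).card := by
    intro j hj
    by_contra h2
    push Not at h2
    have h3 := Finset.card_filter_add_card_filter_not (s := W) (fun i => bad i j)
    obtain ⟨i, hi, hi'⟩ := hcon j (Finset.mem_range.1 hj) (W.filter (fun i => ¬ bad i j))
      (Finset.filter_subset _ _) (by omega)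
    exact (Finset.mem_filter.1 hi).2 hi'
  have h2 : ∑ j ∈ Finset.range (2 * m), (W.card + 1) ≤
      ∑ j ∈ Finset.range (2 * m), 2 * (W.filter (fun i => bad i j)).card :=
    Finset.sum_le_sum h1
  have h3 : ∑ j ∈ Finset.range (2 * m), (W.filter (fun i => bad i j)).card =
      ∑ i ∈ W, ((Finset.range (2 * m)).filter (fun j => bad i j)).card := by
    simp only [Finset.card_filter]
    exact Finset.sum_comm
  have h4 : ∑ i ∈ W, ((Finset.range (2 * m)).filter (fun j => bad i j)).card ≤ ∑ i ∈ W, m := by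
    apply Finset.sum_le_sum
    intro i hi
    apply hb i hi
    intro j hj
    have := Finset.mem_filter.1 hj
    exact ⟨Finset.mem_range.1 this.1, this.2⟩
  rw [← Finset.mul_sum, h3] at h2
  simp only [Finset.sum_const, Finset.card_range, smul_eq_mul] at h2 h4
  nlinarith

theorem tCls (hFb : S_Fb) (hVX : S_VX) : S_Cls := by
  intro k C R hk hC hR
  set c0 : ℝ := 4 * ((2 * C) ^ k) ^ 2 with hc0
  have h2C : (1 : ℝ) ≤ (2 * C) ^ k := one_le_pow₀ (by linarith)
  have hc0' : 4 ≤ c0 := by rw [hc0]; nlinarith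
  refine ⟨8 * R ^ 2 * c0 + 4 * c0 ^ 2 * 2 ^ (8 * k) + 1, ?_, ?_⟩
  · have : 0 ≤ 8 * R ^ 2 * c0 + 4 * c0 ^ 2 * 2 ^ (8 * k) := by positivity
    linarith
  intro S M pool vx hSC hSR hK hM hsm hU hMn hpool hbig W hW
  set Z : ℝ := (2 * M) ^ (2 * k) with hZ
  have hpos1 : 0 ≤ 8 * R ^ 2 * c0 := by positivity
  have hpos2 : 0 ≤ 4 * c0 ^ 2 * 2 ^ (8 * k) := by positivity
  have hM1 : 1 ≤ M := by linarith
  have h2k : (1 : ℝ) ≤ 2 ^ (8 * k) := one_le_pow₀ (by norm_num)
  have hM2 : 1 < M := by nlinarith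
  have hw : 0 ≤ S.w := by unfold Sys.w; positivity
  have hw1 : S.w ≤ 1 := by
    unfold Sys.w
    rw [div_le_one (by positivity)]
    nlinarith
  have hτ : tau C k Z = c0 * Z ^ 2 := by rw [tau, hc0]
  have hZ0 : 0 ≤ Z := by positivity
  have hwZ : 0 ≤ S.w * Z ^ 2 := by positivity
  have hsmall : 4 * R ^ 2 * (S.w * tau C k Z) < 1 := by
    rw [hτ]
    have e1 : 8 * R ^ 2 * c0 * (S.w * Z ^ 2) ≤ 1 := by
      refine le_trans ?_ hsm
      apply mul_le_mul_of_nonneg_right _ hwZ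
      linarith
    have e2 : 4 * R ^ 2 * (S.w * (c0 * Z ^ 2)) * 2 = 8 * R ^ 2 * c0 * (S.w * Z ^ 2) := by ring
    linarith
  have hτ0 : 0 ≤ tau C k Z := by rw [hτ]; positivity
  obtain ⟨Q, hQ1, hQ2, hQ3⟩ := tSpl pool (24 * k) (by omega) hbig
  -- a bad class
  obtain ⟨j, hj, W', hW', hcard, hgood⟩ := Cls_dc W (12 * k) (by omega)
    (fun i j => Tub S i (tau C k Z) (vx i) ∧ ∃ p ∈ Q j, (p : ℤ) ∣ 2 * (vx i).det) (by
      intro i hi F hF
      rcases F.eq_empty_or_nonempty with hFe | ⟨j0, hj0⟩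
      · rw [hFe]; simp
      have hT := (hF j0 hj0).2.1
      have hiV := hW hi
      have hUi := hU i hiV
      have hMi := hMn i hiV
      obtain ⟨hd1, hd2⟩ := Cls_det hFb R S.w (tau C k Z) (S.g i) (vx i) hUi.1
        (fun a b => hSR ▸ hUi.2 a b) hw hw1 hτ0 hsmall hMi.1 hMi.2.1 hT.2
      have hcd := Cls_card pool M (4 * (tau C k Z) ^ 2) (8 * k) (2 * (vx i).det)
        (mul_ne_zero two_ne_zero hd1) hM2 (fun p hp => ⟨(hpool p hp).1, (hpool p hp).2.1⟩) (by
          rw [Int.cast_mul, abs_mul, show |((2 : ℤ) : ℝ)| = 2 by norm_num]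
          linarith) (by
          have e1 : 4 * (tau C k Z) ^ 2 = 4 * c0 ^ 2 * 2 ^ (8 * k) * M ^ (8 * k) := by
            rw [hτ, hZ]
            rw [show (8 : ℕ) * k = (2 * k) * 4 by ring, ← pow_mul, mul_pow, mul_pow]
            ring
          rw [e1, pow_succ M (8 * k), mul_comm (M ^ (8 * k)) M]
          apply mul_lt_mul_of_pos_right _ (by positivity)
          linarith)
      -- injection of the classes to the primes
      have hch : ∀ j ∈ F, ∃ p ∈ Q j, (p : ℤ) ∣ 2 * (vx i).det := fun j hj => (hF j hj).2.2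
      choose! f hf using hch
      have hinj : Set.InjOn f (F : Set ℕ) := by
        intro a ha b hb hab
        by_contra hne
        have h1 := (hf a ha).1
        have h2 := (hf b hb).1
        rw [← hab] at h2
        exact Finset.disjoint_left.1 (hQ3 a b hne) h1 h2
      have hle : F.card ≤ (pool.filter (fun p : ℕ => (p : ℤ) ∣ 2 * (vx i).det)).card := by
        apply Finset.card_le_card_of_injOn f _ hinj
        intro a ha
        have := hf a ha
        exact Finset.mem_coe.2 (Finset.mem_filter.2 ⟨hQ1 a this.1, this.2⟩)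
      omega)
  refine ⟨Q j, W', hQ1 j, ?_, hW', hcard, ?_⟩
  · have := hQ2 j (by omega)
    calc pool.card ≤ 4 * (24 * k) * (Q j).card := this
      _ = 96 * k * (Q j).card := by ring
  · intro i hi hT p hp hdiv
    exact hgood i hi ⟨hT, p, hp, hdiv⟩

end HSLow
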