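import Pool.Agent.Lib.HS.Bd.SpecLowC
import Pool.Agent.Lib.MP_a54f13_nt.Hp.Tub

/-!
# PROJECT H*, low bands: cells near a cusp (module Cz)
-/

set_option autoImplicit false

namespace Pool.Agent.A54.HS

open MeasureTheory Filter Topology Set
open scoped ContDiff ComplexConjugate UpperHalfPlane MatrixGroups ENNReal
open Pool.Agent.A54.Dyn (G fl base ze io mk4 dom)
open Pool.Agent.A54.Av (Mat NonSc)
open Pool.Agent.A54.Hp Pool.Agent.A54.Hp.Hk Pool.Agent.A54.Hp.A2M

namespace CzL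

/-- an integral nilpotent matrix is `t q (J q)^T` -/
lemma par {n : HSL.MZ} (hn : n ≠ 0) (ht : n.trace = 0) (hd : n.det = 0) :
    ∃ (q : Fin 2 → ℤ) (t : ℤ), t ≠ 0 ∧ q ≠ 0 ∧ n 0 0 = -(t * (q 0 * q 1)) ∧ n 0 1 = t * q 0 ^ 2 ∧
      n 1 0 = -(t * q 1 ^ 2) ∧ n 1 1 = t * (q 0 * q 1) := by
  rw [Matrix.trace_fin_two] at ht
  rw [Matrix.det_fin_two] at hd
  have h11 : n 1 1 = -n 0 0 := by linarith
  by_cases h0 : n 0 0 = 0 ∧ n 1 0 = 0
  · refine ⟨![1, 0], n 0 1, ?_, ?_, ?_, ?_, ?_, ?_⟩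
    · intro hb
      apply hn
      ext i j
      fin_cases i <;> fin_cases j
      · exact h0.1
      · exact hb
      · exact h0.2
      · show n 1 1 = 0
        rw [h11, h0.1]
        rfl
    · intro h
      have := congrFun h 0
      exact one_ne_zero this
    · rw [h0.1]
      simp
    · simp
    · rw [h0.2]
      simp
    · rw [h11, h0.1]
      simp
  · have hg : 0 < Int.gcd (n 0 0) (n 1 0) := by
      rw [Nat.pos_iff_ne_zero]
      intro h
      rw [Int.gcd_eq_zero_iff] at h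
      exact h0 h
    obtain ⟨a, c, hco, ha, hc⟩ := Int.exists_gcd_one hg
    set g : ℤ := (Int.gcd (n 0 0) (n 1 0) : ℤ) with hgd
    have hg0 : g ≠ 0 := by
      rw [hgd]
      exact_mod_cast hg.ne'
    have e1 : g * a ^ 2 = -(n 0 1 * c) := by
      have h2 : g * (g * a ^ 2 + n 0 1 * c) = 0 := by
        have : n 0 0 * n 1 1 - n 0 1 * n 1 0 = -(g * (g * a ^ 2 + n 0 1 * c)) := by
          rw [h11, hc]
          have : n 0 0 * -n 0 0 = -((a * g) * (a * g)) := by
            rw [← ha]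
            ring
          rw [this]
          ring
        rw [hd] at this
        linarith
      rcases mul_eq_zero.mp h2 with h | h
      · exact absurd h hg0
      · linarith
    have hcop : IsCoprime c (a ^ 2) := by
      have h3 : IsCoprime a c := Int.isCoprime_iff_gcd_eq_one.mpr hco
      exact h3.symm.pow_right
    have hdv : c ∣ g := by
      have h4 : c ∣ g * a ^ 2 := by
        rw [e1]
        exact ⟨-n 0 1, by ring⟩
      exact hcop.dvd_of_dvd_mul_right h4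
    obtain ⟨s, hs⟩ := hdv
    have hc0 : c ≠ 0 := by
      intro h
      rw [h, zero_mul] at hs
      exact hg0 hs
    have e2 : n 0 1 = -(s * a ^ 2) := by
      have h5 : c * (n 0 1 + s * a ^ 2) = 0 := by
        have : c * s * a ^ 2 = -(n 0 1 * c) := by rw [← hs]; exact e1
        linarith
      rcases mul_eq_zero.mp h5 with h | h
      · exact absurd h hc0
      · linarith
    refine ⟨![a, c], -s, ?_, ?_, ?_, ?_, ?_, ?_⟩
    · intro h
      have h6 : s = 0 := by linarith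
      rw [h6, mul_zero] at hs
      exact hg0 hs
    · intro h
      have := congrFun h 1
      exact hc0 this
    · show n 0 0 = -(-s * (a * c))
      rw [ha, hs]
      ring
    · show n 0 1 = -s * a ^ 2
      rw [e2]
      ring
    · show n 1 0 = -(-s * c ^ 2)
      rw [hc, hs]
      ring
    · show n 1 1 = -s * (a * c)
      rw [h11, ha, hs]
      ring

/-- the arithmetic: one small coordinate `a`, one large coordinate `b` -/
lemma core {C₀ R w P Q a b d e : ℝ} (hC : 1 ≤ C₀) (hR : 1 ≤ R) (hw : 0 < w) (hw1 : w ≤ 1) (hP : 0 < P) (hQ : 0 < Q)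
    (hPQ : P ≤ Q) (hwQ : w * Q ≤ P) (ha : |a| ≤ 2 * R * P) (hb : |b| ≤ Q) (hd : |d| ≤ C₀) (he : |e| ≤ C₀ * w) :
    |d * a - e * b| ≤ C₀ * (1 + 2 * R) * P ∧ |d * b - e * a| ≤ C₀ * (1 + 2 * R) * Q := by
  have hC0 : 0 < C₀ := by linarith
  constructor
  · calc |d * a - e * b| ≤ |d * a| + |e * b| := abs_sub _ _
      _ ≤ C₀ * (2 * R * P) + (C₀ * w) * Q := by
          rw [abs_mul, abs_mul]
          exact add_le_add (mul_le_mul hd ha (abs_nonneg _) hC0.le)
            (mul_le_mul he hb (abs_nonneg _) (by positivity))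
      _ = C₀ * (2 * R * P) + C₀ * (w * Q) := by ring
      _ ≤ C₀ * (2 * R * P) + C₀ * P := by
          have : C₀ * (w * Q) ≤ C₀ * P := mul_le_mul_of_nonneg_left hwQ hC0.le
          linarith
      _ = C₀ * (1 + 2 * R) * P := by ring
  · calc |d * b - e * a| ≤ |d * b| + |e * a| := abs_sub _ _
      _ ≤ C₀ * Q + (C₀ * w) * (2 * R * P) := by
          rw [abs_mul, abs_mul]
          exact add_le_add (mul_le_mul hd hb (abs_nonneg _) hC0.le)
            (mul_le_mul he ha (abs_nonneg _) (by positivity))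
      _ ≤ C₀ * Q + C₀ * (2 * R * Q) := by
          have h1 : w * P ≤ Q := by
            calc w * P ≤ 1 * P := mul_le_mul_of_nonneg_right hw1 hP.le
              _ ≤ Q := by linarith
          have h2 : C₀ * (2 * R) * (w * P) ≤ C₀ * (2 * R) * Q := mul_le_mul_of_nonneg_left h1 (by positivity)
          nlinarith [h2]
      _ = C₀ * (1 + 2 * R) * Q := by ring

/-- from the large coordinate to the small one -/
lemma small {R P a b : ℝ} (hR : 1 ≤ R) (h1 : 1 ≤ R * (|a| + |b|)) (hab : |a * b| ≤ P) :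
    |a| ≤ 2 * R * P ∨ |b| ≤ 2 * R * P := by
  rw [abs_mul] at hab
  have h0a := abs_nonneg a
  have h0b := abs_nonneg b
  rcases le_total |a| |b| with h | h
  · left
    have h2 : 1 ≤ 2 * R * |b| := by nlinarith
    calc |a| = |a| * 1 := (mul_one _).symm
      _ ≤ |a| * (2 * R * |b|) := mul_le_mul_of_nonneg_left h2 h0a
      _ = 2 * R * (|a| * |b|) := by ring
      _ ≤ 2 * R * P := mul_le_mul_of_nonneg_left hab (by linarith)
  · right
    have h2 : 1 ≤ 2 * R * |a| := by nlinarith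
    calc |b| = |b| * 1 := (mul_one _).symm
      _ ≤ |b| * (2 * R * |a|) := mul_le_mul_of_nonneg_left h2 h0b
      _ = 2 * R * (|a| * |b|) := by ring
      _ ≤ 2 * R * P := mul_le_mul_of_nonneg_left hab (by linarith)

/-- a factor which is a nonzero integer can be dropped -/
lemma drop {t : ℤ} (ht : t ≠ 0) {y : ℝ} : |y| ≤ |(t : ℝ) * y| := by
  have h1 : (1 : ℝ) ≤ |(t : ℝ)| := by
    rw [← Int.cast_abs]
    exact_mod_cast Int.one_le_abs ht
  rw [abs_mul]
  exact le_mul_of_one_le_left (abs_nonneg _) h1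

end CzL

open CzL

theorem stmtCz : StmtCz := by
  intro R hR
  obtain ⟨C₀, hC₀, htub⟩ := stmtTub R hR
  refine ⟨C₀ * (1 + 2 * R), ?_, ?_⟩
  · have h1 : (1 : ℝ) ≤ 1 + 2 * R := by linarith
    exact one_le_mul_of_one_le_of_one_le hC₀ h1
  intro w hw hw1 κ hκ hκ1 C₁ V z hne n hn0 htr hdet0 f01 f10 f00 x' hx'
  have hrp : rp R w z = hne.some := by
    unfold rp
    rw [dif_pos hne]
  have f01' : |HSL.fr (rp R w z).1 (rp R w z).1 n 0 1| ≤ KK w ^ κ := f01
  have f10' : |HSL.fr (rp R w z).1 (rp R w z).1 n 1 0| ≤ KK w ^ κ := f10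
  have f00' : |HSL.fr (rp R w z).1 (rp R w z).1 n 0 0| < KK w ^ (-2 + κ) := f00
  have hxc : rp R w z ∈ cel R w z := by rw [hrp]; exact hne.some_mem
  generalize rp R w z = x at f01' f10' f00' hxc
  clear f01 f10 f00 hrp
  have hxO : x ∈ Om R := hxc.1
  have hK1 : 1 ≤ KK w := Real.one_le_rpow_of_pos_of_le_one_of_nonpos hw hw1 (by norm_num)
  have hK0 : 0 < KK w := by linarith
  -- the tube
  have hsub := cel_sub_Tb hw hxc
  obtain ⟨e00, e11, e01, e10⟩ := htub (xi x) w hw x (hsub hxc) x' (hsub hx')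
  -- the vector
  obtain ⟨q, t, ht0, hq0, n00, n01, n10, n11⟩ := par hn0 htr hdet0
  have hdet : x 0 0 * x 1 1 - x 0 1 * x 1 0 = 1 := by
    have h := x.2
    rw [Matrix.det_fin_two] at h
    exact h
  obtain ⟨a, ha⟩ : ∃ a : ℝ, a = x 1 1 * q 0 - x 0 1 * q 1 := ⟨_, rfl⟩
  obtain ⟨b, hb⟩ : ∃ b : ℝ, b = -(x 1 0) * q 0 + x 0 0 * q 1 := ⟨_, rfl⟩
  have g01 : HSL.fr x.1 x.1 n 0 1 = (t : ℝ) * a ^ 2 := by
    simp only [HSL.fr, HSL.toR, Matrix.mul_apply, Fin.sum_univ_two, Matrix.adjugate_fin_two, Matrix.of_apply,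
      Matrix.cons_val_zero, Matrix.cons_val_one, Matrix.map_apply, n00, n01, n10, n11]
    rw [ha]
    push_cast
    show _ = (t : ℝ) * (x.1 1 1 * (q 0 : ℝ) - x.1 0 1 * (q 1 : ℝ)) ^ 2
    ring
  have g10 : HSL.fr x.1 x.1 n 1 0 = -((t : ℝ) * b ^ 2) := by
    simp only [HSL.fr, HSL.toR, Matrix.mul_apply, Fin.sum_univ_two, Matrix.adjugate_fin_two, Matrix.of_apply,
      Matrix.cons_val_zero, Matrix.cons_val_one, Matrix.map_apply, n00, n01, n10, n11]
    rw [hb]
    push_cast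
    show _ = -((t : ℝ) * (-(x.1 1 0) * (q 0 : ℝ) + x.1 0 0 * (q 1 : ℝ)) ^ 2)
    ring
  have g00 : HSL.fr x.1 x.1 n 0 0 = -((t : ℝ) * (a * b)) := by
    simp only [HSL.fr, HSL.toR, Matrix.mul_apply, Fin.sum_univ_two, Matrix.adjugate_fin_two, Matrix.of_apply,
      Matrix.cons_val_zero, Matrix.cons_val_one, Matrix.map_apply, n00, n01, n10, n11]
    rw [ha, hb]
    push_cast
    show _ = -((t : ℝ) * ((x.1 1 1 * (q 0 : ℝ) - x.1 0 1 * (q 1 : ℝ)) *
      (-(x.1 1 0) * (q 0 : ℝ) + x.1 0 0 * (q 1 : ℝ))))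
    ring
  rw [g01] at f01'
  rw [g10, abs_neg] at f10'
  rw [g00, abs_neg] at f00'
  have ha2 : |a ^ 2| ≤ KK w ^ κ := (drop ht0).trans f01'
  have hb2 : |b ^ 2| ≤ KK w ^ κ := (drop ht0).trans f10'
  have hab : |a * b| ≤ KK w ^ (-2 + κ) := (drop ht0).trans f00'.le
  have hK2 : (KK w ^ (κ / 2)) ^ 2 = KK w ^ κ := by
    rw [← Real.rpow_natCast, ← Real.rpow_mul hK0.le]
    norm_num
  have ha1 : |a| ≤ KK w ^ (κ / 2) := by
    apply abs_le_of_sq_le_sq _ (Real.rpow_nonneg hK0.le _)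
    rw [hK2]
    exact (le_abs_self _).trans ha2
  have hb1 : |b| ≤ KK w ^ (κ / 2) := by
    apply abs_le_of_sq_le_sq _ (Real.rpow_nonneg hK0.le _)
    rw [hK2]
    exact (le_abs_self _).trans hb2
  -- one of the coordinates is large
  have hq : 1 ≤ R * (|a| + |b|) := by
    have q0 : (q 0 : ℝ) = x 0 0 * a + x 0 1 * b := by
      rw [ha, hb]
      linear_combination (-(q 0 : ℝ)) * hdet
    have q1 : (q 1 : ℝ) = x 1 0 * a + x 1 1 * b := by
      rw [ha, hb]
      linear_combination (-(q 1 : ℝ)) * hdet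
    have key : ∀ i : Fin 2, |(q i : ℝ)| ≤ R * (|a| + |b|) := by
      have m : ∀ s u : ℝ, |s| ≤ R → |u| ≤ R → |s * a + u * b| ≤ R * (|a| + |b|) := fun s u hs hu => by
        refine (abs_add_le _ _).trans ?_
        rw [abs_mul, abs_mul, mul_add]
        exact add_le_add (mul_le_mul_of_nonneg_right hs (abs_nonneg _))
          (mul_le_mul_of_nonneg_right hu (abs_nonneg _))
      intro i
      fin_cases i
      · show |(q 0 : ℝ)| ≤ _
        rw [q0]
        exact m _ _ (hxO 0 0) (hxO 0 1)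
      · show |(q 1 : ℝ)| ≤ _
        rw [q1]
        exact m _ _ (hxO 1 0) (hxO 1 1)
    obtain ⟨i, hi⟩ : ∃ i, q i ≠ 0 := by
      by_contra hno
      push Not at hno
      exact hq0 (funext hno)
    refine le_trans ?_ (key i)
    rw [← Int.cast_abs]
    exact_mod_cast Int.one_le_abs hi
  have hsmall := small hR hq hab
  -- the parameters
  have hP0 : 0 < KK w ^ (-2 + κ) := Real.rpow_pos_of_pos hK0 _
  have hQ0 : 0 < KK w ^ (κ / 2) := Real.rpow_pos_of_pos hK0 _
  have hPQ : KK w ^ (-2 + κ) ≤ KK w ^ (κ / 2) := Real.rpow_le_rpow_of_exponent_le hK1 (by linarith)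
  have hwK : w = KK w ^ (-2 : ℝ) := by
    unfold KK
    rw [← Real.rpow_mul hw.le]
    norm_num
  have hwQ : w * KK w ^ (κ / 2) ≤ KK w ^ (-2 + κ) := by
    calc w * KK w ^ (κ / 2) = KK w ^ (-2 : ℝ) * KK w ^ (κ / 2) := by rw [← hwK]
      _ = KK w ^ (-2 + κ / 2) := by rw [← Real.rpow_add hK0]
      _ ≤ _ := Real.rpow_le_rpow_of_exponent_le hK1 (by linarith)
  -- the coordinates of `x'`
  have hinv : x' = x * (x⁻¹ * x') := by rw [mul_inv_cancel_left]
  set e : G := x⁻¹ * x' with he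
  have hc : ∀ i j, x' i j = ∑ k, x i k * e k j := by
    intro i j
    have h := congrArg (fun g : G => g i j) hinv
    simp only [Matrix.SpecialLinearGroup.coe_mul, Matrix.mul_apply] at h
    exact h
  have r1 : x' 1 1 * q 0 - x' 0 1 * q 1 = e 1 1 * a - e 0 1 * b := by
    rw [hc, hc, Fin.sum_univ_two, Fin.sum_univ_two, ha, hb]
    ring
  have r2 : -(x' 1 0) * q 0 + x' 0 0 * q 1 = e 0 0 * b - e 1 0 * a := by
    rw [hc, hc, Fin.sum_univ_two, Fin.sum_univ_two, ha, hb]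
    ring
  refine ⟨hx'.1, q, hq0, ?_⟩
  rw [r1, r2]
  rcases hsmall with h | h
  · left
    refine ⟨(core hC₀ hR hw hw1 hP0 hQ0 hPQ hwQ h hb1 e11 e01).1, ?_⟩
    exact (core hC₀ hR hw hw1 hP0 hQ0 hPQ hwQ h hb1 e00 e10).2
  · right
    refine ⟨(core hC₀ hR hw hw1 hP0 hQ0 hPQ hwQ h ha1 e00 e10).1, ?_⟩
    exact (core hC₀ hR hw hw1 hP0 hQ0 hPQ hwQ h ha1 e11 e01).2

end Pool.Agent.A54.HS
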