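import Pool.Agent.Lib.HS.Bd.SpecLow

/-!
PROJECT H*, low bands: dyadic layers (S_Dy of SpecLow.lean).
-/

set_option autoImplicit false

namespace HSLow

open Matrix HSL

private theorem Dy_point (ρ n J : ℕ) (hρ : 0 < ρ) (hn : ρ ≤ n) (hJ : n < J) :
    (n : ℝ) ≤ ∑ j ∈ Finset.range J, (if 2 ^ j * ρ ≤ n then ((2 : ℝ) ^ (j + 1) * (ρ : ℝ)) else 0) := by
  set j0 := Nat.log 2 (n / ρ) with hj0
  have hq : n / ρ ≠ 0 := by
    have := Nat.div_pos hn hρ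
    omega
  have h1 : 2 ^ j0 ≤ n / ρ := Nat.pow_log_le_self 2 hq
  have h2 : n / ρ < 2 ^ (j0 + 1) := Nat.lt_pow_succ_log_self (by norm_num) _
  have h3 : 2 ^ j0 * ρ ≤ n := (Nat.le_div_iff_mul_le hρ).mp h1
  have h4 : n < 2 ^ (j0 + 1) * ρ := (Nat.div_lt_iff_lt_mul hρ).mp h2
  have h5 : j0 < J := by
    have h6 : j0 ≤ n / ρ := Nat.log_le_self 2 _
    have h7 : n / ρ ≤ n := Nat.div_le_self n ρ
    omega
  have h8 : (if 2 ^ j0 * ρ ≤ n then ((2 : ℝ) ^ (j0 + 1) * (ρ : ℝ)) else 0) ≤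
      ∑ j ∈ Finset.range J, (if 2 ^ j * ρ ≤ n then ((2 : ℝ) ^ (j + 1) * (ρ : ℝ)) else 0) := by
    refine Finset.single_le_sum
      (f := fun j => (if 2 ^ j * ρ ≤ n then ((2 : ℝ) ^ (j + 1) * (ρ : ℝ)) else 0)) ?_
      (Finset.mem_range.mpr h5)
    intro j _
    split_ifs
    · positivity
    · exact le_rfl
  rw [if_pos h3] at h8
  have h9 : (n : ℝ) < (2 : ℝ) ^ (j0 + 1) * (ρ : ℝ) := by exact_mod_cast h4
  linarith

private theorem Dy_geom (J : ℕ) : ∑ j ∈ Finset.range J, ((1 : ℝ) / 2) ^ j ≤ 2 := by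
  rw [geom_sum_eq (by norm_num)]
  have h : (0 : ℝ) < (1 / 2) ^ J := by positivity
  have e : (((1 : ℝ) / 2) ^ J - 1) / (1 / 2 - 1) = 2 - 2 * (1 / 2) ^ J := by
    norm_num
    ring
  rw [e]
  linarith

theorem tDy : S_Dy := by
  classical
  intro ι V r a b T ha hb hF hT h16
  rcases Nat.eq_zero_or_pos V.card with h0 | hv0
  · have hV : V = ∅ := Finset.card_eq_zero.mp h0
    rw [hT, hV]
    simp
  have hv : (0 : ℝ) < (V.card : ℝ) := by exact_mod_cast hv0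
  set v : ℝ := (V.card : ℝ) with hvdef
  set rb : ℝ := T / v ^ 2 with hrb
  have hrb16 : 16 ≤ rb := by
    rw [hrb, le_div_iff₀ (by positivity)]
    exact h16
  have hTrb : T = rb * v ^ 2 := by
    rw [hrb]
    field_simp
  set ρ : ℕ := ⌈rb / 2⌉₊ with hρ
  have hρ1 : rb / 2 ≤ (ρ : ℝ) := Nat.le_ceil _
  have hρ8 : 8 ≤ ρ := by
    have : (8 : ℝ) ≤ (ρ : ℝ) := by linarith
    exact_mod_cast this
  have hρ0 : (0 : ℝ) < (ρ : ℝ) := by linarith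
  set P := V ×ˢ V with hP
  have hTP : T = ∑ t ∈ P, (r t.1 t.2 : ℝ) := by
    rw [hT, hP, Finset.sum_product]
  have hcP : (P.card : ℝ) = v ^ 2 := by
    rw [hP, Finset.card_product]
    push_cast
    ring
  set J : ℕ := (∑ t ∈ P, r t.1 t.2) + 1 with hJ
  -- pointwise
  have hpt : ∀ t ∈ P, (r t.1 t.2 : ℝ) ≤ rb / 2 +
      ∑ j ∈ Finset.range J, (if 2 ^ j * ρ ≤ r t.1 t.2 then ((2 : ℝ) ^ (j + 1) * (ρ : ℝ)) else 0) := by
    intro t ht
    by_cases hlt : r t.1 t.2 < ρ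
    · have h1 : (r t.1 t.2 : ℝ) < rb / 2 := Nat.lt_ceil.mp hlt
      have h2 : (0 : ℝ) ≤ ∑ j ∈ Finset.range J,
          (if 2 ^ j * ρ ≤ r t.1 t.2 then ((2 : ℝ) ^ (j + 1) * (ρ : ℝ)) else 0) := by
        refine Finset.sum_nonneg ?_
        intro j _
        split_ifs
        · positivity
        · exact le_rfl
      linarith
    · have h1 : r t.1 t.2 < J := by
        have h2 : r t.1 t.2 ≤ ∑ t ∈ P, r t.1 t.2 :=
          Finset.single_le_sum (f := fun t : ι × ι => r t.1 t.2) (fun _ _ => Nat.zero_le _) ht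
        omega
      have h3 := Dy_point ρ (r t.1 t.2) J (by omega) (not_lt.mp hlt) h1
      linarith
  -- the layers
  have hlay : ∀ j : ℕ, ∑ t ∈ P, (if 2 ^ j * ρ ≤ r t.1 t.2 then ((2 : ℝ) ^ (j + 1) * (ρ : ℝ)) else 0) ≤
      v * (2 * a / (ρ : ℝ) ^ 3 + 2 * b / (ρ : ℝ)) * (1 / 2) ^ j := by
    intro j
    rw [← Finset.sum_filter, Finset.sum_const, nsmul_eq_mul]
    have h2j : 1 ≤ 2 ^ j := Nat.one_le_two_pow
    have hr0 : 8 ≤ 2 ^ j * ρ := by nlinarith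
    have h := hF (2 ^ j * ρ) hr0 (P.filter (fun t => 2 ^ j * ρ ≤ r t.1 t.2))
      (Finset.filter_subset _ _) (fun t ht => (Finset.mem_filter.mp ht).2)
    push_cast at h
    have h2p : (0 : ℝ) < 2 ^ j := by positivity
    have hpos : (0 : ℝ) ≤ (2 : ℝ) ^ (j + 1) * (ρ : ℝ) := by positivity
    refine (mul_le_mul_of_nonneg_right h hpos).trans ?_
    have e : v * (a / ((2 : ℝ) ^ j * (ρ : ℝ)) ^ 4 + b / ((2 : ℝ) ^ j * (ρ : ℝ)) ^ 2) *
        ((2 : ℝ) ^ (j + 1) * (ρ : ℝ)) =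
        v * (2 * a / (ρ : ℝ) ^ 3 * ((1 / 2) ^ j) ^ 3 + 2 * b / (ρ : ℝ) * (1 / 2) ^ j) := by
      rw [one_div, inv_pow]
      field_simp
      ring
    rw [e, mul_assoc]
    refine mul_le_mul_of_nonneg_left ?_ hv.le
    have h3 : (((1 : ℝ) / 2) ^ j) ^ 3 ≤ (1 / 2) ^ j := by
      have h4 : (((1 : ℝ) / 2) ^ j) ≤ 1 := pow_le_one₀ (by norm_num) (by norm_num)
      have h5 : (0 : ℝ) ≤ ((1 : ℝ) / 2) ^ j := by positivity
      calc (((1 : ℝ) / 2) ^ j) ^ 3 ≤ (((1 : ℝ) / 2) ^ j) ^ 1 :=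
            pow_le_pow_of_le_one h5 h4 (by norm_num)
        _ = (1 / 2) ^ j := pow_one _
    have h6 : 2 * a / (ρ : ℝ) ^ 3 * ((1 / 2) ^ j) ^ 3 ≤ 2 * a / (ρ : ℝ) ^ 3 * (1 / 2) ^ j :=
      mul_le_mul_of_nonneg_left h3 (by positivity)
    rw [add_mul]
    linarith
  have hA : (0 : ℝ) ≤ v * (2 * a / (ρ : ℝ) ^ 3 + 2 * b / (ρ : ℝ)) :=
    mul_nonneg hv.le (add_nonneg (div_nonneg (by linarith) (pow_pos hρ0 3).le)
      (div_nonneg (by linarith) hρ0.le))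
  -- summation
  have hsum : T ≤ v ^ 2 * (rb / 2) + v * (2 * a / (ρ : ℝ) ^ 3 + 2 * b / (ρ : ℝ)) * 2 := by
    calc T = ∑ t ∈ P, (r t.1 t.2 : ℝ) := hTP
      _ ≤ ∑ t ∈ P, (rb / 2 + ∑ j ∈ Finset.range J,
            (if 2 ^ j * ρ ≤ r t.1 t.2 then ((2 : ℝ) ^ (j + 1) * (ρ : ℝ)) else 0)) :=
          Finset.sum_le_sum hpt
      _ = v ^ 2 * (rb / 2) + ∑ j ∈ Finset.range J, ∑ t ∈ P,
            (if 2 ^ j * ρ ≤ r t.1 t.2 then ((2 : ℝ) ^ (j + 1) * (ρ : ℝ)) else 0) := by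
          rw [Finset.sum_add_distrib, Finset.sum_const, nsmul_eq_mul, hcP, Finset.sum_comm]
      _ ≤ v ^ 2 * (rb / 2) + ∑ j ∈ Finset.range J,
            v * (2 * a / (ρ : ℝ) ^ 3 + 2 * b / (ρ : ℝ)) * (1 / 2) ^ j := by
          have := Finset.sum_le_sum (s := Finset.range J) (fun j _ => hlay j)
          linarith
      _ ≤ v ^ 2 * (rb / 2) + v * (2 * a / (ρ : ℝ) ^ 3 + 2 * b / (ρ : ℝ)) * 2 := by
          rw [← Finset.mul_sum]
          have := mul_le_mul_of_nonneg_left (Dy_geom J) hA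
          linarith
  -- comparison of rho and rb
  have hrb0 : 0 < rb := by linarith
  clear hF hpt hlay hTP hcP
  clear_value J P ρ rb v
  have h1 : 2 * a / (ρ : ℝ) ^ 3 ≤ 16 * (a / rb ^ 3) := by
    have h2 : (rb / 2) ^ 3 ≤ (ρ : ℝ) ^ 3 := pow_le_pow_left₀ (by positivity) hρ1 3
    have h3 : 2 * a / (ρ : ℝ) ^ 3 ≤ 2 * a / (rb / 2) ^ 3 :=
      div_le_div_of_nonneg_left (by positivity) (by positivity) h2
    refine h3.trans (le_of_eq ?_)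
    field_simp
    ring
  have h2 : 2 * b / (ρ : ℝ) ≤ 4 * (b / rb) := by
    have h3 : 2 * b / (ρ : ℝ) ≤ 2 * b / (rb / 2) :=
      div_le_div_of_nonneg_left (by positivity) (by positivity) hρ1
    refine h3.trans (le_of_eq ?_)
    field_simp
    ring
  have h3 : v * (2 * a / (ρ : ℝ) ^ 3 + 2 * b / (ρ : ℝ)) ≤ v * (16 * (a / rb ^ 3) + 4 * (b / rb)) :=
    mul_le_mul_of_nonneg_left (add_le_add h1 h2) hv.le
  have h4 : (0 : ℝ) ≤ v * (b / rb) := by positivity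
  nlinarith [hsum, h3, h4, hTrb]

end HSLow
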