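import Pool.Agent.Lib.HS.Bd.SpecLow

/-!
PROJECT H*, LOW BANDS, module Fb: gauges. helper85 (statement and proof on paper: helper41).
-/

set_option autoImplicit false

namespace HSLow

open Matrix HSL

lemma Fb_two {x y A B : ℝ} (hx : |x| ≤ A) (hy : |y| ≤ B) : |x + y| ≤ A + B :=
  (abs_add_le x y).trans (add_le_add hx hy)

lemma Fb_mul {x y A B : ℝ} (hA : 0 ≤ A) (hx : |x| ≤ A) (hy : |y| ≤ B) : |x * y| ≤ A * B := by
  rw [abs_mul]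
  exact mul_le_mul hx hy (abs_nonneg _) hA

lemma Fb_1 (w D D' : ℝ) (M M' : MR) (hw : 0 ≤ w) (hw1 : w ≤ 1) (hD : 0 ≤ D) (hD' : 0 ≤ D')
    (h : Bx w D M) (h' : Bx w D' M') : Bx w (2 * D * D') (M * M') := by
  obtain ⟨a, b, c, d⟩ := h
  obtain ⟨a', b', c', d'⟩ := h'
  have hDD : 0 ≤ D * D' := mul_nonneg hD hD'
  have hwD : 0 ≤ w * D := mul_nonneg hw hD
  have h1 : w * D * (w * D') ≤ D * D' := by
    have : w * w ≤ 1 := by nlinarith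
    nlinarith
  refine ⟨?_, ?_, ?_, ?_⟩ <;> rw [Matrix.mul_apply, Fin.sum_univ_two]
  · refine (Fb_two (Fb_mul hD a a') (Fb_mul hwD c d')).trans ?_
    linarith
  · refine (Fb_two (Fb_mul hwD d c') (Fb_mul hD b b')).trans ?_
    linarith
  · refine (Fb_two (Fb_mul hD a c') (Fb_mul hwD c b')).trans (le_of_eq ?_)
    ring
  · refine (Fb_two (Fb_mul hwD d a') (Fb_mul hD b d')).trans (le_of_eq ?_)
    ring

lemma Fb_2 (w D : ℝ) (M : MR) (h : Bx w D M) : Bx w D M.adjugate := by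
  obtain ⟨a, b, c, d⟩ := h
  rw [Matrix.adjugate_fin_two]
  refine ⟨b, a, ?_, ?_⟩
  · show |-(M 0 1)| ≤ _
    rw [abs_neg]; exact c
  · show |-(M 1 0)| ≤ _
    rw [abs_neg]; exact d

lemma Fb_3 (w D D' : ℝ) (M : MR) (hw : 0 ≤ w) (hD : D ≤ D') (h : Bx w D M) : Bx w D' M := by
  obtain ⟨a, b, c, d⟩ := h
  have : w * D ≤ w * D' := mul_le_mul_of_nonneg_left hD hw
  exact ⟨a.trans hD, b.trans hD, c.trans this, d.trans this⟩

lemma Fb_fr_smul (a b : MR) (c : ℤ) (v : MZ) (i j : Fin 2) :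
    fr a b (c • v) i j = (c : ℝ) * fr a b v i j := by
  rw [HSL.fr_zsm, Matrix.smul_apply, smul_eq_mul]

lemma Fb_4 (w D : ℝ) (a b : MR) (c : ℤ) (v : MZ) (hc : c ≠ 0) :
    Bx w (|(c : ℝ)| * D) (fr a b (c • v)) ↔ Bx w D (fr a b v) := by
  have hc' : 0 < |(c : ℝ)| := abs_pos.2 (by exact_mod_cast hc)
  unfold Bx
  rw [Fb_fr_smul, Fb_fr_smul, Fb_fr_smul, Fb_fr_smul, abs_mul, abs_mul, abs_mul, abs_mul,
    mul_left_comm w |(c : ℝ)| D, mul_le_mul_iff_right₀ hc', mul_le_mul_iff_right₀ hc',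
    mul_le_mul_iff_right₀ hc', mul_le_mul_iff_right₀ hc']

lemma Fb_fr_tf (g : MR) (hg : g.det = 1) (s : MZ) :
    fr g g (tf s) 0 0 = fr g g s 0 0 - fr g g s 1 1 ∧
    fr g g (tf s) 1 1 = fr g g s 1 1 - fr g g s 0 0 ∧
    fr g g (tf s) 0 1 = 2 * fr g g s 0 1 ∧ fr g g (tf s) 1 0 = 2 * fr g g s 1 0 := by
  have hd : g 0 0 * g 1 1 - g 0 1 * g 1 0 = 1 := by rw [← hg, Matrix.det_fin_two]
  have t00 : ((tf s 0 0 : ℤ) : ℝ) = (s 0 0 : ℤ) - (s 1 1 : ℤ) := by rw [HSL.tf_apply00]; push_cast; ring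
  have t11 : ((tf s 1 1 : ℤ) : ℝ) = (s 1 1 : ℤ) - (s 0 0 : ℤ) := by rw [HSL.tf_apply11]; push_cast; ring
  have t01 : ((tf s 0 1 : ℤ) : ℝ) = 2 * (s 0 1 : ℤ) := by rw [HSL.tf_apply01]; push_cast; ring
  have t10 : ((tf s 1 0 : ℤ) : ℝ) = 2 * (s 1 0 : ℤ) := by rw [HSL.tf_apply10]; push_cast; ring
  simp only [fr, toR, Matrix.adjugate_fin_two, Matrix.mul_apply, Fin.sum_univ_two, Matrix.map_apply,
    Matrix.of_apply, Matrix.cons_val', Matrix.cons_val_zero, Matrix.cons_val_one, Matrix.empty_val',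
    Matrix.cons_val_fin_one, t00, t11, t01, t10]
  refine ⟨?_, ?_, ?_, ?_⟩ <;> ring

lemma Fb_5 (w D : ℝ) (g : MR) (s : MZ) (hw : 0 ≤ w) (hg : g.det = 1) (h : Bx w D (fr g g s)) :
    (tf s).trace = 0 ∧ Bx w (2 * D) (fr g g (tf s)) := by
  obtain ⟨a, b, c, d⟩ := h
  obtain ⟨e1, e2, e3, e4⟩ := Fb_fr_tf g hg s
  refine ⟨HSL.tf_trace s, ?_, ?_, ?_, ?_⟩
  · rw [e1, sub_eq_add_neg]
    refine (Fb_two a (B := D) ?_).trans (le_of_eq (by ring))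
    rw [abs_neg]; exact b
  · rw [e2, sub_eq_add_neg]
    refine (Fb_two b (B := D) ?_).trans (le_of_eq (by ring))
    rw [abs_neg]; exact a
  · rw [e3, abs_mul, abs_two]
    linarith
  · rw [e4, abs_mul, abs_two]
    linarith

lemma Fb_6 (C w : ℝ) (a b : MR) (m : ℕ) (h : MZ) (hr : Ret C w a b m h) : Bx w (C * m) (fr a b h) := by
  obtain ⟨-, -, n1, n2, n3, n4⟩ := hr
  exact ⟨n1, n2, n3.trans (le_of_eq (by ring)), n4.trans (le_of_eq (by ring))⟩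

lemma Fb_toR (a b : MR) (ha : a.det = 1) (hb : b.det = 1) (h : MZ) :
    toR h = b * (fr a b h * a.adjugate) := by
  unfold fr
  rw [Matrix.mul_assoc (b.adjugate * toR h), Matrix.mul_adjugate, ha, one_smul, Matrix.mul_one,
    ← Matrix.mul_assoc, Matrix.mul_adjugate, hb, one_smul, Matrix.one_mul]

lemma Fb_7 (R D : ℝ) (a b : MR) (h : MZ) (ha : a.det = 1) (hb : b.det = 1) (hRa : ∀ i j, |a i j| ≤ R)
    (hRb : ∀ i j, |b i j| ≤ R) (hD : ∀ i j, |fr a b h i j| ≤ D) (i j : Fin 2) :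
    |((h i j : ℤ) : ℝ)| ≤ 4 * R ^ 2 * D := by
  have hR0 : 0 ≤ R := (abs_nonneg _).trans (hRa 0 0)
  have hD0 : 0 ≤ D := (abs_nonneg _).trans (hD 0 0)
  have e : ((h i j : ℤ) : ℝ) = (b * (fr a b h * a.adjugate)) i j := by
    rw [← Fb_toR a b ha hb h]; rfl
  have adj : ∀ k l, |a.adjugate k l| ≤ R := by
    intro k l
    rw [Matrix.adjugate_fin_two]
    fin_cases k <;> fin_cases l
    · exact hRa 1 1
    · show |-(a 0 1)| ≤ _
      rw [abs_neg]; exact hRa 0 1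
    · show |-(a 1 0)| ≤ _
      rw [abs_neg]; exact hRa 1 0
    · exact hRa 0 0
  have in1 : ∀ k, |(fr a b h * a.adjugate) k j| ≤ D * R + D * R := by
    intro k
    rw [Matrix.mul_apply, Fin.sum_univ_two]
    exact Fb_two (Fb_mul hD0 (hD k 0) (adj 0 j)) (Fb_mul hD0 (hD k 1) (adj 1 j))
  rw [e, Matrix.mul_apply, Fin.sum_univ_two]
  refine (Fb_two (Fb_mul hR0 (hRb i 0) (in1 0)) (Fb_mul hR0 (hRb i 1) (in1 1))).trans (le_of_eq ?_)
  ring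

lemma Fb_8 (R D : ℝ) (a b : MR) (h : MZ) (ha : a.det = 1) (hb : b.det = 1) (hRa : ∀ i j, |a i j| ≤ R)
    (hRb : ∀ i j, |b i j| ≤ R) (hD : ∀ i j, |fr a b h i j| ≤ D) (h1 : 4 * R ^ 2 * D < 1) : h = 0 := by
  ext i j
  have := (Fb_7 R D a b h ha hb hRa hRb hD i j).trans_lt h1
  have h2 : |h i j| < 1 := by exact_mod_cast this
  exact Int.abs_lt_one_iff.1 h2

theorem tFb : S_Fb :=
  ⟨Fb_1, Fb_2, Fb_3, Fb_4, Fb_5, Fb_6, Fb_7, Fb_8⟩

end HSLow
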