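import Pool.Agent.Lib.HS.Bd.SpecLow

/-!
PROJECT H*, LOW BANDS (MP_a54f13_nt), module LT: the tube of a nonplanar cell.
-/

set_option autoImplicit false

namespace HSLow

open Matrix HSL Pool.Agent.A54.HSL

namespace LT_aux

theorem brk_vec {v v' : MZ} (hv : v.trace = 0) (hv' : v'.trace = 0) :
    brk v v' 0 0 = cr (HSL.vec v) (HSL.vec v') 0 ∧ brk v v' 0 1 = 2 * cr (HSL.vec v) (HSL.vec v') 2 ∧
      brk v v' 1 0 = 2 * cr (HSL.vec v) (HSL.vec v') 1 ∧ brk v v' 1 1 = - cr (HSL.vec v) (HSL.vec v') 0 := by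
  rw [Matrix.trace_fin_two] at hv hv'
  have h1 : v 1 1 = - v 0 0 := by linarith
  have h2 : v' 1 1 = - v' 0 0 := by linarith
  refine ⟨?_, ?_, ?_, ?_⟩ <;>
    simp only [brk, Matrix.sub_apply, Matrix.mul_apply, Fin.sum_univ_two, cr, HSL.vec, h1, h2,
      Matrix.cons_val_zero, Matrix.cons_val_one, Matrix.cons_val] <;> ring

theorem fr_mul (g : MR) (r h : MZ) (hb : g.det = 1) : fr g g (r * h) = fr g g r * fr g g h := by
  have h1 : g * g.adjugate = 1 := by rw [Matrix.mul_adjugate, hb, one_smul]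
  have h0 : toR (r * h) = toR r * toR h := by
    ext i j
    simp [toR, Matrix.mul_apply]
  unfold fr
  rw [h0]
  calc g.adjugate * (toR r * toR h) * g = g.adjugate * toR r * 1 * toR h * g := by
        simp only [Matrix.mul_assoc, Matrix.one_mul]
    _ = g.adjugate * toR r * (g * g.adjugate) * toR h * g := by rw [h1]
    _ = g.adjugate * toR r * g * (g.adjugate * toR h * g) := by simp only [Matrix.mul_assoc]

theorem fr_sub (g : MR) (r h : MZ) : fr g g (r - h) = fr g g r - fr g g h := by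
  have h0 : toR (r - h) = toR r - toR h := by
    ext i j
    simp [toR]
  unfold fr
  rw [h0, Matrix.mul_sub, Matrix.sub_mul]

theorem fr_smul (g : MR) (c : ℤ) (r : MZ) (i j : Fin 2) : fr g g (c • r) i j = (c : ℝ) * fr g g r i j := by
  have h1 : toR (c • r) = (c : ℝ) • toR r := by
    ext i' j'
    simp only [toR, Matrix.map_apply, Matrix.smul_apply, smul_eq_mul]
    push_cast
    ring
  unfold fr
  rw [h1, Matrix.mul_smul, Matrix.smul_mul, Matrix.smul_apply, smul_eq_mul]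

/-- the frame of a traceless matrix is traceless -/
theorem fr_tr (g : MR) (v : MZ) (hg : g.det = 1) (hv : v.trace = 0) : fr g g v 1 1 = - fr g g v 0 0 := by
  have h1 : (fr g g v).trace = 0 := by
    unfold fr
    rw [Matrix.trace_mul_comm, ← Matrix.mul_assoc, Matrix.mul_adjugate, hg, one_smul, Matrix.one_mul]
    have h2 : (toR v).trace = ((v.trace : ℤ) : ℝ) := by
      simp [toR, Matrix.trace_fin_two]
    rw [h2, hv, Int.cast_zero]
  rw [Matrix.trace_fin_two] at h1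
  linarith

theorem prod_le {x y X Y : ℝ} (hx : |x| ≤ X) (hy : |y| ≤ Y) : |x * y| ≤ X * Y := by
  rw [abs_mul]
  exact mul_le_mul hx hy (abs_nonneg _) ((abs_nonneg _).trans hx)

theorem det_le {x0 x1 x2 y0 y1 y2 z0 z1 z2 τ w : ℝ} (a0 : |x0| ≤ τ) (a1 : |x1| ≤ w * τ) (a2 : |x2| ≤ w * τ)
    (b0 : |y0| ≤ τ) (b1 : |y1| ≤ w * τ) (b2 : |y2| ≤ w * τ) (c0 : |z0| ≤ τ) (c1 : |z1| ≤ w * τ)
    (c2 : |z2| ≤ w * τ) :
    |x0 * (y1 * z2 - y2 * z1) - x1 * (y0 * z2 - y2 * z0) + x2 * (y0 * z1 - y1 * z0)| ≤ 6 * (w ^ 2 * τ ^ 3) := by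
  have p : ∀ {x y z X Y Z' : ℝ}, |x| ≤ X → |y| ≤ Y → |z| ≤ Z' → |x * (y * z)| ≤ X * (Y * Z') :=
    fun hx hy hz => prod_le hx (prod_le hy hz)
  have t1 := abs_le.1 (p a0 b1 c2)
  have t2 := abs_le.1 (p a0 b2 c1)
  have t3 := abs_le.1 (p a1 b0 c2)
  have t4 := abs_le.1 (p a1 b2 c0)
  have t5 := abs_le.1 (p a2 b0 c1)
  have t6 := abs_le.1 (p a2 b1 c0)
  have e1 : τ * (w * τ * (w * τ)) = w ^ 2 * τ ^ 3 := by ring
  have e2 : w * τ * (τ * (w * τ)) = w ^ 2 * τ ^ 3 := by ring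
  have e3 : w * τ * (w * τ * τ) = w ^ 2 * τ ^ 3 := by ring
  rw [e1] at t1 t2
  rw [e2] at t3 t5
  rw [e3] at t4 t6
  refine abs_le.2 ⟨?_, ?_⟩ <;> linarith [t1.1, t1.2, t2.1, t2.2, t3.1, t3.2, t4.1, t4.2, t5.1, t5.2, t6.1, t6.2]

/-- frame of the bracket -/
theorem fr_brk (g : MR) (hg : g.det = 1) {v v' : MZ} (hv : v.trace = 0) (hv' : v'.trace = 0) {w τ : ℝ}
    (h : Bx w τ (fr g g v)) (h' : Bx w τ (fr g g v')) :
    |fr g g (brk v v') 0 0| ≤ 2 * (w * τ) ^ 2 ∧ |fr g g (brk v v') 0 1| ≤ 4 * (w * τ ^ 2) ∧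
      |fr g g (brk v v') 1 0| ≤ 4 * (w * τ ^ 2) := by
  obtain ⟨a0, a1, a2, a3⟩ := h
  obtain ⟨b0, b1, b2, b3⟩ := h'
  have e := fr_tr g v hg hv
  have e' := fr_tr g v' hg hv'
  have e0 : fr g g (brk v v') = fr g g v * fr g g v' - fr g g v' * fr g g v := by
    unfold brk
    rw [fr_sub, fr_mul g v v' hg, fr_mul g v' v hg]
  set m := fr g g v
  set m' := fr g g v'
  have c0 : fr g g (brk v v') 0 0 = m 0 1 * m' 1 0 - m' 0 1 * m 1 0 := by
    rw [e0]
    simp only [Matrix.sub_apply, Matrix.mul_apply, Fin.sum_univ_two]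
    ring
  have c1 : fr g g (brk v v') 0 1 = 2 * (m 0 0 * m' 0 1) - 2 * (m' 0 0 * m 0 1) := by
    rw [e0]
    simp only [Matrix.sub_apply, Matrix.mul_apply, Fin.sum_univ_two]
    rw [e, e']
    ring
  have c2 : fr g g (brk v v') 1 0 = 2 * (m 1 0 * m' 0 0) - 2 * (m' 1 0 * m 0 0) := by
    rw [e0]
    simp only [Matrix.sub_apply, Matrix.mul_apply, Fin.sum_univ_two]
    rw [e, e']
    ring
  have p1 := prod_le a2 b3
  have p2 := prod_le b2 a3
  have p3 := prod_le a0 b2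
  have p4 := prod_le b0 a2
  have p5 := prod_le a3 b0
  have p6 := prod_le b3 a0
  rw [abs_le] at p1 p2 p3 p4 p5 p6
  rw [c0, c1, c2]
  refine ⟨abs_le.2 ⟨?_, ?_⟩, abs_le.2 ⟨?_, ?_⟩, abs_le.2 ⟨?_, ?_⟩⟩ <;> nlinarith

end LT_aux

open LT_aux

theorem tLT (_hFb : S_Fb) (hPar : S_Par) (hR2 : S_R2) : S_LT := by
  classical
  refine ⟨162, by norm_num, ?_⟩
  intro S N τ hK hU hN hτ i hi hPl F hF hne
  obtain ⟨hdet, -⟩ := hU i hi
  have hw : 0 < S.w := by
    unfold Sys.w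
    positivity
  set w := S.w with hwd
  set g := S.g i with hg
  have htr : ∀ v ∈ F, v.trace = 0 := fun v hv => (hF v hv).1
  have hbx : ∀ v ∈ F, Bx w τ (fr g g v) := fun v hv => (hF v hv).2
  have hN0 : 0 < N := by linarith
  have hinj : Set.InjOn HSL.vec (F : Set MZ) := by
    intro v hv v' hv' h
    rw [← mat_vec v (htr v hv), ← mat_vec v' (htr v' hv'), h]
  by_cases h3 : ∃ u ∈ F, ∃ v ∈ F, ∃ z ∈ F, d3 (HSL.vec u) (HSL.vec v) (HSL.vec z) ≠ 0
  · -- rank three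
    obtain ⟨u, hu, v, hv, z, hz, hD⟩ := h3
    obtain ⟨⟨⟨u₁, u₂⟩, u₃⟩, hmem, hmax⟩ := Finset.exists_max_image ((F ×ˢ F) ×ˢ F)
      (fun t => |d3 (HSL.vec t.1.1) (HSL.vec t.1.2) (HSL.vec t.2)|) ⟨((u, v), z), by
        exact Finset.mem_product.mpr ⟨Finset.mem_product.mpr ⟨hu, hv⟩, hz⟩⟩
    rw [Finset.mem_product, Finset.mem_product] at hmem
    obtain ⟨⟨m1, m2⟩, m3⟩ := hmem
    simp only at m1 m2 m3
    have hle : ∀ x ∈ F, ∀ y ∈ F, ∀ z ∈ F, |d3 (HSL.vec x) (HSL.vec y) (HSL.vec z)| ≤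
        |d3 (HSL.vec u₁) (HSL.vec u₂) (HSL.vec u₃)| := by
      intro x hx y hy z hz
      exact hmax ((x, y), z) (Finset.mem_product.mpr ⟨Finset.mem_product.mpr ⟨hx, hy⟩, hz⟩)
    have hne' : d3 (HSL.vec u₁) (HSL.vec u₂) (HSL.vec u₃) ≠ 0 := by
      have h4 := hle u hu v hv z hz
      have h5 := abs_pos.mpr hD
      exact abs_pos.mp (h5.trans_le h4)
    have key := card27 (F.image HSL.vec) _ _ _ hne' (by
        intro v hv
        obtain ⟨v1, hv1, rfl⟩ := Finset.mem_image.1 hv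
        exact hle _ hv1 _ m2 _ m3) (by
        intro v hv
        obtain ⟨v1, hv1, rfl⟩ := Finset.mem_image.1 hv
        exact hle _ m1 _ hv1 _ m3) (by
        intro v hv
        obtain ⟨v1, hv1, rfl⟩ := Finset.mem_image.1 hv
        exact hle _ m1 _ m2 _ hv1)
    rw [Finset.card_image_of_injOn hinj] at key
    -- the determinant
    have hd : |((d3 (HSL.vec u₁) (HSL.vec u₂) (HSL.vec u₃) : ℤ) : ℝ)| ≤ 6 * (w ^ 2 * τ ^ 3) := by
      have e1 : d3 (co g 0) (co g 1) (co g 2) = 1 := co_det g hdet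
      have fv : ∀ v ∈ F, |∑ j, co g 0 j * (HSL.vec v j : ℝ)| ≤ τ ∧ |∑ j, co g 1 j * (HSL.vec v j : ℝ)| ≤ w * τ ∧
          |∑ j, co g 2 j * (HSL.vec v j : ℝ)| ≤ w * τ := by
        intro v hv
        obtain ⟨q0, q1, q2⟩ := fr_vec g v (htr v hv)
        obtain ⟨b0, b1, b2, b3⟩ := hbx v hv
        exact ⟨q0 ▸ b0, q1 ▸ b2, q2 ▸ b3⟩
      obtain ⟨x0, x1, x2⟩ := fv u₁ m1
      obtain ⟨y0, y1, y2⟩ := fv u₂ m2
      obtain ⟨z0, z1, z2⟩ := fv u₃ m3
      simp only [Fin.sum_univ_three] at x0 x1 x2 y0 y1 y2 z0 z1 z2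
      set c := co g
      set U := HSL.vec u₁
      set V := HSL.vec u₂
      set Z := HSL.vec u₃
      have e2 : ((d3 U V Z : ℤ) : ℝ) =
          (c 0 0 * U 0 + c 0 1 * U 1 + c 0 2 * U 2) * ((c 1 0 * V 0 + c 1 1 * V 1 + c 1 2 * V 2) *
            (c 2 0 * Z 0 + c 2 1 * Z 1 + c 2 2 * Z 2) - (c 2 0 * V 0 + c 2 1 * V 1 + c 2 2 * V 2) *
            (c 1 0 * Z 0 + c 1 1 * Z 1 + c 1 2 * Z 2)) -
          (c 1 0 * U 0 + c 1 1 * U 1 + c 1 2 * U 2) * ((c 0 0 * V 0 + c 0 1 * V 1 + c 0 2 * V 2) *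
            (c 2 0 * Z 0 + c 2 1 * Z 1 + c 2 2 * Z 2) - (c 2 0 * V 0 + c 2 1 * V 1 + c 2 2 * V 2) *
            (c 0 0 * Z 0 + c 0 1 * Z 1 + c 0 2 * Z 2)) +
          (c 2 0 * U 0 + c 2 1 * U 1 + c 2 2 * U 2) * ((c 0 0 * V 0 + c 0 1 * V 1 + c 0 2 * V 2) *
            (c 1 0 * Z 0 + c 1 1 * Z 1 + c 1 2 * Z 2) - (c 1 0 * V 0 + c 1 1 * V 1 + c 1 2 * V 2) *
            (c 0 0 * Z 0 + c 0 1 * Z 1 + c 0 2 * Z 2)) := by
        have e3 : ((d3 U V Z : ℤ) : ℝ) = d3 (c 0) (c 1) (c 2) * ((d3 U V Z : ℤ) : ℝ) := by rw [e1, one_mul]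
        rw [e3]
        simp only [d3]
        push_cast
        ring
      rw [e2]
      exact det_le x0 x1 x2 y0 y1 y2 z0 z1 z2
    have key' : (F.card : ℝ) ≤ 27 * |((d3 (HSL.vec u₁) (HSL.vec u₂) (HSL.vec u₃) : ℤ) : ℝ)| := by
      rw [← Int.cast_abs]
      exact_mod_cast key
    have hpos : 0 ≤ w * τ ^ 2 / N := by positivity
    linarith
  · -- rank two
    push Not at h3
    obtain ⟨u₁, m1, u₂, m2, hb⟩ := hne
    have hcr : cr (HSL.vec u₁) (HSL.vec u₂) ≠ 0 := by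
      intro h0
      apply hb
      obtain ⟨b1, b2, b3, b4⟩ := brk_vec (htr u₁ m1) (htr u₂ m2)
      rw [h0] at b1 b2 b3 b4
      simp only [Pi.zero_apply, mul_zero, neg_zero] at b1 b2 b3 b4
      ext i j
      fin_cases i <;> fin_cases j
      · exact b1
      · exact b2
      · exact b3
      · exact b4
    obtain ⟨γ, e, a, hγ, hge, hae⟩ := prim _ hcr
    set E : MZ := !![e 0, 2 * e 2; 2 * e 1, - e 0] with hE
    -- orthogonality
    have horth : ∀ v ∈ F, HSL.vec v 0 * e 0 + HSL.vec v 1 * e 1 + HSL.vec v 2 * e 2 = 0 := by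
      intro v hv
      have h1 := h3 v hv u₁ m1 u₂ m2
      have h0 := congrFun hge 0
      have h1' := congrFun hge 1
      have h2 := congrFun hge 2
      simp only [Pi.smul_apply, smul_eq_mul] at h0 h1' h2
      have h4 : d3 (HSL.vec v) (HSL.vec u₁) (HSL.vec u₂) = HSL.vec v 0 * cr (HSL.vec u₁) (HSL.vec u₂) 0 +
          HSL.vec v 1 * cr (HSL.vec u₁) (HSL.vec u₂) 1 + HSL.vec v 2 * cr (HSL.vec u₁) (HSL.vec u₂) 2 := by
        simp only [d3, cr, Matrix.cons_val_zero, Matrix.cons_val_one, Matrix.cons_val]; ring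
      rw [h4, h0, h1', h2] at h1
      have h5 : γ * (HSL.vec v 0 * e 0 + HSL.vec v 1 * e 1 + HSL.vec v 2 * e 2) = 0 := by linarith
      exact (mul_eq_zero.1 h5).resolve_left hγ.ne'
    -- all brackets are multiples of E
    have hmul : ∀ v ∈ F, ∀ v' ∈ F, ∃ t : ℤ, brk v v' = t • E := by
      intro v hv v' hv'
      have o := horth v hv
      have o' := horth v' hv'
      set x := cr (HSL.vec v) (HSL.vec v') with hx
      have x0 : x 0 = HSL.vec v 1 * HSL.vec v' 2 - HSL.vec v 2 * HSL.vec v' 1 := by simp [hx, cr]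
      have x1 : x 1 = HSL.vec v 2 * HSL.vec v' 0 - HSL.vec v 0 * HSL.vec v' 2 := by simp [hx, cr]
      have x2 : x 2 = HSL.vec v 0 * HSL.vec v' 1 - HSL.vec v 1 * HSL.vec v' 0 := by simp [hx, cr]
      have p01 : x 0 * e 1 = x 1 * e 0 := by
        rw [x0, x1]; linear_combination (-HSL.vec v 2) * o' + HSL.vec v' 2 * o
      have p02 : x 0 * e 2 = x 2 * e 0 := by
        rw [x0, x2]; linear_combination HSL.vec v 1 * o' - HSL.vec v' 1 * o
      have p12 : x 1 * e 2 = x 2 * e 1 := by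
        rw [x1, x2]; linear_combination (-HSL.vec v 0) * o' + HSL.vec v' 0 * o
      set t := a 0 * x 0 + a 1 * x 1 + a 2 * x 2 with ht
      have q0 : x 0 = t * e 0 := by rw [ht]; linear_combination (-(x 0)) * hae + a 1 * p01 + a 2 * p02
      have q1 : x 1 = t * e 1 := by rw [ht]; linear_combination (-(x 1)) * hae - a 0 * p01 + a 2 * p12
      have q2 : x 2 = t * e 2 := by rw [ht]; linear_combination (-(x 2)) * hae - a 0 * p02 - a 1 * p12
      obtain ⟨b1, b2, b3, b4⟩ := brk_vec (htr v hv) (htr v' hv')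
      rw [← hx] at b1 b2 b3 b4
      refine ⟨t, ?_⟩
      ext i j
      rw [Matrix.smul_apply, smul_eq_mul, hE]
      fin_cases i <;> fin_cases j
      · show brk v v' 0 0 = t * e 0
        rw [b1, q0]
      · show brk v v' 0 1 = t * (2 * e 2)
        rw [b2, q2]; ring
      · show brk v v' 1 0 = t * (2 * e 1)
        rw [b3, q1]; ring
      · show brk v v' 1 1 = t * (- e 0)
        rw [b4, q0]; ring
    have hE0 : E ≠ 0 := by
      intro h0
      obtain ⟨t, ht⟩ := hmul u₁ m1 u₂ m2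
      rw [h0, smul_zero] at ht
      exact hb ht
    have hEt : E.trace = 0 := by
      rw [Matrix.trace_fin_two, hE]
      simp
    obtain ⟨c, n0, hc, hn0, hEn⟩ := hPar.2.1 E hE0
    have hn0t : n0.trace = 0 := by
      rw [hEn, Matrix.trace_smul, smul_eq_mul] at hEt
      exact (mul_eq_zero.1 hEt).resolve_left hc.ne'
    have hn00 : n0 ≠ 0 := by
      intro h0
      rw [h0, smul_zero] at hEn
      exact hE0 hEn
    set J : ℕ := ⌊4 * (w * τ ^ 2) / N⌋₊ with hJ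
    have hq : ∀ v ∈ F, ∀ v' ∈ F, ∃ q : ℤ, |q| ≤ (J : ℤ) ∧ brk v v' = q • n0 := by
      intro v hv v' hv'
      obtain ⟨t, ht⟩ := hmul v hv v' hv'
      have hq : brk v v' = (t * c) • n0 := by rw [ht, hEn, smul_smul]
      refine ⟨t * c, ?_, hq⟩
      obtain ⟨f0, f1, f2⟩ := fr_brk g hdet (htr v hv) (htr v' hv') (hbx v hv) (hbx v' hv')
      rw [hq, fr_smul, abs_mul] at f0 f1 f2
      have hnp := hPl n0
      have h1 : ¬ (|fr g g n0 0 0| ≤ w * N ∧ |fr g g n0 0 1| ≤ N ∧ |fr g g n0 1 0| ≤ N) :=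
        fun h => hnp ⟨hn0t, hn00, h⟩
      have habs : |((t * c : ℤ) : ℝ)| ≤ 4 * (w * τ ^ 2) / N := by
        rw [le_div_iff₀ hN0]
        by_contra hcon
        push Not at hcon
        apply h1
        have hq0 : 0 < |((t * c : ℤ) : ℝ)| := by
          rcases (abs_nonneg ((t * c : ℤ) : ℝ)).lt_or_eq with h | h
          · exact h
          · rw [← h, zero_mul] at hcon
            have : 0 ≤ 4 * (w * τ ^ 2) := by positivity
            linarith
        refine ⟨?_, ?_, ?_⟩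
        · by_contra h
          push Not at h
          have h2 : |((t * c : ℤ) : ℝ)| * (w * N) < |((t * c : ℤ) : ℝ)| * |fr g g n0 0 0| :=
            mul_lt_mul_of_pos_left h hq0
          have h5 : 4 * (w * τ ^ 2) * w < |((t * c : ℤ) : ℝ)| * N * w := mul_lt_mul_of_pos_right hcon hw
          nlinarith
        · by_contra h
          push Not at h
          have h2 : |((t * c : ℤ) : ℝ)| * N < |((t * c : ℤ) : ℝ)| * |fr g g n0 0 1| :=
            mul_lt_mul_of_pos_left h hq0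
          linarith
        · by_contra h
          push Not at h
          have h2 : |((t * c : ℤ) : ℝ)| * N < |((t * c : ℤ) : ℝ)| * |fr g g n0 1 0| :=
            mul_lt_mul_of_pos_left h hq0
          linarith
      have h2 : (((t * c).natAbs : ℕ) : ℝ) ≤ 4 * (w * τ ^ 2) / N := by
        rw [Nat.cast_natAbs, Int.cast_abs]
        exact habs
      have h3 : (t * c).natAbs ≤ J := Nat.le_floor h2
      rw [Int.abs_eq_natAbs]
      exact_mod_cast h3
    have hcard := hR2 J n0 F hn0 htr hq ⟨u₁, m1, u₂, m2, hb⟩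
    have h4 : (J : ℝ) ≤ 4 * (w * τ ^ 2) / N := Nat.floor_le (by positivity)
    have h5 : (F.card : ℝ) ≤ 27 * J := by exact_mod_cast hcard
    have h6 : 4 * (w * τ ^ 2) / N = 4 * (w * τ ^ 2 / N) := by ring
    have h7 : 0 ≤ w ^ 2 * τ ^ 3 := by positivity
    have h8 : 0 ≤ w * τ ^ 2 / N := by positivity
    rw [h6] at h4
    linarith

end HSLow
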