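import Pool.Agent.Lib.HS.Bd.SpecLow

/-!
# HS/Bd/Lw: the low bands, assembly

`tLow : ... → S_Low`; the proof is in the docstring of `S_Low` in `SpecLow.lean`.
-/

set_option autoImplicit false

namespace HSLow

open Matrix HSL

/-- the system restricted to a set of cells -/
def Low_res (S : Sys) (W : Finset S.ι) : Sys := { S with V := W }

theorem Low_unim {S : Sys} {W : Finset S.ι} (hW : W ⊆ S.V) (h : S.Unim) : (Low_res S W).Unim :=
  fun i hi => h i (hW hi)

theorem Low_ovl {S : Sys} {W : Finset S.ι} (hW : W ⊆ S.V) {C' B : ℝ} (h : S.Ovl C' B) :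
    (Low_res S W).Ovl C' B := by
  intro i hi g m hd hm T hT
  exact h i (hW hi) g m hd hm T fun t ht => ⟨hW (hT t ht).1, (hT t ht).2⟩

theorem Low_sep {S : Sys} {W : Finset S.ι} (hW : W ⊆ S.V) {B : ℝ} (h : Sep S B) :
    Sep (Low_res S W) B :=
  fun ζ r hr F hF hF2 => h ζ r hr F (hF.trans hW) hF2

theorem Low_mn {S : Sys} {W : Finset S.ι} (hW : W ⊆ S.V) {vx : S.ι → MZ} (h : Mn S vx) :
    Mn (Low_res S W) vx :=
  fun i hi => h i (hW hi)

theorem Low_mono {CP D B N Z ε W T K S0 : ℝ} (h : CP ≤ D) (hB : 0 ≤ B) (hN : 0 ≤ N) (hZ : 0 ≤ Z)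
    (hS : 0 ≤ S0) (hW : 0 ≤ W) (hT : 0 ≤ T) (_hK : 0 ≤ K) :
    CP * B * N ^ 30 * Z ^ ε * W * (1 / K ^ 2 * Z ^ 4 / (T / W ^ 2) ^ 3 + Z ^ 2 / ((T / W ^ 2) * S0)) ≤
      D * B * N ^ 30 * Z ^ ε * W *
        (1 / K ^ 2 * Z ^ 4 / (T / W ^ 2) ^ 3 + Z ^ 2 / ((T / W ^ 2) * S0)) := by
  have h1 : 0 ≤ Z ^ ε := Real.rpow_nonneg hZ ε
  have h2 : 0 ≤ 1 / K ^ 2 * Z ^ 4 / (T / W ^ 2) ^ 3 + Z ^ 2 / ((T / W ^ 2) * S0) := by positivity
  refine mul_le_mul_of_nonneg_right ?_ h2
  refine mul_le_mul_of_nonneg_right ?_ hW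
  refine mul_le_mul_of_nonneg_right ?_ h1
  refine mul_le_mul_of_nonneg_right ?_ (by positivity)
  exact mul_le_mul_of_nonneg_right h hB

theorem tLow (_hFb : S_Fb) (hVX : S_VX) (hT3 : S_T3) (hNP : S_NP) (hPL : S_PL) (hCls : S_Cls)
    (hPgN : S_PgN) (hN0 : S_N0) (hNn : S_Nn) (hNp : S_Np) : S_Low := by
  classical
  intro k C R κ hk hC hR hκ hκ'
  have hk1 : (1 : ℝ) ≤ (k : ℝ) := by exact_mod_cast hk
  have hε : 0 < κ / 1000 := by positivity
  have hκ1 : κ ≤ 1 / 200 := by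
    refine hκ'.trans ?_
    apply one_div_le_one_div_of_le (by norm_num)
    linarith
  have hε1 : κ / 1000 ≤ 1 := by linarith
  obtain ⟨CT, hCT1, hCT⟩ := hT3 R hR
  obtain ⟨CN, hCN1, hCN⟩ := hNP k C R (κ / 1000) hk hC hR hε
  obtain ⟨CP, hCP1, hCP⟩ := hPL k C R (κ / 1000) hk hC hR hε hε1
  obtain ⟨CC, hCC1, hCC⟩ := hCls k C R hk hC hR
  obtain ⟨CG, hCG1, hCG⟩ := hPgN R hR
  set D : ℝ := CT + CN + CP + CC + CG with hD
  have hD1 : 1 ≤ D := by linarith
  have hDT : CT ≤ D := by linarith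
  have hDN : CN ≤ D := by linarith
  have hDP : CP ≤ D := by linarith
  have hDC : CC ≤ D := by linarith
  have hDG : CG ≤ D := by linarith
  obtain ⟨K1, hK11, hK1⟩ := hN0 k κ D hk hκ hκ' hD1
  obtain ⟨K2, hK21, hK2⟩ := hNn k κ CN hk hκ hκ' hCN1
  obtain ⟨K3, hK31, hK3⟩ := hNp k κ D hk hκ hκ' hD1
  refine ⟨max K1 (max K2 K3), ?_⟩
  intro S A B M pool hSC hSR hK hH
  have hKK1 : K1 ≤ S.K := (le_max_left _ _).trans hK
  have hKK2 : K2 ≤ S.K := ((le_max_left _ _).trans (le_max_right _ _)).trans hK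
  have hKK3 : K3 ≤ S.K := ((le_max_right _ _).trans (le_max_right _ _)).trans hK
  have hK0 : 1 ≤ S.K := hK11.trans hKK1
  have hKpos : 0 < S.K := by linarith
  obtain ⟨n1, n2, n3, n4, n5, n6, n7, n8, n9, n10⟩ := hK1 S.K hKK1
  have hw : S.w = 1 / S.K ^ 2 := rfl
  have hwpos : 0 < S.w := by rw [hw]; positivity
  set N : ℝ := S.K ^ (κ / 100) with hN
  set S0 : ℝ := S.K ^ (6 * κ) with hS0
  have hN1 : 1 ≤ N := Real.one_le_rpow hK0 (by positivity)
  have hS01 : 1 ≤ S0 := Real.one_le_rpow hK0 (by positivity)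
  have hMeq := hH.hM
  have hZeq : (2 * M) ^ (2 * k) = Zk k κ S.K := by rw [hMeq]; rfl
  have hM1 : 1 ≤ M := by rw [hMeq]; linarith
  have hMC : D ≤ M := by rw [hMeq]; exact n1
  have hZ1 : 1 ≤ Zk k κ S.K := hN1.trans n6
  have hB1 := hH.hB
  have hVpos : 0 < (S.V.card : ℝ) := lt_of_lt_of_le (Real.rpow_pos_of_pos hKpos _) hH.crd
  -- bad cells
  set V0 := S.V.filter (fun i => Gd S S0 i) with hV0
  set Vb := S.V.filter (fun i => ¬ Gd S S0 i) with hVb
  have hVsum : V0.card + Vb.card = S.V.card := Finset.card_filter_add_card_filter_not _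
  have hbad : 4 * (Vb.card : ℝ) ≤ (S.V.card : ℝ) := by
    have h1 : (Vb.card : ℝ) ≤ CT * B * S0 ^ 6 := by
      refine hCT S B S0 hSR hK0 hB1 hS01 ?_ hH.unim hH.sep Vb (Finset.filter_subset _ _) ?_
      · refine le_trans ?_ n4
        rw [hw]
        exact mul_le_mul_of_nonneg_right hDT (by positivity)
      · intro i hi
        exact (Finset.mem_filter.1 hi).2
    have h2 : CT * B * S0 ^ 6 ≤ D * S.K ^ (κ / 1000) * S0 ^ 6 := by
      refine mul_le_mul_of_nonneg_right ?_ (by positivity)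
      exact mul_le_mul hDT hH.hB' (by linarith) (by linarith)
    have h3 := hH.crd
    linarith
  set V1 := V0.filter (fun i => ∀ n : MZ, ¬ Pln S N i n) with hV1
  set V2 := V0.filter (fun i => ¬ ∀ n : MZ, ¬ Pln S N i n) with hV2
  have hV12 : V1.card + V2.card = V0.card := Finset.card_filter_add_card_filter_not _
  have hV1s : V1 ⊆ S.V := (Finset.filter_subset _ _).trans (Finset.filter_subset _ _)
  have hV2s : V2 ⊆ S.V := (Finset.filter_subset _ _).trans (Finset.filter_subset _ _)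
  have hVr : (V1.card : ℝ) + V2.card + Vb.card = S.V.card := by
    rw [← hVsum, ← hV12]
    push_cast
    ring
  by_cases hcase : (S.V.card : ℝ) ≤ 4 * (V1.card : ℝ)
  · -- nonplanar
    obtain ⟨vx, hvx⟩ := hVX S hK0 hH.unim
    obtain ⟨Q, W, hQ, hQc, hW, hWc, hWd⟩ := hCC S M pool vx hSC hSR hK0 (hDC.trans hMC)
      (by
        rw [hZeq, hw]
        refine le_trans ?_ n2
        exact mul_le_mul_of_nonneg_right hDC (by positivity)) hH.unim hvx hH.prm hH.big V1 hV1s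
    have hWs : W ⊆ S.V := hW.trans hV1s
    have hWc' : (V1.card : ℝ) ≤ 2 * W.card := by exact_mod_cast hWc
    have hV8 : (S.V.card : ℝ) ≤ 8 * (W.card : ℝ) := by linarith
    have hWpos : 0 < (W.card : ℝ) := by linarith
    have hWV : (W.card : ℝ) ≤ S.V.card := by exact_mod_cast Finset.card_le_card hWs
    obtain ⟨T, hT, hTc⟩ := hH.ai Q hQ hQc W hWs
      (hV8.trans (mul_le_mul_of_nonneg_right n9 hWpos.le))
    have key := hCN (Low_res S W) B N S0 M Q vx hSC hSR hK0 hB1 hN1 hS01 hM1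
      (by
        change CN * (S.w * ((2 * M) ^ (2 * k)) ^ 2) ≤ 1
        rw [hZeq, hw]
        refine le_trans ?_ n2
        exact mul_le_mul_of_nonneg_right hDN (by positivity))
      (Low_unim hWs hH.unim) (by rw [← hSC]; exact Low_ovl hWs hH.ovl) (Low_mn hWs hvx)
      (fun i hi => ⟨(Finset.mem_filter.1 (hW hi)).2,
        (Finset.mem_filter.1 (Finset.mem_filter.1 (hW hi)).1).2⟩)
      (fun p hp => hH.prm p (hQ hp)) hWd T hT
    rw [hZeq] at key
    refine hK2 S.K A B S.V.card W.card T.card hKK2 hH.hA hB1 hH.hB' hH.lo hH.up hWpos hWV hV8 ?_ ?_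
    · rw [← hMeq]; exact hTc
    · have e : (Low_res S W).w = 1 / S.K ^ 2 := rfl
      rw [e, hMeq] at key
      exact key
  · -- planar
    have hV2c : (S.V.card : ℝ) ≤ 2 * (V2.card : ℝ) := by
      have := lt_of_not_ge hcase
      linarith
    have hV2pos : 0 < (V2.card : ℝ) := by linarith
    have hV2ne : V2.Nonempty := Finset.card_pos.1 (by exact_mod_cast hV2pos)
    obtain ⟨n, W, hW, hWn, hWc⟩ := hCG S N hSR hK0 hH.unim hN1 V2 hV2s hV2ne (by
      intro i hi
      have := (Finset.mem_filter.1 hi).2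
      push Not at this
      exact this)
    have hWs : W ⊆ S.V := hW.trans hV2s
    have hWpos : 0 < (W.card : ℝ) := by
      by_contra hcon
      have : (W.card : ℝ) ≤ 0 := le_of_not_gt hcon
      have h1 : CG * N ^ 3 * (W.card : ℝ) ≤ 0 := mul_nonpos_of_nonneg_of_nonpos (by positivity) this
      linarith
    have hWV : (W.card : ℝ) ≤ S.V.card := by exact_mod_cast Finset.card_le_card hWs
    have hVW : (S.V.card : ℝ) ≤ 2 * (D * N ^ 3) * (W.card : ℝ) := by
      have h1 : CG * N ^ 3 * (W.card : ℝ) ≤ D * N ^ 3 * (W.card : ℝ) := by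
        refine mul_le_mul_of_nonneg_right ?_ hWpos.le
        exact mul_le_mul_of_nonneg_right hDG (by positivity)
      linarith
    have hdet : n.det ≠ 0 := by
      intro h0
      have hWne : W.Nonempty := Finset.card_pos.1 (by exact_mod_cast hWpos)
      obtain ⟨i, hi⟩ := hWne
      obtain ⟨p1, p2, p3, p4, p5⟩ := hWn i hi
      have h1 := hH.cusp i (hWs hi) n p2 p1 h0 (p4.trans n8) (p5.trans n8)
      rw [hw] at p3
      linarith
    obtain ⟨T, hT, hTc⟩ := hH.ai pool (Finset.Subset.refl _) (Nat.le_mul_of_pos_left _ (by omega)) W hWs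
      (hVW.trans (mul_le_mul_of_nonneg_right n10 hWpos.le))
    obtain ⟨h16, hfin⟩ := hK3 S.K A B S.V.card W.card T.card hKK3 hH.hA hB1 hH.hB' hH.lo hH.up hWpos
      hWV hVW (by rw [← hMeq]; exact hTc)
    have key := hCP (Low_res S W) B N S0 M pool n hSC hSR hK0 hB1 hN1 hS01 hM1
      (by rw [hZeq]; exact n6)
      (by
        change CP * (N ^ 6 * S.w * ((2 * M) ^ (2 * k)) ^ 2) ≤ 1
        rw [hZeq, hw]
        refine le_trans ?_ n3
        exact mul_le_mul_of_nonneg_right hDP (by positivity))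
      (Low_unim hWs hH.unim) (Low_sep hWs hH.sep) hdet
      (fun i hi => ⟨hWn i hi, (Finset.mem_filter.1 (Finset.mem_filter.1 (hW hi)).1).2⟩)
      hH.prm T hT h16
    rw [hZeq] at key
    have e : (Low_res S W).w = 1 / S.K ^ 2 := rfl
    rw [e] at key
    have eV : ((Low_res S W).V.card : ℝ) = (W.card : ℝ) := rfl
    rw [eV] at key
    apply hfin
    refine key.trans ?_
    exact Low_mono hDP (by linarith) (by linarith) (by linarith) (by linarith) hWpos.le
      (Nat.cast_nonneg _) (by linarith)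

end HSLow
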