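import Pool.Agent.Lib.HS.Bd.SpecLow

/-! Module N0 (helper18): smallness of powers. -/

set_option autoImplicit false

namespace HSLow

open Matrix HSL

open Filter in
private lemma N0_ev (e C : ℝ) (he : 0 < e) : ∀ᶠ K : ℝ in atTop, C ≤ K ^ e :=
  (tendsto_rpow_atTop he).eventually_ge_atTop C

private lemma N0_Zk (k : ℕ) (κ K : ℝ) (hk : 1 ≤ k) (hK : 1 < K) :
    Zk k κ K = 4 ^ k * K ^ (1 - 2 * κ) := by
  have hk0 : (k : ℝ) ≠ 0 := by
    have : 0 < k := by omega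
    positivity
  have hK0 : 0 ≤ K := by linarith
  unfold Zk Mk
  rw [mul_pow, pow_mul, ← Real.rpow_natCast (K ^ _) (2 * k), ← Real.rpow_mul hK0]
  congr 1
  · norm_num
  · congr 1
    push_cast
    field_simp

private lemma N0_Zk2 (k : ℕ) (κ K : ℝ) (hk : 1 ≤ k) (hK : 1 < K) :
    1 / K ^ 2 * Zk k κ K ^ 2 = 16 ^ k * K ^ (-(4 * κ)) := by
  have hK0 : 0 < K := by linarith
  rw [N0_Zk k κ K hk hK, mul_pow, ← Real.rpow_natCast (K ^ (1 - 2 * κ)) 2, ← Real.rpow_mul hK0.le]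
  have e1 : ((4 : ℝ) ^ k) ^ 2 = 16 ^ k := by
    rw [← pow_mul, mul_comm k 2, pow_mul]
    norm_num
  have e2 : 1 / K ^ 2 = K ^ (-2 : ℝ) := by
    rw [Real.rpow_neg hK0.le, one_div]
    norm_num
  rw [e1, e2, mul_comm (16 ^ k) _, ← mul_assoc, ← Real.rpow_add hK0, mul_comm]
  congr 2
  push_cast
  ring

private lemma N0_inv (K e C : ℝ) (hK : 1 < K) (h : C ≤ K ^ e) : C * K ^ (-e) ≤ 1 := by
  have hK0 : 0 < K := by linarith
  have h1 : 0 < K ^ (-e) := Real.rpow_pos_of_pos hK0 _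
  calc C * K ^ (-e) ≤ K ^ e * K ^ (-e) := mul_le_mul_of_nonneg_right h h1.le
    _ = 1 := by
      rw [← Real.rpow_add hK0, add_neg_cancel, Real.rpow_zero]

theorem tN0 : S_N0 := by
  intro k κ C1 hk hκ hκk hC1
  have hkr : (1 : ℝ) ≤ k := by exact_mod_cast hk
  have hk0 : (0 : ℝ) < k := by linarith
  have hκ1 : κ ≤ 1 / 200 := by
    refine hκk.trans ?_
    apply one_div_le_one_div_of_le (by norm_num)
    linarith
  have hA := N0_ev ((1 - 2 * κ) / (2 * k)) C1 (by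
    apply div_pos <;> linarith)
  have hB := N0_ev (4 * κ) (C1 * 16 ^ k) (by linarith)
  have hC := N0_ev (4 * κ - 6 * κ / 100) (C1 * 16 ^ k) (by linarith)
  have hD := N0_ev (2 - 6 * κ) C1 (by linarith)
  have hE := N0_ev (1 / 2 - κ / 1000 - 36 * κ) (4 * C1) (by linarith)
  have hF := N0_ev (κ / 5) 8 (by linarith)
  have hG := N0_ev (κ / 5 - 3 * κ / 100) (2 * C1) (by linarith)
  have hall := ((((((hA.and hB).and hC).and hD).and hE).and hF).and hG).and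
    (Filter.eventually_gt_atTop (1 : ℝ))
  obtain ⟨K1, hK1⟩ := Filter.eventually_atTop.mp hall
  refine ⟨max 1 K1, le_max_left _ _, ?_⟩
  intro K hK
  obtain ⟨⟨⟨⟨⟨⟨⟨a, b⟩, c⟩, d⟩, e⟩, f⟩, g⟩, h1⟩ := hK1 K ((le_max_right _ _).trans hK)
  have hK0 : 0 < K := by linarith
  have hz := N0_Zk k κ K hk h1
  have hz2 := N0_Zk2 k κ K hk h1
  have e2 : 1 / K ^ 2 = K ^ (-2 : ℝ) := by
    rw [Real.rpow_neg hK0.le, one_div]
    norm_num
  refine ⟨?_, ?_, ?_, ?_, ?_, ?_, ?_, ?_, f, ?_⟩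
  · exact a
  · rw [hz2, ← mul_assoc]
    exact N0_inv K (4 * κ) _ h1 b
  · have e3 : (K ^ (κ / 100)) ^ 6 * (1 / K ^ 2) * Zk k κ K ^ 2 =
        16 ^ k * K ^ (-(4 * κ - 6 * κ / 100)) := by
      rw [mul_assoc, hz2, ← Real.rpow_natCast (K ^ (κ / 100)) 6, ← Real.rpow_mul hK0.le,
        mul_left_comm, ← Real.rpow_add hK0]
      congr 2
      push_cast
      ring
    rw [e3, ← mul_assoc]
    exact N0_inv K _ _ h1 c
  · rw [e2, ← Real.rpow_add hK0]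
    have e4 : (-2 : ℝ) + 6 * κ = -(2 - 6 * κ) := by ring
    rw [e4]
    exact N0_inv K _ _ h1 d
  · rw [← Real.rpow_natCast (K ^ (6 * κ)) 6, ← Real.rpow_mul hK0.le]
    have e5 : K ^ (1 / 2 : ℝ) =
        K ^ (1 / 2 - κ / 1000 - 36 * κ) * (K ^ (κ / 1000) * K ^ (6 * κ * ((6 : ℕ) : ℝ))) := by
      rw [← Real.rpow_add hK0, ← Real.rpow_add hK0]
      congr 1
      push_cast
      ring
    rw [e5]
    have hp : 0 ≤ K ^ (κ / 1000) * K ^ (6 * κ * ((6 : ℕ) : ℝ)) := by positivity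
    calc 4 * (C1 * K ^ (κ / 1000) * K ^ (6 * κ * ((6 : ℕ) : ℝ))) =
        4 * C1 * (K ^ (κ / 1000) * K ^ (6 * κ * ((6 : ℕ) : ℝ))) := by ring
      _ ≤ _ := mul_le_mul_of_nonneg_right e hp
  · rw [hz]
    have h4 : (1 : ℝ) ≤ 4 ^ k := one_le_pow₀ (by norm_num)
    have h5 : K ^ (κ / 100) ≤ K ^ (1 - 2 * κ) :=
      Real.rpow_le_rpow_of_exponent_le h1.le (by linarith)
    have h6 : 0 ≤ K ^ (1 - 2 * κ) := by positivity
    nlinarith
  · rw [e2, ← Real.rpow_add hK0]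
    exact Real.rpow_lt_rpow_of_exponent_lt h1 (by linarith)
  · exact Real.rpow_le_rpow_of_exponent_le h1.le (by linarith)
  · rw [← Real.rpow_natCast (K ^ (κ / 100)) 3, ← Real.rpow_mul hK0.le]
    have e5 : K ^ (κ / 5) = K ^ (κ / 5 - 3 * κ / 100) * K ^ (κ / 100 * ((3 : ℕ) : ℝ)) := by
      rw [← Real.rpow_add hK0]
      congr 1
      push_cast
      ring
    rw [e5]
    have hp : 0 ≤ K ^ (κ / 100 * ((3 : ℕ) : ℝ)) := by positivity
    calc 2 * (C1 * K ^ (κ / 100 * ((3 : ℕ) : ℝ))) = 2 * C1 * K ^ (κ / 100 * ((3 : ℕ) : ℝ)) := by ring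
      _ ≤ _ := mul_le_mul_of_nonneg_right g hp

end HSLow
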