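import Pool.Agent.Lib.HS.Bd.SpecLow

/-!
# HS/Bd/Lw/NP: nonplanar cells, assembly (helper84)
-/

set_option autoImplicit false

namespace HSLow

open Matrix HSL

noncomputable section

/-- levels are at most `(2M)^j` -/
private lemma NP_lev {Q : Finset ℕ} {M : ℝ} (hM : 1 ≤ M) (hQ : ∀ p ∈ Q, (p : ℝ) ≤ 2 * M) {j m : ℕ}
    (h : Lev Q j m) : (m : ℝ) ≤ (2 * M) ^ j := by
  obtain ⟨h0, h1, h2⟩ := h
  have h3 : m ≤ ⌊2 * M⌋₊ ^ j := by
    calc m = m.primeFactorsList.prod := (Nat.prod_primeFactorsList h0).symm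
      _ ≤ ⌊2 * M⌋₊ ^ m.primeFactorsList.length :=
          List.prod_le_pow_card _ _ fun p hp => Nat.le_floor (hQ p (h2 p hp))
      _ = _ := by rw [h1]
  have h4 : (⌊2 * M⌋₊ : ℝ) ≤ 2 * M := Nat.floor_le (by linarith)
  calc (m : ℝ) ≤ ((⌊2 * M⌋₊ ^ j : ℕ) : ℝ) := by exact_mod_cast h3
    _ = (⌊2 * M⌋₊ : ℝ) ^ j := by push_cast; rfl
    _ ≤ _ := pow_le_pow_left₀ (by positivity) h4 j

/-- Cauchy-Schwarz for the pairs of equal ends -/
private lemma NP_cs {ι : Type} [DecidableEq ι] (V : Finset ι) (T : Finset (ι × ι × MZ))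
    (hT : ∀ t ∈ T, t.1 ∈ V ∧ t.2.1 ∈ V) :
    (T.card : ℝ) ^ 2 ≤ (V.card : ℝ) ^ 2 *
      (((T ×ˢ T).filter fun p => p.1.1 = p.2.1 ∧ p.1.2.1 = p.2.2.1).card : ℝ) := by
  classical
  set f : ι × ι × MZ → ι × ι := fun t => (t.1, t.2.1) with hf
  have h1 : T.card = ∑ c ∈ V ×ˢ V, (T.filter fun t => f t = c).card :=
    Finset.card_eq_sum_card_fiberwise fun t ht => Finset.mem_product.2 (hT t ht)
  have h2 : ((T ×ˢ T).filter fun p => p.1.1 = p.2.1 ∧ p.1.2.1 = p.2.2.1).card =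
      ∑ c ∈ V ×ˢ V, (T.filter fun t => f t = c).card ^ 2 := by
    rw [Finset.card_eq_sum_card_fiberwise (f := fun p : (ι × ι × MZ) × (ι × ι × MZ) => f p.1)
      (t := V ×ˢ V)]
    · refine Finset.sum_congr rfl fun c _ => ?_
      rw [sq, ← Finset.card_product]
      congr 1
      ext p
      simp only [Finset.mem_filter, Finset.mem_product]
      constructor
      · rintro ⟨⟨⟨a1, a2⟩, a3, a4⟩, a5⟩
        refine ⟨⟨a1, a5⟩, a2, ?_⟩
        rw [← a5]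
        exact Prod.ext a3.symm a4.symm
      · rintro ⟨⟨a1, a5⟩, a2, a6⟩
        have h3 : f p.1 = f p.2 := a5.trans a6.symm
        exact ⟨⟨⟨a1, a2⟩, (Prod.ext_iff.1 h3).1, (Prod.ext_iff.1 h3).2⟩, a5⟩
    · intro p hp
      rw [Finset.mem_coe, Finset.mem_filter, Finset.mem_product] at hp
      exact Finset.mem_product.2 (hT p.1 hp.1.1)
  have h3 := sq_sum_le_card_mul_sum_sq (s := V ×ˢ V)
    (f := fun c => ((T.filter fun t => f t = c).card : ℝ))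
  rw [h2]
  rw [Finset.card_product] at h3
  have h4 : (T.card : ℝ) = ∑ c ∈ V ×ˢ V, ((T.filter fun t => f t = c).card : ℝ) := by
    rw [← Nat.cast_sum, ← h1]
  rw [h4]
  push_cast at h3 ⊢
  rw [sq (V.card : ℝ)]
  exact h3

/-- summation over the first cell -/
private lemma NP_fib {ι : Type} [DecidableEq ι] (V : Finset ι) (P : Finset ((ι × ι × MZ) × (ι × ι × MZ)))
    (hP : ∀ p ∈ P, p.1.1 ∈ V ∧ p.1.1 = p.2.1) (b : ℝ)
    (h : ∀ x ∈ V, ∀ A : Finset ((ι × MZ) × (ι × MZ)),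
      (∀ t ∈ A, ∃ p ∈ P, p.1.1 = x ∧ t = (p.1.2, p.2.2)) → (A.card : ℝ) ≤ b) :
    (P.card : ℝ) ≤ (V.card : ℝ) * b := by
  classical
  have h1 : P.card = ∑ x ∈ V, (P.filter fun p => p.1.1 = x).card :=
    Finset.card_eq_sum_card_fiberwise fun p hp => (hP p hp).1
  have h2 : ∀ x ∈ V, ((P.filter fun p => p.1.1 = x).card : ℝ) ≤ b := by
    intro x hx
    have h3 : ((P.filter fun p => p.1.1 = x).image fun p => (p.1.2, p.2.2)).card =
        (P.filter fun p => p.1.1 = x).card := by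
      refine Finset.card_image_of_injOn ?_
      intro p hp q hq he
      rw [Finset.mem_coe, Finset.mem_filter] at hp hq
      have e1 : p.1.2 = q.1.2 := (Prod.ext_iff.1 he).1
      have e2 : p.2.2 = q.2.2 := (Prod.ext_iff.1 he).2
      have e3 : p.1.1 = q.1.1 := hp.2.trans hq.2.symm
      have e4 : p.2.1 = q.2.1 := ((hP p hp.1).2.symm.trans e3).trans (hP q hq.1).2
      exact Prod.ext (Prod.ext e3 e1) (Prod.ext e4 e2)
    rw [← h3]
    refine h x hx _ fun t ht => ?_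
    obtain ⟨p, hp, rfl⟩ := Finset.mem_image.1 ht
    rw [Finset.mem_filter] at hp
    exact ⟨p, hp.1, hp.2, rfl⟩
  rw [h1]
  push_cast
  calc ∑ x ∈ V, ((P.filter fun p => p.1.1 = x).card : ℝ) ≤ ∑ _x ∈ V, b := Finset.sum_le_sum h2
    _ = _ := by rw [Finset.sum_const, nsmul_eq_mul]

/-- the loop of a pair -/
private def NP_s {ι : Type} (p : (ι × ι × MZ) × (ι × ι × MZ)) : MZ := p.2.2.2.adjugate * p.1.2.2

/-- the loop at the other end -/
private def NP_s' {ι : Type} (p : (ι × ι × MZ) × (ι × ι × MZ)) : MZ := p.1.2.2 * p.2.2.2.adjugate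

/-- the pairs of `T` with equal ends -/
private def NP_pr {ι : Type} (T : Finset (ι × ι × MZ)) : Finset ((ι × ι × MZ) × (ι × ι × MZ)) := by
  classical
  exact (T ×ˢ T).filter fun p => p.1.1 = p.2.1 ∧ p.1.2.1 = p.2.2.1

private lemma NP_mem {ι : Type} {T : Finset (ι × ι × MZ)} {p : (ι × ι × MZ) × (ι × ι × MZ)} :
    p ∈ NP_pr T ↔ p.1 ∈ T ∧ p.2 ∈ T ∧ p.1.1 = p.2.1 ∧ p.1.2.1 = p.2.2.1 := by
  classical
  unfold NP_pr
  rw [Finset.mem_filter, Finset.mem_product]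
  tauto

/-- scalar loops -/
private lemma NP_a (hPa : S_Pa) {ι : Type} (T : Finset (ι × ι × MZ))
    (hT : ∀ t ∈ T, Prim t.2.2 ∧ 0 < t.2.2.det) (P : Finset ((ι × ι × MZ) × (ι × ι × MZ)))
    (hP : ∀ p ∈ P, p ∈ NP_pr T ∧ tf (NP_s p) = 0) : P.card ≤ 2 * T.card := by
  classical
  have h1 : ∀ p ∈ P, p.1.2.2 = p.2.2.2 ∨ p.1.2.2 = - p.2.2.2 := by
    intro p hp
    obtain ⟨hp1, hp2⟩ := hP p hp
    obtain ⟨a1, a2, -, -⟩ := NP_mem.1 hp1
    exact hPa.2.2.2.2 _ _ (hT _ a1).1 (hT _ a2).1 (hT _ a1).2 (hT _ a2).2 hp2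
  have h2 : P ⊆ (T ×ˢ ({1, -1} : Finset ℤ)).image
      (fun u : (ι × ι × MZ) × ℤ => ((u.1.1, u.1.2.1, u.2 • u.1.2.2), u.1)) := by
    intro p hp
    obtain ⟨hp1, hp2⟩ := hP p hp
    obtain ⟨a1, a2, a3, a4⟩ := NP_mem.1 hp1
    rw [Finset.mem_image]
    rcases h1 p hp with h | h
    · refine ⟨(p.2, 1), Finset.mem_product.2 ⟨a2, by simp⟩, ?_⟩
      refine Prod.ext (Prod.ext a3.symm (Prod.ext a4.symm ?_)) rfl
      show (1 : ℤ) • p.2.2.2 = p.1.2.2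
      rw [one_smul, h]
    · refine ⟨(p.2, -1), Finset.mem_product.2 ⟨a2, by simp⟩, ?_⟩
      refine Prod.ext (Prod.ext a3.symm (Prod.ext a4.symm ?_)) rfl
      show (-1 : ℤ) • p.2.2.2 = p.1.2.2
      rw [neg_smul, one_smul, h]
  refine (Finset.card_le_card h2).trans (Finset.card_image_le.trans ?_)
  rw [Finset.card_product]
  have : ({1, -1} : Finset ℤ).card = 2 := by decide
  rw [this, mul_comm]

/-- the reversed list -/
private def NP_r {ι : Type} (t : ι × ι × MZ) : ι × ι × MZ := (t.2.1, t.1, t.2.2.adjugate)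

private lemma NP_aa (b : MZ) : b.adjugate.adjugate = b := by
  ext i j
  fin_cases i <;> fin_cases j <;> simp [Matrix.adjugate_fin_two]

private lemma NP_r_inj {ι : Type} : Function.Injective (NP_r (ι := ι)) := by
  intro t t' h
  have e0 := Prod.ext_iff.1 h
  have e0' := Prod.ext_iff.1 e0.2
  have e1 : t.2.1 = t'.2.1 := e0.1
  have e2 : t.1 = t'.1 := e0'.1
  have e3 : t.2.2.adjugate = t'.2.2.adjugate := e0'.2
  have e4 : t.2.2 = t'.2.2 := by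
    have := congrArg Matrix.adjugate e3
    rwa [NP_aa, NP_aa] at this
  exact Prod.ext e2 (Prod.ext e1 e4)

private lemma NP_prim {h : MZ} (hh : Prim h) : Prim h.adjugate := by
  intro r hr
  refine hh r fun i j => ?_
  have h0 : ∀ i j, r ∣ h.adjugate.adjugate i j := by
    intro i j
    rw [Matrix.adjugate_fin_two h.adjugate]
    fin_cases i <;> fin_cases j
    · exact hr 1 1
    · exact (dvd_neg).2 (hr 0 1)
    · exact (dvd_neg).2 (hr 1 0)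
    · exact hr 0 0
  have := h0 i j
  rwa [NP_aa] at this

/-- lists of returns -/
private def NP_Rs (S : Sys) (Q : Finset ℕ) (k : ℕ) (T : Finset (S.ι × S.ι × MZ)) : Prop :=
  ∀ t ∈ T, t.1 ∈ S.V ∧ t.2.1 ∈ S.V ∧ Prim t.2.2 ∧
    ∃ m : ℕ, Lev Q (2 * k) m ∧ Ret ((2 * S.C) ^ k) S.w (S.g t.1) (S.g t.2.1) m t.2.2

private lemma NP_of_Rs (hFr : S_Fr) {S : Sys} {Q : Finset ℕ} {k : ℕ} (hk : 1 ≤ k) (hC : 1 ≤ S.C)
    (hw : 0 ≤ S.w) {T : Finset (S.ι × S.ι × MZ)} (hT : Rs S S.V Q k T) : NP_Rs S Q k T := by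
  intro t ht
  obtain ⟨h1, h2, h3, m, h4, h5⟩ := hT t ht
  refine ⟨h1, h2, h3, m, h4, hFr.2.2.2.2.2.2 _ _ _ _ _ _ _ hw ?_ h5⟩
  calc S.C ≤ (2 * S.C) ^ 1 := by linarith
    _ ≤ (2 * S.C) ^ k := pow_le_pow_right₀ (by linarith) hk

private lemma NP_rev (hFr : S_Fr) {S : Sys} {Q : Finset ℕ} {k : ℕ} [DecidableEq (S.ι × S.ι × MZ)]
    {T : Finset (S.ι × S.ι × MZ)} (hT : NP_Rs S Q k T) : NP_Rs S Q k (T.image NP_r) := by
  intro t ht
  obtain ⟨u, hu, rfl⟩ := Finset.mem_image.1 ht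
  obtain ⟨h1, h2, h3, m, h4, h5⟩ := hT u hu
  exact ⟨h2, h1, NP_prim h3, m, h4, hFr.2.2.2.2.2.1 _ _ _ _ _ _ h5⟩

/-- NP. Nonplanar cells. -/
theorem tNP (hTA : S_TA) (hPq : S_Pq) (hPd : S_Pd) (hPa : S_Pa) (hFr : S_Fr) : S_NP := by
  classical
  intro k C R ε hk hC hR hε
  obtain ⟨cA, hcA, HTA⟩ := hTA k C R ε hk hC hR hε
  obtain ⟨cq, hcq, HPq⟩ := hPq k C R hk hC hR
  obtain ⟨cD, hcD, HPd⟩ := hPd k C R ε hk hC hR hε
  refine ⟨2 + 2 * cA + cq + 2 * cD, by linarith, ?_⟩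
  intro S B N S0 M Q vx hSC hSR hK hB hN hS0 hM hsm hU hO hMn hcell hQ hdet T hT
  set Z : ℝ := (2 * M) ^ (2 * k) with hZ
  have hZ1 : 1 ≤ Z := one_le_pow₀ (by linarith)
  have hw : 0 ≤ S.w := by
    unfold Sys.w
    positivity
  have hwZ : 0 ≤ S.w * Z ^ 2 := by positivity
  have hsA : cA * (S.w * Z ^ 2) ≤ 1 := le_trans (mul_le_mul_of_nonneg_right (by linarith) hwZ) hsm
  have hsq : cq * (S.w * Z ^ 2) ≤ 1 := le_trans (mul_le_mul_of_nonneg_right (by linarith) hwZ) hsm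
  have hsD : cD * (S.w * Z ^ 2) ≤ 1 := le_trans (mul_le_mul_of_nonneg_right (by linarith) hwZ) hsm
  have hlev : ∀ m, Lev Q (2 * k) m → (m : ℝ) ≤ Z := fun m hm => NP_lev hM (fun p hp => (hQ p hp).2.2) hm
  -- part B
  have hBb : ∀ T : Finset (S.ι × S.ι × MZ), NP_Rs S Q k T → ∀ P : Finset ((S.ι × S.ι × MZ) × (S.ι × S.ι × MZ)),
      (∀ p ∈ P, p ∈ NP_pr T ∧ tf (NP_s p) ≠ 0 ∧ ¬ R1 S p.1.1 (tau C k Z / (ct (NP_s p) : ℝ))) →
      (P.card : ℝ) ≤ (S.V.card : ℝ) * (cA * B * Z ^ ε * (S.w ^ 2 * Z ^ 6 + S.w * Z ^ 4 / N)) := by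
    intro T hT P hP
    refine NP_fib S.V P (fun p hp => ⟨(hT _ (NP_mem.1 (hP p hp).1).1).1, (NP_mem.1 (hP p hp).1).2.2.1⟩) _ ?_
    intro x hx A hA
    set H : Finset (S.ι × MZ) := A.image Prod.fst ∪ A.image Prod.snd with hH
    have hHk : Hk S k Z x H := by
      intro t ht
      have h1 : ∃ u ∈ T, u.1 = x ∧ t = u.2 := by
        rw [hH, Finset.mem_union, Finset.mem_image, Finset.mem_image] at ht
        rcases ht with ⟨a, ha, rfl⟩ | ⟨a, ha, rfl⟩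
        · obtain ⟨p, hp, hpx, rfl⟩ := hA a ha
          exact ⟨p.1, (NP_mem.1 (hP p hp).1).1, hpx, rfl⟩
        · obtain ⟨p, hp, hpx, rfl⟩ := hA a ha
          exact ⟨p.2, (NP_mem.1 (hP p hp).1).2.1, (NP_mem.1 (hP p hp).1).2.2.1.symm.trans hpx, rfl⟩
      obtain ⟨u, hu, hux, rfl⟩ := h1
      obtain ⟨h1, h2, h3, m, h4, h5⟩ := hT u hu
      refine ⟨h2, h3, m, ?_, hlev m h4, h4.2.1.le⟩
      rw [← hux]
      exact h5
    have hAp : A ⊆ prs H := by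
      intro t ht
      unfold prs
      rw [Finset.mem_filter, Finset.mem_product]
      refine ⟨⟨Finset.mem_union_left _ (Finset.mem_image_of_mem _ ht),
        Finset.mem_union_right _ (Finset.mem_image_of_mem _ ht)⟩, ?_⟩
      obtain ⟨p, hp, -, rfl⟩ := hA t ht
      exact (NP_mem.1 (hP p hp).1).2.2.2
    refine HTA S B N Z hSC hSR hK hB hN hZ1 hsA hU hO x hx (hcell x hx).1 H hHk A hAp ?_
    intro t ht
    obtain ⟨p, hp, hpx, rfl⟩ := hA t ht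
    refine ⟨(hP p hp).2.1, ?_⟩
    rw [← hpx]
    exact (hP p hp).2.2
  -- part D
  have hDb : ∀ T : Finset (S.ι × S.ι × MZ), NP_Rs S Q k T → ∀ P : Finset ((S.ι × S.ι × MZ) × (S.ι × S.ι × MZ)),
      (∀ p ∈ P, p ∈ NP_pr T ∧ tf (NP_s p) ≠ 0 ∧ R1 S p.1.1 (tau C k Z / (ct (NP_s p) : ℝ)) ∧
        R1 S p.1.2.1 (tau C k Z / (ct (NP_s' p) : ℝ)) ∧
        |fr (S.g p.1.2.1) (S.g p.1.2.1) (vx p.1.2.1) 0 0| ≤ |fr (S.g p.1.1) (S.g p.1.1) (vx p.1.1) 0 0|) →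
      (P.card : ℝ) ≤ (S.V.card : ℝ) * (cD * B ^ 2 * Z ^ ε * (Z ^ 2 / M + Z ^ 2 / S0)) := by
    intro T hT P hP
    have key : ∀ p ∈ P, Tub S p.1.1 (tau C k Z) (vx p.1.1) ∧ Tub S p.1.2.1 (tau C k Z) (vx p.1.2.1) ∧
        brk (tf (p.2.2.2.adjugate * p.1.2.2)) (vx p.1.1) = 0 ∧
        brk (p.1.2.2 * vx p.1.1 * p.1.2.2.adjugate) (vx p.1.2.1) = 0 ∧
        brk (p.2.2.2 * vx p.1.1 * p.2.2.2.adjugate) (vx p.1.2.1) = 0 := by
      intro p hp
      obtain ⟨hp1, hp2, hp3, hp4, hp5⟩ := hP p hp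
      obtain ⟨a1, a2, a3, a4⟩ := NP_mem.1 hp1
      obtain ⟨b1, b2, b3, m, b4, b5⟩ := hT _ a1
      obtain ⟨c1, c2, c3, m', c4, c5⟩ := hT _ a2
      rw [hSC] at b5 c5
      rw [← a3, ← a4] at c5
      exact HPq S Z vx hSC hSR hK hZ1 hsq hU hMn p.1.1 b1 p.1.2.1 b2 p.1.2.2 p.2.2.2 m m' b5 c5
        (hlev m b4) (hlev m' c4) hp2 hp3 hp4
    refine NP_fib S.V P (fun p hp => ⟨(hT _ (NP_mem.1 (hP p hp).1).1).1, (NP_mem.1 (hP p hp).1).2.2.1⟩) _ ?_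
    intro x hx A hA
    rcases A.eq_empty_or_nonempty with rfl | ⟨t0, ht0⟩
    · rw [Finset.card_empty]
      push_cast
      positivity
    have hTx : Tub S x (tau C k Z) (vx x) := by
      obtain ⟨p, hp, hpx, -⟩ := hA t0 ht0
      rw [← hpx]
      exact (key p hp).1
    refine HPd S B S0 M Q vx hSC hSR hK hB hS0 hM hsD hU hO hMn x hx (hcell x hx).2 hTx
      (fun p hp => ⟨(hQ p hp).1, (hQ p hp).2.1, (hQ p hp).2.2, hdet x hx hTx p hp⟩) A ?_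
    intro t ht
    obtain ⟨p, hp, hpx, rfl⟩ := hA t ht
    obtain ⟨k1, k2, k3, k4, k5⟩ := key p hp
    obtain ⟨hp1, hp2, hp3, hp4, hp5⟩ := hP p hp
    obtain ⟨a1, a2, a3, a4⟩ := NP_mem.1 hp1
    obtain ⟨b1, b2, b3, m, b4, b5⟩ := hT _ a1
    obtain ⟨c1, c2, c3, m', c4, c5⟩ := hT _ a2
    rw [hSC] at b5 c5
    rw [← a3] at c5
    subst hpx
    exact ⟨a4, b2, b3, c3, ⟨m, b4, b5⟩, ⟨m', c4, c5⟩, hp2, k3, k2, k4, k5, hp5⟩
  -- the pairs
  have hw1 : NP_Rs S Q k T := NP_of_Rs hFr hk (by rw [hSC]; exact hC) hw hT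
  have hw2 : NP_Rs S Q k (T.image NP_r) := NP_rev hFr hw1
  have hdpos : ∀ t ∈ T, 0 < t.2.2.det := by
    intro t ht
    obtain ⟨-, -, -, m, -, h5⟩ := hw1 t ht
    rw [h5.1]
    have : (0 : ℤ) < m := by exact_mod_cast h5.2.1
    positivity
  set P : Finset ((S.ι × S.ι × MZ) × (S.ι × S.ι × MZ)) := NP_pr T with hP
  have hcs := NP_cs S.V T (fun t ht => ⟨(hT t ht).1, (hT t ht).2.1⟩)
  have hcs' : (T.card : ℝ) ^ 2 ≤ (S.V.card : ℝ) ^ 2 * (P.card : ℝ) := by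
    have e : P = (T ×ˢ T).filter fun p => p.1.1 = p.2.1 ∧ p.1.2.1 = p.2.2.1 := by
      ext p
      rw [hP, NP_mem, Finset.mem_filter, Finset.mem_product]
      tauto
    rw [e]
    exact hcs
  set rr : (S.ι × S.ι × MZ) × (S.ι × S.ι × MZ) → (S.ι × S.ι × MZ) × (S.ι × S.ι × MZ) :=
    fun p => (NP_r p.1, NP_r p.2) with hrr
  have hrrinj : Function.Injective rr := fun p q h =>
    Prod.ext (NP_r_inj (Prod.ext_iff.1 h).1) (NP_r_inj (Prod.ext_iff.1 h).2)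
  have hrs : ∀ p, NP_s (rr p) = (NP_s' p).adjugate := by
    intro p
    show (p.2.2.2.adjugate).adjugate * p.1.2.2.adjugate = (p.1.2.2 * p.2.2.2.adjugate).adjugate
    rw [Matrix.adjugate_mul_distrib]
  have hrs' : ∀ p, NP_s' (rr p) = (NP_s p).adjugate := by
    intro p
    show p.1.2.2.adjugate * (p.2.2.2.adjugate).adjugate = (p.2.2.2.adjugate * p.1.2.2).adjugate
    rw [Matrix.adjugate_mul_distrib]
  have hrmem : ∀ p ∈ P, rr p ∈ NP_pr (T.image NP_r) := by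
    intro p hp
    obtain ⟨a1, a2, a3, a4⟩ := NP_mem.1 hp
    exact NP_mem.2 ⟨Finset.mem_image_of_mem _ a1, Finset.mem_image_of_mem _ a2, a4, a3⟩
  have hrne : ∀ p ∈ P, tf (NP_s p) ≠ 0 → tf (NP_s (rr p)) ≠ 0 := by
    intro p hp h0 h1
    apply h0
    rw [hrs, (hPa.2.2.1 _).2, neg_eq_zero] at h1
    obtain ⟨a1, a2, -, -⟩ := NP_mem.1 hp
    have h2 := hPa.1 p.1.2.2 p.2.2.2
    have h3 : tf (p.1.2.2 * p.2.2.2.adjugate) = 0 := h1
    rw [h3, smul_zero] at h2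
    have h4 : p.1.2.2.det • (p.1.2.2.det • tf (p.2.2.2.adjugate * p.1.2.2)) = 0 := by
      have h5 : p.1.2.2.adjugate * (p.1.2.2 * tf (p.2.2.2.adjugate * p.1.2.2) * p.1.2.2.adjugate) *
          p.1.2.2 = p.1.2.2.det • (p.1.2.2.det • tf (p.2.2.2.adjugate * p.1.2.2)) := by
        rw [Matrix.mul_assoc p.1.2.2, ← Matrix.mul_assoc p.1.2.2.adjugate p.1.2.2, Matrix.adjugate_mul,
          Matrix.smul_mul, Matrix.one_mul, Matrix.smul_mul, Matrix.mul_assoc, Matrix.adjugate_mul,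
          Matrix.mul_smul, Matrix.mul_one]
      rw [← h5, h2, Matrix.mul_zero, Matrix.zero_mul]
    have h6 := (hdpos _ a1).ne'
    rcases smul_eq_zero.1 h4 with h | h
    · exact absurd h h6
    · rcases smul_eq_zero.1 h with h | h
      · exact absurd h h6
      · exact h
  set P1 := P.filter fun p => tf (NP_s p) = 0 with hP1
  set P2 := P.filter fun p => tf (NP_s p) ≠ 0 ∧ ¬ R1 S p.1.1 (tau C k Z / (ct (NP_s p) : ℝ)) with hP2
  set P3 := P.filter fun p => tf (NP_s p) ≠ 0 ∧ ¬ R1 S p.1.2.1 (tau C k Z / (ct (NP_s' p) : ℝ)) with hP3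
  set P4 := P.filter fun p => tf (NP_s p) ≠ 0 ∧ R1 S p.1.1 (tau C k Z / (ct (NP_s p) : ℝ)) ∧
    R1 S p.1.2.1 (tau C k Z / (ct (NP_s' p) : ℝ)) ∧
    |fr (S.g p.1.2.1) (S.g p.1.2.1) (vx p.1.2.1) 0 0| ≤ |fr (S.g p.1.1) (S.g p.1.1) (vx p.1.1) 0 0| with hP4
  set P5 := P.filter fun p => tf (NP_s p) ≠ 0 ∧ R1 S p.1.1 (tau C k Z / (ct (NP_s p) : ℝ)) ∧
    R1 S p.1.2.1 (tau C k Z / (ct (NP_s' p) : ℝ)) ∧
    |fr (S.g p.1.1) (S.g p.1.1) (vx p.1.1) 0 0| ≤ |fr (S.g p.1.2.1) (S.g p.1.2.1) (vx p.1.2.1) 0 0| with hP5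
  have hcov : P ⊆ P1 ∪ (P2 ∪ (P3 ∪ (P4 ∪ P5))) := by
    intro p hp
    simp only [Finset.mem_union, hP1, hP2, hP3, hP4, hP5, Finset.mem_filter]
    by_cases h1 : tf (NP_s p) = 0
    · exact Or.inl ⟨hp, h1⟩
    by_cases h2 : R1 S p.1.1 (tau C k Z / (ct (NP_s p) : ℝ))
    · by_cases h3 : R1 S p.1.2.1 (tau C k Z / (ct (NP_s' p) : ℝ))
      · rcases le_total |fr (S.g p.1.2.1) (S.g p.1.2.1) (vx p.1.2.1) 0 0|
          |fr (S.g p.1.1) (S.g p.1.1) (vx p.1.1) 0 0| with h4 | h4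
        · exact Or.inr (Or.inr (Or.inr (Or.inl ⟨hp, h1, h2, h3, h4⟩)))
        · exact Or.inr (Or.inr (Or.inr (Or.inr ⟨hp, h1, h2, h3, h4⟩)))
      · exact Or.inr (Or.inr (Or.inl ⟨hp, h1, h3⟩))
    · exact Or.inr (Or.inl ⟨hp, h1, h2⟩)
  have hc1 : P1.card ≤ 2 * T.card := by
    refine NP_a hPa T (fun t ht => ⟨(hw1 t ht).2.2.1, hdpos t ht⟩) P1 fun p hp => ?_
    rw [hP1, Finset.mem_filter] at hp
    exact hp
  have hc2 := hBb T hw1 P2 (fun p hp => by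
    rw [hP2, Finset.mem_filter] at hp
    exact ⟨hp.1, hp.2.1, hp.2.2⟩)
  have hc3 := hBb (T.image NP_r) hw2 (P3.image rr) (fun q hq => by
    obtain ⟨p, hp, rfl⟩ := Finset.mem_image.1 hq
    rw [hP3, Finset.mem_filter] at hp
    refine ⟨hrmem p hp.1, hrne p hp.1 hp.2.1, ?_⟩
    rw [hrs, (hPa.2.2.1 _).1]
    exact hp.2.2)
  have hc4 := hDb T hw1 P4 (fun p hp => by
    rw [hP4, Finset.mem_filter] at hp
    exact ⟨hp.1, hp.2.1, hp.2.2.1, hp.2.2.2.1, hp.2.2.2.2⟩)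
  have hc5 := hDb (T.image NP_r) hw2 (P5.image rr) (fun q hq => by
    obtain ⟨p, hp, rfl⟩ := Finset.mem_image.1 hq
    rw [hP5, Finset.mem_filter] at hp
    refine ⟨hrmem p hp.1, hrne p hp.1 hp.2.1, ?_, ?_, hp.2.2.2.2⟩
    · rw [hrs, (hPa.2.2.1 _).1]
      exact hp.2.2.2.1
    · rw [hrs', (hPa.2.2.1 _).1]
      exact hp.2.2.1)
  rw [Finset.card_image_of_injective _ hrrinj] at hc3 hc5
  have hPc : P.card ≤ P1.card + (P2.card + (P3.card + (P4.card + P5.card))) := by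
    refine (Finset.card_le_card hcov).trans ?_
    refine (Finset.card_union_le _ _).trans (Nat.add_le_add_left ?_ _)
    refine (Finset.card_union_le _ _).trans (Nat.add_le_add_left ?_ _)
    refine (Finset.card_union_le _ _).trans (Nat.add_le_add_left ?_ _)
    exact Finset.card_union_le _ _
  have hPc' : (P.card : ℝ) ≤ P1.card + (P2.card + (P3.card + (P4.card + P5.card))) := by exact_mod_cast hPc
  have hc1' : (P1.card : ℝ) ≤ 2 * T.card := by exact_mod_cast hc1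
  -- numbers
  set V : ℝ := (S.V.card : ℝ) with hV
  have hV0 : 0 ≤ V := by positivity
  set t : ℝ := (T.card : ℝ) with ht
  have ht0 : 0 ≤ t := by positivity
  set z : ℝ := Z ^ ε with hz
  have hz0 : 0 ≤ z := by positivity
  set e1 : ℝ := S.w ^ 2 * Z ^ 6 + S.w * Z ^ 4 / N with he1
  set e2 : ℝ := Z ^ 2 / M + Z ^ 2 / S0 with he2
  have he10 : 0 ≤ e1 := by positivity
  have he20 : 0 ≤ e2 := by positivity
  have hB2 : B ≤ B ^ 2 := le_self_pow₀ hB (by norm_num)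
  have hB1 : 1 ≤ B ^ 2 := one_le_pow₀ hB
  have k1 : V * (cA * B * z * e1) ≤ V * (cA * B ^ 2 * z * e1) := by
    refine mul_le_mul_of_nonneg_left ?_ hV0
    refine mul_le_mul_of_nonneg_right ?_ he10
    refine mul_le_mul_of_nonneg_right ?_ hz0
    exact mul_le_mul_of_nonneg_left hB2 (by linarith)
  have k2 : (P.card : ℝ) ≤ 2 * t + 2 * (V * (cA * B ^ 2 * z * e1)) + 2 * (V * (cD * B ^ 2 * z * e2)) := by
    linarith
  have hg : 0 ≤ B ^ 2 * (V * z * e1) := by positivity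
  have hg' : 0 ≤ B ^ 2 * (V * z * e2) := by positivity
  have k3 : 2 * t + 2 * (V * (cA * B ^ 2 * z * e1)) + 2 * (V * (cD * B ^ 2 * z * e2)) ≤
      (2 + 2 * cA + cq + 2 * cD) * B ^ 2 * (V * z * (e1 + e2) + t) := by
    have l1 : 2 * t ≤ (2 + 2 * cA + cq + 2 * cD) * B ^ 2 * t := by
      have : 2 * 1 ≤ (2 + 2 * cA + cq + 2 * cD) * B ^ 2 :=
        mul_le_mul (by linarith) hB1 (by norm_num) (by linarith)
      rw [mul_one] at this
      exact mul_le_mul_of_nonneg_right this ht0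
    have l2 : 2 * cA * (B ^ 2 * (V * z * e1)) ≤ (2 + 2 * cA + cq + 2 * cD) * (B ^ 2 * (V * z * e1)) :=
      mul_le_mul_of_nonneg_right (by linarith) hg
    have l3 : 2 * cD * (B ^ 2 * (V * z * e2)) ≤ (2 + 2 * cA + cq + 2 * cD) * (B ^ 2 * (V * z * e2)) :=
      mul_le_mul_of_nonneg_right (by linarith) hg'
    calc 2 * t + 2 * (V * (cA * B ^ 2 * z * e1)) + 2 * (V * (cD * B ^ 2 * z * e2))
        = 2 * t + 2 * cA * (B ^ 2 * (V * z * e1)) + 2 * cD * (B ^ 2 * (V * z * e2)) := by ring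
      _ ≤ (2 + 2 * cA + cq + 2 * cD) * B ^ 2 * t +
          (2 + 2 * cA + cq + 2 * cD) * (B ^ 2 * (V * z * e1)) +
          (2 + 2 * cA + cq + 2 * cD) * (B ^ 2 * (V * z * e2)) := by linarith
      _ = _ := by ring
  calc t ^ 2 ≤ V ^ 2 * (P.card : ℝ) := hcs'
    _ ≤ V ^ 2 * ((2 + 2 * cA + cq + 2 * cD) * B ^ 2 * (V * z * (e1 + e2) + t)) :=
        mul_le_mul_of_nonneg_left (k2.trans k3) (by positivity)
    _ = _ := by
        rw [he1, he2]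
        ring

end

end HSLow
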