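import Pool.Agent.Lib.HS.Bd.SpecLow

/-!
HS/Bd/Lw, module Nn: numbers, nonplanar case (helper62).
-/

set_option autoImplicit false

namespace HSLow

open Matrix HSL Filter

noncomputable section

/-- the powers of `K`: `X = K^(κ/1000)`, `u = K^κ` -/
structure Nn_F (k : ℕ) (κ C K X u : ℝ) : Prop where
  hK : 1 ≤ K
  hX : 1 ≤ X
  hC : C ≤ X
  hs : K ^ (κ / 100) = X ^ 10
  hu : (X ^ 10) ^ 20 ≤ u
  h6 : K ^ (6 * κ) = u ^ 6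
  h8 : K ^ (-(8 * κ)) = (u ^ 8)⁻¹
  h2 : K ^ (-2 - κ / 1000) = (K ^ 2 * X)⁻¹
  hM : Mk k κ K ^ (4 * k) = K ^ 2 / u ^ 4
  hZ : Zk k κ K = 4 ^ k * (K / u ^ 2)
  hZs : Zk k κ K ^ (κ / 1000) ≤ 4 ^ k * X
  hMu : u ^ 5 ≤ Mk k κ K

lemma Nn_pow {K : ℝ} (hK : 0 ≤ K) (a : ℝ) (n : ℕ) : (K ^ a) ^ n = K ^ (a * n) := by
  rw [← Real.rpow_natCast, ← Real.rpow_mul hK]

theorem Nn_base (k : ℕ) (κ C : ℝ) (hk : 1 ≤ k) (hκ : 0 < κ) (hκk : κ ≤ 1 / (200 * (k : ℝ))) :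
    ∃ K0 : ℝ, 1 ≤ K0 ∧ ∀ K : ℝ, K0 ≤ K → Nn_F k κ C K (K ^ (κ / 1000)) (K ^ κ) := by
  have hσ : 0 < κ / 1000 := by positivity
  obtain ⟨K0, hK0⟩ := eventually_atTop.mp ((tendsto_rpow_atTop hσ).eventually_ge_atTop C)
  refine ⟨max K0 1, le_max_right _ _, fun K hK => ?_⟩
  have hK1 : 1 ≤ K := (le_max_right _ _).trans hK
  have hKp : 0 < K := by linarith
  have hk1 : (1 : ℝ) ≤ k := by exact_mod_cast hk
  have hk0 : (0 : ℝ) < k := by linarith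
  have hkk : κ * k ≤ 1 / 200 := by
    rw [le_div_iff₀ (by positivity)] at hκk
    linarith
  have hκ2 : κ ≤ 1 / 200 := by nlinarith
  have hu0 : 0 < K ^ κ := Real.rpow_pos_of_pos hKp _
  have hMk : 0 < Mk k κ K := Real.rpow_pos_of_pos hKp _
  have hZ : Zk k κ K = 4 ^ k * (K / (K ^ κ) ^ 2) := by
    unfold Zk Mk
    rw [mul_pow, pow_mul (2 : ℝ) 2 k, Nn_pow hKp.le, Nn_pow hKp.le]
    have e1 : (1 - 2 * κ) / (2 * (k : ℝ)) * ((2 * k : ℕ) : ℝ) = 1 - κ * 2 := by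
      push_cast
      field_simp
    have e2 : K ^ (1 - κ * 2) = K / K ^ (κ * ((2 : ℕ) : ℝ)) := by
      rw [Real.rpow_sub hKp, Real.rpow_one]
      norm_num
    rw [e1, e2]
    norm_num
  have hu1 : 1 ≤ K ^ κ := Real.one_le_rpow hK1 hκ.le
  refine ⟨hK1, Real.one_le_rpow hK1 hσ.le, hK0 K ((le_max_left _ _).trans hK), ?_, ?_, ?_, ?_, ?_,
    ?_, hZ, ?_, ?_⟩
  · rw [Nn_pow hKp.le]
    congr 1
    push_cast
    ring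
  · rw [Nn_pow hKp.le, Nn_pow hKp.le]
    refine Real.rpow_le_rpow_of_exponent_le hK1 ?_
    push_cast
    linarith
  · rw [Nn_pow hKp.le]
    congr 1
    push_cast
    ring
  · rw [Nn_pow hKp.le, Real.rpow_neg hKp.le]
    congr 2
    push_cast
    ring
  · have e : (-2 - κ / 1000 : ℝ) = -(2 + κ / 1000) := by ring
    rw [e, Real.rpow_neg hKp.le, Real.rpow_add hKp, Real.rpow_two]
  · unfold Mk
    rw [Nn_pow hKp.le, Nn_pow hKp.le]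
    have e1 : (1 - 2 * κ) / (2 * (k : ℝ)) * ((4 * k : ℕ) : ℝ) = 2 - κ * ((4 : ℕ) : ℝ) := by
      push_cast
      field_simp
      ring
    rw [e1, Real.rpow_sub hKp, Real.rpow_two]
  · rw [hZ]
    have h4 : (1 : ℝ) ≤ 4 ^ k := one_le_pow₀ (by norm_num)
    have hle : K / (K ^ κ) ^ 2 ≤ K := div_le_self hKp.le (one_le_pow₀ hu1)
    rw [Real.mul_rpow (by positivity) (by positivity)]
    have h5 : ((4 : ℝ) ^ k) ^ (κ / 1000) ≤ 4 ^ k := by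
      calc ((4 : ℝ) ^ k) ^ (κ / 1000) ≤ ((4 : ℝ) ^ k) ^ (1 : ℝ) :=
            Real.rpow_le_rpow_of_exponent_le h4 (by linarith)
        _ = 4 ^ k := Real.rpow_one _
    have h6 : (K / (K ^ κ) ^ 2) ^ (κ / 1000) ≤ K ^ (κ / 1000) :=
      Real.rpow_le_rpow (by positivity) hle hσ.le
    exact mul_le_mul h5 h6 (by positivity) (by positivity)
  · rw [Nn_pow hKp.le]
    unfold Mk
    refine Real.rpow_le_rpow_of_exponent_le hK1 ?_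
    rw [le_div_iff₀ (by positivity)]
    push_cast
    nlinarith

/-- the bracket -/
lemma Nn_br {K X u c Z M : ℝ} (hK : 1 ≤ K) (hX : 1 ≤ X) (hc : 1 ≤ c) (hu : X ^ 10 ≤ u)
    (hZ : Z = c * (K / u ^ 2)) (hM : u ^ 5 ≤ M) :
    (1 / K ^ 2) ^ 2 * Z ^ 6 + 1 / K ^ 2 * Z ^ 4 / X ^ 10 + Z ^ 2 / M + Z ^ 2 / u ^ 6 ≤
      4 * (c ^ 6 * K ^ 2 / (u ^ 8 * X ^ 10)) := by
  have hK0 : 0 < K := by linarith
  have hX0 : 0 < X := by linarith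
  have hc0 : 0 < c := by linarith
  have hY1 : 1 ≤ X ^ 10 := one_le_pow₀ hX
  have hY0 : 0 < X ^ 10 := by linarith
  obtain ⟨Y, hY⟩ : ∃ Y, Y = X ^ 10 := ⟨_, rfl⟩
  rw [← hY] at hu hY1 hY0 ⊢
  have hu1 : 1 ≤ u := hY1.trans hu
  have hu0 : 0 < u := by linarith
  have c26 : c ^ 2 ≤ c ^ 6 := pow_le_pow_right₀ hc (by norm_num)
  have c46 : c ^ 4 ≤ c ^ 6 := pow_le_pow_right₀ hc (by norm_num)
  have hden : 0 < u ^ 8 * Y := by positivity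
  have t1 : (1 / K ^ 2) ^ 2 * Z ^ 6 ≤ c ^ 6 * K ^ 2 / (u ^ 8 * Y) := by
    have e : (1 / K ^ 2) ^ 2 * Z ^ 6 = c ^ 6 * K ^ 2 / (u ^ 8 * u ^ 4) := by
      rw [hZ]
      field_simp
    rw [e]
    have h1 : Y ≤ u ^ 4 := hu.trans (le_self_pow₀ hu1 (by norm_num))
    gcongr
  have t2 : 1 / K ^ 2 * Z ^ 4 / Y ≤ c ^ 6 * K ^ 2 / (u ^ 8 * Y) := by
    have e : 1 / K ^ 2 * Z ^ 4 / Y = c ^ 4 * K ^ 2 / (u ^ 8 * Y) := by
      rw [hZ]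
      field_simp
    rw [e]
    gcongr
  have t3 : Z ^ 2 / M ≤ c ^ 6 * K ^ 2 / (u ^ 8 * Y) := by
    have e : Z ^ 2 / u ^ 5 = c ^ 2 * K ^ 2 / (u ^ 8 * u) := by
      rw [hZ]
      field_simp
    calc Z ^ 2 / M ≤ Z ^ 2 / u ^ 5 := by gcongr
      _ = c ^ 2 * K ^ 2 / (u ^ 8 * u) := e
      _ ≤ c ^ 6 * K ^ 2 / (u ^ 8 * Y) := by gcongr
  have t4 : Z ^ 2 / u ^ 6 ≤ c ^ 6 * K ^ 2 / (u ^ 8 * Y) := by
    have e : Z ^ 2 / u ^ 6 = c ^ 2 * K ^ 2 / (u ^ 8 * u ^ 2) := by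
      rw [hZ]
      field_simp
    have h1 : Y ≤ u ^ 2 := hu.trans (le_self_pow₀ hu1 (by norm_num))
    rw [e]
    gcongr
  linarith

/-- lower bound for `A` -/
lemma Nn_A {K X u A V : ℝ} (hu : 0 < u) (hA : 0 < A)
    (h2 : (K ^ 2 * X)⁻¹ ≤ A ^ 2 * V) (h8 : A * V ≤ (u ^ 8)⁻¹) : u ^ 8 / (K ^ 2 * X) ≤ A := by
  have h1 : (K ^ 2 * X)⁻¹ ≤ A * (u ^ 8)⁻¹ := by
    calc (K ^ 2 * X)⁻¹ ≤ A ^ 2 * V := h2
      _ = A * (A * V) := by ring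
      _ ≤ A * (u ^ 8)⁻¹ := mul_le_mul_of_nonneg_left h8 hA.le
  calc u ^ 8 / (K ^ 2 * X) = (K ^ 2 * X)⁻¹ * u ^ 8 := by rw [div_eq_mul_inv, mul_comm]
    _ ≤ A * (u ^ 8)⁻¹ * u ^ 8 := mul_le_mul_of_nonneg_right h1 (by positivity)
    _ = A := by
      rw [mul_assoc, inv_mul_cancel₀ (by positivity), mul_one]

lemma Nn_core {K A B V W T X u c Z Zs M C1 : ℝ} (hK : 1 ≤ K) (hX : 1 ≤ X) (hc : 1 ≤ c)
    (hC1 : 1 ≤ C1) (hC : 64 * C1 * c ^ 7 + 1 ≤ X) (hu : X ^ 10 ≤ u) (hA : 0 < A) (hB : 1 ≤ B)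
    (hBX : B ≤ X) (h2 : (K ^ 2 * X)⁻¹ ≤ A ^ 2 * V) (h8 : A * V ≤ (u ^ 8)⁻¹) (hW : 0 < W)
    (hV : V ≤ 8 * W) (hAT : A * (K ^ 2 / u ^ 4) * W ^ 2 ≤ X * T) (hZ : Z = c * (K / u ^ 2))
    (hZs0 : 0 ≤ Zs) (hZs : Zs ≤ c * X) (hM : u ^ 5 ≤ M)
    (hT : T ^ 2 ≤ C1 * B ^ 2 * W ^ 2 * (W * Zs * ((1 / K ^ 2) ^ 2 * Z ^ 6 +
      1 / K ^ 2 * Z ^ 4 / X ^ 10 + Z ^ 2 / M + Z ^ 2 / u ^ 6) + T)) : False := by
  have hK0 : 0 < K := by linarith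
  have hX0 : 0 < X := by linarith
  have hc0 : 0 < c := by linarith
  have hY1 : 1 ≤ X ^ 10 := one_le_pow₀ hX
  have hu1 : 1 ≤ u := hY1.trans hu
  have hu0 : 0 < u := by linarith
  have hC10 : 0 < C1 := by linarith
  have hB0 : 0 < B := by linarith
  have hA1 := Nn_A hu0 hA h2 h8
  have hS := Nn_br hK hX hc hu hZ hM
  obtain ⟨S, hSd⟩ : ∃ S, S = (1 / K ^ 2) ^ 2 * Z ^ 6 +
      1 / K ^ 2 * Z ^ 4 / X ^ 10 + Z ^ 2 / M + Z ^ 2 / u ^ 6 := ⟨_, rfl⟩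
  have hM0 : 0 < M := lt_of_lt_of_le (by positivity) hM
  have hS0 : 0 ≤ S := by
    rw [hSd]
    positivity
  rw [← hSd] at hS hT
  -- lower bounds for T
  have hTlow : A * (K ^ 2 / u ^ 4) * W ^ 2 / X ≤ T := by
    rw [div_le_iff₀ hX0, mul_comm T X]
    exact hAT
  have hT0 : 0 < T := lt_of_lt_of_le (by positivity) hTlow
  have hT1 : W ^ 2 * (u ^ 4 / X ^ 2) ≤ T := by
    refine le_trans ?_ hTlow
    calc W ^ 2 * (u ^ 4 / X ^ 2) = (u ^ 8 / (K ^ 2 * X)) * (K ^ 2 / u ^ 4) * W ^ 2 / X := by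
          field_simp
      _ ≤ A * (K ^ 2 / u ^ 4) * W ^ 2 / X := by gcongr
  have hT2 : K ^ 2 * W ^ 3 / (8 * u ^ 8 * X ^ 3) ≤ T ^ 2 := by
    have h1 : (K ^ 2 * X)⁻¹ ≤ A ^ 2 * (8 * W) :=
      h2.trans (mul_le_mul_of_nonneg_left hV (by positivity))
    calc K ^ 2 * W ^ 3 / (8 * u ^ 8 * X ^ 3)
        = (K ^ 2 * X)⁻¹ * (K ^ 4 * W ^ 3 / (8 * u ^ 8 * X ^ 2)) := by field_simp
      _ ≤ A ^ 2 * (8 * W) * (K ^ 4 * W ^ 3 / (8 * u ^ 8 * X ^ 2)) :=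
          mul_le_mul_of_nonneg_right h1 (by positivity)
      _ = (A * (K ^ 2 / u ^ 4) * W ^ 2 / X) ^ 2 := by field_simp
      _ ≤ T ^ 2 := pow_le_pow_left₀ (by positivity) hTlow 2
  have hc7 : 1 ≤ c ^ 7 := one_le_pow₀ hc
  have hcX : 64 * C1 ≤ 64 * C1 * c ^ 7 := le_mul_of_one_le_right (by positivity) hc7
  have hsplit : T ^ 2 ≤ 2 * (C1 * B ^ 2 * W ^ 2 * T) ∨
      T ^ 2 ≤ 2 * (C1 * B ^ 2 * W ^ 2 * (W * Zs * S)) := by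
    by_contra hcon
    push Not at hcon
    nlinarith [hcon.1, hcon.2, hT]
  rcases hsplit with ha | hb
  · have h1 : T ≤ 2 * (C1 * B ^ 2 * W ^ 2) := by
      have : T * T ≤ 2 * (C1 * B ^ 2 * W ^ 2) * T := by nlinarith [ha]
      exact le_of_mul_le_mul_right this hT0
    have h2 : W ^ 2 * (u ^ 4 / X ^ 2) ≤ W ^ 2 * (2 * C1 * X ^ 2) := by
      calc W ^ 2 * (u ^ 4 / X ^ 2) ≤ 2 * (C1 * B ^ 2 * W ^ 2) := hT1.trans h1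
        _ ≤ 2 * (C1 * X ^ 2 * W ^ 2) := by gcongr
        _ = W ^ 2 * (2 * C1 * X ^ 2) := by ring
    have h3 : u ^ 4 / X ^ 2 ≤ 2 * C1 * X ^ 2 := le_of_mul_le_mul_left h2 (by positivity)
    rw [div_le_iff₀ (by positivity)] at h3
    have h4 : X ^ 10 ≤ u ^ 4 := hu.trans (le_self_pow₀ hu1 (by norm_num))
    have h5 : 2 * C1 * X ^ 2 * X ^ 2 = 2 * C1 * X ^ 4 := by ring
    rw [h5] at h3
    have h6 : 2 * C1 * X ^ 4 < X * X ^ 4 := by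
      apply mul_lt_mul_of_pos_right _ (by positivity)
      linarith
    have h7 : X * X ^ 4 ≤ X ^ 10 := by
      calc X * X ^ 4 = X ^ 5 := by ring
        _ ≤ X ^ 10 := pow_le_pow_right₀ hX (by norm_num)
    linarith
  · have h1 : T ^ 2 ≤ 8 * C1 * c ^ 7 * K ^ 2 * W ^ 3 / (u ^ 8 * X ^ 7) := by
      calc T ^ 2 ≤ 2 * (C1 * B ^ 2 * W ^ 2 * (W * Zs * S)) := hb
        _ ≤ 2 * (C1 * X ^ 2 * W ^ 2 * (W * (c * X) *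
            (4 * (c ^ 6 * K ^ 2 / (u ^ 8 * X ^ 10))))) := by gcongr
        _ = 8 * C1 * c ^ 7 * K ^ 2 * W ^ 3 / (u ^ 8 * X ^ 7) := by
          field_simp
          ring
    have h2 := hT2.trans h1
    rw [div_le_div_iff₀ (by positivity) (by positivity)] at h2
    have h3 : K ^ 2 * W ^ 3 * u ^ 8 * X ^ 3 * X ^ 4 ≤
        K ^ 2 * W ^ 3 * u ^ 8 * X ^ 3 * (64 * C1 * c ^ 7) := by
      calc K ^ 2 * W ^ 3 * u ^ 8 * X ^ 3 * X ^ 4 = K ^ 2 * W ^ 3 * (u ^ 8 * X ^ 7) := by ring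
        _ ≤ 8 * C1 * c ^ 7 * K ^ 2 * W ^ 3 * (8 * u ^ 8 * X ^ 3) := h2
        _ = _ := by ring
    have h4 : X ^ 4 ≤ 64 * C1 * c ^ 7 := le_of_mul_le_mul_left h3 (by positivity)
    have h5 : X ≤ X ^ 4 := le_self_pow₀ hX (by norm_num)
    linarith

theorem tNn : S_Nn := by
  intro k κ C1 hk hκ hκk hC1
  obtain ⟨K0, hK0, h⟩ := Nn_base k κ (64 * C1 * (4 ^ k) ^ 7 + 1) hk hκ hκk
  refine ⟨K0, hK0, fun K A B V W T hK hA hB hBX h2 h8 hW hWV hV hAT hT => ?_⟩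
  have F := h K hK
  rw [F.h2] at h2
  rw [F.h8] at h8
  rw [F.hM] at hAT
  rw [F.hs, F.h6] at hT
  have hY1 : 1 ≤ (K ^ (κ / 1000)) ^ 10 := one_le_pow₀ F.hX
  have hu : (K ^ (κ / 1000)) ^ 10 ≤ K ^ κ :=
    (le_self_pow₀ hY1 (by norm_num)).trans F.hu
  have hZ0 : 0 ≤ Zk k κ K := by
    rw [F.hZ]
    have := F.hK
    positivity
  exact Nn_core F.hK F.hX (one_le_pow₀ (by norm_num)) hC1 F.hC hu hA hB hBX h2 h8 hW hV hAT F.hZ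
    (Real.rpow_nonneg hZ0 _) F.hZs F.hMu hT

end

end HSLow
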