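import Pool.Agent.Lib.HS.Bd.SpecLow
import Pool.Agent.Lib.HS.Bd.Lw.Nn

/-!
HS/Bd/Lw, module Np: numbers, planar case (helper62). The powers of `K` are computed in `Nn_base`.
-/

set_option autoImplicit false

namespace HSLow

open Matrix HSL

noncomputable section

/-- lower bounds for `r = T/W^2` -/
lemma Np_low {K A V W T X Y u C1 : ℝ} (hK : 0 < K) (hX : 0 < X) (hY : 0 < Y) (hC1 : 0 < C1)
    (hu : 0 < u) (hA : 0 < A) (h2 : (K ^ 2 * X)⁻¹ ≤ A ^ 2 * V) (h8 : A * V ≤ (u ^ 8)⁻¹)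
    (hW : 0 < W) (hV : V ≤ 2 * (C1 * Y ^ 3) * W)
    (hAT : A * (K ^ 2 / u ^ 4) * W ^ 2 ≤ X * T) :
    u ^ 4 / X ^ 2 ≤ T / W ^ 2 ∧ K ^ 2 / (2 * C1 * Y ^ 3 * X ^ 3 * u ^ 8) ≤ (T / W ^ 2) ^ 2 * W := by
  have hA1 := Nn_A hu hA h2 h8
  have hr : A * K ^ 2 / (u ^ 4 * X) ≤ T / W ^ 2 := by
    rw [div_le_div_iff₀ (by positivity) (by positivity)]
    have h3 : A * (K ^ 2 / u ^ 4) * W ^ 2 * u ^ 4 ≤ X * T * u ^ 4 :=
      mul_le_mul_of_nonneg_right hAT (by positivity)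
    have h4 : A * (K ^ 2 / u ^ 4) * W ^ 2 * u ^ 4 = A * K ^ 2 * W ^ 2 := by field_simp
    rw [h4] at h3
    linarith
  constructor
  · refine le_trans ?_ hr
    calc u ^ 4 / X ^ 2 = (u ^ 8 / (K ^ 2 * X)) * K ^ 2 / (u ^ 4 * X) := by field_simp
      _ ≤ A * K ^ 2 / (u ^ 4 * X) := by gcongr
  · have h1 : (K ^ 2 * X)⁻¹ ≤ A ^ 2 * (2 * (C1 * Y ^ 3) * W) :=
      h2.trans (mul_le_mul_of_nonneg_left hV (by positivity))
    calc K ^ 2 / (2 * C1 * Y ^ 3 * X ^ 3 * u ^ 8)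
        = (K ^ 2 * X)⁻¹ * (K ^ 4 / (2 * C1 * Y ^ 3 * X ^ 2 * u ^ 8)) := by field_simp
      _ ≤ A ^ 2 * (2 * (C1 * Y ^ 3) * W) * (K ^ 4 / (2 * C1 * Y ^ 3 * X ^ 2 * u ^ 8)) :=
          mul_le_mul_of_nonneg_right h1 (by positivity)
      _ = (A * K ^ 2 / (u ^ 4 * X)) ^ 2 * W := by field_simp
      _ ≤ (T / W ^ 2) ^ 2 * W :=
          mul_le_mul_of_nonneg_right (pow_le_pow_left₀ (by positivity) hr 2) hW.le

lemma Np_core {K A B V W T X Y u c Z Zs C1 : ℝ} (hK : 1 ≤ K) (hX : 1 ≤ X) (hXY : X ^ 10 = Y)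
    (hc : 1 ≤ c) (hC1 : 1 ≤ C1) (hC : 4 * C1 ^ 2 * c ^ 5 + 16 ≤ X) (hu : Y ^ 20 ≤ u) (hA : 0 < A)
    (hB : 1 ≤ B) (hBX : B ≤ X) (h2 : (K ^ 2 * X)⁻¹ ≤ A ^ 2 * V) (h8 : A * V ≤ (u ^ 8)⁻¹)
    (hW : 0 < W) (hV : V ≤ 2 * (C1 * Y ^ 3) * W)
    (hAT : A * (K ^ 2 / u ^ 4) * W ^ 2 ≤ X * T) (hZ : Z = c * (K / u ^ 2))
    (hZs0 : 0 ≤ Zs) (hZs : Zs ≤ c * X) :
    16 * W ^ 2 ≤ T ∧ (T ≤ C1 * B * Y ^ 30 * Zs * W * (1 / K ^ 2 * Z ^ 4 / (T / W ^ 2) ^ 3 +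
      Z ^ 2 / ((T / W ^ 2) * u ^ 6)) → False) := by
  have hK0 : 0 < K := by linarith
  have hX0 : 0 < X := by linarith
  have hc0 : 0 < c := by linarith
  have hC10 : 0 < C1 := by linarith
  have hB0 : 0 < B := by linarith
  have hcc : 0 < 4 * C1 ^ 2 * c ^ 5 := by positivity
  have hX16 : 16 ≤ X := by linarith
  have hXX : X ≤ Y := by rw [← hXY]; exact le_self_pow₀ hX (by norm_num)
  have hY1 : 1 < Y := by linarith
  have hY0 : 0 < Y := by linarith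
  have hYu : Y ≤ u := (le_self_pow₀ hY1.le (by norm_num)).trans hu
  have hu1 : 1 ≤ u := by linarith
  have hu0 : 0 < u := by linarith
  obtain ⟨l1, l2⟩ := Np_low hK0 hX0 hY0 hC10 hu0 hA h2 h8 hW hV hAT
  obtain ⟨r, hr⟩ : ∃ r, r = T / W ^ 2 := ⟨_, rfl⟩
  have hTr : T = r * W ^ 2 := by rw [hr]; field_simp
  rw [← hr] at l1 l2 ⊢
  have hr0 : 0 < r := lt_of_lt_of_le (by positivity) l1
  constructor
  · have h1 : 16 ≤ u ^ 4 / X ^ 2 := by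
      rw [le_div_iff₀ (by positivity)]
      calc 16 * X ^ 2 ≤ X * X ^ 2 := by gcongr
        _ = X ^ 3 := by ring
        _ ≤ X ^ 4 := pow_le_pow_right₀ hX (by norm_num)
        _ ≤ u ^ 4 := pow_le_pow_left₀ hX0.le (hXX.trans hYu) 4
    rw [hTr]
    exact mul_le_mul_of_nonneg_right (h1.trans l1) (by positivity)
  · intro hT
    have e1 : 1 / K ^ 2 * Z ^ 4 / r ^ 3 = c ^ 4 * K ^ 2 / (u ^ 8 * r ^ 3) := by
      rw [hZ]
      field_simp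
    have e2 : Z ^ 2 / (r * u ^ 6) = c ^ 2 * K ^ 2 / (u ^ 10 * r) := by
      rw [hZ]
      field_simp
    rw [e1, e2, hTr] at hT
    -- the contradiction for u
    have hub : Y ^ 34 < u ^ 2 := by
      calc Y ^ 34 < Y ^ 40 := pow_lt_pow_right₀ hY1 (by norm_num)
        _ = (Y ^ 20) ^ 2 := by ring
        _ ≤ u ^ 2 := pow_le_pow_left₀ (by positivity) hu 2
    have hu28 : u ^ 2 ≤ u ^ 8 := pow_le_pow_right₀ hu1 (by norm_num)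
    have hm : r * W ^ 2 ≤ C1 * X * Y ^ 30 * (c * X) * W * (c ^ 4 * K ^ 2 / (u ^ 8 * r ^ 3) +
        c ^ 2 * K ^ 2 / (u ^ 10 * r)) := by
      refine hT.trans ?_
      gcongr
    have hsplit : r * W ^ 2 ≤ 2 * (C1 * X * Y ^ 30 * (c * X) * W *
          (c ^ 4 * K ^ 2 / (u ^ 8 * r ^ 3))) ∨
        r * W ^ 2 ≤ 2 * (C1 * X * Y ^ 30 * (c * X) * W * (c ^ 2 * K ^ 2 / (u ^ 10 * r))) := by
      by_contra hcon
      push Not at hcon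
      rw [mul_add] at hm
      linarith [hcon.1, hcon.2, hm]
    have hcX : 4 * C1 ^ 2 * c ^ 5 ≤ X := by linarith
    rcases hsplit with ha | hb
    · have h1 : r ^ 4 * W ≤ 2 * C1 * c ^ 5 * X ^ 2 * Y ^ 30 * K ^ 2 / u ^ 8 := by
        have h3 : r * W ^ 2 * (r ^ 3 / W) ≤ 2 * (C1 * X * Y ^ 30 * (c * X) * W *
            (c ^ 4 * K ^ 2 / (u ^ 8 * r ^ 3))) * (r ^ 3 / W) :=
          mul_le_mul_of_nonneg_right ha (by positivity)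
        calc r ^ 4 * W = r * W ^ 2 * (r ^ 3 / W) := by field_simp
          _ ≤ _ := h3
          _ = 2 * C1 * c ^ 5 * X ^ 2 * Y ^ 30 * K ^ 2 / u ^ 8 := by field_simp
      have h2' : K ^ 2 / (2 * C1 * Y ^ 3 * X ^ 7) ≤ r ^ 4 * W := by
        calc K ^ 2 / (2 * C1 * Y ^ 3 * X ^ 7)
            = (u ^ 4 / X ^ 2) ^ 2 * (K ^ 2 / (2 * C1 * Y ^ 3 * X ^ 3 * u ^ 8)) := by field_simp
          _ ≤ r ^ 2 * (r ^ 2 * W) := by gcongr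
          _ = r ^ 4 * W := by ring
      have h3 := h2'.trans h1
      rw [div_le_div_iff₀ (by positivity) (by positivity)] at h3
      have h4 : K ^ 2 * u ^ 8 ≤ K ^ 2 * (4 * C1 ^ 2 * c ^ 5 * X ^ 9 * Y ^ 33) := by
        calc K ^ 2 * u ^ 8 ≤ 2 * C1 * c ^ 5 * X ^ 2 * Y ^ 30 * K ^ 2 *
              (2 * C1 * Y ^ 3 * X ^ 7) := h3
          _ = _ := by ring
      have h5 : u ^ 8 ≤ 4 * C1 ^ 2 * c ^ 5 * X ^ 9 * Y ^ 33 :=
        le_of_mul_le_mul_left h4 (by positivity)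
      have h6 : 4 * C1 ^ 2 * c ^ 5 * X ^ 9 * Y ^ 33 ≤ Y ^ 34 := by
        calc 4 * C1 ^ 2 * c ^ 5 * X ^ 9 * Y ^ 33 ≤ X * X ^ 9 * Y ^ 33 := by gcongr
          _ = X ^ 10 * Y ^ 33 := by ring
          _ = Y ^ 34 := by rw [hXY]; ring
      linarith
    · have h1 : r ^ 2 * W ≤ 2 * C1 * c ^ 3 * X ^ 2 * Y ^ 30 * K ^ 2 / u ^ 10 := by
        have h3 : r * W ^ 2 * (r / W) ≤ 2 * (C1 * X * Y ^ 30 * (c * X) * W *
            (c ^ 2 * K ^ 2 / (u ^ 10 * r))) * (r / W) :=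
          mul_le_mul_of_nonneg_right hb (by positivity)
        calc r ^ 2 * W = r * W ^ 2 * (r / W) := by field_simp
          _ ≤ _ := h3
          _ = 2 * C1 * c ^ 3 * X ^ 2 * Y ^ 30 * K ^ 2 / u ^ 10 := by field_simp
      have h3 := l2.trans h1
      rw [div_le_div_iff₀ (by positivity) (by positivity)] at h3
      have h4 : K ^ 2 * u ^ 8 * u ^ 2 ≤
          K ^ 2 * u ^ 8 * (4 * C1 ^ 2 * c ^ 3 * X ^ 5 * Y ^ 33) := by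
        calc K ^ 2 * u ^ 8 * u ^ 2 = K ^ 2 * u ^ 10 := by ring
          _ ≤ 2 * C1 * c ^ 3 * X ^ 2 * Y ^ 30 * K ^ 2 *
              (2 * C1 * Y ^ 3 * X ^ 3 * u ^ 8) := h3
          _ = _ := by ring
      have h5 : u ^ 2 ≤ 4 * C1 ^ 2 * c ^ 3 * X ^ 5 * Y ^ 33 :=
        le_of_mul_le_mul_left h4 (by positivity)
      have h6 : 4 * C1 ^ 2 * c ^ 3 * X ^ 5 * Y ^ 33 ≤ Y ^ 34 := by
        have hc35 : c ^ 3 ≤ c ^ 5 := pow_le_pow_right₀ hc (by norm_num)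
        have hX59 : X ^ 5 ≤ X ^ 9 := pow_le_pow_right₀ hX (by norm_num)
        calc 4 * C1 ^ 2 * c ^ 3 * X ^ 5 * Y ^ 33 ≤ 4 * C1 ^ 2 * c ^ 5 * X ^ 9 * Y ^ 33 := by
              gcongr
          _ ≤ X * X ^ 9 * Y ^ 33 := by gcongr
          _ = X ^ 10 * Y ^ 33 := by ring
          _ = Y ^ 34 := by rw [hXY]; ring
      linarith

theorem tNp : S_Np := by
  intro k κ C1 hk hκ hκk hC1
  obtain ⟨K0, hK0, h⟩ := Nn_base k κ (4 * C1 ^ 2 * (4 ^ k) ^ 5 + 16) hk hκ hκk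
  refine ⟨K0, hK0, fun K A B V W T hK hA hB hBX h2 h8 hW hWV hV hAT => ?_⟩
  have F := h K hK
  rw [F.h2] at h2
  rw [F.h8] at h8
  rw [F.hM] at hAT
  rw [F.hs] at hV
  rw [F.hs, F.h6]
  have hZ0 : 0 ≤ Zk k κ K := by
    rw [F.hZ]
    have := F.hK
    positivity
  exact Np_core F.hK F.hX rfl (one_le_pow₀ (by norm_num)) hC1 F.hC F.hu hA hB hBX h2 h8 hW hV hAT
    F.hZ (Real.rpow_nonneg hZ0 _) F.hZs

end

end HSLow
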