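import Pool.Agent.Lib.HS.Bd.SpecLow

/-!
PROJECT H*, LOW BANDS (MP_a54f13_nt), module PA: planar cells, algebra and boxes.
-/

set_option autoImplicit false

namespace HSLow

open Matrix HSL

namespace PA_aux

theorem comm (n h : MZ) (hn : n.trace = 0) : n * pa n h = pa n h * n ∧
    n * pb n h = -(pb n h * n) ∧ pa n h + pb n h = (2 * n.det) • h ∧
    (pa n h).det + (pb n h).det = 4 * n.det ^ 2 * h.det := by
  rw [Matrix.trace_fin_two] at hn
  have en : n 1 1 = - n 0 0 := by linarith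
  refine ⟨?_, ?_, ?_, ?_⟩
  · ext i j
    fin_cases i <;> fin_cases j <;>
      simp only [pa, Matrix.sub_apply, Matrix.mul_apply, Matrix.smul_apply, smul_eq_mul,
        Fin.sum_univ_two, Matrix.det_fin_two, en, Fin.zero_eta, Fin.mk_one, Fin.isValue] <;> ring
  · ext i j
    fin_cases i <;> fin_cases j <;>
      simp only [pb, Matrix.add_apply, Matrix.neg_apply, Matrix.mul_apply, Matrix.smul_apply,
        smul_eq_mul, Fin.sum_univ_two, Matrix.det_fin_two, en, Fin.zero_eta, Fin.mk_one,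
        Fin.isValue] <;> ring
  · rw [pa, pb, mul_smul]
    rw [two_smul]
    abel
  · simp only [pa, pb, Matrix.det_fin_two, Matrix.add_apply, Matrix.sub_apply, Matrix.mul_apply,
      Matrix.smul_apply, smul_eq_mul, Fin.sum_univ_two, en]
    ring

theorem fr_add (a b : MR) (r h : MZ) : fr a b (r + h) = fr a b r + fr a b h := by
  have : toR (r + h) = toR r + toR h := by
    ext i j
    simp [toR]
  unfold fr
  rw [this, Matrix.mul_add, Matrix.add_mul]

theorem fr_sub (a b : MR) (r h : MZ) : fr a b (r - h) = fr a b r - fr a b h := by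
  have : toR (r - h) = toR r - toR h := by
    ext i j
    simp [toR]
  unfold fr
  rw [this, Matrix.mul_sub, Matrix.sub_mul]

theorem fr_zs (a b : MR) (c : ℤ) (r : MZ) : fr a b (c • r) = (c : ℝ) • fr a b r :=
  HSL.fr_zsm a b c r

theorem fr_trace (g : MR) (v : MZ) (hg : g.det = 1) (hv : v.trace = 0) :
    fr g g v 1 1 = - fr g g v 0 0 := by
  have h1 : (fr g g v).trace = 0 := by
    unfold fr
    rw [Matrix.trace_mul_comm, ← Matrix.mul_assoc, Matrix.mul_adjugate, hg, one_smul, one_mul]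
    rw [Matrix.trace_fin_two] at hv ⊢
    simp only [toR, Matrix.map_apply]
    exact_mod_cast hv
  rw [Matrix.trace_fin_two] at h1
  linarith

theorem fr_dt (a b : MR) (h : MZ) (ha : a.det = 1) (hb : b.det = 1) :
    (fr a b h).det = ((h.det : ℤ) : ℝ) := by
  unfold fr
  rw [Matrix.det_mul, Matrix.det_mul, Matrix.det_adjugate, ha, hb]
  have : (toR h).det = ((h.det : ℤ) : ℝ) := by
    unfold toR
    exact (Int.cast_det h).symm
  rw [this]
  simp

theorem pr {x y X Y : ℝ} (hX : 0 ≤ X) (hx : |x| ≤ X) (hy : |y| ≤ Y) : |x * y| ≤ X * Y := by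
  rw [abs_mul]
  exact mul_le_mul hx hy (abs_nonneg _) hX

theorem two {x y X Y : ℝ} (hx : |x| ≤ X) (hy : |y| ≤ Y) : |x + y| ≤ X + Y :=
  (abs_add_le _ _).trans (add_le_add hx hy)

/-- the box of `n' M n` -/
theorem box {w N D : ℝ} (hw : 0 ≤ w) (hw1 : w ≤ 1) (hN : 0 ≤ N) (hD : 0 ≤ D) {A M B : MR}
    (a0 : |A 0 0| ≤ w * N) (a1 : |A 0 1| ≤ N) (a2 : |A 1 0| ≤ N) (a3 : |A 1 1| ≤ w * N)
    (b0 : |B 0 0| ≤ w * N) (b1 : |B 0 1| ≤ N) (b2 : |B 1 0| ≤ N) (b3 : |B 1 1| ≤ w * N)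
    (hM : Bx w D M) : Bx w (4 * N ^ 2 * D) (A * M * B) := by
  obtain ⟨m0, m3, m1, m2⟩ := hM
  have hwN : 0 ≤ w * N := mul_nonneg hw hN
  have hwD : 0 ≤ w * D := mul_nonneg hw hD
  have hDN : 0 ≤ D * N := mul_nonneg hD hN
  have c00 : |(M * B) 0 0| ≤ 2 * (w * (D * N)) := by
    rw [Matrix.mul_apply, Fin.sum_univ_two]
    have := two (pr hD m0 b0) (pr hwD m1 b2)
    linarith
  have c01 : |(M * B) 0 1| ≤ 2 * (D * N) := by
    rw [Matrix.mul_apply, Fin.sum_univ_two]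
    have h1 := two (pr hD m0 b1) (pr hwD m1 b3)
    have h2 : w * D * (w * N) ≤ 1 * (D * N) := by
      have : w * D * (w * N) = (w * w) * (D * N) := by ring
      rw [this]
      exact mul_le_mul_of_nonneg_right (by nlinarith) hDN
    linarith
  have c10 : |(M * B) 1 0| ≤ 2 * (D * N) := by
    rw [Matrix.mul_apply, Fin.sum_univ_two]
    have h1 := two (pr hwD m2 b0) (pr hD m3 b2)
    have h2 : w * D * (w * N) ≤ 1 * (D * N) := by
      have : w * D * (w * N) = (w * w) * (D * N) := by ring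
      rw [this]
      exact mul_le_mul_of_nonneg_right (by nlinarith) hDN
    linarith
  have c11 : |(M * B) 1 1| ≤ 2 * (w * (D * N)) := by
    rw [Matrix.mul_apply, Fin.sum_univ_two]
    have := two (pr hwD m2 b1) (pr hD m3 b3)
    linarith
  have hND : 0 ≤ N ^ 2 * D := by positivity
  have hww1 : w * w ≤ 1 := by nlinarith
  have hwww : w * w * (N ^ 2 * D) ≤ N ^ 2 * D := by
    have := mul_le_mul_of_nonneg_right hww1 hND
    linarith
  have e : A * M * B = A * (M * B) := Matrix.mul_assoc _ _ _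
  rw [e]
  refine ⟨?_, ?_, ?_, ?_⟩ <;> rw [Matrix.mul_apply, Fin.sum_univ_two]
  · have := two (pr hwN a0 c00) (pr hN a1 c10)
    nlinarith
  · have := two (pr hN a2 c01) (pr hwN a3 c11)
    nlinarith
  · have := two (pr hwN a0 c01) (pr hN a1 c11)
    nlinarith
  · have := two (pr hN a2 c00) (pr hwN a3 c10)
    nlinarith

/-- lower bound for the off-diagonal entries -/
theorem off {w N : ℝ} {A : MR} {d : ℤ} (hN : 0 < N) (hd : A.det = (d : ℝ)) (hd0 : d ≠ 0)
    (ht : A 1 1 = - A 0 0) (hwN : 2 * (w * N) ^ 2 ≤ 1) (a0 : |A 0 0| ≤ w * N) (a1 : |A 0 1| ≤ N)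
    (a2 : |A 1 0| ≤ N) : 1 ≤ 2 * N * |A 0 1| ∧ 1 ≤ 2 * N * |A 1 0| := by
  rw [Matrix.det_fin_two, ht] at hd
  have h1 : (1 : ℝ) ≤ |(d : ℝ)| := by
    have : (1 : ℤ) ≤ |d| := Int.one_le_abs hd0
    rw [← Int.cast_abs]
    exact_mod_cast this
  have h3 : |A 0 0 * A 0 0| ≤ w * N * (w * N) := pr (le_trans (abs_nonneg _) a0) a0 a0
  have h2 : |(d : ℝ)| ≤ |A 0 0 * A 0 0| + |A 0 1 * A 1 0| := by
    rw [← hd]
    have : A 0 0 * -A 0 0 - A 0 1 * A 1 0 = -(A 0 0 * A 0 0 + A 0 1 * A 1 0) := by ring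
    rw [this, abs_neg]
    exact abs_add_le _ _
  rw [abs_mul (A 0 1)] at h2
  have h4 : w * N * (w * N) = (w * N) ^ 2 := by ring
  have h5 : 1 / 2 ≤ |A 0 1| * |A 1 0| := by linarith
  have p1 := abs_nonneg (A 0 1)
  have p2 := abs_nonneg (A 1 0)
  constructor
  · have : |A 0 1| * |A 1 0| ≤ |A 0 1| * N := mul_le_mul_of_nonneg_left a2 p1
    linarith
  · have : |A 0 1| * |A 1 0| ≤ N * |A 1 0| := mul_le_mul_of_nonneg_right a1 p2
    linarith

/-- comparability -/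
theorem cmp {w N D x x' y y' a b c e : ℝ} (hw : 0 ≤ w) (hN : 1 ≤ N) (hD : 0 ≤ D) (he : |e| = 1)
    (hx : |x| ≤ w * N) (hx' : |x'| ≤ w * N) (hy' : |y'| ≤ N) (hy : 1 ≤ 2 * N * |y|)
    (hc : |c| ≤ w * D) (h : x' * c + y' * b = e * (a * y - c * x)) :
    |a| ≤ 2 * N ^ 2 * |b| + 4 * w ^ 2 * N ^ 2 * D := by
  have hwN : 0 ≤ w * N := by positivity
  have h1 : |a| * |y| ≤ N * |b| + 2 * (w * N * (w * D)) := by
    have e1 : a * y = e * (e * (a * y)) := by
      have : e * e = 1 := by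
        rw [← abs_mul_abs_self, he, one_mul]
      rw [← mul_assoc, this, one_mul]
    have e2 : e * (a * y) = x' * c + y' * b + e * (c * x) := by linarith
    have e3 : |a * y| = |x' * c + y' * b + e * (c * x)| := by
      rw [e1, abs_mul, he, one_mul, e2]
    rw [← abs_mul, e3]
    have p1 := pr hwN hx' hc
    have p2 : |y' * b| ≤ N * |b| := by
      rw [abs_mul]
      exact mul_le_mul_of_nonneg_right hy' (abs_nonneg _)
    have p3 : |e * (c * x)| ≤ w * D * (w * N) := by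
      rw [abs_mul, he, one_mul]
      exact pr (by positivity) hc hx
    have := two (two p1 p2) p3
    linarith
  have h2 : |a| * 1 ≤ |a| * (2 * N * |y|) := mul_le_mul_of_nonneg_left hy (abs_nonneg _)
  have h3 : 2 * N * (|a| * |y|) ≤ 2 * N * (N * |b| + 2 * (w * N * (w * D))) :=
    mul_le_mul_of_nonneg_left h1 (by linarith)
  nlinarith

end PA_aux

open PA_aux

theorem tPA (_hFb : S_Fb) (hFr : S_Fr) : S_PA := by
  obtain ⟨fr1, -⟩ := hFr
  have hwp : ∀ S : Sys, 1 ≤ S.K → 0 ≤ S.w ∧ S.w ≤ 1 := by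
    intro S hK
    have h1 : (1 : ℝ) ≤ S.K ^ 2 := one_le_pow₀ hK
    unfold Sys.w
    exact ⟨by positivity, by rw [div_le_one (by linarith)]; exact h1⟩
  refine ⟨fun n h hn => comm n h hn, ?_, ?_, ?_⟩
  · intro S N D i l n h hK hU hN hwN hD hi hl hPi hPl hB
    obtain ⟨hw, hw1⟩ := hwp S hK
    obtain ⟨di, -⟩ := hU i hi
    obtain ⟨dl, -⟩ := hU l hl
    obtain ⟨tn, -, i0, i1, i2⟩ := hPi
    obtain ⟨-, -, l0, l1, l2⟩ := hPl
    have ti := fr_trace (S.g i) n di tn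
    have tl := fr_trace (S.g l) n dl tn
    have hN0 : 0 ≤ N := by linarith
    have hbox := box hw hw1 hN0 hD (A := fr (S.g l) (S.g l) n) (B := fr (S.g i) (S.g i) n) l0 l1 l2
      (by rw [tl, abs_neg]; exact l0) i0 i1 i2 (by rw [ti, abs_neg]; exact i0) hB
    have e1 : fr (S.g i) (S.g l) (n * h * n) =
        fr (S.g l) (S.g l) n * fr (S.g i) (S.g l) h * fr (S.g i) (S.g i) n := by
      rw [fr1 (S.g i) (S.g i) (S.g l) (n * h) n di, fr1 (S.g i) (S.g l) (S.g l) n h dl]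
    have hdn : |((n.det : ℤ) : ℝ)| ≤ 2 * N ^ 2 := by
      rw [← fr_dt (S.g i) (S.g i) n di di, Matrix.det_fin_two, ti]
      have p1 : |fr (S.g i) (S.g i) n 0 0 * -fr (S.g i) (S.g i) n 0 0| ≤ S.w * N * (S.w * N) :=
        pr (by positivity) i0 (by rw [abs_neg]; exact i0)
      have p2 := pr hN0 i1 i2
      have p3 := abs_sub (fr (S.g i) (S.g i) n 0 0 * -fr (S.g i) (S.g i) n 0 0)
        (fr (S.g i) (S.g i) n 0 1 * fr (S.g i) (S.g i) n 1 0)
      have p4 : S.w * N * (S.w * N) ≤ 1 := by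
        have : 0 ≤ S.w * N := by positivity
        nlinarith
      nlinarith
    obtain ⟨b0, b1, b2, b3⟩ := hB
    obtain ⟨c0, c1, c2, c3⟩ := hbox
    have hd0 : 0 ≤ |((n.det : ℤ) : ℝ)| := abs_nonneg _
    have ez : ∀ j k : Fin 2, ∀ T : ℝ, 0 ≤ T → |fr (S.g i) (S.g l) h j k| ≤ T →
        |((n.det : ℤ) : ℝ) * fr (S.g i) (S.g l) h j k| ≤ 2 * N ^ 2 * T := by
      intro j k T hT h1
      exact (pr hd0 le_rfl h1).trans (mul_le_mul_of_nonneg_right hdn hT)
    have hwD : 0 ≤ S.w * D := by positivity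
    have z0 := ez 0 0 D hD b0
    have z1 := ez 1 1 D hD b1
    have z2 := ez 0 1 _ hwD b2
    have z3 := ez 1 0 _ hwD b3
    have hND : 0 ≤ N ^ 2 * D := by positivity
    have hwND : 0 ≤ S.w * (N ^ 2 * D) := by positivity
    have fin : ∀ (x y : ℝ) (T : ℝ), |x| ≤ 2 * T → |y| ≤ 4 * T → 0 ≤ T →
        |x - y| ≤ 8 * T ∧ |x + y| ≤ 8 * T := by
      intro x y T hx hy hT
      have q1 := abs_sub x y
      have q2 := abs_add_le x y
      constructor <;> linarith
    have q0 : 2 * N ^ 2 * D = 2 * (N ^ 2 * D) := by ring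
    have q1 : 4 * N ^ 2 * D = 4 * (N ^ 2 * D) := by ring
    have q2 : 2 * N ^ 2 * (S.w * D) = 2 * (S.w * (N ^ 2 * D)) := by ring
    have q3 : S.w * (4 * (N ^ 2 * D)) = 4 * (S.w * (N ^ 2 * D)) := by ring
    rw [q0] at z0 z1
    rw [q2] at z2 z3
    rw [q1] at c0 c1
    rw [q1, q3] at c2 c3
    have f0 := fin _ _ (N ^ 2 * D) z0 c0 hND
    have f1 := fin _ _ (N ^ 2 * D) z1 c1 hND
    have f2 := fin _ _ (S.w * (N ^ 2 * D)) z2 c2 hwND
    have f3 := fin _ _ (S.w * (N ^ 2 * D)) z3 c3 hwND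
    constructor
    · have ep : fr (S.g i) (S.g l) (pa n h) = ((n.det : ℤ) : ℝ) • fr (S.g i) (S.g l) h -
          fr (S.g l) (S.g l) n * fr (S.g i) (S.g l) h * fr (S.g i) (S.g i) n := by
        rw [pa, fr_sub, fr_zs, e1]
      rw [ep]
      refine ⟨?_, ?_, ?_, ?_⟩ <;> rw [Matrix.sub_apply, Matrix.smul_apply, smul_eq_mul]
      · linarith [f0.1]
      · linarith [f1.1]
      · linarith [f2.1]
      · linarith [f3.1]
    · have ep : fr (S.g i) (S.g l) (pb n h) = ((n.det : ℤ) : ℝ) • fr (S.g i) (S.g l) h +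
          fr (S.g l) (S.g l) n * fr (S.g i) (S.g l) h * fr (S.g i) (S.g i) n := by
        rw [pb, fr_add, fr_zs, e1]
      rw [ep]
      refine ⟨?_, ?_, ?_, ?_⟩ <;> rw [Matrix.add_apply, Matrix.smul_apply, smul_eq_mul]
      · linarith [f0.2]
      · linarith [f1.2]
      · linarith [f2.2]
      · linarith [f3.2]
  · intro S N D i l n a e hK hU hN hwN hD hi hl hPi hPl hdet he hcomm hB
    obtain ⟨hw, hw1⟩ := hwp S hK
    obtain ⟨di, -⟩ := hU i hi
    obtain ⟨dl, -⟩ := hU l hl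
    obtain ⟨tn, -, i0, i1, i2⟩ := hPi
    obtain ⟨-, -, l0, l1, l2⟩ := hPl
    have ti := fr_trace (S.g i) n di tn
    have tl := fr_trace (S.g l) n dl tn
    have hN0 : 0 < N := by linarith
    obtain ⟨oi1, -⟩ := off hN0 (fr_dt (S.g i) (S.g i) n di di) hdet ti hwN i0 i1 i2
    obtain ⟨ol1, -⟩ := off hN0 (fr_dt (S.g l) (S.g l) n dl dl) hdet tl hwN l0 l1 l2
    obtain ⟨b0, b1, b2, b3⟩ := hB
    have heR : |(e : ℝ)| = 1 := by
      rcases he with h | h <;> rw [h] <;> norm_num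
    have hee : (e : ℝ) * e = 1 := by
      rw [← abs_mul_abs_self, heR, one_mul]
    have ef : fr (S.g l) (S.g l) n * fr (S.g i) (S.g l) a =
        (e : ℝ) • (fr (S.g i) (S.g l) a * fr (S.g i) (S.g i) n) := by
      rw [← fr1 (S.g i) (S.g l) (S.g l) n a dl, ← fr1 (S.g i) (S.g i) (S.g l) a n di, ← fr_zs,
        ← hcomm]
    have e01 := congrFun (congrFun ef 0) 1
    simp only [Matrix.mul_apply, Fin.sum_univ_two, Matrix.smul_apply, smul_eq_mul] at e01
    rw [ti] at e01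
    constructor
    · refine cmp (x := fr (S.g i) (S.g i) n 0 0) (x' := fr (S.g l) (S.g l) n 0 0)
        (y := fr (S.g i) (S.g i) n 0 1) (y' := fr (S.g l) (S.g l) n 0 1)
        (c := fr (S.g i) (S.g l) a 0 1) (e := (e : ℝ)) hw hN hD heR i0 l0 l1 oi1 b2 ?_
      linarith
    · refine cmp (x := -fr (S.g l) (S.g l) n 0 0) (x' := -fr (S.g i) (S.g i) n 0 0)
        (y := fr (S.g l) (S.g l) n 0 1) (y' := fr (S.g i) (S.g i) n 0 1)
        (c := fr (S.g i) (S.g l) a 0 1) (e := (e : ℝ)) hw hN hD heR (by rw [abs_neg]; exact l0)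
        (by rw [abs_neg]; exact i0) i1 ol1 b2 ?_
      have h2 : (e : ℝ) * (fr (S.g l) (S.g l) n 0 0 * fr (S.g i) (S.g l) a 0 1 +
          fr (S.g l) (S.g l) n 0 1 * fr (S.g i) (S.g l) a 1 1) =
          (e * e) * (fr (S.g i) (S.g l) a 0 0 * fr (S.g i) (S.g i) n 0 1 +
          fr (S.g i) (S.g l) a 0 1 * -fr (S.g i) (S.g i) n 0 0) := by
        rw [e01]
        ring
      rw [hee] at h2
      linarith
  · intro S N i n hK hU hN hwN hi hPi hdet
    obtain ⟨di, -⟩ := hU i hi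
    obtain ⟨tn, -, i0, i1, i2⟩ := hPi
    exact off (by linarith) (fr_dt (S.g i) (S.g i) n di di) hdet (fr_trace (S.g i) n di tn) hwN i0 i1 i2

end HSLow
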