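import Pool.Agent.Lib.HS.Bd.SpecLow

/-!
PROJECT H*, LOW BANDS, module PC: a parallel return is divisible. helper85 (statement and proof on
paper: helper41).
-/

set_option autoImplicit false

namespace HSLow

open Matrix HSL

lemma PC_fr_det (g : MR) (hg : g.det = 1) (v : MZ) : (fr g g v).det = ((v.det : ℤ) : ℝ) := by
  unfold fr
  have e : (toR v).det = ((v.det : ℤ) : ℝ) := by
    unfold toR
    exact (Int.cast_det v).symm
  rw [Matrix.det_mul, Matrix.det_mul, Matrix.det_adjugate, hg, e]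
  simp

lemma PC_fr_tr (g : MR) (hg : g.det = 1) (v : MZ) (hv : v.trace = 0) :
    fr g g v 1 1 = - fr g g v 0 0 := by
  have hd : g 0 0 * g 1 1 - g 0 1 * g 1 0 = 1 := by rw [← hg, Matrix.det_fin_two]
  have hv' : ((v 0 0 : ℤ) : ℝ) + ((v 1 1 : ℤ) : ℝ) = 0 := by
    rw [Matrix.trace_fin_two] at hv
    exact_mod_cast hv
  simp only [fr, toR, Matrix.adjugate_fin_two, Matrix.mul_apply, Fin.sum_univ_two, Matrix.map_apply,
    Matrix.of_apply, Matrix.cons_val', Matrix.cons_val_zero, Matrix.cons_val_one, Matrix.empty_val',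
    Matrix.cons_val_fin_one]
  linear_combination (g 0 0 * g 1 1 - g 0 1 * g 1 0) * hv'

lemma PC_ne {v : MZ} (hv : Prim v) : v ≠ 0 := by
  rintro rfl
  have := hv 2 (fun i j => by simp)
  exact absurd (Int.isUnit_iff.1 this) (by norm_num)

/-- sizes: `15/16 a^2 <= |det v| <= a^2 + (w τ)^2`, `(w τ)^2 <= a^2 / 16`, `0 < a^2` -/
lemma PC_size (hFb : S_Fb) {R w τ : ℝ} (hR : 1 ≤ R) (hwτ : 0 ≤ w * τ) (hC : 16 * R ^ 2 * (w * τ) ≤ 1)
    {g : MR} (hg : g.det = 1) (hRg : ∀ i j, |g i j| ≤ R) {v : MZ} (hp : Prim v) (ht : v.trace = 0)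
    (hB : Bx w τ (fr g g v)) :
    0 < (fr g g v 0 0) ^ 2 ∧ (w * τ) ^ 2 ≤ (fr g g v 0 0) ^ 2 / 16 ∧
      15 / 16 * (fr g g v 0 0) ^ 2 ≤ |((v.det : ℤ) : ℝ)| ∧
      |((v.det : ℤ) : ℝ)| ≤ (fr g g v 0 0) ^ 2 + (w * τ) ^ 2 := by
  obtain ⟨b0, b1, b2, b3⟩ := hB
  have e11 := PC_fr_tr g hg v ht
  have ed := PC_fr_det g hg v
  rw [Matrix.det_fin_two, e11] at ed
  obtain ⟨a, ha⟩ : ∃ a, a = fr g g v 0 0 := ⟨_, rfl⟩
  obtain ⟨b, hb⟩ : ∃ b, b = fr g g v 0 1 := ⟨_, rfl⟩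
  obtain ⟨c, hc⟩ : ∃ c, c = fr g g v 1 0 := ⟨_, rfl⟩
  rw [← ha, ← hb, ← hc] at ed
  rw [← hb] at b2
  rw [← hc] at b3
  rw [← ha]
  have hR2 : 1 ≤ R ^ 2 := one_le_pow₀ hR
  have hlow : 1 ≤ 4 * R ^ 2 * |a| := by
    by_contra hcon
    push Not at hcon
    obtain ⟨D, hD⟩ : ∃ D, D = max |a| (w * τ) := ⟨_, rfl⟩
    have h1 : 4 * R ^ 2 * D < 1 := by
      rw [hD]
      rcases max_choice |a| (w * τ) with h | h <;> rw [h]
      · exact hcon
      · nlinarith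
    have hz := hFb.2.2.2.2.2.2.2 R D g g v hg hg hRg hRg ?_ h1
    · exact PC_ne hp hz
    · intro i j
      rw [hD]
      fin_cases i <;> fin_cases j
      · show |fr g g v 0 0| ≤ _
        rw [← ha]; exact le_max_left _ _
      · show |fr g g v 0 1| ≤ _
        rw [← hb]; exact b2.trans (le_max_right _ _)
      · show |fr g g v 1 0| ≤ _
        rw [← hc]; exact b3.trans (le_max_right _ _)
      · show |fr g g v 1 1| ≤ _
        rw [e11, abs_neg, ← ha]; exact le_max_left _ _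
  have ha0 : 0 < |a| := by
    by_contra hcon
    push Not at hcon
    nlinarith
  have hsq : a ^ 2 = |a| ^ 2 := (sq_abs a).symm
  have hwa : 4 * (w * τ) ≤ |a| := by
    have h1 : 4 * R ^ 2 * (4 * (w * τ)) ≤ 4 * R ^ 2 * |a| := by linarith
    exact le_of_mul_le_mul_left h1 (by positivity)
  have h2 : (w * τ) ^ 2 ≤ a ^ 2 / 16 := by
    rw [hsq]
    nlinarith
  have hbc : |b * c| ≤ (w * τ) ^ 2 := by
    rw [abs_mul, sq]
    exact mul_le_mul b2 b3 (abs_nonneg _) hwτ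
  have hbc' := abs_le.1 hbc
  refine ⟨by rw [hsq]; positivity, h2, ?_, ?_⟩
  · rw [← ed]
    refine le_trans ?_ (neg_le_abs _)
    nlinarith [hbc'.1, hbc'.2]
  · rw [← ed, abs_le]
    constructor <;> nlinarith [hbc'.1, hbc'.2, sq_nonneg a]

/-- number theory -/
lemma PC_num {vx vy h : MZ} {m : ℕ} {c : ℤ} (hpx : Prim vx) (hm : 0 < m) (hh : h.det = (m : ℤ) ^ 2)
    (hc : h * vx * h.adjugate = c • vy) (hdx : vx.det ≠ 0)
    (hlt : |vy.det| < 4 * |vx.det|) (hcop : ∀ p : ℕ, p.Prime → p ∣ m → ¬ (p : ℤ) ∣ vx.det) :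
    (m : ℤ) ^ 2 ∣ c := by
  have hm0 : (m : ℤ) ≠ 0 := by exact_mod_cast hm.ne'
  have hm2 : (m : ℤ) ^ 2 ≠ 0 := pow_ne_zero 2 hm0
  have hadj : h.adjugate.det = (m : ℤ) ^ 2 := by
    rw [Matrix.det_adjugate, hh]; simp
  have e1 : (m : ℤ) ^ 2 * vx.det * (m : ℤ) ^ 2 = c ^ 2 * vy.det := by
    have := congrArg Matrix.det hc
    rw [Matrix.det_mul, Matrix.det_mul, hh, hadj, Matrix.det_smul, Fintype.card_fin] at this
    exact this
  have hc0 : c ≠ 0 := by
    rintro rfl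
    rw [zero_pow two_ne_zero, zero_mul] at e1
    exact (mul_ne_zero (mul_ne_zero hm2 hdx) hm2) e1
  -- divide by the gcd
  have hg0 : 0 < Int.gcd c ((m : ℤ) ^ 2) := Int.gcd_pos_of_ne_zero_left _ hc0
  obtain ⟨g, c', m', hg, hcp, rfl, hm'⟩ :
      ∃ g c' m' : ℤ, 0 < g ∧ IsCoprime c' m' ∧ c = c' * g ∧ (m : ℤ) ^ 2 = m' * g := by
    obtain ⟨c', m', h1, h2, h3⟩ := Int.exists_gcd_one hg0
    exact ⟨Int.gcd c ((m : ℤ) ^ 2), c', m', by exact_mod_cast hg0, Int.isCoprime_iff_gcd_eq_one.2 h1, h2, h3⟩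
  have hc'0 : c' ≠ 0 := left_ne_zero_of_mul hc0
  have e2 : m' ^ 2 * vx.det = c' ^ 2 * vy.det := by
    have hgg : g ^ 2 ≠ 0 := pow_ne_zero 2 hg.ne'
    refine mul_left_cancel₀ hgg ?_
    rw [hm'] at e1
    linear_combination e1
  have hdvd : c' ^ 2 ∣ vx.det := by
    refine (hcp.pow : IsCoprime (c' ^ 2) (m' ^ 2)).dvd_of_dvd_mul_left ?_
    exact ⟨vy.det, e2⟩
  -- `c'` is a unit
  have hunit : c'.natAbs = 1 := by
    by_contra hne
    obtain ⟨q, hq, hqc⟩ := Nat.exists_prime_and_dvd hne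
    have hqz : (q : ℤ) ∣ c' := Int.natCast_dvd.2 hqc
    by_cases hqm : q ∣ m
    · exact hcop q hq hqm ((hqz.trans (dvd_pow_self c' two_ne_zero)).trans hdvd)
    · have hqp : Prime (q : ℤ) := Nat.prime_iff_prime_int.1 hq
      have hall : ∀ i j, (q : ℤ) ∣ vx i j := by
        intro i j
        have e3 : h.adjugate * (h * vx * h.adjugate) * h = ((m : ℤ) ^ 2 * (m : ℤ) ^ 2) • vx := by
          have a1 : h.adjugate * (h * vx * h.adjugate) * h = (h.adjugate * h) * vx * (h.adjugate * h) := by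
            simp only [Matrix.mul_assoc]
          rw [a1, Matrix.adjugate_mul, hh]
          simp only [Matrix.smul_mul, Matrix.mul_smul, Matrix.one_mul, Matrix.mul_one, smul_smul]
        have e4 : (q : ℤ) ∣ (h.adjugate * (h * vx * h.adjugate) * h) i j := by
          rw [hc, Matrix.mul_smul, Matrix.smul_mul, Matrix.smul_apply, smul_eq_mul]
          exact Dvd.dvd.mul_right (hqz.mul_right g) _
        rw [e3, Matrix.smul_apply, smul_eq_mul] at e4
        rcases hqp.dvd_or_dvd e4 with h5 | h5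
        · exfalso
          rcases hqp.dvd_or_dvd h5 with h6 | h6
          all_goals exact hqm (by exact_mod_cast hqp.dvd_of_dvd_pow h6)
        · exact h5
      have := hpx q hall
      exact hqp.not_isUnit this
  have hc1 : c' ^ 2 = 1 := by
    have : |c'| = 1 := by rw [Int.abs_eq_natAbs, hunit]; rfl
    rw [← sq_abs, this]; norm_num
  rw [hc1, one_mul] at e2
  -- `m'` is one
  have hm'pos : 0 < m' := by
    have : 0 < m' * g := by rw [← hm']; positivity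
    exact pos_of_mul_pos_left this hg.le
  have hm'1 : m' = 1 := by
    have h1 : |m' ^ 2 * vx.det| < 4 * |vx.det| := by rw [e2]; exact hlt
    rw [abs_mul, abs_of_pos (pow_pos hm'pos 2)] at h1
    have h2 : m' ^ 2 < 4 := lt_of_mul_lt_mul_right h1 (abs_nonneg _)
    nlinarith
  rw [hm'1, one_mul] at hm'
  rw [hm']
  exact Dvd.intro_left c' rfl

theorem tPC (hFb : S_Fb) (hPar : S_Par) : S_PC := by
  intro R hR
  refine ⟨16 * R ^ 2, by nlinarith [one_le_pow₀ hR (n := 2)], ?_⟩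
  intro S τ hSR hK hτ hC hU x hx y hy vx vy h m hpx hpy htx hty hm hh hbr hle hcop a b
  obtain ⟨ux, uR⟩ := hU x hx
  obtain ⟨vy1, vR⟩ := hU y hy
  rw [hSR] at uR vR
  have hw0 : 0 ≤ S.w := by unfold Sys.w; positivity
  have hwτ : 0 ≤ S.w * τ := mul_nonneg hw0 (by linarith)
  obtain ⟨s1, s2, s3, -⟩ := PC_size hFb hR hwτ hC ux uR hpx htx.1 htx.2
  obtain ⟨-, -, -, t4⟩ := PC_size hFb hR hwτ hC vy1 vR hpy hty.1 hty.2
  have hsq : (fr (S.g y) (S.g y) vy 0 0) ^ 2 ≤ (fr (S.g x) (S.g x) vx 0 0) ^ 2 := sq_le_sq.2 hle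
  have hltR : |((vy.det : ℤ) : ℝ)| < 4 * |((vx.det : ℤ) : ℝ)| := by linarith
  have hlt : |vy.det| < 4 * |vx.det| := by exact_mod_cast hltR
  have hdx : vx.det ≠ 0 := by
    intro h0
    rw [h0, Int.cast_zero, abs_zero] at s3
    linarith
  have htr : (h * vx * h.adjugate).trace = 0 := by
    rw [Matrix.trace_mul_comm, ← Matrix.mul_assoc, Matrix.adjugate_mul, Matrix.smul_mul, Matrix.one_mul,
      Matrix.trace_smul, htx.1, smul_zero]
  have hbr' : brk vy (h * vx * h.adjugate) = 0 := by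
    unfold brk at hbr ⊢
    rw [sub_eq_zero] at hbr ⊢
    exact hbr.symm
  obtain ⟨c, hc⟩ := hPar.1 vy _ hty.1 htr hpy hbr'
  have hdvd := PC_num hpx hm hh hc hdx hlt hcop
  rw [hc, Matrix.smul_apply, smul_eq_mul]
  exact hdvd.mul_right _

end HSLow
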