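import Pool.Agent.Lib.HS.Bd.SpecLow

/-!
PROJECT H*, LOW BANDS (MP_a54f13_nt), module PE: the data of a pair of planar cells with many returns.
-/

set_option autoImplicit false

namespace HSLow

open Matrix HSL

private lemma PE_prim (k c : ℤ) (A a0 : MZ) (hk : k ≠ 0) (h0 : Prim a0)
    (h : k • A = c • a0) : ∃ t : ℤ, A = t • a0 := by
  have hg : 0 < Int.gcd k c := Int.gcd_pos_of_ne_zero_left _ hk
  obtain ⟨k', c', h1, h2, h3⟩ := Int.exists_gcd_one hg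
  have hg' : ((Int.gcd k c : ℕ) : ℤ) ≠ 0 := by exact_mod_cast hg.ne'
  have hij : ∀ i j, k' * A i j = c' * a0 i j := by
    intro i j
    have h4 : k * A i j = c * a0 i j := by
      have := congrFun (congrFun h i) j
      simpa [Matrix.smul_apply, smul_eq_mul] using this
    apply mul_left_cancel₀ hg'
    linear_combination h4 - A i j * h2 + a0 i j * h3
  have cop : IsCoprime k' c' := Int.isCoprime_iff_gcd_eq_one.mpr h1
  have hu : IsUnit k' := h0 k' (fun i j =>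
    cop.dvd_of_dvd_mul_left ⟨A i j, (hij i j).symm⟩)
  rcases Int.isUnit_iff.mp hu with h5 | h5
  · refine ⟨c', ?_⟩
    ext i j
    have := hij i j
    rw [h5, one_mul] at this
    rw [Matrix.smul_apply, smul_eq_mul, this]
  · refine ⟨-c', ?_⟩
    ext i j
    have := hij i j
    rw [h5] at this
    rw [Matrix.smul_apply, smul_eq_mul]
    linarith

private lemma PE_unit (t : ℤ) (h h' : MZ) (hp : Prim h') (e : h' = t • h) : h' = h ∨ h' = -h := by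
  have hu : IsUnit t := hp t (fun i j => by rw [e, Matrix.smul_apply, smul_eq_mul]; exact dvd_mul_right _ _)
  rcases Int.isUnit_iff.mp hu with h5 | h5
  · left; rw [e, h5, one_smul]
  · right; rw [e, h5, neg_one_smul]

private lemma PE_two (H : Finset MZ) (hp : ∀ h ∈ H, Prim h)
    (rel : ∀ h ∈ H, ∀ h' ∈ H, h.det ≠ 0 ∧ ∃ c : ℤ, h.det • h' = c • h) : H.card ≤ 2 := by
  rcases H.eq_empty_or_nonempty with h0 | ⟨h, hh⟩
  · rw [h0]; simp
  · have hsub : H ⊆ {h, -h} := by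
      intro h' hh'
      obtain ⟨h1, c, h2⟩ := rel h hh h' hh'
      obtain ⟨t, ht⟩ := PE_prim h.det c h' h h1 (hp h hh) h2
      rcases PE_unit t h h' (hp h' hh') ht with h3 | h3
      · simp [h3]
      · simp [h3]
    exact (Finset.card_le_card hsub).trans Finset.card_le_two

private lemma PE_count (CP e' : ℝ) (hCP : 1 ≤ CP)
    (hP : ∀ Z : ℝ, 1 ≤ Z → ∀ d N : ℤ, d ≠ 0 → N ≠ 0 → |(N : ℝ)| ≤ Z → ∀ S : Finset (ℤ × ℤ),
      (∀ q ∈ S, q.1 ^ 2 - d * q.2 ^ 2 = N ∧ |(q.1 : ℝ)| ≤ Z ∧ |(q.2 : ℝ)| ≤ Z) →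
      (S.card : ℝ) ≤ CP * Z ^ e')
    (ZP T : ℝ) (hZP : 1 ≤ ZP) (hT : 1 ≤ T) (H : Finset MZ) (t u M : MZ → ℤ) (da db : ℤ)
    (hda : da ≠ 0) (hdb : db ≠ 0) (ht : ∀ h ∈ H, t h ≠ 0)
    (heq : ∀ h ∈ H, M h ^ 2 - db * u h ^ 2 = t h ^ 2 * da)
    (hb : ∀ h ∈ H, |((t h ^ 2 * da : ℤ) : ℝ)| ≤ ZP ∧ |(M h : ℝ)| ≤ ZP ∧ |(u h : ℝ)| ≤ ZP)
    (hinj : ∀ h ∈ H, ∀ h' ∈ H, t h = t h' → u h = u h' → h = h')
    (hTb : ∀ h ∈ H, |(t h : ℝ)| ≤ T) : (H.card : ℝ) ≤ 3 * T * (CP * ZP ^ e') := by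
  have hQ0 : 0 ≤ CP * ZP ^ e' := by positivity
  have h1 : H.card ≤ ⌊CP * ZP ^ e'⌋₊ * (H.image t).card := by
    apply Finset.card_le_mul_card_image
    intro a ha
    obtain ⟨h, hh, rfl⟩ := Finset.mem_image.mp ha
    apply Nat.le_floor
    have h2 : ((H.filter (fun x => t x = t h)).image (fun x => (M x, u x))).card =
        (H.filter (fun x => t x = t h)).card := by
      apply Finset.card_image_of_injOn
      intro x hx y hy hxy
      rw [Finset.coe_filter] at hx hy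
      simp only [Prod.mk.injEq] at hxy
      exact hinj x hx.1 y hy.1 (hx.2.trans hy.2.symm) hxy.2
    rw [← h2]
    refine hP ZP hZP db (t h ^ 2 * da) hdb (mul_ne_zero (pow_ne_zero _ (ht h hh)) hda)
      (hb h hh).1 _ ?_
    intro q hq
    obtain ⟨x, hx, rfl⟩ := Finset.mem_image.mp hq
    rw [Finset.mem_filter] at hx
    refine ⟨?_, (hb x hx.1).2.1, (hb x hx.1).2.2⟩
    have := heq x hx.1
    rw [hx.2] at this
    exact this
  have h3 : ((H.image t).card : ℝ) ≤ 3 * T := by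
    have hsub : H.image t ⊆ Finset.Icc (-⌊T⌋) ⌊T⌋ := by
      intro a ha
      obtain ⟨h, hh, rfl⟩ := Finset.mem_image.mp ha
      have h4 := abs_le.mp (hTb h hh)
      rw [Finset.mem_Icc]
      constructor
      · have : -(t h) ≤ ⌊T⌋ := Int.le_floor.mpr (by push_cast; linarith)
        linarith
      · exact Int.le_floor.mpr h4.2
    have h5 := Finset.card_le_card hsub
    rw [Int.card_Icc] at h5
    have hf0 : 0 ≤ ⌊T⌋ := Int.floor_nonneg.mpr (by linarith)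
    have h6 : (((⌊T⌋ + 1 - -⌊T⌋).toNat : ℕ) : ℝ) = 2 * (⌊T⌋ : ℝ) + 1 := by
      have : (((⌊T⌋ + 1 - -⌊T⌋).toNat : ℕ) : ℤ) = ⌊T⌋ + 1 - -⌊T⌋ := Int.toNat_of_nonneg (by linarith)
      have h7 : (((⌊T⌋ + 1 - -⌊T⌋).toNat : ℕ) : ℝ) = ((⌊T⌋ + 1 - -⌊T⌋ : ℤ) : ℝ) := by
        exact_mod_cast this
      rw [h7]
      push_cast
      ring
    have h8 : ((H.image t).card : ℝ) ≤ (((⌊T⌋ + 1 - -⌊T⌋).toNat : ℕ) : ℝ) := by exact_mod_cast h5
    rw [h6] at h8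
    have h9 := Int.floor_le T
    linarith
  have h10 : (H.card : ℝ) ≤ (⌊CP * ZP ^ e'⌋₊ : ℝ) * ((H.image t).card : ℝ) := by exact_mod_cast h1
  have h11 := Nat.floor_le hQ0
  calc (H.card : ℝ) ≤ (⌊CP * ZP ^ e'⌋₊ : ℝ) * ((H.image t).card : ℝ) := h10
    _ ≤ (CP * ZP ^ e') * (3 * T) := mul_le_mul h11 h3 (by positivity) hQ0
    _ = 3 * T * (CP * ZP ^ e') := by ring

private lemma PE_nz (a : MZ) (h : Prim a) : ∃ i j, a i j ≠ 0 := by
  by_contra hc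
  push Not at hc
  have := h 0 (fun i j => by rw [hc i j])
  exact not_isUnit_zero this

/-- sizes of the factor and of the primitive matrix -/
private lemma PE_size (X : ℝ) (t : ℤ) (a A : MZ) (ht : t ≠ 0) (ha : Prim a) (e : A = t • a)
    (hA : ∀ i j, |((A i j : ℤ) : ℝ)| ≤ X) : |(t : ℝ)| ≤ X ∧ ∀ i j, |((a i j : ℤ) : ℝ)| ≤ X := by
  have h1 : ∀ i j, |(t : ℝ)| * |((a i j : ℤ) : ℝ)| ≤ X := by
    intro i j
    have := hA i j
    rw [e, Matrix.smul_apply, smul_eq_mul] at this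
    push_cast at this
    rwa [abs_mul] at this
  have h2 : (1 : ℝ) ≤ |(t : ℝ)| := by
    have : (1 : ℤ) ≤ |t| := Int.one_le_abs ht
    exact_mod_cast this
  constructor
  · obtain ⟨i, j, hij⟩ := PE_nz a ha
    have h3 : (1 : ℝ) ≤ |((a i j : ℤ) : ℝ)| := by
      have : (1 : ℤ) ≤ |a i j| := Int.one_le_abs hij
      exact_mod_cast this
    have := h1 i j
    nlinarith [abs_nonneg (t : ℝ)]
  · intro i j
    have := h1 i j
    nlinarith [abs_nonneg ((a i j : ℤ) : ℝ)]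

private lemma PE_det (X : ℝ) (hX : 0 ≤ X) (a : MZ) (h : ∀ i j, |((a i j : ℤ) : ℝ)| ≤ X) :
    |((a.det : ℤ) : ℝ)| ≤ 2 * X ^ 2 := by
  rw [Matrix.det_fin_two]
  push_cast
  have h1 : |((a 0 0 : ℤ) : ℝ) * ((a 1 1 : ℤ) : ℝ)| ≤ X * X := by
    rw [abs_mul]
    exact mul_le_mul (h 0 0) (h 1 1) (abs_nonneg _) hX
  have h2 : |((a 0 1 : ℤ) : ℝ) * ((a 1 0 : ℤ) : ℝ)| ≤ X * X := by
    rw [abs_mul]
    exact mul_le_mul (h 0 1) (h 1 0) (abs_nonneg _) hX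
  have h3 := abs_sub (((a 0 0 : ℤ) : ℝ) * ((a 1 1 : ℤ) : ℝ)) (((a 0 1 : ℤ) : ℝ) * ((a 1 0 : ℤ) : ℝ))
  nlinarith [h1, h2, h3]

private lemma PE_fin (C CP C1 N Z T ZQ Kq NZ cH cH' : ℝ) (hC : 0 ≤ C) (hCP : 0 ≤ CP) (hZ : 0 ≤ Z)
    (hT : 1 ≤ T) (hcH : 0 < cH) (h1 : cH' ≤ 3 * T * (CP * ZQ)) (h2 : cH ≤ 2 * cH')
    (h3 : ZQ ≤ Kq * NZ) (h4 : 48 * C * CP * Kq ≤ C1) (hNZ : 0 ≤ NZ) :
    8 * N ^ 2 * (C * Z) / T ≤ C1 * NZ * N ^ 2 * Z / cH := by
  have hT0 : 0 < T := by linarith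
  rw [div_le_div_iff₀ hT0 hcH]
  have hD : 0 ≤ 8 * N ^ 2 * (C * Z) := by positivity
  have e1 : cH ≤ 6 * T * (CP * (Kq * NZ)) := by
    have : T * (CP * ZQ) ≤ T * (CP * (Kq * NZ)) := by
      apply mul_le_mul_of_nonneg_left _ hT0.le
      exact mul_le_mul_of_nonneg_left h3 hCP
    nlinarith
  calc 8 * N ^ 2 * (C * Z) * cH ≤ 8 * N ^ 2 * (C * Z) * (6 * T * (CP * (Kq * NZ))) :=
        mul_le_mul_of_nonneg_left e1 hD
    _ = (48 * C * CP * Kq) * (NZ * N ^ 2 * Z * T) := by ring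
    _ ≤ C1 * (NZ * N ^ 2 * Z * T) := mul_le_mul_of_nonneg_right h4 (by positivity)
    _ = C1 * NZ * N ^ 2 * Z * T := by ring

private lemma PE_rpow (R C N Z ε : ℝ) (hR : 1 ≤ R) (hC : 1 ≤ C) (hN : 1 ≤ N) (hZ : 1 ≤ Z)
    (hε : 0 < ε) : (2 * (32 * R ^ 2 * C * N ^ 2 * Z) ^ 4) ^ (ε / 8) ≤
      (2 * (32 * R ^ 2 * C) ^ 4) ^ (ε / 8) * (N * Z) ^ ε := by
  have h1 : 2 * (32 * R ^ 2 * C * N ^ 2 * Z) ^ 4 ≤ (2 * (32 * R ^ 2 * C) ^ 4) * (N * Z) ^ 8 := by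
    have : Z ≤ Z ^ 2 := by nlinarith
    have h2 : 32 * R ^ 2 * C * N ^ 2 * Z ≤ 32 * R ^ 2 * C * (N * Z) ^ 2 := by
      have : 32 * R ^ 2 * C * N ^ 2 * Z ≤ 32 * R ^ 2 * C * N ^ 2 * Z ^ 2 :=
        mul_le_mul_of_nonneg_left this (by positivity)
      calc _ ≤ _ := this
        _ = _ := by ring
    have h3 := pow_le_pow_left₀ (by positivity) h2 4
    calc 2 * (32 * R ^ 2 * C * N ^ 2 * Z) ^ 4 ≤ 2 * (32 * R ^ 2 * C * (N * Z) ^ 2) ^ 4 := by linarith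
      _ = _ := by ring
  have h4 : ((N * Z) ^ 8) ^ (ε / 8) = (N * Z) ^ ε := by
    rw [← Real.rpow_natCast, ← Real.rpow_mul (by positivity)]
    congr 1
    push_cast
    ring
  calc _ ≤ ((2 * (32 * R ^ 2 * C) ^ 4) * (N * Z) ^ 8) ^ (ε / 8) :=
        Real.rpow_le_rpow (by positivity) h1 (by positivity)
    _ = (2 * (32 * R ^ 2 * C) ^ 4) ^ (ε / 8) * (N * Z) ^ ε := by
        rw [Real.mul_rpow (by positivity) (by positivity), h4]

private lemma PE_Bx_entries (w D : ℝ) (M : MR) (hw0 : 0 ≤ w) (hw1 : w ≤ 1) (hD : 0 ≤ D)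
    (h : Bx w D M) : ∀ i j, |M i j| ≤ D := by
  obtain ⟨h1, h2, h3, h4⟩ := h
  have h5 : w * D ≤ D := by nlinarith
  intro i j
  fin_cases i <;> fin_cases j
  · exact h1
  · exact h3.trans h5
  · exact h4.trans h5
  · exact h2

theorem tPE (hFb : S_Fb) (hPar : S_Par) (hPA : S_PA) (hPR : S_PR) : S_PE := by
  intro C R ε hC hR hε
  obtain ⟨CP, hCP, hP⟩ := Pool.Agent.A54.HSBd.pell_card (ε / 8) (by positivity)
  obtain ⟨CR, hCR, hPR'⟩ := hPR R hR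
  have hK0 : 0 ≤ 48 * C * CP * (2 * (32 * R ^ 2 * C) ^ 4) ^ (ε / 8) := by positivity
  have hA0 : 1 ≤ 64 * C ^ 2 * CR := by nlinarith [mul_le_mul hC hC (by norm_num) (by linarith)]
  refine ⟨64 * C ^ 2 * CR + 48 * C * CP * (2 * (32 * R ^ 2 * C) ^ 4) ^ (ε / 8), by linarith, ?_⟩
  intro S N Z n hSC hSR hK hU hN hZ hsm hn i hi l hl hPi hPl H hH hHp
  obtain ⟨f1, f2, f3, f4, f5, f6, f7, f8⟩ := hFb
  obtain ⟨q1, q2, q3, q4⟩ := hPA
  have hw0 : 0 ≤ S.w := by unfold Sys.w; positivity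
  have hw1 : S.w ≤ 1 := by
    unfold Sys.w
    rw [div_le_one (by positivity)]
    nlinarith
  have hy0 : 0 ≤ N ^ 6 * S.w * Z ^ 2 := by positivity
  have hs1 : 64 * C ^ 2 * CR * (N ^ 6 * S.w * Z ^ 2) ≤ 1 := by nlinarith
  have hs2 : N ^ 6 * S.w * Z ^ 2 ≤ 1 := by nlinarith
  have hwN : S.w * N ≤ 1 := by
    have h1 : N ≤ N ^ 6 := le_self_pow₀ hN (by norm_num)
    have h2 : 1 ≤ Z ^ 2 := one_le_pow₀ hZ
    have h3 : S.w * N ≤ S.w * N ^ 6 := mul_le_mul_of_nonneg_left h1 hw0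
    have h4 : S.w * N ^ 6 * 1 ≤ S.w * N ^ 6 * Z ^ 2 := mul_le_mul_of_nonneg_left h2 (by positivity)
    nlinarith
  have hCZ : 0 ≤ C * Z := by positivity
  have hN2 : 1 ≤ N ^ 2 := one_le_pow₀ hN
  have hCZ1 : 1 ≤ C * Z := by nlinarith
  have hD1 : 1 ≤ 8 * N ^ 2 * (C * Z) := by nlinarith
  have hDC : C * Z ≤ 8 * N ^ 2 * (C * Z) := by nlinarith
  have hsD : CR * (N ^ 2 * S.w * (8 * N ^ 2 * (C * Z)) ^ 2) ≤ 1 := by
    calc _ = 64 * C ^ 2 * CR * (N ^ 6 * S.w * Z ^ 2) := by ring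
      _ ≤ 1 := hs1
  have hB : ∀ h ∈ H, Bx S.w (C * Z) (fr (S.g i) (S.g l) h) := by
    intro h hh
    obtain ⟨-, m, hm, hmZ⟩ := hHp h hh
    rw [hSC] at hm
    refine f3 _ _ _ _ hw0 ?_ (f6 _ _ _ _ _ _ hm)
    exact mul_le_mul_of_nonneg_left hmZ (by linarith)
  have hBD : ∀ h ∈ H, Bx S.w (8 * N ^ 2 * (C * Z)) (fr (S.g i) (S.g l) h) := fun h hh =>
    f3 _ _ _ _ hw0 hDC (hB h hh)
  have hPB := fun (h : MZ) (hh : h ∈ H) =>
    q2 S N (C * Z) i l n h hK hU hN hwN hCZ hi hl hPi hPl (hB h hh)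
  have hn2 : (2 * n.det) ≠ 0 := mul_ne_zero two_ne_zero hn
  have hne0 : ∀ h ∈ H, h ≠ 0 := by
    intro h hh h0
    obtain ⟨a, b, hab⟩ := PE_nz h (hHp h hh).1
    rw [h0] at hab
    exact hab rfl
  -- at most two matrices without commuting part
  have hH1 : (H.filter (fun h => pa n h = 0)).card ≤ 2 := by
    have hanti : ∀ h ∈ H.filter (fun h => pa n h = 0), n * h = (-1 : ℤ) • (h * n) := by
      intro h hh
      rw [Finset.mem_filter] at hh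
      obtain ⟨g1, g2, g3, g4⟩ := q1 n h hPi.1
      rw [hh.2, zero_add] at g3
      rw [g3] at g2
      have g5 : (2 * n.det) • (n * h + h * n) = 0 := by
        rw [smul_add, ← Matrix.mul_smul, g2, ← Matrix.smul_mul]
        simp
      have g6 := (smul_eq_zero.mp g5).resolve_left hn2
      rw [neg_one_smul]
      exact eq_neg_of_add_eq_zero_left g6
    apply PE_two
    · intro h hh
      exact (hHp h (Finset.mem_of_mem_filter h hh)).1
    · intro h hh h' hh'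
      have m1 := Finset.mem_of_mem_filter h hh
      have m2 := Finset.mem_of_mem_filter h' hh'
      exact hPR' S N _ hSR hK hU hN hD1 hsD i hi l hl n h h' (-1) hn hPi hPl (Or.inr rfl)
        (hanti h hh) (hanti h' hh') (hne0 h m1) (hBD h m1) (hBD h' m2)
  have hH2 : (H.filter (fun h => pb n h = 0)).card ≤ 2 := by
    have hcom : ∀ h ∈ H.filter (fun h => pb n h = 0), n * h = (1 : ℤ) • (h * n) := by
      intro h hh
      rw [Finset.mem_filter] at hh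
      obtain ⟨g1, g2, g3, g4⟩ := q1 n h hPi.1
      rw [hh.2, add_zero] at g3
      rw [g3] at g1
      have g5 : (2 * n.det) • (n * h - h * n) = 0 := by
        rw [smul_sub, ← Matrix.mul_smul, g1, ← Matrix.smul_mul]
        simp
      have g6 := (smul_eq_zero.mp g5).resolve_left hn2
      rw [one_smul]
      exact sub_eq_zero.mp g6
    apply PE_two
    · intro h hh
      exact (hHp h (Finset.mem_of_mem_filter h hh)).1
    · intro h hh h' hh'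
      have m1 := Finset.mem_of_mem_filter h hh
      have m2 := Finset.mem_of_mem_filter h' hh'
      exact hPR' S N _ hSR hK hU hN hD1 hsD i hi l hl n h h' 1 hn hPi hPl (Or.inl rfl)
        (hcom h hh) (hcom h' hh') (hne0 h m1) (hBD h m1) (hBD h' m2)
  set H' : Finset MZ := H.filter (fun h => pa n h ≠ 0 ∧ pb n h ≠ 0) with hH'
  have hcard : H.card ≤ H'.card + 4 := by
    have hsub : H ⊆ H' ∪ (H.filter (fun h => pa n h = 0) ∪ H.filter (fun h => pb n h = 0)) := by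
      intro h hh
      rw [hH']
      simp only [Finset.mem_union, Finset.mem_filter]
      tauto
    have h1 := Finset.card_le_card hsub
    have h2 := Finset.card_union_le H'
      (H.filter (fun h => pa n h = 0) ∪ H.filter (fun h => pb n h = 0))
    have h3 := Finset.card_union_le (H.filter (fun h => pa n h = 0))
      (H.filter (fun h => pb n h = 0))
    omega
  have hcard2 : (H.card : ℝ) ≤ 2 * (H'.card : ℝ) := by
    have : H.card ≤ 2 * H'.card := by omega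
    exact_mod_cast this
  have hcH : (0 : ℝ) < (H.card : ℝ) := by
    have : 0 < H.card := by omega
    exact_mod_cast this
  have hne : H'.Nonempty := Finset.card_pos.mp (by omega)
  have hsubH : ∀ h ∈ H', h ∈ H ∧ pa n h ≠ 0 ∧ pb n h ≠ 0 := by
    intro h hh
    rw [hH', Finset.mem_filter] at hh
    exact ⟨hh.1, hh.2.1, hh.2.2⟩
  obtain ⟨h1, hh1⟩ := hne
  obtain ⟨m1, na1, nb1⟩ := hsubH h1 hh1
  obtain ⟨ca, a0, hca, hpa, hea⟩ := hPar.2.1 _ na1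
  obtain ⟨cb, b0, hcb, hpb, heb⟩ := hPar.2.1 _ nb1
  have hcom : ∀ h : MZ, n * pa n h = (1 : ℤ) • (pa n h * n) := fun h => by
    rw [one_smul]; exact (q1 n h hPi.1).1
  have hanti : ∀ h : MZ, n * pb n h = (-1 : ℤ) • (pb n h * n) := fun h => by
    rw [neg_one_smul]; exact (q1 n h hPi.1).2.1
  have hPRa : ∀ h ∈ H', (pa n h1).det ≠ 0 ∧ ∃ c : ℤ, (pa n h1).det • pa n h = c • pa n h1 := by
    intro h hh
    obtain ⟨m2, -, -⟩ := hsubH h hh
    exact hPR' S N _ hSR hK hU hN hD1 hsD i hi l hl n _ _ 1 hn hPi hPl (Or.inl rfl)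
      (hcom h1) (hcom h) na1 (hPB h1 m1).1 (hPB h m2).1
  have hPRb : ∀ h ∈ H', (pb n h1).det ≠ 0 ∧ ∃ c : ℤ, (pb n h1).det • pb n h = c • pb n h1 := by
    intro h hh
    obtain ⟨m2, -, -⟩ := hsubH h hh
    exact hPR' S N _ hSR hK hU hN hD1 hsD i hi l hl n _ _ (-1) hn hPi hPl (Or.inr rfl)
      (hanti h1) (hanti h) nb1 (hPB h1 m1).2 (hPB h m2).2
  have hta : ∀ h ∈ H', ∃ t : ℤ, pa n h = t • a0 := by
    intro h hh
    obtain ⟨d1, c, hc⟩ := hPRa h hh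
    rw [show c • pa n h1 = (c * ca) • a0 by rw [mul_smul, ← hea]] at hc
    exact PE_prim _ _ _ _ d1 hpa hc
  have hub : ∀ h ∈ H', ∃ t : ℤ, pb n h = t • b0 := by
    intro h hh
    obtain ⟨d1, c, hc⟩ := hPRb h hh
    rw [show c • pb n h1 = (c * cb) • b0 by rw [mul_smul, ← heb]] at hc
    exact PE_prim _ _ _ _ d1 hpb hc
  choose! t ht using hta
  choose! u hu using hub
  choose! m hm using fun (h : MZ) (hh : h ∈ H) => (hHp h hh).2
  have hdet : ∀ (c : ℤ) (a : MZ), (c • a).det = c ^ 2 * a.det := by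
    intro c a
    rw [Matrix.det_smul]
    simp
  have hda : a0.det ≠ 0 := by
    have := (hPRa h1 hh1).1
    rw [hea, hdet] at this
    exact right_ne_zero_of_mul this
  have hdb : b0.det ≠ 0 := by
    have := (hPRb h1 hh1).1
    rw [heb, hdet] at this
    exact right_ne_zero_of_mul this
  have ht0 : ∀ h ∈ H', t h ≠ 0 := by
    intro h hh h0
    have := ht h hh
    rw [h0, zero_smul] at this
    exact (hsubH h hh).2.1 this
  have hu0 : ∀ h ∈ H', u h ≠ 0 := by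
    intro h hh h0
    have := hu h hh
    rw [h0, zero_smul] at this
    exact (hsubH h hh).2.2 this
  have heq : ∀ h ∈ H', t h ^ 2 * a0.det + u h ^ 2 * b0.det = (2 * n.det * (m h : ℤ)) ^ 2 := by
    intro h hh
    obtain ⟨-, -, -, g4⟩ := q1 n h hPi.1
    rw [ht h hh, hu h hh, hdet, hdet, (hm h (hsubH h hh).1).1.1] at g4
    rw [g4]
    ring
  have hinj : ∀ h ∈ H', ∀ h' ∈ H', t h = t h' → u h = u h' → h = h' := by
    intro h hh h' hh' e1 e2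
    have g3 := (q1 n h hPi.1).2.2.1
    have g3' := (q1 n h' hPi.1).2.2.1
    rw [ht h hh, hu h hh, e1, e2, ← ht h' hh', ← hu h' hh', g3'] at g3
    exact (smul_right_injective _ hn2 g3).symm
  -- sizes
  set X : ℝ := 32 * R ^ 2 * C * N ^ 2 * Z with hX
  have hX1 : 1 ≤ X := by
    have r1 : 1 ≤ R ^ 2 := one_le_pow₀ hR
    have r2 : 1 ≤ 32 * R ^ 2 := by linarith
    have r3 : 1 ≤ 32 * R ^ 2 * C := by nlinarith
    have r4 : 1 ≤ 32 * R ^ 2 * C * N ^ 2 := by nlinarith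
    rw [hX]
    nlinarith
  have hent : ∀ A : MZ, Bx S.w (8 * N ^ 2 * (C * Z)) (fr (S.g i) (S.g l) A) →
      ∀ a b, |((A a b : ℤ) : ℝ)| ≤ X := by
    intro A hA a b
    have := f7 R _ (S.g i) (S.g l) A (hU i hi).1 (hU l hl).1
      (fun a b => by rw [← hSR]; exact (hU i hi).2 a b)
      (fun a b => by rw [← hSR]; exact (hU l hl).2 a b)
      (PE_Bx_entries _ _ _ hw0 hw1 (by linarith) hA) a b
    refine this.trans (le_of_eq ?_)
    rw [hX]
    ring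
  have hsa : ∀ h ∈ H', |(t h : ℝ)| ≤ X ∧ ∀ a b, |((a0 a b : ℤ) : ℝ)| ≤ X := fun h hh =>
    PE_size X (t h) a0 (pa n h) (ht0 h hh) hpa (ht h hh) (hent _ (hPB h (hsubH h hh).1).1)
  have hsb : ∀ h ∈ H', |(u h : ℝ)| ≤ X ∧ ∀ a b, |((b0 a b : ℤ) : ℝ)| ≤ X := fun h hh =>
    PE_size X (u h) b0 (pb n h) (hu0 h hh) hpb (hu h hh) (hent _ (hPB h (hsubH h hh).1).2)
  have hda2 : |((a0.det : ℤ) : ℝ)| ≤ 2 * X ^ 2 := PE_det X (by linarith) a0 (hsa h1 hh1).2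
  have hdb2 : |((b0.det : ℤ) : ℝ)| ≤ 2 * X ^ 2 := PE_det X (by linarith) b0 (hsb h1 hh1).2
  have hprod : ∀ (c d : ℤ), |(c : ℝ)| ≤ X → |(d : ℝ)| ≤ 2 * X ^ 2 →
      |((c ^ 2 * d : ℤ) : ℝ)| ≤ 2 * X ^ 4 := by
    intro c d hc hd
    push_cast
    rw [abs_mul, abs_pow]
    have e1 : |(c : ℝ)| ^ 2 ≤ X ^ 2 := pow_le_pow_left₀ (abs_nonneg _) hc 2
    calc |(c : ℝ)| ^ 2 * |(d : ℝ)| ≤ X ^ 2 * (2 * X ^ 2) :=
          mul_le_mul e1 hd (abs_nonneg _) (by positivity)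
      _ = 2 * X ^ 4 := by ring
  have hX4 : X ≤ 2 * X ^ 4 := by
    have : X ≤ X ^ 4 := le_self_pow₀ hX1 (by norm_num)
    have h0 : 0 ≤ X ^ 4 := by positivity
    linarith
  have hX24 : 2 * X ^ 2 ≤ 2 * X ^ 4 := by
    have : X ^ 2 ≤ X ^ 4 := pow_le_pow_right₀ hX1 (by norm_num)
    linarith
  have hMb : ∀ h ∈ H', |((2 * n.det * (m h : ℤ) : ℤ) : ℝ)| ≤ 2 * X ^ 4 := by
    intro h hh
    refine le_trans ?_ hX24
    apply abs_le_of_sq_le_sq _ (by positivity)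
    have e1 : (((2 * n.det * (m h : ℤ) : ℤ) : ℝ)) ^ 2 =
        ((t h ^ 2 * a0.det : ℤ) : ℝ) + ((u h ^ 2 * b0.det : ℤ) : ℝ) := by
      have := heq h hh
      have e2 : (((2 * n.det * (m h : ℤ)) ^ 2 : ℤ) : ℝ) =
          ((t h ^ 2 * a0.det + u h ^ 2 * b0.det : ℤ) : ℝ) := by rw [this]
      push_cast at e2 ⊢
      exact e2
    rw [e1]
    have e3 := abs_le.mp (hprod (t h) a0.det (hsa h hh).1 hda2)
    have e4 := abs_le.mp (hprod (u h) b0.det (hsb h hh).1 hdb2)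
    nlinarith [e3.2, e4.2]
  have hZP : 1 ≤ 2 * X ^ 4 := by linarith
  have hrp := PE_rpow R C N Z ε hR hC hN hZ hε
  rw [← hX] at hrp
  have hNZ0 : 0 ≤ (N * Z) ^ ε := by positivity
  have hone : ∀ c : ℤ, c ≠ 0 → (1 : ℝ) ≤ |(c : ℝ)| := by
    intro c hc
    have : (1 : ℤ) ≤ |c| := Int.one_le_abs hc
    exact_mod_cast this
  have hne' : H'.Nonempty := ⟨h1, hh1⟩
  have hC1 : 48 * C * CP * (2 * (32 * R ^ 2 * C) ^ 4) ^ (ε / 8) ≤
      64 * C ^ 2 * CR + 48 * C * CP * (2 * (32 * R ^ 2 * C) ^ 4) ^ (ε / 8) := by linarith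
  refine ⟨a0, b0, hpa, hpb, hda, hdb, ?_, ?_, ?_, ?_, h1, m h1, ca, cb, (hm h1 m1).1,
    (hm h1 m1).2, hca.ne', hcb.ne', hea, heb⟩
  · have g1 := (q1 n h1 hPi.1).1
    rw [hea, Matrix.mul_smul, Matrix.smul_mul] at g1
    exact smul_right_injective _ hca.ne' g1
  · have g1 := (q1 n h1 hPi.1).2.1
    rw [heb, Matrix.mul_smul, Matrix.smul_mul, ← smul_neg] at g1
    exact smul_right_injective _ hcb.ne' g1
  · obtain ⟨hs, hsH, hmax⟩ := H'.exists_max_image (fun h => |(t h : ℝ)|) hne'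
    have hT1 := hone (t hs) (ht0 hs hsH)
    have hcnt := PE_count CP (ε / 8) hCP hP (2 * X ^ 4) |(t hs : ℝ)| hZP hT1 H' t u
      (fun h => 2 * n.det * (m h : ℤ)) a0.det b0.det hda hdb ht0
      (fun h hh => by have := heq h hh; linarith)
      (fun h hh => ⟨hprod _ _ (hsa h hh).1 hda2, hMb h hh, (hsb h hh).1.trans hX4⟩)
      hinj (fun h hh => hmax h hh)
    have hfin := PE_fin C CP _ N Z |(t hs : ℝ)| _ _ ((N * Z) ^ ε) (H.card : ℝ) (H'.card : ℝ)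
      (by linarith) (by linarith) (by linarith) hT1 hcH hcnt hcard2 hrp hC1 hNZ0
    refine f3 _ _ _ _ hw0 hfin ?_
    refine (f4 S.w _ (S.g i) (S.g l) (t hs) a0 (ht0 hs hsH)).mp ?_
    rw [mul_div_cancel₀ _ (by linarith), ← ht hs hsH]
    exact (hPB hs (hsubH hs hsH).1).1
  · obtain ⟨hs, hsH, hmax⟩ := H'.exists_max_image (fun h => |(u h : ℝ)|) hne'
    have hT1 := hone (u hs) (hu0 hs hsH)
    have hcnt := PE_count CP (ε / 8) hCP hP (2 * X ^ 4) |(u hs : ℝ)| hZP hT1 H' u t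
      (fun h => 2 * n.det * (m h : ℤ)) b0.det a0.det hdb hda hu0
      (fun h hh => by have := heq h hh; linarith)
      (fun h hh => ⟨hprod _ _ (hsb h hh).1 hdb2, hMb h hh, (hsa h hh).1.trans hX4⟩)
      (fun h hh h' hh' e1 e2 => hinj h hh h' hh' e2 e1) (fun h hh => hmax h hh)
    have hfin := PE_fin C CP _ N Z |(u hs : ℝ)| _ _ ((N * Z) ^ ε) (H.card : ℝ) (H'.card : ℝ)
      (by linarith) (by linarith) (by linarith) hT1 hcH hcnt hcard2 hrp hC1 hNZ0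
    refine f3 _ _ _ _ hw0 hfin ?_
    refine (f4 S.w _ (S.g i) (S.g l) (u hs) b0 (hu0 hs hsH)).mp ?_
    rw [mul_div_cancel₀ _ (by linarith), ← hu hs hsH]
    exact (hPB hs (hsubH hs hsH).1).2

end HSLow
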