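import Pool.Agent.Lib.HS.Bd.SpecLow
import Pool.Agent.Lib.HS.Bd.Lw.LT

/-!
PROJECT H*, LOW BANDS (MP_a54f13_nt), module PG: the plane tube count.
-/

set_option autoImplicit false

namespace HSLow

open Matrix HSL

namespace PG_aux

/-- double bracket -/
theorem dbl {a b n : MZ} (ha : a.trace = 0) (hb : b.trace = 0) (hn : n.trace = 0)
    (h1 : (a * n).trace = 0) (h2 : (b * n).trace = 0) : brk n (brk a b) = 0 := by
  rw [Matrix.trace_fin_two] at ha hb hn h1 h2
  simp only [Matrix.mul_apply, Fin.sum_univ_two] at h1 h2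
  have ea : a 1 1 = - a 0 0 := by linarith
  have eb : b 1 1 = - b 0 0 := by linarith
  have en : n 1 1 = - n 0 0 := by linarith
  rw [ea, en] at h1
  rw [eb, en] at h2
  ext i j
  fin_cases i <;> fin_cases j <;>
    simp only [brk, Matrix.sub_apply, Matrix.mul_apply, Fin.sum_univ_two, Matrix.zero_apply, ea, eb,
      en, Fin.zero_eta, Fin.mk_one, Fin.isValue]
  · linear_combination (-2 : ℤ) * a 0 0 * h2 + (2 : ℤ) * b 0 0 * h1
  · linear_combination (-2 : ℤ) * a 0 1 * h2 + (2 : ℤ) * b 0 1 * h1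
  · linear_combination (-2 : ℤ) * a 1 0 * h2 + (2 : ℤ) * b 1 0 * h1
  · linear_combination (2 : ℤ) * a 0 0 * h2 - (2 : ℤ) * b 0 0 * h1

theorem brk_tr (a b : MZ) : (brk a b).trace = 0 := by
  rw [brk, Matrix.trace_sub, Matrix.trace_mul_comm, sub_self]

end PG_aux

open PG_aux

theorem tPG (hFb : S_Fb) (hPar : S_Par) (hR2 : S_R2) (_hPA : S_PA) : S_PG := by
  classical
  obtain ⟨-, -, fb3, fb4, -, -, -, -⟩ := hFb
  obtain ⟨par1, par2, par3, -, -⟩ := hPar
  refine ⟨216, by norm_num, ?_⟩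
  intro S N S0 τ n hK hU hN hS0 hτ hwN hdet i hi hPl hGd F hF
  obtain ⟨hdi, -⟩ := hU i hi
  have hw : 0 < S.w := by
    unfold Sys.w
    positivity
  obtain ⟨pt, pn, p0, p1, p2⟩ := hPl
  obtain ⟨c, n0, hc, hn0, hcn⟩ := par2 n pn
  have hcR : (1 : ℝ) ≤ (c : ℝ) := by exact_mod_cast hc
  have tn0 : n0.trace = 0 := by
    rw [hcn, Matrix.trace_smul, smul_eq_mul] at pt
    rcases mul_eq_zero.1 pt with h | h
    · omega
    · exact h
  have hn0ne : n0 ≠ 0 := by
    rintro rfl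
    apply pn
    rw [hcn, smul_zero]
  have hd0 : n0.det ≠ 0 := by
    intro h
    apply hdet
    rw [hcn, Matrix.det_smul, h, mul_zero]
  -- the frame of n0
  have hx : |fr (S.g i) (S.g i) n0 0 0| ≤ S.w * N := by
    have e := LT_aux.fr_smul (S.g i) c n0 0 0
    rw [← hcn] at e
    rw [e, abs_mul] at p0
    have h1 : |fr (S.g i) (S.g i) n0 0 0| ≤ |(c : ℝ)| * |fr (S.g i) (S.g i) n0 0 0| := by
      have h2 : (1 : ℝ) ≤ |(c : ℝ)| := hcR.trans (le_abs_self _)
      nlinarith [abs_nonneg (fr (S.g i) (S.g i) n0 0 0)]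
    linarith
  have hyz : 1 / 2 ≤ |fr (S.g i) (S.g i) n0 0 1| * |fr (S.g i) (S.g i) n0 1 0| := by
    have hdfr : (fr (S.g i) (S.g i) n0).det = ((n0.det : ℤ) : ℝ) := by
      unfold fr
      rw [Matrix.det_mul, Matrix.det_mul, Matrix.det_adjugate, hdi]
      have : (toR n0).det = ((n0.det : ℤ) : ℝ) := by
        unfold toR
        exact (Int.cast_det n0).symm
      rw [this]
      simp
    have htr := LT_aux.fr_tr (S.g i) n0 hdi tn0
    rw [Matrix.det_fin_two, htr] at hdfr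
    have h1 : (1 : ℝ) ≤ |((n0.det : ℤ) : ℝ)| := by
      have : (1 : ℤ) ≤ |n0.det| := Int.one_le_abs hd0
      rw [← Int.cast_abs]
      exact_mod_cast this
    have h3 := LT_aux.prod_le hx hx
    have h2 : |((n0.det : ℤ) : ℝ)| ≤ |fr (S.g i) (S.g i) n0 0 0 * fr (S.g i) (S.g i) n0 0 0| +
        |fr (S.g i) (S.g i) n0 0 1 * fr (S.g i) (S.g i) n0 1 0| := by
      rw [← hdfr]
      have : fr (S.g i) (S.g i) n0 0 0 * -fr (S.g i) (S.g i) n0 0 0 -
          fr (S.g i) (S.g i) n0 0 1 * fr (S.g i) (S.g i) n0 1 0 =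
          -(fr (S.g i) (S.g i) n0 0 0 * fr (S.g i) (S.g i) n0 0 0 +
          fr (S.g i) (S.g i) n0 0 1 * fr (S.g i) (S.g i) n0 1 0) := by ring
      rw [this, abs_neg]
      exact abs_add_le _ _
    rw [← abs_mul]
    have h4 : S.w * N * (S.w * N) = (S.w * N) ^ 2 := by ring
    linarith
  -- brackets
  have hbr : ∀ v ∈ F, ∀ v' ∈ F, ∃ q : ℤ, |q| ≤ ((⌊8 * (S.w * τ ^ 2)⌋₊ : ℕ) : ℤ) ∧
      brk v v' = q • n0 := by
    intro v hv v' hv'
    obtain ⟨-, ⟨tv, bv⟩, ov⟩ := hF v hv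
    obtain ⟨-, ⟨tv', bv'⟩, ov'⟩ := hF v' hv'
    have hdb := dbl tv tv' pt ov ov'
    have hdb0 : brk n0 (brk v v') = 0 := by
      have e : brk n (brk v v') = c • brk n0 (brk v v') := by
        rw [hcn]
        simp only [brk, Matrix.smul_mul, Matrix.mul_smul, smul_sub]
      rw [e] at hdb
      exact (smul_eq_zero.1 hdb).resolve_left (by omega)
    obtain ⟨q, hq⟩ := par1 n0 (brk v v') tn0 (brk_tr v v') hn0 hdb0
    refine ⟨q, ?_, hq⟩
    obtain ⟨-, b1, b2⟩ := LT_aux.fr_brk (S.g i) hdi tv tv' bv bv'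
    rw [hq, LT_aux.fr_smul, abs_mul] at b1 b2
    have hq8 : |(q : ℝ)| ≤ 8 * (S.w * τ ^ 2) := by
      by_contra hcon
      rw [not_le] at hcon
      have hpos : 0 < S.w * τ ^ 2 := by positivity
      have hy : |fr (S.g i) (S.g i) n0 0 1| < 1 / 2 := by
        by_contra h
        rw [not_lt] at h
        nlinarith [abs_nonneg (q : ℝ)]
      have hz : |fr (S.g i) (S.g i) n0 1 0| < 1 / 2 := by
        by_contra h
        rw [not_lt] at h
        nlinarith [abs_nonneg (q : ℝ)]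
      nlinarith [abs_nonneg (fr (S.g i) (S.g i) n0 0 1), abs_nonneg (fr (S.g i) (S.g i) n0 1 0)]
    have h1 : (q.natAbs : ℝ) ≤ 8 * (S.w * τ ^ 2) := by
      rw [Nat.cast_natAbs, Int.cast_abs]
      exact hq8
    have h2 : q.natAbs ≤ ⌊8 * (S.w * τ ^ 2)⌋₊ := Nat.le_floor h1
    rw [Int.abs_eq_natAbs]
    exact_mod_cast h2
  have hwt : 0 ≤ S.w * τ ^ 2 := by positivity
  have hts : 0 ≤ τ / S0 := by positivity
  by_cases hpar : ∃ v ∈ F, ∃ v' ∈ F, brk v v' ≠ 0
  · have h1 := hR2 _ n0 F hn0 (fun v hv => (hF v hv).2.1.1) hbr hpar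
    have h2 : (F.card : ℝ) ≤ 27 * (⌊8 * (S.w * τ ^ 2)⌋₊ : ℝ) := by exact_mod_cast h1
    have h3 := Nat.floor_le (show 0 ≤ 8 * (S.w * τ ^ 2) by positivity)
    linarith
  · push Not at hpar
    rcases F.eq_empty_or_nonempty with he | ⟨v1, hv1⟩
    · rw [he, Finset.card_empty]
      simp only [Nat.cast_zero]
      positivity
    obtain ⟨hv1n, ⟨tv1, bv1⟩, -⟩ := hF v1 hv1
    obtain ⟨c1, g0, hc1, hg0, hcg⟩ := par2 v1 hv1n
    have hg0ne : g0 ≠ 0 := by
      rintro rfl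
      apply hv1n
      rw [hcg, smul_zero]
    have tg0 : g0.trace = 0 := by
      rw [hcg, Matrix.trace_smul, smul_eq_mul] at tv1
      rcases mul_eq_zero.1 tv1 with h | h
      · omega
      · exact h
    have hall : ∀ v ∈ F, ∃ q : ℤ, v = q • g0 := by
      intro v hv
      have h1 := hpar v1 hv1 v hv
      apply par1 g0 v tg0 (hF v hv).2.1.1 hg0
      have e : brk v1 v = c1 • brk g0 v := by
        rw [hcg]
        simp only [brk, Matrix.smul_mul, Matrix.mul_smul, smul_sub]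
      rw [e] at h1
      exact (smul_eq_zero.1 h1).resolve_left (by omega)
    choose! q hq using hall
    have hqb : ∀ v ∈ F, q v ≠ 0 ∧ |(q v : ℝ)| ≤ τ / S0 := by
      intro v hv
      have hq0 : q v ≠ 0 := by
        intro h
        apply (hF v hv).1
        rw [hq v hv, h, zero_smul]
      refine ⟨hq0, ?_⟩
      by_contra hcon
      rw [not_le] at hcon
      have hqpos : 0 < |(q v : ℝ)| := abs_pos.2 (by exact_mod_cast hq0)
      have h1 : τ < |(q v : ℝ)| * S0 := by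
        rw [div_lt_iff₀ hS0] at hcon
        exact hcon
      have h2 : Bx S.w (|(q v : ℝ)| * S0) (fr (S.g i) (S.g i) ((q v) • g0)) := by
        rw [← hq v hv]
        exact fb3 S.w τ _ _ hw.le h1.le (hF v hv).2.1.2
      rw [fb4 S.w S0 (S.g i) (S.g i) (q v) g0 hq0] at h2
      exact hg0ne (hGd g0 ⟨tg0, h2⟩)
    have hinj : Set.InjOn q F := by
      intro v hv v' hv' h
      rw [hq v hv, hq v' hv', h]
    have himg : F.image q ⊆ (Finset.Icc (-(⌊τ / S0⌋₊ : ℤ)) (⌊τ / S0⌋₊ : ℤ)).erase 0 := by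
      intro z hz
      rw [Finset.mem_image] at hz
      obtain ⟨v, hv, rfl⟩ := hz
      obtain ⟨h1, h2⟩ := hqb v hv
      rw [Finset.mem_erase, Finset.mem_Icc]
      have h3 : ((q v).natAbs : ℝ) ≤ τ / S0 := by
        rw [Nat.cast_natAbs, Int.cast_abs]
        exact h2
      have h4 : (q v).natAbs ≤ ⌊τ / S0⌋₊ := Nat.le_floor h3
      refine ⟨h1, ?_, ?_⟩ <;> omega
    have hcard : F.card ≤ 2 * ⌊τ / S0⌋₊ := by
      rw [← Finset.card_image_of_injOn hinj]
      refine (Finset.card_le_card himg).trans ?_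
      rw [Finset.card_erase_of_mem (by rw [Finset.mem_Icc]; omega), Int.card_Icc]
      omega
    have h2 : (F.card : ℝ) ≤ 2 * (⌊τ / S0⌋₊ : ℝ) := by exact_mod_cast hcard
    have h3 := Nat.floor_le hts
    linarith

end HSLow
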