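import Pool.Agent.Lib.HS.Bd.SpecLow

set_option autoImplicit false

/-!
PROJECT H*, LOW BANDS (MP_a54f13_nt), module PL: planar cells, final count.
-/

namespace HSLow

open Matrix HSL

private theorem PL_prod (L : List ℕ) (x : ℝ) (hx : 0 ≤ x) (h : ∀ p ∈ L, (p : ℝ) ≤ x) :
    ((L.prod : ℕ) : ℝ) ≤ x ^ L.length := by
  induction L with
  | nil => simp
  | cons p L ih =>
    rw [List.prod_cons, List.length_cons, pow_succ', Nat.cast_mul]
    exact mul_le_mul (h p List.mem_cons_self) (ih fun q hq => h q (List.mem_cons_of_mem _ hq))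
      (Nat.cast_nonneg _) hx

private theorem PL_lev (Q : Finset ℕ) (j m : ℕ) (x : ℝ) (hx : 0 ≤ x) (hQ : ∀ p ∈ Q, (p : ℝ) ≤ x)
    (h : Lev Q j m) : (m : ℝ) ≤ x ^ j := by
  obtain ⟨h0, h1, h2⟩ := h
  have h3 := PL_prod m.primeFactorsList x hx (fun p hp => hQ p (h2 p hp))
  rwa [Nat.prod_primeFactorsList h0, h1] at h3

open Classical in
/-- the matrices of the returns from `i` to `l` -/
private noncomputable def PL_H {ι : Type} (T : Finset (ι × ι × MZ)) (i l : ι) : Finset MZ :=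
  (T.filter (fun t => (t.1, t.2.1) = (i, l))).image (fun t => t.2.2)

private theorem PL_mem {ι : Type} (T : Finset (ι × ι × MZ)) (i l : ι) (h : MZ)
    (hh : h ∈ PL_H T i l) : (i, l, h) ∈ T := by
  classical
  unfold PL_H at hh
  rw [Finset.mem_image] at hh
  obtain ⟨t, ht, rfl⟩ := hh
  rw [Finset.mem_filter, Prod.mk.injEq] at ht
  obtain ⟨h1, h2, h3⟩ := ht
  rw [← h2, ← h3]
  exact h1

open Classical in
private theorem PL_card {ι : Type} (T : Finset (ι × ι × MZ)) (i l : ι) :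
    (PL_H T i l).card = (T.filter (fun t => (t.1, t.2.1) = (i, l))).card := by
  unfold PL_H
  apply Finset.card_image_of_injOn
  intro t ht t' ht' heq
  rw [Finset.mem_coe, Finset.mem_filter, Prod.mk.injEq] at ht ht'
  have heq' : t.2.2 = t'.2.2 := heq
  exact Prod.ext (by rw [ht.2.1, ht'.2.1]) (Prod.ext (by rw [ht.2.2, ht'.2.2]) heq')

private theorem PL_sum {ι : Type} (V : Finset ι) (T : Finset (ι × ι × MZ))
    (hT : ∀ t ∈ T, t.1 ∈ V ∧ t.2.1 ∈ V) :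
    (T.card : ℝ) = ∑ i ∈ V, ∑ l ∈ V, ((PL_H T i l).card : ℝ) := by
  classical
  have h1 : T.card = ∑ p ∈ V ×ˢ V, (T.filter (fun t => (t.1, t.2.1) = p)).card := by
    apply Finset.card_eq_sum_card_fiberwise
    intro t ht
    rw [Finset.mem_coe, Finset.mem_product]
    exact hT t ht
  rw [h1, Finset.sum_product]
  push_cast
  refine Finset.sum_congr rfl fun i _ => Finset.sum_congr rfl fun l _ => ?_
  rw [PL_card]

private theorem PL_fib {ι : Type} (V : Finset ι) (F : Finset (ι × ι)) (y : ℝ) (hF : F ⊆ V ×ˢ V)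
    (h : ∀ i ∈ V, ∀ G : Finset ι, G ⊆ V → (∀ l ∈ G, (i, l) ∈ F) → (G.card : ℝ) ≤ y) :
    (F.card : ℝ) ≤ (V.card : ℝ) * y := by
  classical
  have h1 : F.card = ∑ i ∈ V, (F.filter (fun t => t.1 = i)).card := by
    apply Finset.card_eq_sum_card_fiberwise
    intro t ht
    exact (Finset.mem_product.1 (hF ht)).1
  rw [h1]
  push_cast
  rw [← nsmul_eq_mul]
  apply Finset.sum_le_card_nsmul
  intro i hi
  have h2 : (F.filter (fun t => t.1 = i)).card =
      ((F.filter (fun t => t.1 = i)).image (fun t => t.2)).card := by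
    symm
    apply Finset.card_image_of_injOn
    intro t ht t' ht' heq
    rw [Finset.mem_coe, Finset.mem_filter] at ht ht'
    exact Prod.ext (by rw [ht.2, ht'.2]) heq
  rw [h2]
  apply h i hi
  · intro l hl
    rw [Finset.mem_image] at hl
    obtain ⟨t, ht, rfl⟩ := hl
    exact (Finset.mem_product.1 (hF (Finset.mem_filter.1 ht).1)).2
  · intro l hl
    rw [Finset.mem_image] at hl
    obtain ⟨t, ht, rfl⟩ := hl
    obtain ⟨h3, h4⟩ := Finset.mem_filter.1 ht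
    rw [← h4]
    exact h3

theorem tPL (hPLc : S_PLc) (hDy : S_Dy) : S_PL := by
  intro k C R ε hk hC hR hε hε1
  obtain ⟨C1, hC1, hP⟩ := hPLc C R ε hC hR hε hε1
  refine ⟨64 * C1, by linarith, ?_⟩
  intro S B N S0 M Q n hSC hSR hK hB hN hS0 hM hNZ hsm hU hSep hn hV hQ T hT hbig
  obtain ⟨Z, hZ⟩ : ∃ Z : ℝ, Z = (2 * M) ^ (2 * k) := ⟨_, rfl⟩
  rw [← hZ] at hNZ hsm ⊢
  have hZ1 : 1 ≤ Z := by
    rw [hZ]
    exact one_le_pow₀ (by linarith)
  have hw : 0 ≤ S.w := by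
    unfold Sys.w
    positivity
  have hZe : 0 ≤ Z ^ ε := Real.rpow_nonneg (by linarith) _
  have hsm' : C1 * (N ^ 6 * S.w * Z ^ 2) ≤ 1 := by
    have h0 : 0 ≤ C1 * (N ^ 6 * S.w * Z ^ 2) := by positivity
    have h1 : 64 * C1 * (N ^ 6 * S.w * Z ^ 2) = 64 * (C1 * (N ^ 6 * S.w * Z ^ 2)) := by ring
    rw [h1] at hsm
    linarith
  obtain ⟨A, hA⟩ : ∃ A : ℝ, A = C1 * B * N ^ 24 * Z ^ ε := ⟨_, rfl⟩
  have hA0 : 0 ≤ A := by
    rw [hA]
    positivity
  have hTV : ∀ t ∈ T, t.1 ∈ S.V ∧ t.2.1 ∈ S.V := fun t ht => ⟨(hT t ht).1, (hT t ht).2.1⟩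
  have hDy' := hDy S.ι S.V (fun i l => (PL_H T i l).card) (A * (S.w * Z ^ 4)) (A * (Z ^ 2 / S0))
    (T.card : ℝ) (by positivity) (by positivity) (by
      intro r0 hr0 F hF hFr
      apply PL_fib S.V F _ hF
      intro i hi G hG hGF
      have h1 := hP S B N S0 Z n hSC hSR hK hB hN hS0 hNZ hsm' hU hSep hn i hi (hV i hi).1
        (hV i hi).2 r0 hr0 G hG (by
          intro l hl
          refine ⟨(hV l (hG hl)).1, PL_H T i l, hFr (i, l) (hGF l hl), ?_⟩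
          intro h hh
          obtain ⟨_, _, h3, m, h4, h5⟩ := hT _ (PL_mem T i l h hh)
          refine ⟨h3, m, h5, ?_⟩
          rw [hZ]
          exact PL_lev Q (2 * k) m (2 * M) (by linarith) (fun p hp => (hQ p hp).2.2) h4)
      rw [← hA] at h1
      refine h1.trans (le_of_eq ?_)
      have hr : (0 : ℝ) < (r0 : ℝ) := by
        have : 0 < r0 := by omega
        exact_mod_cast this
      field_simp) (PL_sum S.V T hTV) hbig
  obtain ⟨rb, hrb⟩ : ∃ rb : ℝ, rb = (T.card : ℝ) / (S.V.card : ℝ) ^ 2 := ⟨_, rfl⟩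
  have hrb0 : 0 ≤ rb := by
    rw [hrb]
    positivity
  rw [← hrb] at hDy' ⊢
  refine hDy'.trans ?_
  have e1 : A * (S.w * Z ^ 4) / rb ^ 3 + A * (Z ^ 2 / S0) / rb =
      A * (S.w * Z ^ 4 / rb ^ 3 + Z ^ 2 / (rb * S0)) := by
    have e2 : A * (Z ^ 2 / S0) / rb = A * (Z ^ 2 / (rb * S0)) := by
      rw [mul_div_assoc, div_div, mul_comm S0 rb]
    rw [e2]
    ring
  rw [e1]
  have hN30 : N ^ 24 ≤ N ^ 30 := pow_le_pow_right₀ hN (by norm_num)
  have hX : 0 ≤ S.w * Z ^ 4 / rb ^ 3 + Z ^ 2 / (rb * S0) := by positivity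
  calc 64 * (S.V.card : ℝ) * (A * (S.w * Z ^ 4 / rb ^ 3 + Z ^ 2 / (rb * S0)))
      = (64 * C1 * B * Z ^ ε * (S.V.card : ℝ) * (S.w * Z ^ 4 / rb ^ 3 + Z ^ 2 / (rb * S0))) *
          N ^ 24 := by
        rw [hA]
        ring
    _ ≤ (64 * C1 * B * Z ^ ε * (S.V.card : ℝ) * (S.w * Z ^ 4 / rb ^ 3 + Z ^ 2 / (rb * S0))) *
          N ^ 30 := mul_le_mul_of_nonneg_left hN30 (by positivity)
    _ = 64 * C1 * B * N ^ 30 * Z ^ ε * (S.V.card : ℝ) *
          (S.w * Z ^ 4 / rb ^ 3 + Z ^ 2 / (rb * S0)) := by ring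

end HSLow
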