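import Pool.Agent.Lib.HS.Bd.SpecLow

/-!
PROJECT H*, LOW BANDS (MP_a54f13_nt), module PLc: planar cells with many returns from one cell
(the statement `S_PLc` of `HS/Bd/SpecLow.lean`).
-/

set_option autoImplicit false

namespace HSLow

open Matrix HSL

private lemma PLc_toR_adj (h : MZ) : toR h.adjugate = (toR h).adjugate := by
  ext i j
  fin_cases i <;> fin_cases j <;> simp [toR, Matrix.adjugate_fin_two]

private lemma PLc_adj_adj (b : MR) : b.adjugate.adjugate = b := by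
  ext i j
  fin_cases i <;> fin_cases j <;> simp [Matrix.adjugate_fin_two]

private lemma PLc_toR_mul (r h : MZ) : toR (r * h) = toR r * toR h := by
  ext i j
  simp [toR, Matrix.mul_apply]

private lemma PLc_fr_mul (a b c : MR) (r h : MZ) (hb : b.det = 1) :
    fr a c (r * h) = fr b c r * fr a b h := by
  have h1 : b * b.adjugate = 1 := by rw [Matrix.mul_adjugate, hb, one_smul]
  unfold fr
  rw [PLc_toR_mul]
  calc c.adjugate * (toR r * toR h) * a = c.adjugate * toR r * 1 * toR h * a := by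
        simp only [Matrix.mul_assoc, Matrix.one_mul]
    _ = c.adjugate * toR r * (b * b.adjugate) * toR h * a := by rw [h1]
    _ = c.adjugate * toR r * b * (b.adjugate * toR h * a) := by simp only [Matrix.mul_assoc]

private lemma PLc_fr_adj (a b : MR) (h : MZ) : fr b a h.adjugate = (fr a b h).adjugate := by
  unfold fr
  rw [Matrix.adjugate_mul_distrib, Matrix.adjugate_mul_distrib, PLc_toR_adj, PLc_adj_adj,
    Matrix.mul_assoc]

/-- `adj(a0) b0` anticommutes with `n`, is traceless, and orthogonal to `n` -/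
private lemma PLc_gam (n a b : MZ) (hn : n.trace = 0) (hd : n.det ≠ 0) (ha : n * a = a * n)
    (hb : n * b = -(b * n)) :
    (a.adjugate * b).trace = 0 ∧ ((a.adjugate * b) * n).trace = 0 := by
  have hadjn : n.adjugate = -n := by
    have h1 : n 1 1 = - n 0 0 := by
      have := hn
      rw [Matrix.trace_fin_two] at this
      linarith
    ext i j
    fin_cases i <;> fin_cases j <;> simp [Matrix.adjugate_fin_two, h1]
  have hadja : a.adjugate * n = n * a.adjugate := by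
    have h1 : (n * a).adjugate = (a * n).adjugate := by rw [ha]
    rw [Matrix.adjugate_mul_distrib, Matrix.adjugate_mul_distrib, hadjn, Matrix.mul_neg,
      Matrix.neg_mul] at h1
    exact neg_injective h1
  have hbn : b * n = -(n * b) := by rw [hb, neg_neg]
  set γ : MZ := a.adjugate * b with hγ
  have h1 : γ * n = -(n * γ) := by
    rw [hγ, Matrix.mul_assoc, hbn, Matrix.mul_neg, ← Matrix.mul_assoc, hadja, Matrix.mul_assoc]
  have h2 : (γ * n).trace = 0 := by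
    have e1 : (γ * n).trace = -(n * γ).trace := by rw [h1, Matrix.trace_neg]
    have e2 : (γ * n).trace = (n * γ).trace := Matrix.trace_mul_comm _ _
    linarith
  refine ⟨?_, h2⟩
  have hsq : n * n = (-n.det) • (1 : MZ) := by
    have h3 := Matrix.mul_adjugate n
    rw [hadjn, Matrix.mul_neg] at h3
    rw [neg_smul, ← h3, neg_neg]
  have e3 : (n * γ * n).trace = (-n.det) * γ.trace := by
    rw [Matrix.mul_assoc, Matrix.trace_mul_comm, Matrix.mul_assoc, hsq, Matrix.mul_smul,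
      Matrix.mul_one, Matrix.trace_smul, smul_eq_mul]
  have e4 : (n * γ * n).trace = -((-n.det) * γ.trace) := by
    have h1' : n * γ = -(γ * n) := by rw [h1, neg_neg]
    have e5 : n * γ * n = -(γ * (n * n)) := by
      rw [h1', Matrix.neg_mul, Matrix.mul_assoc]
    rw [e5, hsq, Matrix.mul_smul, Matrix.mul_one, Matrix.trace_neg, Matrix.trace_smul, smul_eq_mul]
  have e6 : n.det * γ.trace = 0 := by linarith
  rcases mul_eq_zero.mp e6 with h | h
  · exact absurd h hd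
  · exact h

/-- the arithmetic of the last line -/
private lemma PLc_num (CE CM CG B N Z S0 w r e : ℝ) (hCE : 1 ≤ CE) (hCM : 1 ≤ CM) (hCG : 1 ≤ CG)
    (hB : 1 ≤ B) (hN : 1 ≤ N) (hNZ : N ≤ Z) (hS0 : 1 ≤ S0) (hw : 0 ≤ w) (hr : 0 < r)
    (he : 0 < e) :
    CG * (w * (2 * (CE * (N * Z) ^ (e / 16) * N ^ 2 * Z / r) *
        (CE * (N * Z) ^ (e / 16) * N ^ 2 * Z / r)) ^ 2 +
      (2 * (CE * (N * Z) ^ (e / 16) * N ^ 2 * Z / r) *
        (CE * (N * Z) ^ (e / 16) * N ^ 2 * Z / r)) / S0) *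
      (CM * (N * Z) ^ (e / 16) * B * N ^ 12) ≤
    4 * CG * CM * CE ^ 4 * B * N ^ 24 * Z ^ e * (w * Z ^ 4 / r ^ 4 + Z ^ 2 / (r ^ 2 * S0)) := by
  have hZ : 1 ≤ Z := hN.trans hNZ
  have hZ0 : 0 < Z := by linarith
  have hN0 : 0 < N := by linarith
  have hS00 : 0 < S0 := by linarith
  have hP : 1 ≤ (N * Z) ^ (e / 16) :=
    Real.one_le_rpow (by nlinarith) (by positivity)
  set P : ℝ := (N * Z) ^ (e / 16) with hPd
  have hP5 : P ^ 5 ≤ Z ^ e := by
    have h1 : P ≤ (Z ^ (2 : ℕ)) ^ (e / 16) :=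
      Real.rpow_le_rpow (by positivity) (by nlinarith) (by positivity)
    have h2 : ((Z ^ (2 : ℕ) : ℝ)) ^ (e / 16) = Z ^ (e / 8) := by
      rw [← Real.rpow_natCast, ← Real.rpow_mul hZ0.le]
      congr 1
      push_cast
      ring
    rw [h2] at h1
    calc P ^ 5 ≤ (Z ^ (e / 8)) ^ 5 := pow_le_pow_left₀ (by linarith) h1 5
      _ = Z ^ (e / 8 * 5) := by
          rw [← Real.rpow_natCast, ← Real.rpow_mul hZ0.le]
          norm_num
      _ ≤ Z ^ e := Real.rpow_le_rpow_of_exponent_le hZ (by linarith)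
  have hP3 : P ^ 3 ≤ P ^ 5 := pow_le_pow_right₀ hP (by norm_num)
  have hC24 : CE ^ 2 ≤ CE ^ 4 := pow_le_pow_right₀ hCE (by norm_num)
  have hN20 : N ^ 20 ≤ N ^ 24 := pow_le_pow_right₀ hN (by norm_num)
  have hN16 : N ^ 16 ≤ N ^ 24 := pow_le_pow_right₀ hN (by norm_num)
  have hL : CG * (w * (2 * (CE * P * N ^ 2 * Z / r) * (CE * P * N ^ 2 * Z / r)) ^ 2 +
      (2 * (CE * P * N ^ 2 * Z / r) * (CE * P * N ^ 2 * Z / r)) / S0) *
      (CM * P * B * N ^ 12) =
      4 * CG * CM * B * (w * Z ^ 4 / r ^ 4) * (CE ^ 4 * (P ^ 5 * N ^ 20)) +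
      2 * CG * CM * B * (Z ^ 2 / (r ^ 2 * S0)) * (CE ^ 2 * (P ^ 3 * N ^ 16)) := by
    field_simp
    ring
  rw [hL]
  have hA : 0 ≤ w * Z ^ 4 / r ^ 4 := by positivity
  have hA2 : 0 ≤ Z ^ 2 / (r ^ 2 * S0) := by positivity
  have k1 : CE ^ 4 * (P ^ 5 * N ^ 20) ≤ CE ^ 4 * (Z ^ e * N ^ 24) := by
    gcongr
  have k2 : CE ^ 2 * (P ^ 3 * N ^ 16) ≤ CE ^ 4 * (Z ^ e * N ^ 24) := by
    have : P ^ 3 ≤ Z ^ e := hP3.trans hP5
    gcongr
  have c1 : 0 ≤ 4 * CG * CM * B * (w * Z ^ 4 / r ^ 4) := by positivity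
  have c2 : 0 ≤ 2 * CG * CM * B * (Z ^ 2 / (r ^ 2 * S0)) := by positivity
  have m1 := mul_le_mul_of_nonneg_left k1 c1
  have m2 := mul_le_mul_of_nonneg_left k2 c2
  have c3 : 0 ≤ 2 * CG * CM * B * (Z ^ 2 / (r ^ 2 * S0)) * (CE ^ 4 * (Z ^ e * N ^ 24)) := by
    positivity
  have fin : 4 * CG * CM * CE ^ 4 * B * N ^ 24 * Z ^ e * (w * Z ^ 4 / r ^ 4 + Z ^ 2 / (r ^ 2 * S0))
      = 4 * CG * CM * B * (w * Z ^ 4 / r ^ 4) * (CE ^ 4 * (Z ^ e * N ^ 24)) +
        2 * (2 * CG * CM * B * (Z ^ 2 / (r ^ 2 * S0)) * (CE ^ 4 * (Z ^ e * N ^ 24))) := by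
    ring
  rw [fin]
  linarith

/-- **PLc.** Planar cells with many returns from one cell. -/
theorem tPLc (hFb : S_Fb) (hPE : S_PE) (hPM : S_PM) (hPG : S_PG) : S_PLc := by
  obtain ⟨b1, b2, b3, -, -, -, -, -⟩ := hFb
  intro C R ε hC hR hε hε1
  obtain ⟨CE, hCE, hE⟩ := hPE C R (ε / 16) hC hR (by positivity)
  obtain ⟨CM, hCM, hM⟩ := hPM C R (ε / 16) CE hC hR (by positivity) hCE
  obtain ⟨CG, hCG, hG⟩ := hPG
  have hCE4 : CE ≤ CE ^ 4 := le_self_pow₀ hCE (by norm_num)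
  have hCE1 : 1 ≤ CE ^ 4 := one_le_pow₀ hCE
  have hGM : 1 ≤ CG * CM := by nlinarith
  have hbig : CG * CM ≤ 4 * CG * CM * CE ^ 4 := by nlinarith
  have q4 : 4 ≤ 4 * CG * CM * CE ^ 4 := by nlinarith
  have qE : CE ≤ 4 * CG * CM * CE ^ 4 := by nlinarith
  have qM : CM ≤ 4 * CG * CM * CE ^ 4 := by nlinarith
  refine ⟨4 * CG * CM * CE ^ 4, by linarith, ?_⟩
  intro S B N S0 Z n hSC hSR hK hB hN hS0 hNZ hsm hU hSep hnd i hi hPi hGi r0 hr0 F hFV hF
  have hZ : 1 ≤ Z := hN.trans hNZ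
  have hZ0 : 0 < Z := by linarith
  have hN0 : 0 < N := by linarith
  have hK0 : 0 < S.K := by linarith
  have hw0 : 0 < S.w := by unfold Sys.w; positivity
  have hw1 : S.w ≤ 1 := by
    unfold Sys.w
    rw [div_le_one (by positivity)]
    exact one_le_pow₀ hK
  have hX0 : 0 ≤ N ^ 6 * S.w * Z ^ 2 := by positivity
  have smE : CE * (N ^ 6 * S.w * Z ^ 2) ≤ 1 :=
    (mul_le_mul_of_nonneg_right qE hX0).trans hsm
  have smM : CM * (N ^ 6 * S.w * Z ^ 2) ≤ 1 :=
    (mul_le_mul_of_nonneg_right qM hX0).trans hsm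
  have sm4 : 4 * (N ^ 6 * S.w * Z ^ 2) ≤ 1 :=
    (mul_le_mul_of_nonneg_right q4 hX0).trans hsm
  have hwN : S.w * N ≤ 1 / 4 := by
    have h1 : S.w * N ≤ N ^ 6 * S.w * Z ^ 2 := by
      have h2 : N ≤ N ^ 6 := le_self_pow₀ hN (by norm_num)
      have h3 : (1 : ℝ) ≤ Z ^ 2 := one_le_pow₀ hZ
      calc S.w * N ≤ S.w * N ^ 6 := mul_le_mul_of_nonneg_left h2 hw0.le
        _ = N ^ 6 * S.w * 1 := by ring
        _ ≤ N ^ 6 * S.w * Z ^ 2 := mul_le_mul_of_nonneg_left h3 (by positivity)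
    linarith
  have hwN2 : 2 * (S.w * N) ^ 2 ≤ 1 := by
    have h0 : 0 ≤ S.w * N := by positivity
    nlinarith
  have hr8 : (8 : ℝ) ≤ (r0 : ℝ) := by exact_mod_cast hr0
  have hrpos : (0 : ℝ) < (r0 : ℝ) := by linarith
  have hP : 1 ≤ (N * Z) ^ (ε / 16) := Real.one_le_rpow (by nlinarith) (by positivity)
  have hNZ1 : 1 ≤ N * Z := by nlinarith
  set E : ℝ := CE * (N * Z) ^ (ε / 16) * N ^ 2 * Z / (r0 : ℝ) with hEd
  have hE0 : 0 < E := by
    rw [hEd]
    have : 0 < (N * Z) ^ (ε / 16) := by linarith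
    positivity
  have hE4 : E ≤ CE * (N * Z) ^ 4 := by
    have h1 : (N * Z) ^ (ε / 16) ≤ N * Z := by
      calc (N * Z) ^ (ε / 16) ≤ (N * Z) ^ (1 : ℝ) :=
            Real.rpow_le_rpow_of_exponent_le hNZ1 (by linarith)
        _ = N * Z := Real.rpow_one _
    calc E ≤ CE * (N * Z) ^ (ε / 16) * N ^ 2 * Z := by
          rw [hEd]
          refine div_le_self ?_ (by linarith)
          have : 0 < (N * Z) ^ (ε / 16) := by linarith
          positivity
      _ ≤ CE * (N * Z) * N ^ 2 * Z := by gcongr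
      _ = CE * (N ^ 3 * Z ^ 2) := by ring
      _ ≤ CE * (N ^ 4 * Z ^ 4) := by
          have h3 : N ^ 3 ≤ N ^ 4 := pow_le_pow_right₀ hN (by norm_num)
          have h4 : Z ^ 2 ≤ Z ^ 4 := pow_le_pow_right₀ hZ (by norm_num)
          gcongr
      _ = CE * (N * Z) ^ 4 := by ring
  -- the data of each cell
  have key : ∀ l ∈ F, ∃ p : MZ × MZ, Dat S n Z E i l p.1 p.2 := by
    intro l hl
    obtain ⟨hPl, H, hHr, hH⟩ := hF l hl
    have h8 : 8 ≤ H.card := hr0.trans hHr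
    obtain ⟨a0, b0, hD⟩ := hE S N Z n hSC hSR hK hU hN hZ smE hnd i hi l (hFV hl) hPi hPl H h8 hH
    obtain ⟨d1, d2, d3, d4, d5, d6, d7, d8, d9⟩ := hD
    have hle : CE * (N * Z) ^ (ε / 16) * N ^ 2 * Z / (H.card : ℝ) ≤ E := by
      rw [hEd]
      have hHr' : (r0 : ℝ) ≤ (H.card : ℝ) := by exact_mod_cast hHr
      have hnum : 0 ≤ CE * (N * Z) ^ (ε / 16) * N ^ 2 * Z := by
        have : 0 < (N * Z) ^ (ε / 16) := by linarith
        positivity
      exact div_le_div_of_nonneg_left hnum hrpos hHr'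
    exact ⟨(a0, b0), d1, d2, d3, d4, d5, d6, b3 _ _ _ _ hw0.le hle d7,
      b3 _ _ _ _ hw0.le hle d8, d9⟩
  choose! f hf using key
  classical
  let γ : S.ι → MZ := fun l => (f l).1.adjugate * (f l).2
  -- the number of the `γ`
  have hcardG : ((F.image γ).card : ℝ) ≤ CG * (S.w * (2 * E * E) ^ 2 + (2 * E * E) / S0) := by
    refine hG S N S0 (2 * E * E) n hK hU hN (by linarith) (by positivity) hwN2 hnd i hi hPi hGi _ ?_
    intro g hg
    obtain ⟨l, hl, rfl⟩ := Finset.mem_image.mp hg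
    obtain ⟨d1, d2, d3, d4, d5, d6, d7, d8, d9⟩ := hf l hl
    obtain ⟨t1, t2⟩ := PLc_gam n (f l).1 (f l).2 hPi.1 hnd d5 d6
    refine ⟨?_, ⟨t1, ?_⟩, t2⟩
    · intro h0
      have h1 : ((f l).1.adjugate * (f l).2).det = 0 := by
        have : (f l).1.adjugate * (f l).2 = 0 := h0
        rw [this]
        simp
      rw [Matrix.det_mul, Matrix.det_adjugate] at h1
      simp only [Fintype.card_fin, Nat.add_one_sub_one, pow_one, mul_eq_zero] at h1
      rcases h1 with h1 | h1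
      · exact d3 h1
      · exact d4 h1
    · change Bx S.w (2 * E * E) (fr (S.g i) (S.g i) ((f l).1.adjugate * (f l).2))
      rw [PLc_fr_mul (S.g i) (S.g l) (S.g i) _ _ (hU l (hFV hl)).1, PLc_fr_adj]
      exact b1 _ _ _ _ _ hw0.le hw1 hE0.le hE0.le (b2 _ _ _ d7) d8
  -- the fibres
  have hfib : ∀ g ∈ F.image γ, (((F.filter (fun l => γ l = g)).card : ℝ)) ≤
      CM * (N * Z) ^ (ε / 16) * B * N ^ 12 := by
    intro g _
    refine hM S B N Z E n hSC hSR hK hU hSep hB hN hZ hE0.le hE4 smM hnd i hi hPi g _ ?_ ?_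
    · exact (Finset.filter_subset _ _).trans hFV
    · intro l hl
      obtain ⟨hl1, hl2⟩ := Finset.mem_filter.mp hl
      exact ⟨(hF l hl1).1, (f l).1, (f l).2, hf l hl1, hl2⟩
  have hsum : (F.card : ℝ) ≤ ((F.image γ).card : ℝ) * (CM * (N * Z) ^ (ε / 16) * B * N ^ 12) := by
    have h1 : F.card = ∑ g ∈ F.image γ, (F.filter (fun l => γ l = g)).card :=
      Finset.card_eq_sum_card_fiberwise (fun l hl => Finset.mem_image_of_mem γ hl)
    rw [h1]
    push_cast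
    calc ∑ g ∈ F.image γ, ((F.filter (fun l => γ l = g)).card : ℝ)
        ≤ ∑ g ∈ F.image γ, (CM * (N * Z) ^ (ε / 16) * B * N ^ 12) := Finset.sum_le_sum hfib
      _ = ((F.image γ).card : ℝ) * (CM * (N * Z) ^ (ε / 16) * B * N ^ 12) := by
          rw [Finset.sum_const, nsmul_eq_mul]
  have hfin := PLc_num CE CM CG B N Z S0 S.w (r0 : ℝ) ε hCE hCM hCG hB hN hNZ hS0 hw0.le hrpos hε
  rw [← hEd] at hfin
  have hq0 : 0 ≤ CM * (N * Z) ^ (ε / 16) * B * N ^ 12 := by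
    have : 0 < (N * Z) ^ (ε / 16) := by linarith
    positivity
  calc (F.card : ℝ) ≤ ((F.image γ).card : ℝ) * (CM * (N * Z) ^ (ε / 16) * B * N ^ 12) := hsum
    _ ≤ CG * (S.w * (2 * E * E) ^ 2 + (2 * E * E) / S0) * (CM * (N * Z) ^ (ε / 16) * B * N ^ 12) :=
        mul_le_mul_of_nonneg_right hcardG hq0
    _ ≤ _ := hfin

end HSLow
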