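import Pool.Agent.Lib.HS.Bd.SpecLow

/-!
PROJECT H*, LOW BANDS (MP_a54f13_nt), module PM (spec helper41): multiplicity of the data of a planar pair
(helper77).
-/

set_option autoImplicit false

namespace HSLow

open Matrix HSL

/-! ### The number of matrices `a0` -/

private lemma PM_tr (v : MZ) (c : ℤ) (hc : c ≠ 0) (v0 : MZ) (h : v = c • v0) (ht : v.trace = 0) :
    v0.trace = 0 := by
  rw [h, Matrix.trace_smul, smul_eq_mul] at ht
  exact (mul_eq_zero.1 ht).resolve_left hc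

private lemma PM_brk_smul (v v' : MZ) (c : ℤ) : brk (c • v) v' = c • brk v v' := by
  simp only [brk, Matrix.smul_mul, Matrix.mul_smul, smul_sub]

private lemma PM_det (a : MZ) (U : ℤ) (n0 : MZ) (h : tf a = U • n0) :
    a.trace ^ 2 - (-n0.det) * U ^ 2 = 4 * a.det := by
  have h1 : (tf a).det = U ^ 2 * n0.det := by
    rw [h, Matrix.det_smul]; simp
  have h2 : (tf a).det = 4 * a.det - a.trace ^ 2 := by
    simp only [tf, Matrix.det_fin_two, Matrix.trace_fin_two, Matrix.sub_apply, Matrix.smul_apply,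
      smul_eq_mul, Matrix.one_apply_eq]
    simp
    ring
  linarith

private lemma PM_inj (a a' : MZ) (U : ℤ) (n0 : MZ) (h : tf a = U • n0) (h' : tf a' = U • n0)
    (ht : a.trace = a'.trace) : a = a' := by
  have h1 : tf a = tf a' := by rw [h, h']
  simp only [tf, ht] at h1
  have h2 : (2 : ℤ) • a = (2 : ℤ) • a' := by
    have := congrArg (fun z => z + a'.trace • (1 : MZ)) h1
    simpa using this
  ext i j
  have h3 := congrFun (congrFun h2 i) j
  simp only [Matrix.smul_apply, smul_eq_mul] at h3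
  omega

private lemma PM_tf_le (a : MZ) (X : ℝ) (hX : 0 ≤ X) (h : ∀ x y, |((a x y : ℤ) : ℝ)| ≤ X) (x y : Fin 2) :
    |((tf a x y : ℤ) : ℝ)| ≤ 4 * X := by
  have h00 := abs_le.1 (h 0 0)
  have h01 := abs_le.1 (h 0 1)
  have h10 := abs_le.1 (h 1 0)
  have h11 := abs_le.1 (h 1 1)
  have e : ∀ x y, tf a x y = 2 * a x y - (a 0 0 + a 1 1) * (1 : MZ) x y := by
    intro x y
    simp only [tf, Matrix.trace_fin_two, Matrix.sub_apply, Matrix.smul_apply, smul_eq_mul]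
  have e00 : tf a 0 0 = 2 * a 0 0 - (a 0 0 + a 1 1) := by rw [e]; simp
  have e01 : tf a 0 1 = 2 * a 0 1 := by rw [e]; simp
  have e10 : tf a 1 0 = 2 * a 1 0 := by rw [e]; simp
  have e11 : tf a 1 1 = 2 * a 1 1 - (a 0 0 + a 1 1) := by rw [e]; simp
  fin_cases x <;> fin_cases y
  · show |((tf a 0 0 : ℤ) : ℝ)| ≤ 4 * X
    rw [e00, abs_le]; push_cast; constructor <;> linarith
  · show |((tf a 0 1 : ℤ) : ℝ)| ≤ 4 * X
    rw [e01, abs_le]; push_cast; constructor <;> linarith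
  · show |((tf a 1 0 : ℤ) : ℝ)| ≤ 4 * X
    rw [e10, abs_le]; push_cast; constructor <;> linarith
  · show |((tf a 1 1 : ℤ) : ℝ)| ≤ 4 * X
    rw [e11, abs_le]; push_cast; constructor <;> linarith

private lemma PM_det_le (a : MZ) (X : ℝ) (hX : 0 ≤ X) (h : ∀ x y, |((a x y : ℤ) : ℝ)| ≤ X) :
    |((a.det : ℤ) : ℝ)| ≤ 2 * X ^ 2 := by
  rw [Matrix.det_fin_two]
  push_cast
  refine (abs_sub _ _).trans ?_
  rw [abs_mul, abs_mul]
  have h1 := mul_le_mul (h 0 0) (h 1 1) (abs_nonneg _) hX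
  have h2 := mul_le_mul (h 0 1) (h 1 0) (abs_nonneg _) hX
  nlinarith

private lemma PM_count (hPar : S_Par) (ε : ℝ) (hε : 0 < ε) : ∃ C : ℝ, 1 ≤ C ∧ ∀ (X : ℝ) (n : MZ) (g : ℤ),
    1 ≤ X → n.trace = 0 → n.det ≠ 0 → g ≠ 0 → |(g : ℝ)| ≤ 4 * X ^ 4 → ∀ A : Finset MZ,
    (∀ a ∈ A, n * a = a * n ∧ a.det ≠ 0 ∧ a.det ∣ g ∧ ∀ x y, |((a x y : ℤ) : ℝ)| ≤ X) →
    (A.card : ℝ) ≤ C * X ^ ε := by
  classical
  obtain ⟨Cp, hCp, hpell⟩ := Pool.Agent.A54.HSBd.pell_card (ε / 4) (by positivity)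
  obtain ⟨Cd, hCd, hdiv⟩ := Pool.Agent.Lib.MP_640417_ag.All.divisor_bound (ε / 8) (by positivity)
  refine ⟨max 1 (Cp * 8 ^ (ε / 4) * (2 * (Cd * 4 ^ (ε / 8)))), le_max_left _ _, ?_⟩
  intro X n g hX hnt hnd hg hgX A hA
  have hX0 : (0 : ℝ) < X := by linarith
  obtain ⟨hP1, hP2, -, hP4, -⟩ := hPar
  have hn0 : n ≠ 0 := by
    intro h; rw [h] at hnd; simp at hnd
  obtain ⟨c, n0, hc, hprim, hn⟩ := hP2 n hn0
  have ht0 : n0.trace = 0 := PM_tr n c hc.ne' n0 hn hnt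
  have hd0 : n0.det ≠ 0 := by
    intro h
    apply hnd
    rw [hn, Matrix.det_smul, h, mul_zero]
  have hU : ∀ a ∈ A, ∃ U : ℤ, tf a = U • n0 := by
    intro a ha
    have h1 := (hP4 n a).1 (hA a ha).1
    rw [hn, PM_brk_smul] at h1
    have h2 : brk n0 (tf a) = 0 := by
      ext i j
      have h3 := congrFun (congrFun h1 i) j
      simp only [Matrix.smul_apply, smul_eq_mul, Matrix.zero_apply] at h3
      exact (mul_eq_zero.1 h3).resolve_left hc.ne'
    have h4 : (tf a).trace = 0 := by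
      simp only [tf, Matrix.trace_sub, Matrix.trace_smul, Matrix.trace_one, smul_eq_mul]
      simp
      ring
    exact hP1 n0 (tf a) ht0 h4 hprim h2
  choose! U hU using hU
  obtain ⟨x0, y0, hxy⟩ : ∃ x y, n0 x y ≠ 0 := by
    by_contra hcon
    push Not at hcon
    apply hd0
    rw [Matrix.det_fin_two, hcon 0 0, hcon 0 1]
    ring
  have hUle : ∀ a ∈ A, |((U a : ℤ) : ℝ)| ≤ 4 * X := by
    intro a ha
    have h1 := PM_tf_le a X hX0.le (hA a ha).2.2.2 x0 y0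
    rw [hU a ha, Matrix.smul_apply, smul_eq_mul] at h1
    push_cast at h1
    rw [abs_mul] at h1
    have h2 : (1 : ℝ) ≤ |((n0 x0 y0 : ℤ) : ℝ)| := by
      rw [← Int.cast_abs]
      exact_mod_cast Int.one_le_abs hxy
    nlinarith [abs_nonneg ((U a : ℤ) : ℝ)]
  -- the divisors with sign
  set D : Finset ℤ := (g.natAbs.divisors.image (fun k : ℕ => (k : ℤ))) ∪
    (g.natAbs.divisors.image (fun k : ℕ => -(k : ℤ))) with hD
  have hmaps : ∀ a ∈ A, a.det ∈ D := by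
    intro a ha
    obtain ⟨-, h1, h2, -⟩ := hA a ha
    have h3 : a.det.natAbs ∈ g.natAbs.divisors := by
      rw [Nat.mem_divisors]
      exact ⟨Int.natAbs_dvd_natAbs.2 h2, Int.natAbs_ne_zero.2 hg⟩
    rcases Int.natAbs_eq a.det with h4 | h4
    · exact Finset.mem_union_left _ (Finset.mem_image.2 ⟨_, h3, h4.symm⟩)
    · exact Finset.mem_union_right _ (Finset.mem_image.2 ⟨_, h3, h4.symm⟩)
  have hDcard : (D.card : ℝ) ≤ 2 * (Cd * 4 ^ (ε / 8)) * X ^ (ε / 2) := by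
    have h1 : D.card ≤ 2 * g.natAbs.divisors.card := by
      refine (Finset.card_union_le _ _).trans ?_
      have := Finset.card_image_le (s := g.natAbs.divisors) (f := fun k : ℕ => (k : ℤ))
      have := Finset.card_image_le (s := g.natAbs.divisors) (f := fun k : ℕ => -(k : ℤ))
      omega
    have h2 := hdiv g.natAbs (Int.natAbs_pos.2 hg)
    have h3 : ((g.natAbs : ℕ) : ℝ) ^ (ε / 8) ≤ 4 ^ (ε / 8) * X ^ (ε / 2) := by
      have h4 : ((g.natAbs : ℕ) : ℝ) ≤ 4 * X ^ 4 := by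
        rw [Nat.cast_natAbs, Int.cast_abs]; exact hgX
      refine (Real.rpow_le_rpow (by positivity) h4 (by positivity)).trans (le_of_eq ?_)
      rw [Real.mul_rpow (by norm_num) (by positivity), ← Real.rpow_natCast X 4,
        ← Real.rpow_mul hX0.le]
      congr 2
      push_cast
      ring
    calc (D.card : ℝ) ≤ 2 * (g.natAbs.divisors.card : ℝ) := by exact_mod_cast h1
      _ ≤ 2 * (Cd * (4 ^ (ε / 8) * X ^ (ε / 2))) := by
        have := h2.trans (mul_le_mul_of_nonneg_left h3 hCd.le)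
        linarith
      _ = _ := by ring
  have hfib : ∀ d ∈ D, ((A.filter (fun a => a.det = d)).card : ℝ) ≤ Cp * 8 ^ (ε / 4) * X ^ (ε / 2) := by
    intro d _
    rcases (A.filter (fun a => a.det = d)).eq_empty_or_nonempty with he | ⟨a1, ha1⟩
    · rw [he]
      simp only [Finset.card_empty, Nat.cast_zero]
      positivity
    · rw [Finset.mem_filter] at ha1
      obtain ⟨ha1, hd1⟩ := ha1
      have hinj : Set.InjOn (fun a : MZ => (a.trace, U a)) (A.filter (fun a => a.det = d) : Set MZ) := by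
        intro a ha a' ha' h
        simp only [Finset.coe_filter, Set.mem_ofPred_eq] at ha ha'
        simp only [Prod.mk.injEq] at h
        refine PM_inj a a' (U a) n0 (hU a ha.1) ?_ h.1
        rw [h.2]
        exact hU a' ha'.1
      rw [← Finset.card_image_of_injOn hinj]
      have hdle := PM_det_le a1 X hX0.le (hA a1 ha1).2.2.2
      have h1 := hpell (8 * X ^ 2) (by nlinarith) (-n0.det) (4 * d) (neg_ne_zero.2 hd0)
        (mul_ne_zero (by norm_num) (by rw [← hd1]; exact (hA a1 ha1).2.1)) ?_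
        ((A.filter (fun a => a.det = d)).image (fun a : MZ => (a.trace, U a))) ?_
      · refine h1.trans (le_of_eq ?_)
        rw [Real.mul_rpow (by norm_num) (by positivity), ← Real.rpow_natCast X 2,
          ← Real.rpow_mul hX0.le]
        have : ((2 : ℕ) : ℝ) * (ε / 4) = ε / 2 := by push_cast; ring
        rw [this]; ring
      · push_cast
        rw [← hd1, abs_mul, abs_of_pos (by norm_num : (0 : ℝ) < 4)]
        linarith
      · intro q hq
        obtain ⟨a, ha, rfl⟩ := Finset.mem_image.1 hq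
        rw [Finset.mem_filter] at ha
        obtain ⟨ha, hda⟩ := ha
        have hle := (hA a ha).2.2.2
        have hXX : X ≤ X ^ 2 := by nlinarith
        refine ⟨?_, ?_, ?_⟩
        · simp only
          rw [PM_det a (U a) n0 (hU a ha), hda]
        · simp only
          rw [Matrix.trace_fin_two]
          push_cast
          refine (abs_add_le _ _).trans ?_
          linarith [hle 0 0, hle 1 1]
        · simp only
          linarith [hUle a ha]
  have hcard : (A.card : ℝ) ≤ (Cp * 8 ^ (ε / 4) * X ^ (ε / 2)) * (D.card : ℝ) := by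
    have h1 : A.card ≤ ⌊Cp * 8 ^ (ε / 4) * X ^ (ε / 2)⌋₊ * D.card := by
      refine Finset.card_le_mul_card_image_of_maps_to hmaps _ ?_
      intro d hd
      exact Nat.le_floor (hfib d hd)
    have h2 : ((⌊Cp * 8 ^ (ε / 4) * X ^ (ε / 2)⌋₊ : ℕ) : ℝ) ≤ Cp * 8 ^ (ε / 4) * X ^ (ε / 2) :=
      Nat.floor_le (by positivity)
    calc (A.card : ℝ) ≤ ((⌊Cp * 8 ^ (ε / 4) * X ^ (ε / 2)⌋₊ : ℕ) : ℝ) * (D.card : ℝ) := by
          exact_mod_cast h1
      _ ≤ _ := mul_le_mul_of_nonneg_right h2 (by positivity)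
  have hXX : X ^ ε = X ^ (ε / 2) * X ^ (ε / 2) := by
    rw [← Real.rpow_add hX0]; congr 1; ring
  calc (A.card : ℝ) ≤ (Cp * 8 ^ (ε / 4) * X ^ (ε / 2)) * (D.card : ℝ) := hcard
    _ ≤ (Cp * 8 ^ (ε / 4) * X ^ (ε / 2)) * (2 * (Cd * 4 ^ (ε / 8)) * X ^ (ε / 2)) :=
        mul_le_mul_of_nonneg_left hDcard (by positivity)
    _ = (Cp * 8 ^ (ε / 4) * (2 * (Cd * 4 ^ (ε / 8)))) * X ^ ε := by rw [hXX]; ring
    _ ≤ _ := mul_le_mul_of_nonneg_right (le_max_right _ _) (by positivity)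

/-! ### Conjugation -/

/-- conjugation by an integral matrix, invariant under scaling -/
private noncomputable def PM_cj (a : MZ) (X : MR) : MR :=
  (toR a).det⁻¹ • (toR a * X * (toR a).adjugate)

private lemma PM_toR_smul (t : ℤ) (a : MZ) : toR (t • a) = (t : ℝ) • toR a := by
  ext i j
  simp only [toR, Matrix.map_apply, Matrix.smul_apply, smul_eq_mul]
  push_cast
  rfl

private lemma PM_toR_det (a : MZ) : (toR a).det = ((a.det : ℤ) : ℝ) := by
  simp only [toR, Matrix.det_fin_two, Matrix.map_apply]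
  push_cast
  ring

private lemma PM_cj_smul (t : ℤ) (ht : t ≠ 0) (a : MZ) (X : MR) : PM_cj (t • a) X = PM_cj a X := by
  have ht' : (t : ℝ) ≠ 0 := by exact_mod_cast ht
  simp only [PM_cj, PM_toR_smul, Matrix.det_smul, Matrix.adjugate_smul, Fintype.card_fin,
    Matrix.smul_mul, Matrix.mul_smul, smul_smul]
  congr 1
  by_cases hd : (toR a).det = 0
  · rw [hd]; simp
  · have : (t : ℝ) ^ (2 - 1) = t := by norm_num
    rw [this]
    field_simp

private lemma PM_adjadj (g : MR) : g.adjugate.adjugate = g := by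
  simp only [Matrix.adjugate_fin_two]
  ext i j
  fin_cases i <;> fin_cases j <;> simp

private lemma PM_cj_eq (gi gl : MR) (hi : gi.det = 1) (hl : gl.det = 1) (a : MZ) :
    toR a * Xf gi * (toR a).adjugate =
      gl * (fr gi gl a * !![1, 0; 0, -1] * (fr gi gl a).adjugate) * gl.adjugate := by
  have h1 : gl * gl.adjugate = 1 := by rw [Matrix.mul_adjugate, hl, one_smul]
  have h2 : gi * gi.adjugate = 1 := by rw [Matrix.mul_adjugate, hi, one_smul]
  simp only [fr, Xf, Matrix.adjugate_mul_distrib, PM_adjadj]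
  have e1 : gl * (gl.adjugate * toR a * gi * !![1, 0; 0, -1] *
      (gi.adjugate * ((toR a).adjugate * gl))) * gl.adjugate =
      (gl * gl.adjugate) * (toR a * (gi * !![1, 0; 0, -1] * gi.adjugate) * (toR a).adjugate) *
        (gl * gl.adjugate) := by
    simp only [Matrix.mul_assoc]
  rw [e1, h1]
  simp

private lemma PM_ent (R ρ : ℝ) (hR : 0 ≤ R) (g D : MR) (hg : ∀ x y, |g x y| ≤ R)
    (hD : ∀ x y, |D x y| ≤ ρ) (x y : Fin 2) : |(g * D * g.adjugate) x y| ≤ 4 * R ^ 2 * ρ := by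
  have hρ : 0 ≤ ρ := (abs_nonneg _).trans (hD 0 0)
  have hadj : ∀ x y, |g.adjugate x y| ≤ R := by
    intro x y
    rw [Matrix.adjugate_fin_two]
    fin_cases x <;> fin_cases y <;> simp
    · exact hg 1 1
    · exact hg 0 1
    · exact hg 1 0
    · exact hg 0 0
  have h3 : ∀ a b c d e f, |g a b * D c d * g.adjugate e f| ≤ R * ρ * R := by
    intro a b c d e f
    rw [abs_mul, abs_mul]
    exact mul_le_mul (mul_le_mul (hg _ _) (hD _ _) (abs_nonneg _) hR) (hadj _ _) (abs_nonneg _)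
      (by positivity)
  have e : (g * D * g.adjugate) x y = g x 0 * D 0 0 * g.adjugate 0 y + g x 1 * D 1 0 * g.adjugate 0 y +
      g x 0 * D 0 1 * g.adjugate 1 y + g x 1 * D 1 1 * g.adjugate 1 y := by
    simp only [Matrix.mul_apply, Fin.sum_univ_two]
    ring
  rw [e]
  refine (abs_add_le _ _).trans ?_
  refine (add_le_add_left (abs_add_le _ _) _).trans ?_
  refine (add_le_add_left (add_le_add_left (abs_add_le _ _) _) _).trans ?_
  have := h3 x 0 0 0 0 y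
  have := h3 x 1 1 0 0 y
  have := h3 x 0 0 1 1 y
  have := h3 x 1 1 1 1 y
  linarith

/-- the difference matrix -/
private noncomputable def PM_D (M : MR) : MR :=
  !![1, 0; 0, -1] - M.det⁻¹ • (M * !![1, 0; 0, -1] * M.adjugate)

private lemma PM_delta (C N w m : ℝ) (hC : 1 ≤ C) (hN : 1 ≤ N) (hw : 0 < w) (hm : 0 < m)
    (hs : 2048 * C ^ 4 * N ^ 6 * w ≤ 1) (M : MR) (h00 : m / (2 * C) ≤ |M 0 0|)
    (h11 : m / (8 * C * N ^ 2) ≤ |M 1 1|) (h01 : |M 0 1| ≤ 8 * N ^ 2 * C * w * m)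
    (h10 : |M 1 0| ≤ 8 * N ^ 2 * C * w * m) :
    ∀ x y, |PM_D M x y| ≤ 4096 * C ^ 4 * N ^ 4 * w := by
  have hC0 : 0 < C := by linarith
  have hN0 : 0 < N := by linarith
  have hN2 : 1 ≤ N ^ 2 := one_le_pow₀ hN
  have hC2 : 1 ≤ C ^ 2 := one_le_pow₀ hC
  obtain ⟨p, hp⟩ : ∃ p, p = M 0 0 := ⟨_, rfl⟩
  obtain ⟨q, hq⟩ : ∃ q, q = M 0 1 := ⟨_, rfl⟩
  obtain ⟨r, hr⟩ : ∃ r, r = M 1 0 := ⟨_, rfl⟩
  obtain ⟨s, hs'⟩ : ∃ s, s = M 1 1 := ⟨_, rfl⟩
  rw [← hp] at h00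
  rw [← hs'] at h11
  rw [← hq] at h01
  rw [← hr] at h10
  have hMm : M = !![p, q; r, s] := by
    rw [hp, hq, hr, hs']; exact Matrix.eta_fin_two M
  have hp0 : 0 < |p| := lt_of_lt_of_le (by positivity) h00
  have hs0 : 0 < |s| := lt_of_lt_of_le (by positivity) h11
  have hps : m / (2 * C) * (m / (8 * C * N ^ 2)) ≤ |p * s| := by
    rw [abs_mul]
    exact mul_le_mul h00 h11 (by positivity) hp0.le
  have hqr : |q * r| ≤ (8 * N ^ 2 * C * w * m) * (8 * N ^ 2 * C * w * m) := by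
    rw [abs_mul]
    exact mul_le_mul h01 h10 (abs_nonneg _) (by positivity)
  -- smallness
  have hw1 : w ≤ 1 := by
    have : w * 1 ≤ w * (2048 * C ^ 4 * N ^ 6) := by
      apply mul_le_mul_of_nonneg_left _ hw.le
      have h1 : 1 ≤ C ^ 4 := one_le_pow₀ hC
      have h2 : 1 ≤ N ^ 6 := one_le_pow₀ hN
      nlinarith
    linarith
  have hsm : 2048 * C ^ 4 * N ^ 6 * w ^ 2 ≤ 1 := by
    have : (2048 * C ^ 4 * N ^ 6 * w) * w ≤ 1 * 1 :=
      mul_le_mul hs hw1 hw.le zero_le_one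
    nlinarith
  have hqr2 : 2 * |q * r| ≤ |p * s| := by
    have h1 : 2 * ((8 * N ^ 2 * C * w * m) * (8 * N ^ 2 * C * w * m)) ≤
        m / (2 * C) * (m / (8 * C * N ^ 2)) := by
      have e : m / (2 * C) * (m / (8 * C * N ^ 2)) = m ^ 2 / (16 * C ^ 2 * N ^ 2) := by
        field_simp; ring
      rw [e, le_div_iff₀ (by positivity)]
      have e2 : 2 * (8 * N ^ 2 * C * w * m * (8 * N ^ 2 * C * w * m)) * (16 * C ^ 2 * N ^ 2) =
          (2048 * C ^ 4 * N ^ 6 * w ^ 2) * m ^ 2 := by ring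
      rw [e2]
      nlinarith [sq_nonneg m]
    linarith
  have hdet : M.det = p * s - q * r := by
    rw [hMm, Matrix.det_fin_two_of]
  have hdle : |p * s| ≤ 2 * |M.det| := by
    rw [hdet]
    have := abs_sub_abs_le_abs_sub (p * s) (q * r)
    linarith
  have hps0 : 0 < |p * s| := by rw [abs_mul]; positivity
  have hd0 : M.det ≠ 0 := by
    intro h
    rw [h, abs_zero] at hdle
    linarith
  have hd0' : 0 < |M.det| := abs_pos.2 hd0
  have hmat : PM_D M =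
      !![-(2 * (q * r) / M.det), 2 * (p * q) / M.det; -(2 * (r * s) / M.det), 2 * (q * r) / M.det] := by
    have e1 : M * !![1, 0; 0, -1] * M.adjugate =
        !![p * s + q * r, -(2 * (p * q)); 2 * (r * s), -(p * s + q * r)] := by
      rw [hMm, Matrix.adjugate_fin_two_of]
      ext i j
      fin_cases i <;> fin_cases j <;> simp [Matrix.mul_apply, Fin.sum_univ_two] <;> ring
    rw [PM_D, e1]
    have hd1 : p * s = M.det + q * r := by rw [hdet]; ring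
    ext i j
    fin_cases i <;> fin_cases j <;> simp
    · field_simp
      rw [hd1]; ring
    · field_simp
    · field_simp
    · field_simp
      rw [hd1]; ring
  -- the four entries
  have b1 : |2 * (q * r) / M.det| ≤ 4096 * C ^ 4 * N ^ 4 * w := by
    rw [abs_div, abs_mul, abs_two, div_le_iff₀ hd0']
    have h1 : 2 * |q * r| ≤ 2 * ((8 * N ^ 2 * C * w * m) * (8 * N ^ 2 * C * w * m)) := by linarith
    have h2 : 2 * ((8 * N ^ 2 * C * w * m) * (8 * N ^ 2 * C * w * m)) ≤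
        2048 * C ^ 4 * N ^ 4 * w * (m / (2 * C) * (m / (8 * C * N ^ 2))) := by
      have e : m / (2 * C) * (m / (8 * C * N ^ 2)) = m ^ 2 / (16 * C ^ 2 * N ^ 2) := by
        field_simp; ring
      rw [e, ← mul_div_assoc, le_div_iff₀ (by positivity)]
      have e2 : 2 * (8 * N ^ 2 * C * w * m * (8 * N ^ 2 * C * w * m)) * (16 * C ^ 2 * N ^ 2) =
          (2048 * C ^ 4 * N ^ 6 * w) * (w * m ^ 2) := by ring
      have e3 : 2048 * C ^ 4 * N ^ 4 * w * m ^ 2 = (2048 * C ^ 4 * N ^ 4) * (w * m ^ 2) := by ring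
      rw [e2, e3]
      apply mul_le_mul_of_nonneg_right _ (by positivity)
      have h1 : 1 ≤ C ^ 4 := one_le_pow₀ hC
      have h2 : 1 ≤ N ^ 4 := one_le_pow₀ hN
      have h3 : 1 ≤ C ^ 4 * N ^ 4 := by nlinarith
      linarith
    have h3 : 2048 * C ^ 4 * N ^ 4 * w * (m / (2 * C) * (m / (8 * C * N ^ 2))) ≤
        2048 * C ^ 4 * N ^ 4 * w * (2 * |M.det|) :=
      mul_le_mul_of_nonneg_left (hps.trans hdle) (by positivity)
    linarith
  have b2 : |2 * (p * q) / M.det| ≤ 4096 * C ^ 4 * N ^ 4 * w := by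
    rw [abs_div, abs_mul, abs_two, div_le_iff₀ hd0', abs_mul]
    have h1 : |q| ≤ 64 * C ^ 2 * N ^ 4 * w * |s| := by
      refine h01.trans ?_
      have : 64 * C ^ 2 * N ^ 4 * w * (m / (8 * C * N ^ 2)) ≤ 64 * C ^ 2 * N ^ 4 * w * |s| :=
        mul_le_mul_of_nonneg_left h11 (by positivity)
      refine le_trans (le_of_eq ?_) this
      field_simp
      ring
    have h2 : |p| * |q| ≤ 64 * C ^ 2 * N ^ 4 * w * |p * s| := by
      rw [abs_mul]
      calc |p| * |q| ≤ |p| * (64 * C ^ 2 * N ^ 4 * w * |s|) :=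
            mul_le_mul_of_nonneg_left h1 hp0.le
        _ = _ := by ring
    have h3 : 64 * C ^ 2 * N ^ 4 * w * |p * s| ≤ 64 * C ^ 2 * N ^ 4 * w * (2 * |M.det|) :=
      mul_le_mul_of_nonneg_left hdle (by positivity)
    have h4 : C ^ 2 * N ^ 4 * w * |M.det| ≤ C ^ 4 * N ^ 4 * w * |M.det| := by
      apply mul_le_mul_of_nonneg_right _ hd0'.le
      apply mul_le_mul_of_nonneg_right _ hw.le
      apply mul_le_mul_of_nonneg_right _ (by positivity)
      exact pow_le_pow_right₀ hC (by norm_num)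
    have h5 : 0 ≤ C ^ 4 * N ^ 4 * w * |M.det| := by positivity
    nlinarith
  have b3 : |2 * (r * s) / M.det| ≤ 4096 * C ^ 4 * N ^ 4 * w := by
    rw [abs_div, abs_mul, abs_two, div_le_iff₀ hd0', abs_mul]
    have h1 : |r| ≤ 16 * C ^ 2 * N ^ 2 * w * |p| := by
      refine h10.trans ?_
      have : 16 * C ^ 2 * N ^ 2 * w * (m / (2 * C)) ≤ 16 * C ^ 2 * N ^ 2 * w * |p| :=
        mul_le_mul_of_nonneg_left h00 (by positivity)
      refine le_trans (le_of_eq ?_) this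
      field_simp
      ring
    have h2 : |r| * |s| ≤ 16 * C ^ 2 * N ^ 2 * w * |p * s| := by
      rw [abs_mul]
      calc |r| * |s| ≤ (16 * C ^ 2 * N ^ 2 * w * |p|) * |s| :=
            mul_le_mul_of_nonneg_right h1 hs0.le
        _ = _ := by ring
    have h3 : 16 * C ^ 2 * N ^ 2 * w * |p * s| ≤ 16 * C ^ 2 * N ^ 2 * w * (2 * |M.det|) :=
      mul_le_mul_of_nonneg_left hdle (by positivity)
    have h4 : C ^ 2 * N ^ 2 * w * |M.det| ≤ C ^ 4 * N ^ 4 * w * |M.det| := by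
      apply mul_le_mul_of_nonneg_right _ hd0'.le
      apply mul_le_mul_of_nonneg_right _ hw.le
      exact mul_le_mul (pow_le_pow_right₀ hC (by norm_num)) (pow_le_pow_right₀ hN (by norm_num))
        (by positivity) (by positivity)
    have h5 : 0 ≤ C ^ 4 * N ^ 4 * w * |M.det| := by positivity
    nlinarith
  intro x y
  rw [hmat]
  fin_cases x <;> fin_cases y
  · show |-(2 * (q * r) / M.det)| ≤ _
    rw [abs_neg]; exact b1
  · exact b2
  · show |-(2 * (r * s) / M.det)| ≤ _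
    rw [abs_neg]; exact b3
  · exact b1

private lemma PM_close (R C N w m : ℝ) (hR : 1 ≤ R) (hC : 1 ≤ C) (hN : 1 ≤ N) (hw : 0 < w) (hm : 0 < m)
    (hs : 2048 * C ^ 4 * N ^ 6 * w ≤ 1) (gi gl : MR) (hi : gi.det = 1) (hl : gl.det = 1)
    (hgl : ∀ x y, |gl x y| ≤ R) (a : MZ)
    (hdM : (fr gi gl a).det = (toR a).det)
    (h00 : m / (2 * C) ≤ |fr gi gl a 0 0|)
    (h11 : m / (8 * C * N ^ 2) ≤ |fr gi gl a 1 1|) (h01 : |fr gi gl a 0 1| ≤ 8 * N ^ 2 * C * w * m)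
    (h10 : |fr gi gl a 1 0| ≤ 8 * N ^ 2 * C * w * m) (x y : Fin 2) :
    |Xf gl x y - PM_cj a (Xf gi) x y| ≤ 16384 * R ^ 2 * C ^ 4 * N ^ 4 * w := by
  have h1 := PM_delta C N w m hC hN hw hm hs (fr gi gl a) h00 h11 h01 h10
  have h2 := PM_ent R _ (by linarith) gl _ hgl h1 x y
  have e : Xf gl x y - PM_cj a (Xf gi) x y = (gl * PM_D (fr gi gl a) * gl.adjugate) x y := by
    rw [← Matrix.sub_apply]
    rw [PM_cj, PM_cj_eq gi gl hi hl a, PM_D, hdM]
    simp only [Xf, Matrix.mul_sub, Matrix.sub_mul, Matrix.mul_smul, Matrix.smul_mul]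
  rw [e]
  refine h2.trans (le_of_eq ?_)
  ring

/-! ### One cell -/

private lemma PM_fr_add (a b : MR) (h h' : MZ) : fr a b (h + h') = fr a b h + fr a b h' := by
  have e : toR (h + h') = toR h + toR h' := by
    ext i j
    simp only [toR, Matrix.map_apply, Matrix.add_apply]
    push_cast
    rfl
  simp only [fr, e, Matrix.mul_add, Matrix.add_mul]

private lemma PM_fr_smul (a b : MR) (c : ℤ) (h : MZ) : fr a b (c • h) = (c : ℝ) • fr a b h := by
  simp only [fr, PM_toR_smul, Matrix.mul_smul, Matrix.smul_mul]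

private lemma PM_half (hPA : S_PA) (hFr : S_Fr) (S : Sys) (C R N m : ℝ) (i l : S.ι) (n a : MZ) (e : ℤ)
    (hR : 1 ≤ R) (hC : 1 ≤ C) (hSR : S.R = R) (hK : 1 ≤ S.K) (hU : S.Unim) (hN : 1 ≤ N) (hm : 0 < m)
    (hs : 2048 * C ^ 4 * N ^ 6 * S.w ≤ 1) (hi : i ∈ S.V) (hl : l ∈ S.V) (hPi : Pln S N i n)
    (hPl : Pln S N l n) (hnd : n.det ≠ 0) (he : e = 1 ∨ e = -1) (hna : n * a = e • (a * n))
    (hB : Bx S.w (8 * N ^ 2 * (C * m)) (fr (S.g i) (S.g l) a))
    (h00 : m / (2 * C) ≤ |fr (S.g i) (S.g l) a 0 0|) (x y : Fin 2) :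
    |Xf (S.g l) x y - PM_cj a (Xf (S.g i)) x y| ≤ 16384 * R ^ 2 * C ^ 4 * N ^ 4 * S.w := by
  have hw : 0 < S.w := by unfold Sys.w; positivity
  have hC4 : 1 ≤ C ^ 4 := one_le_pow₀ hC
  have hN6 : 1 ≤ N ^ 6 := one_le_pow₀ hN
  have hN2 : 1 ≤ N ^ 2 := one_le_pow₀ hN
  have hC2 : 1 ≤ C ^ 2 := one_le_pow₀ hC
  have hw1 : S.w ≤ 1 := by
    have : S.w * 1 ≤ S.w * (2048 * C ^ 4 * N ^ 6) := by
      apply mul_le_mul_of_nonneg_left _ hw.le
      nlinarith
    linarith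
  have hsm : 2048 * C ^ 4 * N ^ 6 * S.w ^ 2 ≤ 1 := by
    have : (2048 * C ^ 4 * N ^ 6 * S.w) * S.w ≤ 1 * 1 := mul_le_mul hs hw1 hw.le zero_le_one
    nlinarith
  have hwN : 2 * (S.w * N) ^ 2 ≤ 1 := by
    have h1 : N ^ 2 ≤ C ^ 4 * N ^ 6 := by
      have h2 : N ^ 2 ≤ N ^ 6 := pow_le_pow_right₀ hN (by norm_num)
      nlinarith
    have h3 : N ^ 2 * S.w ^ 2 ≤ C ^ 4 * N ^ 6 * S.w ^ 2 :=
      mul_le_mul_of_nonneg_right h1 (by positivity)
    nlinarith
  have h128 : 128 * C ^ 2 * N ^ 4 * S.w ^ 2 ≤ 1 := by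
    have h1 : C ^ 2 * N ^ 4 ≤ C ^ 4 * N ^ 6 :=
      mul_le_mul (pow_le_pow_right₀ hC (by norm_num)) (pow_le_pow_right₀ hN (by norm_num))
        (by positivity) (by positivity)
    have h3 : C ^ 2 * N ^ 4 * S.w ^ 2 ≤ C ^ 4 * N ^ 6 * S.w ^ 2 :=
      mul_le_mul_of_nonneg_right h1 (by positivity)
    have h4 : 0 ≤ C ^ 4 * N ^ 6 * S.w ^ 2 := by positivity
    nlinarith
  obtain ⟨hdi, -⟩ := hU i hi
  obtain ⟨hdl, hgl⟩ := hU l hl
  rw [hSR] at hgl
  obtain ⟨-, -, hPA3, -⟩ := hPA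
  have h3 := (hPA3 S N (8 * N ^ 2 * (C * m)) i l n a e hK hU hN hwN (by positivity) hi hl hPi hPl hnd
    he hna hB).1
  have h11 : m / (8 * C * N ^ 2) ≤ |fr (S.g i) (S.g l) a 1 1| := by
    rw [div_le_iff₀ (by positivity)]
    have h4 : m / (2 * C) ≤ 2 * N ^ 2 * |fr (S.g i) (S.g l) a 1 1| +
        4 * S.w ^ 2 * N ^ 2 * (8 * N ^ 2 * (C * m)) := h00.trans h3
    rw [div_le_iff₀ (by positivity)] at h4
    have h5 : (4 * S.w ^ 2 * N ^ 2 * (8 * N ^ 2 * (C * m))) * (2 * C) =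
        (128 * C ^ 2 * N ^ 4 * S.w ^ 2) * m / 2 := by ring
    have h6 : (128 * C ^ 2 * N ^ 4 * S.w ^ 2) * m ≤ 1 * m := mul_le_mul_of_nonneg_right h128 hm.le
    nlinarith
  refine PM_close R C N S.w m hR hC hN hw hm hs (S.g i) (S.g l) hdi hdl hgl a ?_ h00 h11 ?_ ?_ x y
  · rw [PM_toR_det, hFr.2.1 (S.g i) (S.g l) a hdi hdl]
  · refine hB.2.2.1.trans (le_of_eq ?_)
    ring
  · refine hB.2.2.2.trans (le_of_eq ?_)
    ring

private lemma PM_alt (hFb : S_Fb) (hPA : S_PA) (hFr : S_Fr) (S : Sys) (C R N Z E : ℝ) (i l : S.ι)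
    (n a0 b0 : MZ) (hR : 1 ≤ R) (hC : 1 ≤ C) (hSC : S.C = C) (hSR : S.R = R) (hK : 1 ≤ S.K)
    (hU : S.Unim) (hN : 1 ≤ N) (hs : 2048 * C ^ 4 * N ^ 6 * S.w ≤ 1) (hi : i ∈ S.V) (hl : l ∈ S.V)
    (hPi : Pln S N i n) (hPl : Pln S N l n) (hnd : n.det ≠ 0) (hD : Dat S n Z E i l a0 b0) :
    (∀ x y, |Xf (S.g l) x y - PM_cj a0 (Xf (S.g i)) x y| ≤ 16384 * R ^ 2 * C ^ 4 * N ^ 4 * S.w) ∨
    (∀ x y, |Xf (S.g l) x y - PM_cj b0 (Xf (S.g i)) x y| ≤ 16384 * R ^ 2 * C ^ 4 * N ^ 4 * S.w) := by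
  obtain ⟨-, -, hda, hdb, hna, hnb, -, -, h0, m, t, u, hret, hmZ, ht, hu, hpa, hpb⟩ := hD
  rw [hSC] at hret
  have hw : 0 < S.w := by unfold Sys.w; positivity
  have hC4 : 1 ≤ C ^ 4 := one_le_pow₀ hC
  have hN6 : 1 ≤ N ^ 6 := one_le_pow₀ hN
  have hm : (0 : ℝ) < (m : ℝ) := by exact_mod_cast hret.2.1
  have hw1 : 2048 * C ^ 4 * S.w ≤ 1 := by
    have : 2048 * C ^ 4 * S.w * 1 ≤ 2048 * C ^ 4 * S.w * N ^ 6 :=
      mul_le_mul_of_nonneg_left hN6 (by positivity)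
    nlinarith
  have hwC : 2 * (C * S.w) ^ 2 ≤ 1 := by
    have h1 : C ≤ C ^ 4 := by
      calc C = C ^ 1 := (pow_one C).symm
        _ ≤ C ^ 4 := pow_le_pow_right₀ hC (by norm_num)
    have h2 : C * S.w ≤ C ^ 4 * S.w := mul_le_mul_of_nonneg_right h1 hw.le
    have h3 : C * S.w ≤ 1 / 2 := by nlinarith
    have h4 : 0 ≤ C * S.w := by positivity
    nlinarith
  have hwN : S.w * N ≤ 1 := by
    have h1 : N ≤ C ^ 4 * N ^ 6 := by
      have h2 : N ≤ N ^ 6 := by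
        calc N = N ^ 1 := (pow_one N).symm
          _ ≤ N ^ 6 := pow_le_pow_right₀ hN (by norm_num)
      nlinarith
    have h3 : N * S.w ≤ C ^ 4 * N ^ 6 * S.w := mul_le_mul_of_nonneg_right h1 hw.le
    nlinarith
  have hB0 := hFb.2.2.2.2.2.1 C S.w (S.g i) (S.g l) m h0 hret
  obtain ⟨hBa, hBb⟩ := hPA.2.1 S N (C * m) i l n h0 hK hU hN hwN (by positivity) hi hl hPi hPl hB0
  obtain ⟨c1, c2, c3, -⟩ := hPA.1 n h0 hPi.1
  obtain ⟨hdi, -⟩ := hU i hi
  obtain ⟨hdl, -⟩ := hU l hl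
  have hH : m / (2 * C) ≤ |fr (S.g i) (S.g l) h0 0 0| := by
    have h1 := hFr.2.1 (S.g i) (S.g l) h0 hdi hdl
    rw [hret.1, Matrix.det_fin_two] at h1
    push_cast at h1
    obtain ⟨b00, b11, b01, b10⟩ := hB0
    have h2 : |fr (S.g i) (S.g l) h0 0 1 * fr (S.g i) (S.g l) h0 1 0| ≤
        (S.w * (C * m)) * (S.w * (C * m)) := by
      rw [abs_mul]
      exact mul_le_mul b01 b10 (abs_nonneg _) (by positivity)
    have h3 : (m : ℝ) ^ 2 ≤ |fr (S.g i) (S.g l) h0 0 0| * (C * m) +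
        (S.w * (C * m)) * (S.w * (C * m)) := by
      have h4 : |fr (S.g i) (S.g l) h0 0 0 * fr (S.g i) (S.g l) h0 1 1| ≤
          |fr (S.g i) (S.g l) h0 0 0| * (C * m) := by
        rw [abs_mul]
        exact mul_le_mul_of_nonneg_left b11 (abs_nonneg _)
      have h5 := le_abs_self (fr (S.g i) (S.g l) h0 0 0 * fr (S.g i) (S.g l) h0 1 1)
      have h6 := neg_abs_le (fr (S.g i) (S.g l) h0 0 1 * fr (S.g i) (S.g l) h0 1 0)
      linarith
    have h7 : (S.w * (C * m)) * (S.w * (C * m)) ≤ (m : ℝ) ^ 2 / 2 := by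
      have : (S.w * (C * m)) * (S.w * (C * m)) = (2 * (C * S.w) ^ 2) * (m : ℝ) ^ 2 / 2 := by ring
      rw [this]
      have : (2 * (C * S.w) ^ 2) * (m : ℝ) ^ 2 ≤ 1 * (m : ℝ) ^ 2 :=
        mul_le_mul_of_nonneg_right hwC (by positivity)
      linarith
    rw [div_le_iff₀ (by positivity)]
    have h8 : (m : ℝ) * m ≤ (|fr (S.g i) (S.g l) h0 0 0| * (2 * C)) * m := by nlinarith
    exact le_of_mul_le_mul_right h8 hm
  have hsum : fr (S.g i) (S.g l) (pa n h0) 0 0 + fr (S.g i) (S.g l) (pb n h0) 0 0 =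
      2 * (n.det : ℝ) * fr (S.g i) (S.g l) h0 0 0 := by
    have h1 : fr (S.g i) (S.g l) (pa n h0) + fr (S.g i) (S.g l) (pb n h0) =
        (((2 * n.det : ℤ)) : ℝ) • fr (S.g i) (S.g l) h0 := by
      rw [← PM_fr_add, c3, PM_fr_smul]
    have h2 := congrFun (congrFun h1 0) 0
    simp only [Matrix.add_apply, Matrix.smul_apply, smul_eq_mul] at h2
    rw [h2]
    push_cast
    ring
  have hn1 : (1 : ℝ) ≤ |(n.det : ℝ)| := by
    rw [← Int.cast_abs]
    exact_mod_cast Int.one_le_abs hnd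
  have hor : m / (2 * C) ≤ |fr (S.g i) (S.g l) (pa n h0) 0 0| ∨
      m / (2 * C) ≤ |fr (S.g i) (S.g l) (pb n h0) 0 0| := by
    by_contra hcon
    push Not at hcon
    have h1 := abs_add_le (fr (S.g i) (S.g l) (pa n h0) 0 0) (fr (S.g i) (S.g l) (pb n h0) 0 0)
    rw [hsum, abs_mul, abs_mul, abs_two] at h1
    have h2 : |fr (S.g i) (S.g l) h0 0 0| ≤ |(n.det : ℝ)| * |fr (S.g i) (S.g l) h0 0 0| := by
      have := mul_le_mul_of_nonneg_right hn1 (abs_nonneg (fr (S.g i) (S.g l) h0 0 0))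
      linarith
    linarith [hcon.1, hcon.2]
  rcases hor with h | h
  · left
    intro x y
    have := PM_half hPA hFr S C R N m i l n (pa n h0) 1 hR hC hSR hK hU hN hm hs hi hl hPi hPl hnd
      (Or.inl rfl) (by rw [one_smul]; exact c1) hBa h x y
    rwa [hpa, PM_cj_smul t ht] at this
  · right
    intro x y
    have := PM_half hPA hFr S C R N m i l n (pb n h0) (-1) hR hC hSR hK hU hN hm hs hi hl hPi hPl hnd
      (Or.inr rfl) (by rw [neg_smul, one_smul]; exact c2) hBb h x y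
    rwa [hpb, PM_cj_smul u hu] at this

/-! ### The theorem -/

theorem tPM (hFb : S_Fb) (hPar : S_Par) (hPA : S_PA) (hFr : S_Fr) : S_PM := by
  classical
  intro C R ε C0 hC hR hε hC0
  obtain ⟨Cc, hCc, hcount⟩ := PM_count hPar (ε / 4) (by positivity)
  have hC4 : 1 ≤ C ^ 4 := one_le_pow₀ hC
  have hR2 : 1 ≤ R ^ 2 := one_le_pow₀ hR
  obtain ⟨κ, hκ⟩ : ∃ κ, κ = 16384 * R ^ 2 * C ^ 4 := ⟨_, rfl⟩
  have hκ1 : 1 ≤ κ := by rw [hκ]; nlinarith
  obtain ⟨X0, hX0⟩ : ∃ X0, X0 = 4 * R ^ 2 * C0 := ⟨_, rfl⟩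
  have hX01 : 1 ≤ X0 := by rw [hX0]; nlinarith
  refine ⟨2048 * C ^ 4 + Cc * X0 ^ (ε / 4) * (2 * κ ^ 3), ?_, ?_⟩
  · have : 0 ≤ Cc * X0 ^ (ε / 4) * (2 * κ ^ 3) := by positivity
    linarith
  intro S B N Z E n hSC hSR hK hU hSep hB hN hZ hE hEle hsmall hnd i hi hPi γ F hFV hF
  have hw : 0 < S.w := by unfold Sys.w; positivity
  have hNZ : 1 ≤ N * Z := by nlinarith
  have hN6 : 1 ≤ N ^ 6 := one_le_pow₀ hN
  have hN4 : 1 ≤ N ^ 4 := one_le_pow₀ hN
  have hZ2 : 1 ≤ Z ^ 2 := one_le_pow₀ hZ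
  have hpos : 0 ≤ Cc * X0 ^ (ε / 4) * (2 * κ ^ 3) := by positivity
  have hs : 2048 * C ^ 4 * N ^ 6 * S.w ≤ 1 := by
    have h1 : 2048 * C ^ 4 * N ^ 6 * S.w * 1 ≤ 2048 * C ^ 4 * N ^ 6 * S.w * Z ^ 2 :=
      mul_le_mul_of_nonneg_left hZ2 (by positivity)
    have h2 : 0 ≤ (Cc * X0 ^ (ε / 4) * (2 * κ ^ 3)) * (N ^ 6 * S.w * Z ^ 2) := by positivity
    nlinarith
  rcases F.eq_empty_or_nonempty with rfl | ⟨l1, hl1⟩
  · simp only [Finset.card_empty, Nat.cast_zero]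
    positivity
  have hF' : ∀ l ∈ F, ∃ ab : MZ × MZ, Dat S n Z E i l ab.1 ab.2 ∧ ab.1.adjugate * ab.2 = γ := by
    intro l hl
    obtain ⟨-, a, b, h1, h2⟩ := hF l hl
    exact ⟨(a, b), h1, h2⟩
  choose! ab hab using hF'
  obtain ⟨hdi, hgi⟩ := hU i hi
  rw [hSR] at hgi
  -- entries
  set X : ℝ := X0 * (N * Z) ^ 4 with hX
  have hX1 : 1 ≤ X := by
    have h1 : 1 ≤ (N * Z) ^ 4 := one_le_pow₀ hNZ
    rw [hX]; nlinarith
  have hent : ∀ l ∈ F, (∀ x y, |(((ab l).1 x y : ℤ) : ℝ)| ≤ X) ∧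
      (∀ x y, |(((ab l).2 x y : ℤ) : ℝ)| ≤ X) := by
    intro l hl
    obtain ⟨⟨-, -, -, -, -, -, hBa, hBb, -⟩, -⟩ := hab l hl
    obtain ⟨hdl, hgl⟩ := hU l (hFV hl)
    rw [hSR] at hgl
    have hw1 : S.w ≤ 1 := by
      have : S.w * 1 ≤ S.w * (2048 * C ^ 4 * N ^ 6) := by
        apply mul_le_mul_of_nonneg_left _ hw.le
        nlinarith
      linarith
    have hbd : ∀ M : MR, Bx S.w E M → ∀ x y, |M x y| ≤ E := by
      rintro M ⟨h1, h2, h3, h4⟩ x y
      have h5 : S.w * E ≤ E := by nlinarith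
      fin_cases x <;> fin_cases y
      · exact h1
      · exact h3.trans h5
      · exact h4.trans h5
      · exact h2
    have hle : 4 * R ^ 2 * E ≤ X := by
      rw [hX, hX0]
      have : 4 * R ^ 2 * E ≤ 4 * R ^ 2 * (C0 * (N * Z) ^ 4) :=
        mul_le_mul_of_nonneg_left hEle (by positivity)
      linarith
    refine ⟨fun x y => ?_, fun x y => ?_⟩
    · exact (hFb.2.2.2.2.2.2.1 R E (S.g i) (S.g l) _ hdi hdl hgi hgl (hbd _ hBa) x y).trans hle
    · exact (hFb.2.2.2.2.2.2.1 R E (S.g i) (S.g l) _ hdi hdl hgi hgl (hbd _ hBb) x y).trans hle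
  -- determinants
  have hdet : ∀ l ∈ F, γ.det = (ab l).1.det * (ab l).2.det := by
    intro l hl
    rw [← (hab l hl).2, Matrix.det_mul, Matrix.det_adjugate]
    simp
  have hγ0 : γ.det ≠ 0 := by
    rw [hdet l1 hl1]
    obtain ⟨⟨-, -, h1, h2, -⟩, -⟩ := hab l1 hl1
    exact mul_ne_zero h1 h2
  have hγle : |((γ.det : ℤ) : ℝ)| ≤ 4 * X ^ 4 := by
    rw [hdet l1 hl1, Int.cast_mul, abs_mul]
    have h1 := PM_det_le (ab l1).1 X (by linarith) (hent l1 hl1).1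
    have h2 := PM_det_le (ab l1).2 X (by linarith) (hent l1 hl1).2
    calc |(((ab l1).1.det : ℤ) : ℝ)| * |(((ab l1).2.det : ℤ) : ℝ)| ≤ (2 * X ^ 2) * (2 * X ^ 2) :=
          mul_le_mul h1 h2 (abs_nonneg _) (by positivity)
      _ = 4 * X ^ 4 := by ring
  -- the number of matrices `a0`
  have hA : ((F.image (fun l => (ab l).1)).card : ℝ) ≤ Cc * X ^ (ε / 4) := by
    refine hcount X n γ.det hX1 hPi.1 hnd hγ0 hγle _ ?_
    intro a ha
    obtain ⟨l, hl, rfl⟩ := Finset.mem_image.1 ha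
    obtain ⟨⟨-, -, h1, h2, h3, -⟩, -⟩ := hab l hl
    refine ⟨h3, h1, ?_, (hent l hl).1⟩
    rw [hdet l hl]
    exact dvd_mul_right _ _
  have hXp : X ^ (ε / 4) = X0 ^ (ε / 4) * (N * Z) ^ ε := by
    rw [hX, Real.mul_rpow (by linarith) (by positivity), ← Real.rpow_natCast (N * Z) 4,
      ← Real.rpow_mul (by linarith)]
    congr 2
    push_cast
    ring
  -- the fibres
  have hfib : ∀ a ∈ F.image (fun l => (ab l).1),
      ((F.filter (fun l => (ab l).1 = a)).card : ℝ) ≤ 2 * κ ^ 3 * (B * N ^ 12) := by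
    intro a ha
    obtain ⟨l0, hl0, rfl⟩ := Finset.mem_image.1 ha
    obtain ⟨⟨-, -, hd0, -⟩, hg0⟩ := hab l0 hl0
    have hbeq : ∀ l ∈ F, (ab l).1 = (ab l0).1 → (ab l).2 = (ab l0).2 := by
      intro l hl hal
      have h1 : (ab l0).1.adjugate * (ab l).2 = (ab l0).1.adjugate * (ab l0).2 := by
        rw [hg0, ← (hab l hl).2, hal]
      have h2 : (ab l0).1 * ((ab l0).1.adjugate * (ab l).2) =
          (ab l0).1 * ((ab l0).1.adjugate * (ab l0).2) := by rw [h1]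
      rw [← Matrix.mul_assoc, ← Matrix.mul_assoc, Matrix.mul_adjugate, Matrix.smul_mul,
        Matrix.smul_mul, Matrix.one_mul, Matrix.one_mul] at h2
      ext x y
      have h3 := congrFun (congrFun h2 x) y
      simp only [Matrix.smul_apply, smul_eq_mul] at h3
      exact mul_left_cancel₀ hd0 h3
    set r : ℝ := κ * N ^ 4 * S.w with hr
    have hrw : S.w ≤ r := by
      rw [hr]
      have : 1 ≤ κ * N ^ 4 := by nlinarith
      nlinarith
    have hrd : r / S.w = κ * N ^ 4 := by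
      rw [hr]; field_simp
    have hcell : ∀ ζ : MR, ((F.filter (fun l => ∀ x y, |Xf (S.g l) x y - ζ x y| ≤ r)).card : ℝ) ≤
        B * (κ * N ^ 4) ^ 3 := by
      intro ζ
      rw [← hrd]
      refine hSep ζ r hrw _ ((Finset.filter_subset _ _).trans hFV) ?_
      intro l hl
      exact (Finset.mem_filter.1 hl).2
    have hsub : F.filter (fun l => (ab l).1 = (ab l0).1) ⊆
        (F.filter (fun l => ∀ x y, |Xf (S.g l) x y - PM_cj (ab l0).1 (Xf (S.g i)) x y| ≤ r)) ∪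
        (F.filter (fun l => ∀ x y, |Xf (S.g l) x y - PM_cj (ab l0).2 (Xf (S.g i)) x y| ≤ r)) := by
      intro l hl
      rw [Finset.mem_filter] at hl
      obtain ⟨hl, hal⟩ := hl
      have hbl := hbeq l hl hal
      have h1 := PM_alt hFb hPA hFr S C R N Z E i l n (ab l).1 (ab l).2 hR hC hSC hSR hK hU hN hs hi
        (hFV hl) hPi (hF l hl).1 hnd (hab l hl).1
      rw [hal, hbl, ← hκ] at h1
      rcases h1 with h1 | h1
      · exact Finset.mem_union_left _ (Finset.mem_filter.2 ⟨hl, h1⟩)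
      · exact Finset.mem_union_right _ (Finset.mem_filter.2 ⟨hl, h1⟩)
    have h1 : ((F.filter (fun l => (ab l).1 = (ab l0).1)).card : ℝ) ≤
        ((F.filter (fun l => ∀ x y, |Xf (S.g l) x y - PM_cj (ab l0).1 (Xf (S.g i)) x y| ≤ r)).card : ℝ) +
        ((F.filter (fun l => ∀ x y, |Xf (S.g l) x y - PM_cj (ab l0).2 (Xf (S.g i)) x y| ≤ r)).card : ℝ) := by
      exact_mod_cast (Finset.card_le_card hsub).trans (Finset.card_union_le _ _)
    refine h1.trans ?_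
    have h2 := hcell (PM_cj (ab l0).1 (Xf (S.g i)))
    have h3 := hcell (PM_cj (ab l0).2 (Xf (S.g i)))
    have h4 : B * (κ * N ^ 4) ^ 3 = κ ^ 3 * (B * N ^ 12) := by ring
    rw [h4] at h2 h3
    linarith
  have hcard : (F.card : ℝ) ≤ (2 * κ ^ 3 * (B * N ^ 12)) * ((F.image (fun l => (ab l).1)).card : ℝ) := by
    have h1 : F.card ≤ ⌊2 * κ ^ 3 * (B * N ^ 12)⌋₊ * (F.image (fun l => (ab l).1)).card := by
      refine Finset.card_le_mul_card_image _ _ ?_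
      intro a ha
      exact Nat.le_floor (hfib a ha)
    have h2 : ((⌊2 * κ ^ 3 * (B * N ^ 12)⌋₊ : ℕ) : ℝ) ≤ 2 * κ ^ 3 * (B * N ^ 12) :=
      Nat.floor_le (by positivity)
    calc (F.card : ℝ) ≤ ((⌊2 * κ ^ 3 * (B * N ^ 12)⌋₊ : ℕ) : ℝ) *
          ((F.image (fun l => (ab l).1)).card : ℝ) := by exact_mod_cast h1
      _ ≤ _ := mul_le_mul_of_nonneg_right h2 (by positivity)
  calc (F.card : ℝ) ≤ (2 * κ ^ 3 * (B * N ^ 12)) * ((F.image (fun l => (ab l).1)).card : ℝ) := hcard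
    _ ≤ (2 * κ ^ 3 * (B * N ^ 12)) * (Cc * X ^ (ε / 4)) :=
        mul_le_mul_of_nonneg_left hA (by positivity)
    _ = (Cc * X0 ^ (ε / 4) * (2 * κ ^ 3)) * (N * Z) ^ ε * B * N ^ 12 := by rw [hXp]; ring
    _ ≤ (2048 * C ^ 4 + Cc * X0 ^ (ε / 4) * (2 * κ ^ 3)) * (N * Z) ^ ε * B * N ^ 12 := by
        have h1 : Cc * X0 ^ (ε / 4) * (2 * κ ^ 3) ≤ 2048 * C ^ 4 + Cc * X0 ^ (ε / 4) * (2 * κ ^ 3) := by
          have : 0 ≤ 2048 * C ^ 4 := by positivity
          linarith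
        have h2 : 0 ≤ (N * Z) ^ ε := by positivity
        gcongr

end HSLow
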