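import Pool.Agent.Lib.HS.Bd.SpecLow

/-!
PROJECT H*, LOW BANDS, module PR (helper13): elements commuting or anticommuting with the normal are
proportional.
-/

set_option autoImplicit false

namespace HSLow

open Matrix HSL

/-- the trace of the frame -/
private theorem PR_trace (g : MR) (n : MZ) (hg : g.det = 1) (hn : n.trace = 0) :
    (fr g g n) 1 1 = -(fr g g n) 0 0 := by
  have hd : g 0 0 * g 1 1 - g 0 1 * g 1 0 = 1 := by rw [← Matrix.det_fin_two]; exact hg
  have ht : ((n 1 1 : ℤ) : ℝ) = -((n 0 0 : ℤ) : ℝ) := by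
    have h1 : n 0 0 + n 1 1 = 0 := by rw [← Matrix.trace_fin_two]; exact hn
    have h2 : n 1 1 = -n 0 0 := by linarith
    rw [h2]; push_cast; ring
  simp only [fr, toR, Matrix.adjugate_fin_two, Matrix.mul_apply, Fin.sum_univ_two, Matrix.map_apply,
    Matrix.of_apply, Matrix.cons_val', Matrix.cons_val_zero, Matrix.cons_val_one,
    Matrix.cons_val_fin_one]
  rw [ht]
  ring

theorem tPR (hFb : S_Fb) (hPar : S_Par) (hPA : S_PA) (hFr : S_Fr) : S_PR := by
  obtain ⟨hb1, hb2, -, -, hb5, -, -, hb8⟩ := hFb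
  obtain ⟨-, -, -, hp4, hp5⟩ := hPar
  obtain ⟨-, -, ha6, ha7⟩ := hPA
  obtain ⟨hf1, hf2, hf3, -⟩ := hFr
  intro R hR
  refine ⟨64 * R ^ 2, by nlinarith, ?_⟩
  intro S N D hSR hK hU hN hD hsm i hi l hl n a a' e hndet hPi hPl he hna hna' ha0 hBa hBa'
  have hK0 : 0 < S.K := by linarith
  have hw0 : 0 < S.w := by unfold Sys.w; positivity
  have hw1 : S.w ≤ 1 := by
    unfold Sys.w
    rw [div_le_one (by positivity)]
    nlinarith
  set w := S.w with hwdef
  obtain ⟨hgi, hgiR⟩ := hU i hi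
  obtain ⟨hgl, hglR⟩ := hU l hl
  rw [hSR] at hgiR hglR
  have hN2 : 1 ≤ N ^ 2 := by nlinarith
  have hD2 : 1 ≤ D ^ 2 := by nlinarith
  have hR2 : 1 ≤ R ^ 2 := by nlinarith
  set T := N ^ 2 * w * D ^ 2 with hT
  have hT0 : 0 < T := by positivity
  have hT1 : 64 * T ≤ 1 := by
    have h0 := mul_nonneg (sub_nonneg.2 hR2) hT0.le
    linarith
  -- consequences for the size
  have hwN : w * N ≤ T := by
    have h1 : w * N ≤ w * N ^ 2 := mul_le_mul_of_nonneg_left (by nlinarith) hw0.le
    have h2 : w * N ^ 2 ≤ w * N ^ 2 * D ^ 2 := le_mul_of_one_le_right (by positivity) hD2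
    calc w * N ≤ w * N ^ 2 * D ^ 2 := h1.trans h2
      _ = T := by rw [hT]; ring
  have hwN' : 2 * (w * N) ^ 2 ≤ 1 := by
    have h0 : 0 < w * N := by positivity
    have h1 : w * N ≤ 1 / 64 := by linarith
    nlinarith
  have hNwD : N ^ 2 * w * D ≤ T := by
    have : N ^ 2 * w * D ≤ N ^ 2 * w * D ^ 2 := by
      apply mul_le_mul_of_nonneg_left _ (by positivity)
      nlinarith
    exact this
  have hwD : w * D ≤ N ^ 2 * w * D := by
    have h0 : 0 < w * D := by positivity
    have h1 := mul_nonneg (sub_nonneg.2 hN2) h0.le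
    linarith
  have hwD2 : w * D ^ 2 ≤ T := by
    have h0 : 0 < w * D ^ 2 := by positivity
    have h1 := mul_nonneg (sub_nonneg.2 hN2) h0.le
    rw [hT]
    linarith
  -- the product
  set s : MZ := a.adjugate * a' with hs
  have hns : n * s = s * n := hp5 n a a' e hPi.1 he hna hna'
  have hbr : n * tf s = tf s * n := by
    unfold tf
    rw [mul_sub, sub_mul, mul_smul_comm, smul_mul_assoc, hns, mul_smul_comm, smul_mul_assoc, mul_one,
      one_mul]
  have hFs : fr (S.g i) (S.g i) s = (fr (S.g i) (S.g l) a).adjugate * fr (S.g i) (S.g l) a' := by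
    rw [hs, hf1 (S.g i) (S.g l) (S.g i) a.adjugate a' hgl, hf3]
  have hBs : Bx w (2 * D * D) (fr (S.g i) (S.g i) s) := by
    rw [hFs]
    exact hb1 w D D _ _ hw0.le hw1 (by linarith) (by linarith) (hb2 w D _ hBa) hBa'
  obtain ⟨htr, hBt⟩ := hb5 w (2 * D * D) (S.g i) s hw0.le hgi hBs
  -- frames
  have hcom : fr (S.g i) (S.g i) n * fr (S.g i) (S.g i) (tf s) =
      fr (S.g i) (S.g i) (tf s) * fr (S.g i) (S.g i) n := by
    rw [← hf1 (S.g i) (S.g i) (S.g i) n (tf s) hgi, hbr, hf1 (S.g i) (S.g i) (S.g i) (tf s) n hgi]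
  have hn11 := PR_trace (S.g i) n hgi hPi.1
  have ht11 := PR_trace (S.g i) (tf s) hgi htr
  have h01 := congrFun (congrFun hcom 0) 1
  simp only [Matrix.mul_apply, Fin.sum_univ_two] at h01
  rw [hn11, ht11] at h01
  obtain ⟨hy, -⟩ := ha7 S N i n hK hU hN hwN' hi hPi hndet
  have hx : |fr (S.g i) (S.g i) n 0 0| ≤ w * N := hPi.2.2.1
  obtain ⟨ht00, ht11', ht01, ht10⟩ := hBt
  set x := fr (S.g i) (S.g i) n 0 0 with hxd
  set y := fr (S.g i) (S.g i) n 0 1 with hyd
  set F := fr (S.g i) (S.g i) (tf s) with hFd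
  have hpe : y * F 0 0 = x * F 0 1 := by linarith
  have hp : |F 0 0| ≤ 8 * T := by
    have h1 : |y| * |F 0 0| = |x| * |F 0 1| := by rw [← abs_mul, hpe, abs_mul]
    have h2 : |x| * |F 0 1| ≤ (w * N) * (w * (2 * (2 * D * D))) :=
      mul_le_mul hx ht01 (abs_nonneg _) (by positivity)
    have h3 : |F 0 0| ≤ 2 * N * (|y| * |F 0 0|) := by
      have h0 := abs_nonneg (F 0 0)
      have : 1 * |F 0 0| ≤ (2 * N * |y|) * |F 0 0| := mul_le_mul_of_nonneg_right hy h0
      linarith [this]
    have h4 : 2 * N * (|y| * |F 0 0|) ≤ 2 * N * ((w * N) * (w * (2 * (2 * D * D)))) := by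
      rw [h1]
      exact mul_le_mul_of_nonneg_left h2 (by positivity)
    have h5 : 2 * N * ((w * N) * (w * (2 * (2 * D * D)))) = 8 * (w * T) := by rw [hT]; ring
    have h6 : w * T ≤ T := by nlinarith
    linarith
  have hq : w * (2 * (2 * D * D)) ≤ 8 * T := by
    have : w * (2 * (2 * D * D)) = 4 * (w * D ^ 2) := by ring
    rw [this]
    linarith
  have hall : ∀ p q, |F p q| ≤ 8 * T := by
    intro p q
    fin_cases p <;> fin_cases q
    · exact hp
    · exact ht01.trans hq
    · exact ht10.trans hq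
    · change |F 1 1| ≤ 8 * T
      rw [ht11, abs_neg]
      exact hp
  have hRT : R ^ 2 * (64 * T) ≤ 1 := by linarith
  have htf : tf s = 0 := by
    refine hb8 R (8 * T) (S.g i) (S.g i) (tf s) hgi hgi hgiR hgiR hall ?_
    nlinarith
  -- s is scalar
  have hs01 : s 0 1 = 0 := by
    have h0 := congrFun (congrFun htf 0) 1
    simp only [tf, Matrix.sub_apply, Matrix.smul_apply, smul_eq_mul, Matrix.zero_apply,
      Matrix.one_apply_ne (show (0 : Fin 2) ≠ 1 by decide), mul_zero, sub_zero] at h0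
    omega
  have hs10 : s 1 0 = 0 := by
    have h0 := congrFun (congrFun htf 1) 0
    simp only [tf, Matrix.sub_apply, Matrix.smul_apply, smul_eq_mul, Matrix.zero_apply,
      Matrix.one_apply_ne (show (1 : Fin 2) ≠ 0 by decide), mul_zero, sub_zero] at h0
    omega
  have hs11 : s 1 1 = s 0 0 := by
    have h0 := congrFun (congrFun htf 0) 0
    simp only [tf, Matrix.sub_apply, Matrix.smul_apply, smul_eq_mul, Matrix.zero_apply,
      Matrix.one_apply_eq, mul_one, Matrix.trace_fin_two] at h0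
    omega
  have hsc : s = s 0 0 • (1 : MZ) := by
    ext p q
    fin_cases p <;> fin_cases q
    · simp
    · simpa using hs01
    · simpa using hs10
    · simpa using hs11
  refine ⟨?_, s 0 0, ?_⟩
  · intro hda
    obtain ⟨hA1, hA2⟩ := ha6 S N D i l n a e hK hU hN hwN' (by linarith) hi hl hPi hPl hndet he
      hna hBa
    have hdet := hf2 (S.g i) (S.g l) a hgi hgl
    rw [hda] at hdet
    obtain ⟨hB0, hB1, hB2, hB3⟩ := hBa
    set A := fr (S.g i) (S.g l) a with hA
    rw [Matrix.det_fin_two] at hdet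
    have hdet' : A 0 0 * A 1 1 = A 0 1 * A 1 0 := by
      push_cast at hdet
      linarith
    have hprod : |A 0 0| * |A 1 1| ≤ (w * D) * (w * D) := by
      rw [← abs_mul, hdet', abs_mul]
      exact mul_le_mul hB2 hB3 (abs_nonneg _) (by positivity)
    have hww : w ^ 2 * N ^ 2 * D ≤ N ^ 2 * w * D := by
      have h1 : w ^ 2 * N ^ 2 * D = w * (N ^ 2 * w * D) := by ring
      rw [h1]
      have h2 : 0 < N ^ 2 * w * D := by positivity
      nlinarith
    have hbig : ∀ u v : ℝ, u ≤ 2 * N ^ 2 * v + 4 * w ^ 2 * N ^ 2 * D → v ≤ w * D →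
        u ≤ 6 * T := by
      intro u v h1 h2
      have h3 : 2 * N ^ 2 * v ≤ 2 * N ^ 2 * (w * D) := mul_le_mul_of_nonneg_left h2 (by positivity)
      have h4 : 2 * N ^ 2 * (w * D) = 2 * (N ^ 2 * w * D) := by ring
      have h5 : 4 * w ^ 2 * N ^ 2 * D = 4 * (w ^ 2 * N ^ 2 * D) := by ring
      linarith
    have hwDT : w * D ≤ 6 * T := by linarith
    have hA00 : |A 0 0| ≤ 6 * T ∧ |A 1 1| ≤ 6 * T := by
      by_cases h : |A 1 1| ≤ w * D
      · exact ⟨hbig _ _ hA1 h, h.trans hwDT⟩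
      · push Not at h
        have h2 : |A 0 0| ≤ w * D := by
          by_contra h3
          push Not at h3
          have h0 : 0 < w * D := by positivity
          have := mul_lt_mul'' h3 h h0.le h0.le
          linarith
        exact ⟨h2.trans hwDT, hbig _ _ hA2 h2⟩
    have hallA : ∀ p q, |A p q| ≤ 6 * T := by
      intro p q
      fin_cases p <;> fin_cases q
      · exact hA00.1
      · exact hB2.trans hwDT
      · exact hB3.trans hwDT
      · exact hA00.2
    exact ha0 (hb8 R (6 * T) (S.g i) (S.g l) a hgi hgl hgiR hglR hallA (by nlinarith))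
  · have h1 : a * s = a.det • a' := by
      rw [hs, ← mul_assoc, Matrix.mul_adjugate, smul_mul_assoc, one_mul]
    rw [← h1]
    conv_lhs => rw [hsc]
    rw [mul_smul_comm, mul_one]

end HSLow
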