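import Pool.Agent.Lib.HS.Bd.SpecLow
import Pool.Agent.Lib.HS.L.CL0

/-!
PROJECT H*, LOW BANDS (MP_a54f13_nt), module Pa: algebra of a pair of returns.
-/

set_option autoImplicit false

namespace HSLow

open Matrix HSL

private lemma Pa_adj_tf (s : MZ) : tf s.adjugate = - tf s := by
  have o01 : (1 : MZ) 0 1 = 0 := by decide
  have o10 : (1 : MZ) 1 0 = 0 := by decide
  have o00 : (1 : MZ) 0 0 = 1 := by decide
  have o11 : (1 : MZ) 1 1 = 1 := by decide
  have a00 : s.adjugate 0 0 = s 1 1 := by simp [Matrix.adjugate_fin_two]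
  have a01 : s.adjugate 0 1 = -s 0 1 := by simp [Matrix.adjugate_fin_two]
  have a10 : s.adjugate 1 0 = -s 1 0 := by simp [Matrix.adjugate_fin_two]
  have a11 : s.adjugate 1 1 = s 0 0 := by simp [Matrix.adjugate_fin_two]
  have h : ∀ (t : MZ) (i j : Fin 2), tf t i j = 2 * t i j - (t 0 0 + t 1 1) * (1 : MZ) i j := by
    intro t i j
    simp only [tf, Matrix.trace_fin_two, Matrix.sub_apply, Matrix.smul_apply, smul_eq_mul]
  have h00 : tf s.adjugate 0 0 = -(tf s 0 0) := by rw [h, h, a00, a11, o00]; ring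
  have h01 : tf s.adjugate 0 1 = -(tf s 0 1) := by rw [h, h, a01, o01]; ring
  have h10 : tf s.adjugate 1 0 = -(tf s 1 0) := by rw [h, h, a10, o10]; ring
  have h11 : tf s.adjugate 1 1 = -(tf s 1 1) := by rw [h, h, a00, a11, o11]; ring
  ext i j
  rw [Matrix.neg_apply]
  fin_cases i <;> fin_cases j
  · exact h00
  · exact h01
  · exact h10
  · exact h11

private lemma Pa_trace (h h' : MZ) : (h'.adjugate * h).trace = (h * h'.adjugate).trace :=
  Matrix.trace_mul_comm _ _

private lemma Pa_one (h h' : MZ) :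
    h * tf (h'.adjugate * h) * h.adjugate = h.det • tf (h * h'.adjugate) := by
  have e1 : h * h.adjugate = h.det • (1 : MZ) := Matrix.mul_adjugate h
  unfold tf
  rw [← Pa_trace, Matrix.mul_sub, Matrix.sub_mul, Matrix.mul_smul, Matrix.smul_mul, Matrix.mul_smul,
    Matrix.smul_mul, Matrix.mul_one, e1, smul_sub, Matrix.mul_assoc, Matrix.mul_assoc, e1,
    Matrix.mul_smul, Matrix.mul_smul, Matrix.mul_one]
  congr 1
  · exact smul_comm _ _ _
  · exact smul_comm _ _ _

private lemma Pa_two (h h' : MZ) :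
    h' * tf (h'.adjugate * h) * h'.adjugate = h'.det • tf (h * h'.adjugate) := by
  have e1 : h' * h'.adjugate = h'.det • (1 : MZ) := Matrix.mul_adjugate h'
  have e2 : h' * (h'.adjugate * h) * h'.adjugate = h'.det • (h * h'.adjugate) := by
    rw [← Matrix.mul_assoc h' h'.adjugate h, e1, Matrix.smul_mul, Matrix.one_mul, Matrix.smul_mul]
  unfold tf
  rw [← Pa_trace, Matrix.mul_sub, Matrix.sub_mul, Matrix.mul_smul, Matrix.smul_mul, Matrix.mul_smul,
    Matrix.smul_mul, Matrix.mul_one, e1, smul_sub, e2]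
  congr 1
  · exact smul_comm _ _ _
  · exact smul_comm _ _ _

private lemma Pa_ct_adj (s : MZ) : ct s.adjugate = ct s := by
  have h1 : ∀ s : MZ, (ct s : ℤ) ∣ (ct s.adjugate : ℤ) := by
    intro s
    apply dvd_ct
    intro i j
    have h00 := ct_dvd s 0 0
    have h01 := ct_dvd s 0 1
    have h10 := ct_dvd s 1 0
    have h11 := ct_dvd s 1 1
    fin_cases i <;> fin_cases j <;> simp [Matrix.adjugate_fin_two] <;> assumption
  have h2 : s.adjugate.adjugate = s := by
    ext i j
    fin_cases i <;> fin_cases j <;> simp [Matrix.adjugate_fin_two]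
  have h3 := h1 s
  have h4 := h1 s.adjugate
  rw [h2] at h4
  exact Nat.dvd_antisymm (by exact_mod_cast h4) (by exact_mod_cast h3)

private lemma Pa_prime_adj (h h' : MZ) (m : ℕ) (q : ℕ) (hq : q.Prime) (hd : h.det = (m : ℤ) ^ 2)
    (hqm : ¬ q ∣ m) (hdv : ∀ i j, (q : ℤ) ∣ (h'.adjugate * h) i j) :
    ∀ i j, (q : ℤ) ∣ h' i j := by
  have hqp : Prime (q : ℤ) := Nat.prime_iff_prime_int.mp hq
  have e1 : h'.adjugate * h * h.adjugate = h.det • h'.adjugate := by
    rw [Matrix.mul_assoc, Matrix.mul_adjugate, Matrix.mul_smul, Matrix.mul_one]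
  have e2 : ∀ i j, (q : ℤ) ∣ h.det * h'.adjugate i j := by
    intro i j
    have h2 := congrFun (congrFun e1 i) j
    rw [Matrix.smul_apply, smul_eq_mul] at h2
    rw [← h2, Matrix.mul_apply]
    exact Finset.dvd_sum (fun k _ => Dvd.dvd.mul_right (hdv i k) _)
  have e3 : ¬ (q : ℤ) ∣ h.det := by
    rw [hd]
    intro h3
    exact hqm (by exact_mod_cast hqp.dvd_of_dvd_pow h3)
  have e4 : ∀ i j, (q : ℤ) ∣ h'.adjugate i j := fun i j => by
    rcases hqp.dvd_or_dvd (e2 i j) with h4 | h4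
    · exact absurd h4 e3
    · exact h4
  intro i j
  have a00 := e4 0 0
  have a01 := e4 0 1
  have a10 := e4 1 0
  have a11 := e4 1 1
  simp [Matrix.adjugate_fin_two] at a00 a01 a10 a11
  fin_cases i <;> fin_cases j <;> assumption

private lemma Pa_four (h h' : MZ) (m m' : ℕ) (_hm : 0 < m) (_hm' : 0 < m') (hp : Prim h)
    (hp' : Prim h') (hd : h.det = (m : ℤ) ^ 2) (hd' : h'.det = (m' : ℤ) ^ 2)
    (hc : Nat.Coprime m m') : ct (h'.adjugate * h) = 1 := by
  by_contra hne
  obtain ⟨q, hq, hqd⟩ := Nat.exists_prime_and_dvd hne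
  have hdv : ∀ i j, (q : ℤ) ∣ (h'.adjugate * h) i j := fun i j =>
    (Int.natCast_dvd_natCast.mpr hqd).trans (ct_dvd _ i j)
  have hnu : ¬ IsUnit (q : ℤ) := fun hu => by
    have := Int.isUnit_iff.mp hu
    have h2 := hq.two_le
    omega
  by_cases hqm : q ∣ m
  · have hqm' : ¬ q ∣ m' := fun h3 => by
      have h4 := Nat.dvd_gcd hqm h3
      rw [hc] at h4
      exact hq.one_lt.ne' (Nat.dvd_one.mp h4)
    have hdv2 : ∀ i j, (q : ℤ) ∣ (h.adjugate * h') i j := by
      have e1 : h.adjugate * h' = (h'.adjugate * h).adjugate := by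
        rw [Matrix.adjugate_mul_distrib]
        congr 1
        ext i j
        fin_cases i <;> fin_cases j <;> simp [Matrix.adjugate_fin_two]
      rw [e1]
      intro i j
      exact (Int.natCast_dvd_natCast.mpr (by rw [Pa_ct_adj]; exact hqd)).trans (ct_dvd _ i j)
    exact hnu (hp q (Pa_prime_adj h' h m' q hq hd' hqm' hdv2))
  · exact hnu (hp' q (Pa_prime_adj h h' m q hq hd hqm hdv))

theorem tPa : S_Pa := by
  refine ⟨Pa_one, Pa_two, fun s => ⟨Pa_ct_adj s, Pa_adj_tf s⟩, Pa_four, ?_⟩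
  intro h h' hp hp' hd hd' ht
  have h2 := CL0_aux.scal h h' ht
  exact CL0_aux.prim_prop h h' hp hp' _ _ hd'.ne' h2

end HSLow
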