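import Pool.Agent.Lib.HS.Bd.SpecLow

/-!
PROJECT H*, LOW BANDS (MP_a54f13_nt), module Par (spec helper41): parallel traceless matrices.
-/

set_option autoImplicit false

namespace HSLow

open Matrix HSL

/-- Bezout for a primitive traceless matrix -/
private lemma Par_bez (v : MZ) (ht : v.trace = 0) (hp : Prim v) :
    ∃ x y z : ℤ, x * v 0 0 + y * v 0 1 + z * v 1 0 = 1 := by
  have e11 : v 1 1 = -v 0 0 := by
    have := Matrix.trace_fin_two v
    rw [ht] at this
    linarith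
  have h1 := Int.gcd_eq_gcd_ab (v 0 0) (v 0 1)
  have h2 := Int.gcd_eq_gcd_ab (Int.gcd (v 0 0) (v 0 1) : ℤ) (v 1 0)
  have hl : (Int.gcd (Int.gcd (v 0 0) (v 0 1) : ℤ) (v 1 0) : ℤ) ∣ (Int.gcd (v 0 0) (v 0 1) : ℤ) :=
    Int.gcd_dvd_left _ _
  have hr : (Int.gcd (Int.gcd (v 0 0) (v 0 1) : ℤ) (v 1 0) : ℤ) ∣ v 1 0 := Int.gcd_dvd_right _ _
  have d00 : (Int.gcd (Int.gcd (v 0 0) (v 0 1) : ℤ) (v 1 0) : ℤ) ∣ v 0 0 := hl.trans (Int.gcd_dvd_left _ _)
  have d01 : (Int.gcd (Int.gcd (v 0 0) (v 0 1) : ℤ) (v 1 0) : ℤ) ∣ v 0 1 := hl.trans (Int.gcd_dvd_right _ _)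
  have hu := hp (Int.gcd (Int.gcd (v 0 0) (v 0 1) : ℤ) (v 1 0) : ℤ) (by
    intro i j
    fin_cases i <;> fin_cases j
    · exact d00
    · exact d01
    · exact hr
    · show _ ∣ v 1 1
      rw [e11]
      exact (dvd_neg).2 d00)
  have h1' : (Int.gcd (Int.gcd (v 0 0) (v 0 1) : ℤ) (v 1 0) : ℤ) = 1 := by
    rcases Int.isUnit_iff.1 hu with h | h
    · exact h
    · exfalso
      have := Int.natCast_nonneg (Int.gcd (Int.gcd (v 0 0) (v 0 1) : ℤ) (v 1 0))
      omega
  rw [h1'] at h2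
  refine ⟨Int.gcdA (v 0 0) (v 0 1) * Int.gcdA (Int.gcd (v 0 0) (v 0 1) : ℤ) (v 1 0),
    Int.gcdB (v 0 0) (v 0 1) * Int.gcdA (Int.gcd (v 0 0) (v 0 1) : ℤ) (v 1 0),
    Int.gcdB (Int.gcd (v 0 0) (v 0 1) : ℤ) (v 1 0), ?_⟩
  linear_combination (-1 : ℤ) * h2 - Int.gcdA (Int.gcd (v 0 0) (v 0 1) : ℤ) (v 1 0) * h1

/-- the coordinates of a vanishing bracket -/
private lemma Par_rel {u v : MZ} (hu : u.trace = 0) (hv : v.trace = 0) (h : brk u v = 0) :
    u 0 1 * v 1 0 = u 1 0 * v 0 1 ∧ u 0 0 * v 0 1 = u 0 1 * v 0 0 ∧ u 1 0 * v 0 0 = u 0 0 * v 1 0 := by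
  have e00 : brk u v 0 0 = 0 := by rw [h]; rfl
  have e01 : brk u v 0 1 = 0 := by rw [h]; rfl
  have e10 : brk u v 1 0 = 0 := by rw [h]; rfl
  have hu' : u 1 1 = -u 0 0 := by
    have := Matrix.trace_fin_two u
    rw [hu] at this
    linarith
  have hv' : v 1 1 = -v 0 0 := by
    have := Matrix.trace_fin_two v
    rw [hv] at this
    linarith
  simp only [brk, Matrix.sub_apply, Matrix.mul_apply, Fin.sum_univ_two, hu', hv'] at e00 e01 e10
  refine ⟨by linarith, ?_, ?_⟩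
  · have : 2 * (u 0 0 * v 0 1) = 2 * (u 0 1 * v 0 0) := by linarith
    exact mul_left_cancel₀ (by norm_num) this
  · have : 2 * (u 1 0 * v 0 0) = 2 * (u 0 0 * v 1 0) := by linarith
    exact mul_left_cancel₀ (by norm_num) this

private lemma Par_one (v v' : MZ) (ht : v.trace = 0) (ht' : v'.trace = 0) (hp : Prim v) (hb : brk v v' = 0) :
    ∃ c : ℤ, v' = c • v := by
  obtain ⟨x, y, z, hxyz⟩ := Par_bez v ht hp
  obtain ⟨r1, r2, r3⟩ := Par_rel ht ht' hb
  have e11 : v 1 1 = -v 0 0 := by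
    have := Matrix.trace_fin_two v
    rw [ht] at this
    linarith
  have e11' : v' 1 1 = -v' 0 0 := by
    have := Matrix.trace_fin_two v'
    rw [ht'] at this
    linarith
  refine ⟨x * v' 0 0 + y * v' 0 1 + z * v' 1 0, ?_⟩
  have c00 : v' 0 0 = (x * v' 0 0 + y * v' 0 1 + z * v' 1 0) * v 0 0 := by
    linear_combination (-v' 0 0) * hxyz - y * r2 + z * r3
  ext i j
  rw [Matrix.smul_apply, smul_eq_mul]
  fin_cases i <;> fin_cases j
  · exact c00
  · show v' 0 1 = (x * v' 0 0 + y * v' 0 1 + z * v' 1 0) * v 0 1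
    linear_combination (-v' 0 1) * hxyz + x * r2 - z * r1
  · show v' 1 0 = (x * v' 0 0 + y * v' 0 1 + z * v' 1 0) * v 1 0
    linear_combination (-v' 1 0) * hxyz - x * r3 + y * r1
  · show v' 1 1 = (x * v' 0 0 + y * v' 0 1 + z * v' 1 0) * v 1 1
    rw [e11, e11']
    linear_combination (-1 : ℤ) * c00

private lemma Par_two (v : MZ) (hv : v ≠ 0) : ∃ (c : ℤ) (v0 : MZ), 0 < c ∧ Prim v0 ∧ v = c • v0 := by
  have hc : (0 : ℤ) < (ct v : ℤ) := by exact_mod_cast ct_pos hv
  have hch : ∀ i j, ∃ t, v i j = (ct v : ℤ) * t := fun i j => ct_dvd v i j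
  choose f hf using hch
  refine ⟨(ct v : ℤ), Matrix.of f, hc, ?_, ?_⟩
  · intro r hr
    have h1 : (ct v : ℤ) * r ∣ (ct v : ℤ) := by
      apply dvd_ct
      intro i j
      rw [hf i j]
      exact mul_dvd_mul_left _ (hr i j)
    obtain ⟨t, ht⟩ := h1
    have h2 : r * t = 1 := by
      have : (ct v : ℤ) * (r * t) = (ct v : ℤ) * 1 := by rw [mul_one, ← mul_assoc, ← ht]
      exact mul_left_cancel₀ hc.ne' this
    exact IsUnit.of_mul_eq_one t h2
  · ext i j
    rw [Matrix.smul_apply, smul_eq_mul, Matrix.of_apply]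
    exact hf i j

private lemma Par_brk_smul (c : ℤ) (u v : MZ) : brk (c • u) v = c • brk u v := by
  unfold brk
  rw [smul_mul_assoc, mul_smul_comm, smul_sub]

private lemma Par_three (v a b : MZ) (hv : v ≠ 0) (tv : v.trace = 0) (ta : a.trace = 0) (tb : b.trace = 0)
    (ha : brk v a = 0) (hb : brk v b = 0) : brk a b = 0 := by
  obtain ⟨c, v0, hc, hp, rfl⟩ := Par_two v hv
  have t0 : v0.trace = 0 := by
    rw [Matrix.trace_smul, smul_eq_mul] at tv
    exact (mul_eq_zero.1 tv).resolve_left hc.ne'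
  rw [Par_brk_smul] at ha hb
  have ha' : brk v0 a = 0 := (smul_eq_zero.1 ha).resolve_left hc.ne'
  have hb' : brk v0 b = 0 := (smul_eq_zero.1 hb).resolve_left hc.ne'
  obtain ⟨α, rfl⟩ := Par_one v0 a t0 ta hp ha'
  obtain ⟨β, rfl⟩ := Par_one v0 b t0 tb hp hb'
  unfold brk
  rw [smul_mul_smul_comm, smul_mul_smul_comm, mul_comm β α, sub_self]

private lemma Par_four (v s : MZ) : v * s = s * v ↔ brk v (tf s) = 0 := by
  have h : brk v (tf s) = (2 : ℤ) • (v * s - s * v) := by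
    unfold brk tf
    rw [mul_sub, sub_mul, mul_smul_comm, smul_mul_assoc, mul_smul_comm, smul_mul_assoc, mul_one, one_mul,
      smul_sub]
    abel
  rw [h, smul_eq_zero]
  constructor
  · intro h1
    right
    rw [h1, sub_self]
  · rintro (h1 | h1)
    · exact absurd h1 (by norm_num)
    · exact sub_eq_zero.1 h1

private lemma Par_adj (n : MZ) (ht : n.trace = 0) : n.adjugate = -n := by
  have e11 : n 1 1 = -n 0 0 := by
    have := Matrix.trace_fin_two n
    rw [ht] at this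
    linarith
  rw [Matrix.adjugate_fin_two]
  ext i j
  fin_cases i <;> fin_cases j <;> simp [e11]

private lemma Par_five (n a a' : MZ) (e : ℤ) (ht : n.trace = 0) (he : e = 1 ∨ e = -1)
    (h1 : n * a = e • (a * n)) (h2 : n * a' = e • (a' * n)) :
    n * (a.adjugate * a') = a.adjugate * a' * n := by
  have hee : e * e = 1 := by rcases he with h | h <;> rw [h] <;> norm_num
  -- the adjugate of h1, written with entries
  have key : n * a.adjugate = e • (a.adjugate * n) := by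
    have h3 : (n * a).adjugate = (e • (a * n)).adjugate := by rw [h1]
    rw [Matrix.adjugate_mul_distrib, Matrix.adjugate_smul, Matrix.adjugate_mul_distrib, Par_adj n ht] at h3
    have h4 : e ^ (Fintype.card (Fin 2) - 1) = e := by
      rw [Fintype.card_fin]
      norm_num
    rw [h4, mul_neg, neg_mul, smul_neg, neg_inj] at h3
    rw [h3, smul_smul, hee, one_smul]
  rw [← mul_assoc, key, smul_mul_assoc, mul_assoc a.adjugate n a', h2, mul_smul_comm, smul_smul, hee, one_smul,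
    mul_assoc]

theorem tPar : S_Par :=
  ⟨Par_one, Par_two, Par_three, Par_four, Par_five⟩

end HSLow
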