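import Pool.Agent.Lib.HS.Bd.SpecLow

/-!
PROJECT H*, LOW BANDS (MP_a54f13_nt), module Pd (helper61): parallel pairs from a cell, the gauge of the
end is not larger.
-/

set_option autoImplicit false

namespace HSLow

open Matrix HSL

noncomputable section

private lemma Pd_prod (a : ℝ) (ha : 0 ≤ a) : ∀ l : List ℕ, (∀ p ∈ l, (p : ℝ) ≤ a) →
    ((l.prod : ℕ) : ℝ) ≤ a ^ l.length := by
  intro l
  induction l with
  | nil => intro _; simp
  | cons p l ih =>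
    intro h
    rw [List.prod_cons, List.length_cons, pow_succ, Nat.cast_mul, mul_comm (a ^ _)]
    exact mul_le_mul (h p (by simp)) (ih fun q hq => h q (by simp [hq])) (Nat.cast_nonneg _) ha

private lemma Pd_lev (Q : Finset ℕ) (j m : ℕ) (a : ℝ) (ha : 0 ≤ a) (hQ : ∀ p ∈ Q, (p : ℝ) ≤ a)
    (hm : Lev Q j m) : (m : ℝ) ≤ a ^ j := by
  obtain ⟨h0, hl, hp⟩ := hm
  have h1 := Pd_prod a ha m.primeFactorsList fun p hp' => hQ p (hp p hp')
  rwa [Nat.prod_primeFactorsList h0, hl] at h1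

/-- Pd. Parallel pairs from `x`. -/
theorem tPd (hPC : S_PC) (hC2 : S_C2) (hC3 : S_C3) (hPa : S_Pa) : S_Pd := by
  classical
  intro k C R ε hk hC hR hε
  obtain ⟨c1, hc1, HPC⟩ := hPC R hR
  obtain ⟨c2, hc2, HC2⟩ := hC2 k hk
  obtain ⟨c3, hc3, HC3⟩ := hC3 k C R ε hk hC hR hε
  set q : ℝ := 4 * ((2 * C) ^ k) ^ 2 with hq
  have hCk : 1 ≤ (2 * C) ^ k := one_le_pow₀ (by linarith)
  have hq1 : 1 ≤ q := by nlinarith
  have hc1q : 1 ≤ c1 * q := by nlinarith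
  refine ⟨c1 * q + c2 + c3, by linarith, ?_⟩
  intro S B S0 M Q vx hSC hSR hK hB hS0 hM hsm hU hO hMn x hx hGd hTx hQ A hA
  set Z : ℝ := (2 * M) ^ (2 * k) with hZ
  have hZ1 : 1 ≤ Z := one_le_pow₀ (by linarith)
  have hwZ : 0 ≤ S.w * Z ^ 2 := by
    unfold Sys.w
    positivity
  have hs1 : c1 * (S.w * tau C k Z) ≤ 1 := by
    have h1 : c1 * (S.w * tau C k Z) = (c1 * q) * (S.w * Z ^ 2) := by
      unfold tau
      rw [hq]
      ring
    rw [h1]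
    refine le_trans (mul_le_mul_of_nonneg_right ?_ hwZ) hsm
    linarith
  have hs3 : c3 * (S.w * Z ^ 2) ≤ 1 := by
    refine le_trans (mul_le_mul_of_nonneg_right ?_ hwZ) hsm
    linarith
  have hτ1 : 1 ≤ tau C k Z := by
    have h1 : tau C k Z = q * Z ^ 2 := rfl
    rw [h1]
    have h2 : 1 ≤ Z ^ 2 := one_le_pow₀ hZ1
    nlinarith
  obtain ⟨hvt, hvp, -⟩ := hMn x hx
  have hlev : ∀ m, Lev Q (2 * k) m → (m : ℝ) ≤ Z := fun m hm =>
    Pd_lev Q (2 * k) m (2 * M) (by linarith) (fun p hp => (hQ p hp).2.2.1) hm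
  have hdv : ∀ (y : S.ι) (h : MZ) (m : ℕ), y ∈ S.V → Prim h → Lev Q (2 * k) m →
      Ret ((2 * C) ^ k) S.w (S.g x) (S.g y) m h → Tub S y (tau C k Z) (vx y) →
      brk (h * vx x * h.adjugate) (vx y) = 0 →
      |fr (S.g y) (S.g y) (vx y) 0 0| ≤ |fr (S.g x) (S.g x) (vx x) 0 0| →
      Dv S k Q x (vx x) (y, h) m := by
    intro y h m hy hp hm hr ht hb hg
    refine ⟨hy, hp, hm, by rw [hSC]; exact hr, ?_⟩
    refine HPC S (tau C k Z) hSR hK hτ1 hs1 hU x hx y hy (vx x) (vx y) h m hvp (hMn y hy).2.1 hTx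
      ht hr.2.1 hr.1 hb hg ?_
    intro p hpp hpm hpd
    have h1 : p ∈ m.primeFactorsList := (Nat.mem_primeFactorsList hm.1).2 ⟨hpp, hpm⟩
    exact (hQ p (hm.2.2 p h1)).2.2.2 (hpd.mul_left 2)
  let P : (S.ι × MZ) × (S.ι × MZ) → Prop := fun t => ∃ m m' : ℕ, Dv S k Q x (vx x) t.1 m ∧
    Dv S k Q x (vx x) t.2 m' ∧ (m : ℝ) ≤ Z ∧ (m' : ℝ) ≤ Z ∧ 1 < Nat.gcd m m'
  have e1 := HC2 S Q B M Z x (vx x) hx hB hM
    (fun p hp => ⟨(hQ p hp).1, (hQ p hp).2.1, (hQ p hp).2.2.2⟩) (by rw [hSC]; exact hO) hvt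
    (A.filter P) (fun t ht => (Finset.mem_filter.1 ht).2)
  set H : Finset (S.ι × MZ) := A.image Prod.fst ∪ A.image Prod.snd with hH
  have hHk : Hk S k Z x H := by
    intro t ht
    rw [hH, Finset.mem_union, Finset.mem_image, Finset.mem_image] at ht
    rcases ht with ⟨s, hs, rfl⟩ | ⟨s, hs, rfl⟩
    · obtain ⟨a1, a2, a3, a4, ⟨m, a5, a6⟩, -⟩ := hA s hs
      exact ⟨a2, a3, m, by rw [hSC]; exact a6, hlev m a5, a5.2.1.le⟩
    · obtain ⟨a1, a2, a3, a4, -, ⟨m, a5, a6⟩, -⟩ := hA s hs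
      exact ⟨a1 ▸ a2, a4, m, by rw [hSC]; exact a6, hlev m a5, a5.2.1.le⟩
  have e3 := HC3 S B S0 Z hSC hSR hK hB hZ1 (by linarith) hs3 hU hO x hx hGd H hHk (vx x) hvp hvt
    (A.filter fun t => ¬ P t) (by
      intro t ht
      obtain ⟨h1, h2⟩ := Finset.mem_filter.1 ht
      unfold prs
      rw [Finset.mem_filter, Finset.mem_product]
      refine ⟨⟨?_, ?_⟩, (hA t h1).1⟩
      · rw [hH]
        exact Finset.mem_union_left _ (Finset.mem_image_of_mem _ h1)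
      · rw [hH]
        exact Finset.mem_union_right _ (Finset.mem_image_of_mem _ h1)) (by
      intro t ht
      obtain ⟨h1, h2⟩ := Finset.mem_filter.1 ht
      obtain ⟨a1, a2, a3, a4, ⟨m, a5, a6⟩, ⟨m', a7, a8⟩, a9, a10, a11, a12, a13, a14⟩ := hA t h1
      refine ⟨a9, ?_, a10⟩
      have d1 : Dv S k Q x (vx x) t.1 m := hdv t.1.1 t.1.2 m a2 a3 a5 a6 a11 a12 a14
      have d2 : Dv S k Q x (vx x) t.2 m' :=
        hdv t.2.1 t.2.2 m' (a1 ▸ a2) a4 a7 a8 (a1 ▸ a11) (a1 ▸ a13) (a1 ▸ a14)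
      have hcop : Nat.Coprime m m' := by
        have h3 : ¬ 1 < Nat.gcd m m' := fun h4 =>
          h2 ⟨m, m', d1, d2, hlev m a5, hlev m' a7, h4⟩
        have h4 : 0 < Nat.gcd m m' := Nat.gcd_pos_of_pos_left _ a6.2.1
        unfold Nat.Coprime
        omega
      exact hPa.2.2.2.1 t.1.2 t.2.2 m m' a6.2.1 a8.2.1 a3 a4 a6.1 a8.1 hcop)
  have hcard : (A.card : ℝ) = ((A.filter P).card : ℝ) + ((A.filter fun t => ¬ P t).card : ℝ) := by
    have h1 := Finset.card_filter_add_card_filter_not (s := A) P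
    rw [← Nat.cast_add, h1]
  have hZε : 1 ≤ Z ^ ε := Real.one_le_rpow hZ1 hε.le
  have hM0 : 0 < M := by linarith
  have hS00 : 0 < S0 := by linarith
  have g1 : 0 ≤ Z ^ 2 / M := by positivity
  have g2 : 0 ≤ Z ^ 2 / S0 := by positivity
  have hBB : B ≤ B ^ 2 := by nlinarith
  have hB0 : 0 ≤ B ^ 2 := by positivity
  rw [hcard]
  calc ((A.filter P).card : ℝ) + ((A.filter fun t => ¬ P t).card : ℝ)
      ≤ c2 * B ^ 2 * (Z ^ 2 / M) + c3 * B * Z ^ ε * (Z ^ 2 / S0) := add_le_add e1 e3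
    _ ≤ (c1 * q + c2 + c3) * B ^ 2 * Z ^ ε * (Z ^ 2 / M) +
        (c1 * q + c2 + c3) * B ^ 2 * Z ^ ε * (Z ^ 2 / S0) := by
        refine add_le_add (mul_le_mul_of_nonneg_right ?_ g1) (mul_le_mul_of_nonneg_right ?_ g2)
        · calc c2 * B ^ 2 ≤ (c1 * q + c2 + c3) * B ^ 2 :=
              mul_le_mul_of_nonneg_right (by linarith) hB0
            _ = (c1 * q + c2 + c3) * B ^ 2 * 1 := (mul_one _).symm
            _ ≤ (c1 * q + c2 + c3) * B ^ 2 * Z ^ ε :=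
              mul_le_mul_of_nonneg_left hZε (mul_nonneg (by linarith) hB0)
        · refine mul_le_mul_of_nonneg_right ?_ (by linarith)
          exact mul_le_mul (by linarith) hBB (by linarith) (by linarith)
    _ = (c1 * q + c2 + c3) * B ^ 2 * Z ^ ε * (Z ^ 2 / M + Z ^ 2 / S0) := by ring

end

end HSLow
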