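import Pool.Agent.Lib.HS.Bd.SpecLow

set_option autoImplicit false

/-!
PROJECT H*, LOW BANDS (MP_a54f13_nt), module PgN: pigeonhole for the normals.
-/

namespace HSLow

open Matrix HSL

private theorem PgN_tr (g : MR) (n : MZ) (hn : n.trace = 0) :
    fr g g n 1 1 = - fr g g n 0 0 := by
  have h1 : (n 0 0 : ℝ) + (n 1 1 : ℝ) = 0 := by
    rw [Matrix.trace_fin_two] at hn
    exact_mod_cast hn
  have h2 : (n 1 1 : ℝ) = - (n 0 0 : ℝ) := by linarith
  simp only [fr, toR, Matrix.adjugate_fin_two, Matrix.mul_apply, Fin.sum_univ_two, Matrix.map_apply,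
    Matrix.of_apply, Matrix.cons_val', Matrix.cons_val_zero, Matrix.cons_val_one,
    Matrix.cons_val_fin_one, h2]
  ring

private theorem PgN_ent (hFb : S_Fb) (S : Sys) (N : ℝ) (hK : 1 ≤ S.K) (hU : S.Unim) (hN : 1 ≤ N)
    (i : S.ι) (hi : i ∈ S.V) (n : MZ) (h : Pln S N i n) :
    ∀ a b, |((n a b : ℤ) : ℝ)| ≤ 4 * S.R ^ 2 * N := by
  obtain ⟨-, -, -, -, -, -, h7, -⟩ := hFb
  obtain ⟨ht, -, h00, h01, h10⟩ := h
  have hw1 : S.w ≤ 1 := by
    unfold Sys.w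
    rw [div_le_one (by positivity)]
    nlinarith
  have hd : |fr (S.g i) (S.g i) n 0 0| ≤ N := by nlinarith
  apply h7 S.R N (S.g i) (S.g i) n (hU i hi).1 (hU i hi).1 (hU i hi).2 (hU i hi).2
  intro a b
  fin_cases a <;> fin_cases b
  · exact hd
  · exact h01
  · exact h10
  · change |fr (S.g i) (S.g i) n 1 1| ≤ N
    rw [PgN_tr _ _ ht, abs_neg]
    exact hd

theorem tPgN (hFb : S_Fb) : S_PgN := by
  classical
  intro R hR
  refine ⟨729 * R ^ 6, ?_, ?_⟩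
  · have : (1 : ℝ) ≤ R ^ 6 := one_le_pow₀ hR
    linarith
  intro S N hSR hK hU hN W hWV hWne hW
  choose! f hf using hW
  set B : ℤ := ⌊4 * R ^ 2 * N⌋ with hB
  have hX : (4 : ℝ) ≤ 4 * R ^ 2 * N := by
    have h1 : (1 : ℝ) ≤ R ^ 2 := one_le_pow₀ hR
    nlinarith
  have hB0 : 0 ≤ B := Int.floor_nonneg.2 (by linarith)
  set T : Finset (ℤ × ℤ × ℤ) := Finset.Icc (-B) B ×ˢ Finset.Icc (-B) B ×ˢ Finset.Icc (-B) B with hT
  have hcard : (T.card : ℝ) = (2 * (B : ℝ) + 1) ^ 3 := by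
    have h1 : ((Finset.Icc (-B) B).card : ℝ) = 2 * (B : ℝ) + 1 := by
      rw [Int.card_Icc]
      have h2 : ((B + 1 - -B).toNat : ℤ) = 2 * B + 1 := by
        rw [Int.toNat_of_nonneg (by linarith)]
        ring
      exact_mod_cast h2
    rw [hT, Finset.card_product, Finset.card_product, Nat.cast_mul, Nat.cast_mul, h1]
    ring
  have hTle : (T.card : ℝ) ≤ 729 * R ^ 6 * N ^ 3 := by
    rw [hcard]
    have h1 : (B : ℝ) ≤ 4 * R ^ 2 * N := Int.floor_le _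
    have h2 : (0 : ℝ) ≤ (B : ℝ) := by exact_mod_cast hB0
    have h3 : 2 * (B : ℝ) + 1 ≤ 9 * (R ^ 2 * N) := by nlinarith
    calc (2 * (B : ℝ) + 1) ^ 3 ≤ (9 * (R ^ 2 * N)) ^ 3 := pow_le_pow_left₀ (by linarith) h3 3
      _ = 729 * R ^ 6 * N ^ 3 := by ring
  have hTne : T.Nonempty := by
    refine ⟨(0, 0, 0), ?_⟩
    simp only [hT, Finset.mem_product, Finset.mem_Icc]
    refine ⟨⟨by linarith, hB0⟩, ⟨by linarith, hB0⟩, by linarith, hB0⟩
  have hTpos : (0 : ℝ) < (T.card : ℝ) := by exact_mod_cast hTne.card_pos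
  have hmaps : ∀ i ∈ W, ((f i 0 0, f i 0 1, f i 1 0) : ℤ × ℤ × ℤ) ∈ T := by
    intro i hi
    have h1 := PgN_ent hFb S N hK hU hN i (hWV hi) (f i) (hf i hi)
    rw [hSR] at h1
    have h2 : ∀ a b, f i a b ∈ Finset.Icc (-B) B := by
      intro a b
      rw [Finset.mem_Icc, ← abs_le, hB, Int.le_floor]
      have h3 := h1 a b
      rwa [← Int.cast_abs] at h3
    simp only [hT, Finset.mem_product]
    exact ⟨h2 0 0, h2 0 1, h2 1 0⟩
  obtain ⟨y, -, hy⟩ := Finset.exists_le_card_fiber_of_nsmul_le_card_of_maps_to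
    (b := (W.card : ℝ) / (T.card : ℝ)) hmaps hTne
    (by rw [nsmul_eq_mul]; exact le_of_eq (mul_div_cancel₀ _ hTpos.ne'))
  set W' : Finset S.ι := W.filter (fun i => ((f i 0 0, f i 0 1, f i 1 0) : ℤ × ℤ × ℤ) = y) with hW'
  have hWpos : (0 : ℝ) < (W.card : ℝ) := by exact_mod_cast hWne.card_pos
  have hW'pos : (0 : ℝ) < (W'.card : ℝ) := lt_of_lt_of_le (div_pos hWpos hTpos) hy
  have hW'ne : W'.Nonempty := by
    rw [← Finset.card_pos]
    exact_mod_cast hW'pos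
  obtain ⟨i0, hi0⟩ := hW'ne
  have hi0' := Finset.mem_filter.1 hi0
  refine ⟨f i0, W', Finset.filter_subset _ _, ?_, ?_⟩
  · intro i hi
    have hi' := Finset.mem_filter.1 hi
    have he : ((f i 0 0, f i 0 1, f i 1 0) : ℤ × ℤ × ℤ) = (f i0 0 0, f i0 0 1, f i0 1 0) :=
      hi'.2.trans hi0'.2.symm
    simp only [Prod.mk.injEq] at he
    obtain ⟨e1, e2, e3⟩ := he
    have ht := (hf i hi'.1).1
    have ht0 := (hf i0 hi0'.1).1
    rw [Matrix.trace_fin_two] at ht ht0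
    have heq : f i = f i0 := by
      ext a b
      fin_cases a <;> fin_cases b
      · exact e1
      · exact e2
      · exact e3
      · change f i 1 1 = f i0 1 1
        linarith
    rw [← heq]
    exact hf i hi'.1
  · rw [div_le_iff₀ hTpos] at hy
    calc (W.card : ℝ) ≤ (W'.card : ℝ) * (T.card : ℝ) := hy
      _ ≤ (W'.card : ℝ) * (729 * R ^ 6 * N ^ 3) := mul_le_mul_of_nonneg_left hTle hW'pos.le
      _ = 729 * R ^ 6 * N ^ 3 * (W'.card : ℝ) := by ring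

end HSLow
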