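import Pool.Agent.Lib.HS.Bd.SpecLow

/-!
PROJECT H*, LOW BANDS (MP_a54f13_nt), module Pq: algebra of a pair which is not of type A.
-/

set_option autoImplicit false

namespace HSLow

open Matrix HSL

noncomputable section

private theorem Pq_tf_smul (c : ℤ) (s : MZ) : tf (c • s) = c • tf s := by
  unfold tf
  rw [Matrix.trace_smul, smul_sub, smul_comm c (2 : ℤ) s, smul_assoc]

private theorem Pq_brk_smul (c : ℤ) (a b : MZ) : brk (c • a) b = c • brk a b := by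
  unfold brk
  rw [Matrix.smul_mul, Matrix.mul_smul, smul_sub]

private theorem Pq_brk_comm {a b : MZ} (h : brk a b = 0) : brk b a = 0 := by
  unfold brk at h ⊢
  rw [← neg_sub, h, neg_zero]

private theorem Pq_smul_zero {c : ℤ} (hc : c ≠ 0) {s : MZ} (h : c • s = 0) : s = 0 := by
  ext i j
  have h1 := congrFun (congrFun h i) j
  simp only [Matrix.smul_apply, smul_eq_mul, Matrix.zero_apply] at h1
  exact (mul_eq_zero.1 h1).resolve_left hc

private theorem Pq_adjR (b : MR) : b.adjugate.adjugate = b := by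
  ext i j
  fin_cases i <;> fin_cases j <;> simp [Matrix.adjugate_fin_two]

private theorem Pq_toR_adj (h : MZ) : toR h.adjugate = (toR h).adjugate := by
  ext i j
  fin_cases i <;> fin_cases j <;> simp [toR, Matrix.adjugate_fin_two]

private theorem Pq_fr_adj (a b : MR) (h : MZ) : fr b a h.adjugate = (fr a b h).adjugate := by
  rw [fr, fr, Matrix.adjugate_mul_distrib, Matrix.adjugate_mul_distrib, Pq_adjR, Pq_toR_adj,
    Matrix.mul_assoc]

private theorem Pq_ret_adj {C w : ℝ} {a b : MR} {m : ℕ} {h : MZ} (hr : Ret C w a b m h) :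
    Ret C w b a m h.adjugate := by
  obtain ⟨h1, h2, h3, h4, h5, h6⟩ := hr
  refine ⟨?_, h2, ?_⟩
  · rw [← h1, Matrix.det_fin_two, Matrix.det_fin_two, Matrix.adjugate_fin_two]
    simp
    ring
  · rw [Pq_fr_adj, Near, Matrix.adjugate_fin_two]
    simp only [Matrix.of_apply, Matrix.cons_val', Matrix.cons_val_zero, Matrix.cons_val_one,
      Matrix.cons_val_fin_one, abs_neg]
    exact ⟨h4, h3, h5, h6⟩

/-- the primitive part of a matrix whose determinant is a square -/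
private theorem Pq_prim {s : MZ} {N : ℕ} (hs : s ≠ 0) (hN : 0 < N) (hd : s.det = (N : ℤ) ^ 2) :
    ∃ (s0 : MZ) (n0 : ℕ), s = (ct s : ℤ) • s0 ∧ 0 < n0 ∧ s0.det = (n0 : ℤ) ^ 2 ∧ ct s * n0 = N := by
  have hc : 0 < ct s := ct_pos hs
  choose f hf using fun i j => ct_dvd s i j
  have hs0 : s = (ct s : ℤ) • (Matrix.of f) := by
    ext i j
    rw [Matrix.smul_apply, smul_eq_mul, Matrix.of_apply]
    exact hf i j
  have hd0 : (ct s : ℤ) ^ 2 * (Matrix.of f).det = (N : ℤ) ^ 2 := by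
    rw [← hd]
    conv_rhs => rw [hs0]
    rw [Matrix.det_smul, Fintype.card_fin]
  have h1 : (ct s : ℤ) ^ 2 ∣ (N : ℤ) ^ 2 := Dvd.intro _ hd0
  have h2 : (ct s : ℤ) ∣ (N : ℤ) := (Int.pow_dvd_pow_iff (by norm_num)).1 h1
  obtain ⟨n0, hn0⟩ := Int.natCast_dvd_natCast.1 h2
  refine ⟨Matrix.of f, n0, hs0, ?_, ?_, hn0.symm⟩
  · rcases Nat.eq_zero_or_pos n0 with h3 | h3
    · rw [h3, mul_zero] at hn0
      omega
    · exact h3
  · have hc2 : ((ct s : ℤ)) ^ 2 ≠ 0 := pow_ne_zero 2 (by exact_mod_cast hc.ne')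
    refine mul_left_cancel₀ hc2 ?_
    rw [hd0, hn0]
    push_cast
    ring

/-- the loop of a pair of returns -/
private theorem Pq_loop (hFb : S_Fb) (hFrm : S_Frm) (S : Sys) (A Z : ℝ)
    (vx : S.ι → MZ) (hK : 1 ≤ S.K) (hA : 1 ≤ A) (hU : S.Unim) (hM : Mn S vx)
    (x y : S.ι) (hx : x ∈ S.V) (hy : y ∈ S.V) (h1 h2 : MZ) (m1 m2 : ℕ)
    (hr1 : Ret A S.w (S.g x) (S.g y) m1 h1) (hr2 : Ret A S.w (S.g x) (S.g y) m2 h2)
    (hm1 : (m1 : ℝ) ≤ Z) (hm2 : (m2 : ℝ) ≤ Z) (ht : tf (h2.adjugate * h1) ≠ 0)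
    (hR1 : R1 S x (4 * A ^ 2 * Z ^ 2 / (ct (h2.adjugate * h1) : ℝ))) :
    Tub S x (4 * A ^ 2 * Z ^ 2) (vx x) ∧ brk (tf (h2.adjugate * h1)) (vx x) = 0 := by
  have hw0 : 0 ≤ S.w := by
    unfold Sys.w
    positivity
  have hw1 : S.w ≤ 1 := by
    unfold Sys.w
    exact div_le_one_of_le₀ (one_le_pow₀ hK) (by positivity)
  have hs : h2.adjugate * h1 ≠ 0 := by
    intro h0
    apply ht
    rw [h0]
    simp [tf]
  have hm1p : 0 < m1 := hr1.2.1
  have hm2p : 0 < m2 := hr2.2.1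
  have hd : (h2.adjugate * h1).det = ((m2 * m1 : ℕ) : ℤ) ^ 2 := by
    rw [Matrix.det_mul, (Pq_ret_adj hr2).1, hr1.1]
    push_cast
    ring
  obtain ⟨s0, n0, hs0, hn0, hd0, hcn⟩ := Pq_prim hs (Nat.mul_pos hm2p hm1p) hd
  set c := ct (h2.adjugate * h1) with hc
  have hcp : 0 < c := ct_pos hs
  have hc1 : (1 : ℝ) ≤ (c : ℝ) := by exact_mod_cast hcp
  have hcz : (c : ℤ) ≠ 0 := by exact_mod_cast hcp.ne'
  have hnear := hFrm A S.w (S.g x) (S.g y) m1 m2 n0 h1 h2 s0 (c : ℤ) (hU x hx).1 (hU y hy).1 hw0 hw1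
    hA hr1 hr2 hcz hn0 hd0 hs0
  have hbx : Bx S.w (2 * A ^ 2 * n0) (fr (S.g x) (S.g x) s0) := by
    obtain ⟨e1, e2, e3, e4⟩ := hnear
    refine ⟨e1, e2, ?_, ?_⟩
    · calc _ ≤ 2 * A ^ 2 * S.w * n0 := e3
        _ = S.w * (2 * A ^ 2 * n0) := by ring
    · calc _ ≤ 2 * A ^ 2 * S.w * n0 := e4
        _ = S.w * (2 * A ^ 2 * n0) := by ring
  have htf := hFb.2.2.2.2.1 S.w (2 * A ^ 2 * n0) (S.g x) s0 hw0 (hU x hx).1 hbx
  have hcn' : (c : ℝ) * n0 ≤ Z ^ 2 := by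
    have e1 : (c : ℝ) * n0 = (m2 : ℝ) * m1 := by exact_mod_cast hcn
    rw [e1, sq]
    exact mul_le_mul hm2 hm1 (Nat.cast_nonneg _) ((Nat.cast_nonneg _).trans hm2)
  have hle : 2 * (2 * A ^ 2 * (n0 : ℝ)) ≤ 4 * A ^ 2 * Z ^ 2 / (c : ℝ) := by
    rw [le_div_iff₀ (by linarith)]
    calc 2 * (2 * A ^ 2 * (n0 : ℝ)) * c = 4 * A ^ 2 * ((c : ℝ) * n0) := by ring
      _ ≤ 4 * A ^ 2 * Z ^ 2 := mul_le_mul_of_nonneg_left hcn' (by positivity)
  have htub : Tub S x (4 * A ^ 2 * Z ^ 2 / (c : ℝ)) (tf s0) :=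
    ⟨htf.1, hFb.2.2.1 S.w _ _ _ hw0 hle htf.2⟩
  have htfs : tf (h2.adjugate * h1) = (c : ℤ) • tf s0 := by
    rw [← Pq_tf_smul, ← hs0]
  have ht0 : tf s0 ≠ 0 := by
    intro h0
    apply ht
    rw [htfs, h0, smul_zero]
  have hvx := (hM x hx).2.2 _ _ ht0 htub
  refine ⟨⟨hvx.1, hFb.2.2.1 S.w _ _ _ hw0 ?_ hvx.2⟩, ?_⟩
  · exact div_le_self (by positivity) hc1
  · rw [htfs, Pq_brk_smul, hR1 _ _ htub hvx, smul_zero]

theorem tPq (hFb : S_Fb) (hPar : S_Par) (hPa : S_Pa) (hFrm : S_Frm) : S_Pq := by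
  intro k C R hk hC hR
  refine ⟨1, le_rfl, ?_⟩
  intro S Z vx hSC hSR hK hZ hwZ hU hM x hx y hy h h' m m' hr hr' hm hm' ht hR1 hR1'
  have hA : (1 : ℝ) ≤ (2 * C) ^ k := one_le_pow₀ (by linarith)
  have htau : tau C k Z = 4 * ((2 * C) ^ k) ^ 2 * Z ^ 2 := rfl
  rw [htau] at hR1 hR1' ⊢
  have hmp : 0 < m := hr.2.1
  have hmp' : 0 < m' := hr'.2.1
  have hdz : h.det ≠ 0 := by
    rw [hr.1]
    positivity
  -- the loop at `x`
  obtain ⟨hTx, hBx⟩ := Pq_loop hFb hFrm S _ Z vx hK hA hU hM x y hx hy h h' m m' hr hr' hm hm'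
    ht hR1
  -- the loop at `y`
  have hadj : (h * h'.adjugate).adjugate = h'.adjugate.adjugate * h.adjugate := by
    rw [Matrix.adjugate_mul_distrib]
  have hct : ct (h'.adjugate.adjugate * h.adjugate) = ct (h * h'.adjugate) := by
    rw [← hadj]
    exact (hPa.2.2.1 _).1
  have htfe : tf (h'.adjugate.adjugate * h.adjugate) = - tf (h * h'.adjugate) := by
    rw [← hadj]
    exact (hPa.2.2.1 _).2
  have htf' : tf (h * h'.adjugate) ≠ 0 := by
    intro h0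
    have e1 := hPa.1 h h'
    rw [h0, smul_zero] at e1
    have e2 : h.adjugate * (h * tf (h'.adjugate * h) * h.adjugate) * h = 0 := by
      rw [e1, Matrix.mul_zero, Matrix.zero_mul]
    have e3 : h.adjugate * (h * tf (h'.adjugate * h) * h.adjugate) * h =
        (h.adjugate * h) * tf (h'.adjugate * h) * (h.adjugate * h) := by
      simp only [Matrix.mul_assoc]
    rw [e3, Matrix.adjugate_mul, Matrix.smul_mul, Matrix.one_mul, Matrix.smul_mul, Matrix.mul_smul,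
      Matrix.mul_one] at e2
    exact ht (Pq_smul_zero hdz (Pq_smul_zero hdz e2))
  obtain ⟨hTy, hBy⟩ := Pq_loop hFb hFrm S _ Z vx hK hA hU hM y x hy hx h.adjugate h'.adjugate
    m m' (Pq_ret_adj hr) (Pq_ret_adj hr') hm hm' (by rw [htfe]; exact neg_ne_zero.2 htf')
    (by rw [hct]; exact hR1')
  have hBy' : brk (tf (h * h'.adjugate)) (vx y) = 0 := by
    have e1 : tf (h * h'.adjugate) = (-1 : ℤ) • tf (h'.adjugate.adjugate * h.adjugate) := by
      rw [htfe, smul_neg, neg_smul, one_smul, neg_neg]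
    rw [e1, Pq_brk_smul, hBy, smul_zero]
  -- the multiple
  have htr : (tf (h'.adjugate * h)).trace = 0 := by
    rw [tf, Matrix.trace_sub, Matrix.trace_smul, Matrix.trace_smul, Matrix.trace_one,
      Fintype.card_fin]
    simp
    ring
  obtain ⟨c, hc⟩ := hPar.1 (vx x) (tf (h'.adjugate * h)) (hM x hx).1 htr (hM x hx).2.1
    (Pq_brk_comm hBx)
  have hc0 : c ≠ 0 := by
    intro h0
    rw [h0, zero_smul] at hc
    exact ht hc
  refine ⟨hTx, hTy, hBx, ?_, ?_⟩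
  · have e1 := hPa.1 h h'
    rw [hc, Matrix.mul_smul, Matrix.smul_mul] at e1
    refine Pq_smul_zero hc0 ?_
    rw [← Pq_brk_smul, e1, Pq_brk_smul, hBy', smul_zero]
  · have e1 := hPa.2.1 h h'
    rw [hc, Matrix.mul_smul, Matrix.smul_mul] at e1
    refine Pq_smul_zero hc0 ?_
    rw [← Pq_brk_smul, e1, Pq_brk_smul, hBy', smul_zero]

end

end HSLow

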