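import Pool.Agent.Lib.HS.Bd.SpecLow

/-!
PROJECT H*, LOW BANDS (MP_a54f13_nt), module R2: rank two lattice count.
-/

set_option autoImplicit false

namespace HSLow

open Matrix HSL Pool.Agent.A54.HSL

namespace R2_aux

theorem brk_vec {v v' : MZ} (hv : v.trace = 0) (hv' : v'.trace = 0) :
    brk v v' 0 0 = cr (HSL.vec v) (HSL.vec v') 0 ∧ brk v v' 0 1 = 2 * cr (HSL.vec v) (HSL.vec v') 2 ∧
      brk v v' 1 0 = 2 * cr (HSL.vec v) (HSL.vec v') 1 ∧ brk v v' 1 1 = - cr (HSL.vec v) (HSL.vec v') 0 := by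
  rw [Matrix.trace_fin_two] at hv hv'
  have h1 : v 1 1 = - v 0 0 := by linarith
  have h2 : v' 1 1 = - v' 0 0 := by linarith
  refine ⟨?_, ?_, ?_, ?_⟩ <;>
    simp only [brk, Matrix.sub_apply, Matrix.mul_apply, Fin.sum_univ_two, cr, HSL.vec, h1, h2,
      Matrix.cons_val_zero, Matrix.cons_val_one, Matrix.cons_val] <;> ring

/-- an integer dividing all entries of `q n0`, `n0` primitive, divides `q` -/
theorem dvd_prim {g q : ℤ} {n0 : MZ} (hn : Prim n0) (hg : g ≠ 0) (h : ∀ i j, g ∣ q * n0 i j) : g ∣ q := by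
  obtain ⟨g', q', d, hd, rfl, rfl, hco⟩ : ∃ g' q' d : ℤ, 0 < d ∧ g = g' * d ∧ q = q' * d ∧ IsCoprime g' q' := by
    have hd0 : 0 < Int.gcd g q := Int.gcd_pos_of_ne_zero_left _ hg
    obtain ⟨g', hg'⟩ := Int.gcd_dvd_left g q
    obtain ⟨q', hq'⟩ := Int.gcd_dvd_right g q
    refine ⟨g', q', Int.gcd g q, by exact_mod_cast hd0, by rw [mul_comm]; exact hg', by rw [mul_comm]; exact hq', ?_⟩
    have hdd : (Int.gcd g q : ℤ) ≠ 0 := by exact_mod_cast hd0.ne'
    have h1 := Int.gcd_eq_gcd_ab g q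
    refine ⟨Int.gcdA g q, Int.gcdB g q, ?_⟩
    apply mul_left_cancel₀ hdd
    rw [mul_one]
    calc (Int.gcd g q : ℤ) * (Int.gcdA g q * g' + Int.gcdB g q * q')
        = ((Int.gcd g q : ℤ) * g') * Int.gcdA g q + ((Int.gcd g q : ℤ) * q') * Int.gcdB g q := by ring
      _ = g * Int.gcdA g q + q * Int.gcdB g q := by rw [← hg', ← hq']
      _ = _ := h1.symm
  have hu : IsUnit g' := by
    apply hn
    intro i j
    have h1 : g' ∣ q' * n0 i j := by
      have h2 := h i j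
      have h3 : g' * d ∣ (q' * n0 i j) * d := by
        have e : q' * d * n0 i j = (q' * n0 i j) * d := by ring
        rwa [e] at h2
      exact Int.dvd_of_mul_dvd_mul_right hd.ne' h3
    exact hco.dvd_of_dvd_mul_left h1
  exact mul_dvd_mul (hu.dvd) (dvd_refl d)

theorem ne_zero_of_prim {n0 : MZ} (hn : Prim n0) : ∃ i j, n0 i j ≠ 0 := by
  by_contra h
  push Not at h
  have h2 := hn 2 (fun i j => by rw [h i j]; exact dvd_zero 2)
  rw [Int.isUnit_iff] at h2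
  omega

end R2_aux

open R2_aux

theorem tR2 : S_R2 := by
  classical
  intro J n0 F hn0 htr hq hne
  have hq' : ∀ v v' : MZ, ∃ q : ℤ, v ∈ F → v' ∈ F → |q| ≤ (J : ℤ) ∧ brk v v' = q • n0 := by
    intro v v'
    by_cases hv : v ∈ F
    · by_cases hv' : v' ∈ F
      · obtain ⟨q, h⟩ := hq v hv v' hv'
        exact ⟨q, fun _ _ => h⟩
      · exact ⟨0, fun _ h => absurd h hv'⟩
    · exact ⟨0, fun h => absurd h hv⟩
  choose q hq1 using hq'
  obtain ⟨v0, hv0, v0', hv0', hb⟩ := hne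
  obtain ⟨⟨u₁, u₂⟩, hu, hmax⟩ := Finset.exists_max_image (F ×ˢ F) (fun p => |q p.1 p.2|)
    ⟨(v0, v0'), Finset.mem_product.2 ⟨hv0, hv0'⟩⟩
  rw [Finset.mem_product] at hu
  obtain ⟨m1, m2⟩ := hu
  simp only at m1 m2
  have hmx : ∀ v ∈ F, ∀ v' ∈ F, |q v v'| ≤ |q u₁ u₂| := fun v hv v' hv' =>
    hmax (v, v') (Finset.mem_product.2 ⟨hv, hv'⟩)
  have hq0 : q u₁ u₂ ≠ 0 := by
    intro h0
    have h1 := hmx v0 hv0 v0' hv0'
    rw [h0, abs_zero] at h1
    have h2 : q v0 v0' = 0 := abs_eq_zero.1 (le_antisymm h1 (abs_nonneg _))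
    apply hb
    rw [(hq1 v0 v0' hv0 hv0').2, h2, zero_smul]
  -- entries of the cross products
  have hc : ∀ v ∈ F, ∀ v' ∈ F, cr (HSL.vec v) (HSL.vec v') 0 = q v v' * n0 0 0 ∧
      2 * cr (HSL.vec v) (HSL.vec v') 2 = q v v' * n0 0 1 ∧ 2 * cr (HSL.vec v) (HSL.vec v') 1 = q v v' * n0 1 0 := by
    intro v hv v' hv'
    obtain ⟨b1, b2, b3, b4⟩ := brk_vec (htr v hv) (htr v' hv')
    have h1 := (hq1 v v' hv hv').2
    refine ⟨?_, ?_, ?_⟩
    · rw [← b1, h1, Matrix.smul_apply, smul_eq_mul]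
    · rw [← b2, h1, Matrix.smul_apply, smul_eq_mul]
    · rw [← b3, h1, Matrix.smul_apply, smul_eq_mul]
  have hn11 : n0 1 1 = - n0 0 0 := by
    obtain ⟨b1, b2, b3, b4⟩ := brk_vec (htr u₁ m1) (htr u₂ m2)
    have h1 := (hq1 u₁ u₂ m1 m2).2
    rw [h1, Matrix.smul_apply, smul_eq_mul, (hc u₁ m1 u₂ m2).1] at b4
    apply mul_left_cancel₀ hq0
    linarith
  -- the plane
  have hL : ∀ u ∈ F, ∀ v ∈ F, ∀ v' ∈ F, 2 * d3 (HSL.vec u) (HSL.vec v) (HSL.vec v') =
      q v v' * (2 * HSL.vec u 0 * n0 0 0 + HSL.vec u 1 * n0 1 0 + HSL.vec u 2 * n0 0 1) := by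
    intro u hu v hv v' hv'
    obtain ⟨c0, c2, c1⟩ := hc v hv v' hv'
    have e : d3 (HSL.vec u) (HSL.vec v) (HSL.vec v') = HSL.vec u 0 * cr (HSL.vec v) (HSL.vec v') 0 +
        HSL.vec u 1 * cr (HSL.vec v) (HSL.vec v') 1 + HSL.vec u 2 * cr (HSL.vec v) (HSL.vec v') 2 := by
      simp only [d3, cr, Matrix.cons_val_zero, Matrix.cons_val_one, Matrix.cons_val]
      ring
    rw [e]
    linear_combination 2 * HSL.vec u 0 * c0 + HSL.vec u 1 * c1 + HSL.vec u 2 * c2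
  have hL1 : 2 * HSL.vec u₁ 0 * n0 0 0 + HSL.vec u₁ 1 * n0 1 0 + HSL.vec u₁ 2 * n0 0 1 = 0 := by
    have h1 := hL u₁ m1 u₁ m1 u₂ m2
    have h2 : d3 (HSL.vec u₁) (HSL.vec u₁) (HSL.vec u₂) = 0 := by simp only [d3]; ring
    rw [h2, mul_zero] at h1
    exact (mul_eq_zero.1 h1.symm).resolve_left hq0
  have hp3 : ∀ v ∈ F, d3 (HSL.vec u₁) (HSL.vec u₂) (HSL.vec v) = 0 := by
    intro v hv
    have h1 := hL u₁ m1 u₂ m2 v hv
    rw [hL1, mul_zero] at h1
    omega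
  -- the cross product of the maximal pair
  have hne : cr (HSL.vec u₁) (HSL.vec u₂) ≠ 0 := by
    intro h0
    obtain ⟨c0, c2, c1⟩ := hc u₁ m1 u₂ m2
    rw [h0] at c0 c2 c1
    simp only [Pi.zero_apply, mul_zero] at c0 c2 c1
    obtain ⟨i, j, hij⟩ := ne_zero_of_prim hn0
    apply hij
    have e00 := (mul_eq_zero.1 c0.symm).resolve_left hq0
    have e01 := (mul_eq_zero.1 c2.symm).resolve_left hq0
    have e10 := (mul_eq_zero.1 c1.symm).resolve_left hq0
    fin_cases i <;> fin_cases j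
    · exact e00
    · exact e01
    · exact e10
    · show n0 1 1 = 0
      rw [hn11, e00, neg_zero]
  obtain ⟨g, e, a, hg, hge, hae⟩ := prim _ hne
  have hD : d3 (HSL.vec u₁) (HSL.vec u₂) a = g := by
    have h0 := congrFun hge 0
    have h1 := congrFun hge 1
    have h2 := congrFun hge 2
    simp only [Pi.smul_apply, smul_eq_mul] at h0 h1 h2
    have : d3 (HSL.vec u₁) (HSL.vec u₂) a = a 0 * cr (HSL.vec u₁) (HSL.vec u₂) 0 + a 1 * cr (HSL.vec u₁) (HSL.vec u₂) 1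
        + a 2 * cr (HSL.vec u₁) (HSL.vec u₂) 2 := by
      simp only [d3, cr, Matrix.cons_val_zero, Matrix.cons_val_one, Matrix.cons_val]; ring
    rw [this, h0, h1, h2]
    calc a 0 * (g * e 0) + a 1 * (g * e 1) + a 2 * (g * e 2)
        = g * (a 0 * e 0 + a 1 * e 1 + a 2 * e 2) := by ring
      _ = g := by rw [hae, mul_one]
  have hDne : d3 (HSL.vec u₁) (HSL.vec u₂) a ≠ 0 := by rw [hD]; exact hg.ne'
  have hgq : g ∣ q u₁ u₂ := by
    apply dvd_prim hn0 hg.ne'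
    obtain ⟨c0, c2, c1⟩ := hc u₁ m1 u₂ m2
    have h0 : g ∣ cr (HSL.vec u₁) (HSL.vec u₂) 0 := ⟨e 0, by have := congrFun hge 0; simpa using this⟩
    have h1 : g ∣ cr (HSL.vec u₁) (HSL.vec u₂) 1 := ⟨e 1, by have := congrFun hge 1; simpa using this⟩
    have h2 : g ∣ cr (HSL.vec u₁) (HSL.vec u₂) 2 := ⟨e 2, by have := congrFun hge 2; simpa using this⟩
    intro i j
    fin_cases i <;> fin_cases j
    · show g ∣ q u₁ u₂ * n0 0 0
      rw [← c0]; exact h0
    · show g ∣ q u₁ u₂ * n0 0 1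
      rw [← c2]; exact Dvd.dvd.mul_left h2 2
    · show g ∣ q u₁ u₂ * n0 1 0
      rw [← c1]; exact Dvd.dvd.mul_left h1 2
    · show g ∣ q u₁ u₂ * n0 1 1
      rw [hn11, mul_neg, ← c0]; exact (dvd_neg).2 h0
  have hgle : g ≤ (J : ℤ) := by
    have h1 := Int.le_of_dvd (abs_pos.2 hq0) ((dvd_abs _ _).2 hgq)
    exact h1.trans (hq1 u₁ u₂ m1 m2).1
  -- coordinates
  have hcomp : ∀ v ∈ F, ∀ i, d3 (HSL.vec u₁) (HSL.vec u₂) a * HSL.vec v i =
      d3 (HSL.vec v) (HSL.vec u₂) a * HSL.vec u₁ i + d3 (HSL.vec u₁) (HSL.vec v) a * HSL.vec u₂ i := by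
    intro v hv i
    have h1 := cramer (HSL.vec u₁) (HSL.vec u₂) a (HSL.vec v)
    rw [hp3 v hv, zero_smul, add_zero] at h1
    have := congrFun h1 i
    simpa using this
  have fin : ∀ (v v' : MZ) (t : ℤ), v ∈ F → v' ∈ F →
      (∀ i, g * cr (HSL.vec v) (HSL.vec v') i = t * cr (HSL.vec u₁) (HSL.vec u₂) i) → |t| ≤ g := by
    intro v v' t hv hv' ht
    obtain ⟨c0, c2, c1⟩ := hc v hv v' hv'
    obtain ⟨d0, d2, d1⟩ := hc u₁ m1 u₂ m2
    have t0 := ht 0
    have t1 := ht 1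
    have t2 := ht 2
    have key : ∀ i j, (g * q v v' - t * q u₁ u₂) * n0 i j = 0 := by
      intro i j
      fin_cases i <;> fin_cases j
      · show (g * q v v' - t * q u₁ u₂) * n0 0 0 = 0
        linear_combination t0 - g * c0 + t * d0
      · show (g * q v v' - t * q u₁ u₂) * n0 0 1 = 0
        linear_combination 2 * t2 - g * c2 + t * d2
      · show (g * q v v' - t * q u₁ u₂) * n0 1 0 = 0
        linear_combination 2 * t1 - g * c1 + t * d1
      · show (g * q v v' - t * q u₁ u₂) * n0 1 1 = 0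
        rw [hn11]
        linear_combination - (t0 - g * c0 + t * d0)
    obtain ⟨i, j, hij⟩ := ne_zero_of_prim hn0
    have h1 := (mul_eq_zero.1 (key i j)).resolve_right hij
    have h2 : g * q v v' = t * q u₁ u₂ := by linarith
    have h3 : g * |q v v'| = |t| * |q u₁ u₂| := by
      rw [← abs_mul, ← h2, abs_mul, abs_of_pos hg]
    have h4 := hmx v hv v' hv'
    have h5 : 0 < |q u₁ u₂| := abs_pos.2 hq0
    by_contra hcon
    push Not at hcon
    nlinarith [abs_nonneg (q v v')]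
  have c1 : ∀ v ∈ F, |d3 (HSL.vec v) (HSL.vec u₂) a| ≤ |d3 (HSL.vec u₁) (HSL.vec u₂) a| := by
    intro v hv
    rw [hD, abs_of_pos hg]
    refine fin v u₂ _ hv m2 ?_
    have p := hcomp v hv
    rw [hD] at p
    intro i
    have q0 := p 0
    have q1 := p 1
    have q2 := p 2
    fin_cases i
    · simp only [cr, Fin.zero_eta, Matrix.cons_val_zero]
      linear_combination q1 * HSL.vec u₂ 2 - q2 * HSL.vec u₂ 1
    · simp only [cr, Fin.mk_one, Matrix.cons_val_one, Matrix.cons_val]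
      linear_combination q2 * HSL.vec u₂ 0 - q0 * HSL.vec u₂ 2
    · simp only [cr, Fin.reduceFinMk, Matrix.cons_val]
      linear_combination q0 * HSL.vec u₂ 1 - q1 * HSL.vec u₂ 0
  have c2 : ∀ v ∈ F, |d3 (HSL.vec u₁) (HSL.vec v) a| ≤ |d3 (HSL.vec u₁) (HSL.vec u₂) a| := by
    intro v hv
    rw [hD, abs_of_pos hg]
    refine fin u₁ v _ m1 hv ?_
    have p := hcomp v hv
    rw [hD] at p
    intro i
    have q0 := p 0
    have q1 := p 1
    have q2 := p 2
    fin_cases i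
    · simp only [cr, Fin.zero_eta, Matrix.cons_val_zero]
      linear_combination q2 * HSL.vec u₁ 1 - q1 * HSL.vec u₁ 2
    · simp only [cr, Fin.mk_one, Matrix.cons_val_one, Matrix.cons_val]
      linear_combination q0 * HSL.vec u₁ 2 - q2 * HSL.vec u₁ 0
    · simp only [cr, Fin.reduceFinMk, Matrix.cons_val]
      linear_combination q1 * HSL.vec u₁ 0 - q0 * HSL.vec u₁ 1
  -- the image
  have hinj : Set.InjOn HSL.vec (F : Set MZ) := by
    intro v hv v' hv' h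
    rw [← mat_vec v (htr v hv), ← mat_vec v' (htr v' hv'), h]
  have key := card27 (F.image HSL.vec) (HSL.vec u₁) (HSL.vec u₂) a hDne (by
      intro v hv
      obtain ⟨v1, hv1, rfl⟩ := Finset.mem_image.1 hv
      exact c1 v1 hv1) (by
      intro v hv
      obtain ⟨v1, hv1, rfl⟩ := Finset.mem_image.1 hv
      exact c2 v1 hv1) (by
      intro v hv
      obtain ⟨v1, hv1, rfl⟩ := Finset.mem_image.1 hv
      rw [hp3 v1 hv1, abs_zero]
      exact abs_nonneg _)
  rw [Finset.card_image_of_injOn hinj, hD, abs_of_pos hg] at key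
  have : (F.card : ℤ) ≤ ((27 * J : ℕ) : ℤ) := by
    push_cast
    linarith
  exact_mod_cast this

end HSLow
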