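import Pool.Agent.Lib.HS.Bd.SpecLowC

/-!
PROJECT H*, LOW BANDS (MP_a54f13_nt), module Sp (helper95): the cells are separated.
-/

set_option autoImplicit false

namespace Pool.Agent.A54.HS

open MeasureTheory Filter Topology Set
open scoped ContDiff ComplexConjugate UpperHalfPlane MatrixGroups ENNReal
open Pool.Agent.A54.Dyn (G fl base ze io mk4 dom)
open Pool.Agent.A54.Av (Mat NonSc)
open Pool.Agent.A54.Hp Pool.Agent.A54.Hp.Hk Pool.Agent.A54.Hp.A2M

noncomputable section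

namespace SpL

lemma KKw {w : ℝ} (hw : 0 < w) : 1 / KK w ^ 2 = w := by
  unfold KK
  rw [← Real.rpow_natCast, ← Real.rpow_mul hw.le]
  norm_num
  rw [Real.rpow_neg_one, inv_inv]

lemma Xf_entries (g : G) : HSLow.Xf g.1 0 0 = xi g 0 ∧ HSLow.Xf g.1 0 1 = 2 * xi g 1 ∧
    HSLow.Xf g.1 1 0 = 2 * xi g 2 := by
  unfold HSLow.Xf xi
  refine ⟨?_, ?_, ?_⟩
  · simp [Matrix.mul_apply, Fin.sum_univ_two, Matrix.adjugate_fin_two]
  · simp [Matrix.mul_apply, Fin.sum_univ_two, Matrix.adjugate_fin_two]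
    ring
  · simp [Matrix.mul_apply, Fin.sum_univ_two, Matrix.adjugate_fin_two]
    ring

/-- the integral vectors with `c i - r ≤ w z i + w`, `w z i ≤ c i + r` -/
lemma card_box (w r : ℝ) (hw : 0 < w) (hr : w ≤ r) (c : Fin 3 → ℝ) (F : Finset (Fin 3 → ℤ))
    (hF : ∀ z ∈ F, ∀ i, ∃ t : ℝ, |t - c i| ≤ r ∧ ⌊t / w⌋ = z i) :
    (F.card : ℝ) ≤ 64 * (r / w) ^ 3 := by
  classical
  have hrw : 1 ≤ r / w := (one_le_div hw).2 hr
  have hsub : F ⊆ Fintype.piFinset
      (fun i => Finset.Icc (⌊(c i - r) / w⌋) (⌊(c i + r) / w⌋)) := by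
    intro z hz
    rw [Fintype.mem_piFinset]
    intro i
    obtain ⟨t, ht, hz'⟩ := hF z hz i
    rw [abs_le] at ht
    rw [Finset.mem_Icc, ← hz']
    constructor
    · exact Int.floor_le_floor (div_le_div_of_nonneg_right (by linarith [ht.1]) hw.le)
    · exact Int.floor_le_floor (div_le_div_of_nonneg_right (by linarith [ht.2]) hw.le)
  have h1 := Finset.card_le_card hsub
  rw [Fintype.card_piFinset] at h1
  have h2 : ∀ i, ((Finset.Icc (⌊(c i - r) / w⌋) (⌊(c i + r) / w⌋)).card : ℝ) ≤ 4 * (r / w) := by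
    intro i
    rw [Int.card_Icc]
    have e1 : (0 : ℤ) ≤ ⌊(c i + r) / w⌋ + 1 - ⌊(c i - r) / w⌋ := by
      have : ⌊(c i - r) / w⌋ ≤ ⌊(c i + r) / w⌋ :=
        Int.floor_le_floor (div_le_div_of_nonneg_right (by linarith) hw.le)
      omega
    have e2 : (((⌊(c i + r) / w⌋ + 1 - ⌊(c i - r) / w⌋).toNat : ℕ) : ℝ) =
        ((⌊(c i + r) / w⌋ + 1 - ⌊(c i - r) / w⌋ : ℤ) : ℝ) := by
      rw [← Int.cast_natCast, Int.toNat_of_nonneg e1]
    rw [e2]
    push_cast
    have e3 := Int.floor_le ((c i + r) / w)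
    have e4 := Int.lt_floor_add_one ((c i - r) / w)
    have e5 : (c i + r) / w - (c i - r) / w = 2 * (r / w) := by ring
    linarith
  have h3 : (F.card : ℝ) ≤ ∏ i : Fin 3,
      ((Finset.Icc (⌊(c i - r) / w⌋) (⌊(c i + r) / w⌋)).card : ℝ) := by
    exact_mod_cast h1
  refine h3.trans ?_
  refine (Finset.prod_le_prod (fun i _ => by positivity) (fun i _ => h2 i)).trans ?_
  rw [Finset.prod_const, Finset.card_univ, Fintype.card_fin]
  apply le_of_eq
  ring

end SpL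

theorem stmtSp : StmtSp := by
  intro R _
  refine ⟨64, by norm_num, ?_⟩
  intro w hw _ C V hV ζ r hr F hF hX
  have hSw : (sy R w C V).w = w := SpL.KKw hw
  rw [hSw] at hr ⊢
  refine SpL.card_box w r hw hr ![ζ 0 0, ζ 0 1 / 2, ζ 1 0 / 2] F ?_
  intro z hz i
  have hne := hV z (hF hz)
  have hx : rp R w z ∈ cel R w z := by
    unfold rp
    rw [dif_pos hne]
    exact hne.some_mem
  obtain ⟨x0, x1, x2⟩ := SpL.Xf_entries (rp R w z)
  refine ⟨xi (rp R w z) i, ?_, hx.2 i⟩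
  have hr0 : 0 ≤ r := hw.le.trans hr
  fin_cases i
  · have h := hX z hz 0 0
    change |HSLow.Xf (rp R w z).1 0 0 - ζ 0 0| ≤ r at h
    rw [x0] at h
    exact h
  · have h := hX z hz 0 1
    change |HSLow.Xf (rp R w z).1 0 1 - ζ 0 1| ≤ r at h
    rw [x1] at h
    change |xi (rp R w z) 1 - ζ 0 1 / 2| ≤ r
    rw [abs_le] at h ⊢
    constructor <;> linarith [h.1, h.2]
  · have h := hX z hz 1 0
    change |HSLow.Xf (rp R w z).1 1 0 - ζ 1 0| ≤ r at h
    rw [x2] at h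
    change |xi (rp R w z) 2 - ζ 1 0 / 2| ≤ r
    rw [abs_le] at h ⊢
    constructor <;> linarith [h.1, h.2]

end

end Pool.Agent.A54.HS
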