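import Pool.Agent.Lib.HS.Bd.SpecLow

/-!
PROJECT H*, LOW BANDS (MP_a54f13_nt), module T3 (helper65): bad cells are few.
-/

set_option autoImplicit false

namespace HSLow

open Matrix HSL

private theorem T3_back (a : MR) (s : MZ) (ha : a.det = 1) :
    toR s = a * fr a a s * a.adjugate := by
  have h1 : a * a.adjugate = 1 := by rw [Matrix.mul_adjugate, ha, one_smul]
  unfold fr
  calc toR s = (a * a.adjugate) * toR s * (a * a.adjugate) := by rw [h1]; simp
    _ = a * (a.adjugate * toR s * a) * a.adjugate := by simp only [Matrix.mul_assoc]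

private theorem T3_tr (a : MR) (s : MZ) (ha : a.det = 1) :
    fr a a s 0 0 + fr a a s 1 1 = ((s.trace : ℤ) : ℝ) := by
  have h1 : a * a.adjugate = 1 := by rw [Matrix.mul_adjugate, ha, one_smul]
  have h2 : (fr a a s).trace = (toR s).trace := by
    unfold fr
    rw [Matrix.mul_assoc, Matrix.trace_mul_comm, Matrix.mul_assoc, h1, Matrix.mul_one]
  rw [Matrix.trace_fin_two, Matrix.trace_fin_two] at h2
  rw [h2, Matrix.trace_fin_two]
  simp [toR]

private theorem T3_det (a : MR) (s : MZ) (ha : a.det = 1) :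
    fr a a s 0 0 * fr a a s 1 1 - fr a a s 0 1 * fr a a s 1 0 = ((s.det : ℤ) : ℝ) := by
  have h2 : (fr a a s).det = (toR s).det := by
    unfold fr
    rw [Matrix.det_mul, Matrix.det_mul, Matrix.det_adjugate, ha]
    simp
  rw [Matrix.det_fin_two, Matrix.det_fin_two] at h2
  rw [h2, Matrix.det_fin_two]
  simp [toR]

private theorem T3_adj (R : ℝ) (g : MR) (hg : ∀ i j, |g i j| ≤ R) (k l : Fin 2) :
    |g.adjugate k l| ≤ R := by
  rw [Matrix.adjugate_fin_two]
  fin_cases k <;> fin_cases l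
  · simpa using hg 1 1
  · simpa using hg 0 1
  · simpa using hg 1 0
  · simpa using hg 0 0

private theorem T3_xyz (R Z x y z : ℝ) (hR : 0 ≤ R) (hZ : 0 ≤ Z) (hx : |x| ≤ R) (hy : |y| ≤ Z)
    (hz : |z| ≤ R) : |x * y * z| ≤ R ^ 2 * Z := by
  rw [abs_mul, abs_mul]
  calc |x| * |y| * |z| ≤ R * Z * R := by gcongr
    _ = R ^ 2 * Z := by ring

private theorem T3_Xf (g : MR) (a b : Fin 2) :
    Xf g a b = g a 0 * g.adjugate 0 b - g a 1 * g.adjugate 1 b := by
  unfold Xf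
  simp only [Matrix.mul_apply, Fin.sum_univ_two, Matrix.of_apply, Matrix.cons_val',
    Matrix.cons_val_zero, Matrix.cons_val_one, Matrix.cons_val_fin_one]
  ring

/-- `v = a X + E` with a small `E` -/
private theorem T3_dec (R w T : ℝ) (g : MR) (v : MZ) (hR : 0 ≤ R) (hw : 0 ≤ w) (hT : 0 ≤ T)
    (hg : g.det = 1) (hgR : ∀ i j, |g i j| ≤ R) (hv : v.trace = 0) (hB : Bx w T (fr g g v))
    (a b : Fin 2) :
    |((v a b : ℤ) : ℝ) - fr g g v 0 0 * Xf g a b| ≤ 2 * R ^ 2 * (w * T) := by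
  obtain ⟨_, _, h3, h4⟩ := hB
  have h11 : fr g g v 1 1 = - fr g g v 0 0 := by
    have := T3_tr g v hg
    rw [hv] at this
    push_cast at this
    linarith
  have h5 : ((v a b : ℤ) : ℝ) = (g * fr g g v * g.adjugate) a b := by
    rw [← T3_back g v hg]
    simp [toR]
  have h6 : ((v a b : ℤ) : ℝ) - fr g g v 0 0 * Xf g a b =
      g a 1 * fr g g v 1 0 * g.adjugate 0 b + g a 0 * fr g g v 0 1 * g.adjugate 1 b := by
    rw [h5, T3_Xf]
    simp only [Matrix.mul_apply, Fin.sum_univ_two]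
    rw [h11]
    ring
  rw [h6]
  have hwT : 0 ≤ w * T := mul_nonneg hw hT
  have e1 := T3_xyz R (w * T) _ _ _ hR hwT (hgR a 1) h4 (T3_adj R g hgR 0 b)
  have e2 := T3_xyz R (w * T) _ _ _ hR hwT (hgR a 0) h3 (T3_adj R g hgR 1 b)
  rw [abs_le] at e1 e2 ⊢
  constructor <;> linarith [e1.1, e1.2, e2.1, e2.2]

private theorem T3_Xb (R : ℝ) (g : MR) (hR : 0 ≤ R) (hgR : ∀ i j, |g i j| ≤ R) (a b : Fin 2) :
    |Xf g a b| ≤ 2 * R ^ 2 := by
  rw [T3_Xf]
  have e1 := T3_xyz R 1 _ 1 _ hR zero_le_one (hgR a 0) (by simp) (T3_adj R g hgR 0 b)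
  have e2 := T3_xyz R 1 _ 1 _ hR zero_le_one (hgR a 1) (by simp) (T3_adj R g hgR 1 b)
  rw [mul_one] at e1 e2
  rw [abs_le] at e1 e2 ⊢
  constructor <;> linarith [e1.1, e1.2, e2.1, e2.2]

/-- the diagonal entry is not small -/
private theorem T3_low (hFb : S_Fb) (R w T : ℝ) (g : MR) (v : MZ) (hg : g.det = 1)
    (hgR : ∀ i j, |g i j| ≤ R) (hv : v.trace = 0) (hB : Bx w T (fr g g v)) (hv0 : v ≠ 0)
    (hs : 4 * R ^ 2 * (w * T) < 1) : 1 ≤ 4 * R ^ 2 * |fr g g v 0 0| := by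
  obtain ⟨_, _, _, _, _, _, _, hF8⟩ := hFb
  by_contra hcon
  push Not at hcon
  obtain ⟨_, _, h3, h4⟩ := hB
  have h11 : fr g g v 1 1 = - fr g g v 0 0 := by
    have := T3_tr g v hg
    rw [hv] at this
    push_cast at this
    linarith
  apply hv0
  refine hF8 R (max |fr g g v 0 0| (w * T)) g g v hg hg hgR hgR ?_ ?_
  · intro i j
    fin_cases i <;> fin_cases j
    · exact le_max_left _ _
    · exact h3.trans (le_max_right _ _)
    · exact h4.trans (le_max_right _ _)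
    · change |fr g g v 1 1| ≤ _
      rw [h11, abs_neg]
      exact le_max_left _ _
  · rcases max_choice |fr g g v 0 0| (w * T) with h | h
    · rw [h]; exact hcon
    · rw [h]; exact hs

/-- two numbers of the same sign -/
private theorem T3_sgn (A x y e : ℝ) (hA : 0 < A) (hx : 1 ≤ A * |x|) (hy : 1 ≤ A * |y|)
    (hxy : 0 ≤ x ∧ 0 ≤ y ∨ x < 0 ∧ y < 0) (he : |x ^ 2 - y ^ 2| ≤ 2 * e ^ 2) (he1 : A * e ≤ 1)
    (he0 : 0 ≤ e) : |x - y| ≤ e := by
  have h1 : |x + y| = |x| + |y| := by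
    rcases hxy with ⟨h, h'⟩ | ⟨h, h'⟩
    · rw [abs_of_nonneg h, abs_of_nonneg h', abs_of_nonneg (by linarith)]
    · rw [abs_of_neg h, abs_of_neg h', abs_of_neg (by linarith)]
      ring
  have h2 : |x - y| * |x + y| ≤ 2 * e ^ 2 := by
    rw [← abs_mul]
    have : (x - y) * (x + y) = x ^ 2 - y ^ 2 := by ring
    rw [this]
    exact he
  have h3 : 2 ≤ A * |x + y| := by
    rw [h1]
    linarith
  have h4 : |x - y| * 2 ≤ A * (2 * e ^ 2) := by
    calc |x - y| * 2 ≤ |x - y| * (A * |x + y|) :=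
          mul_le_mul_of_nonneg_left h3 (abs_nonneg _)
      _ = A * (|x - y| * |x + y|) := by ring
      _ ≤ A * (2 * e ^ 2) := mul_le_mul_of_nonneg_left h2 hA.le
  have h5 : A * (2 * e ^ 2) ≤ 2 * e := by
    have : A * (2 * e ^ 2) = 2 * e * (A * e) := by ring
    rw [this]
    calc 2 * e * (A * e) ≤ 2 * e * 1 := mul_le_mul_of_nonneg_left he1 (by linarith)
      _ = 2 * e := by ring
  linarith

/-- two cells with the same tube vector and the same sign -/
private theorem T3_close (hFb : S_Fb) (R w T : ℝ) (g g' : MR) (v : MZ) (hR : 1 ≤ R) (hw : 0 ≤ w)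
    (hT : 0 ≤ T) (hg : g.det = 1) (hgR : ∀ i j, |g i j| ≤ R) (hg' : g'.det = 1)
    (hgR' : ∀ i j, |g' i j| ≤ R) (hv : v.trace = 0) (hB : Bx w T (fr g g v))
    (hB' : Bx w T (fr g' g' v)) (hv0 : v ≠ 0) (hs : 4 * R ^ 2 * (w * T) < 1)
    (hsg : 0 ≤ fr g g v 0 0 ∧ 0 ≤ fr g' g' v 0 0 ∨ fr g g v 0 0 < 0 ∧ fr g' g' v 0 0 < 0)
    (a b : Fin 2) : |Xf g a b - Xf g' a b| ≤ 24 * R ^ 4 * (w * T) := by
  have hwT : 0 ≤ w * T := mul_nonneg hw hT
  have hl := T3_low hFb R w T g v hg hgR hv hB hv0 hs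
  have hl' := T3_low hFb R w T g' v hg' hgR' hv hB' hv0 hs
  have hd := T3_det g v hg
  have hd' := T3_det g' v hg'
  have h11 : fr g g v 1 1 = - fr g g v 0 0 := by
    have := T3_tr g v hg
    rw [hv] at this
    push_cast at this
    linarith
  have h11' : fr g' g' v 1 1 = - fr g' g' v 0 0 := by
    have := T3_tr g' v hg'
    rw [hv] at this
    push_cast at this
    linarith
  rw [h11] at hd
  rw [h11'] at hd'
  have hbc : |fr g g v 0 1 * fr g g v 1 0| ≤ (w * T) ^ 2 := by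
    rw [abs_mul, sq]
    exact mul_le_mul hB.2.2.1 hB.2.2.2 (abs_nonneg _) hwT
  have hbc' : |fr g' g' v 0 1 * fr g' g' v 1 0| ≤ (w * T) ^ 2 := by
    rw [abs_mul, sq]
    exact mul_le_mul hB'.2.2.1 hB'.2.2.2 (abs_nonneg _) hwT
  have hsq : |fr g g v 0 0 ^ 2 - fr g' g' v 0 0 ^ 2| ≤ 2 * (w * T) ^ 2 := by
    rw [abs_le] at hbc hbc' ⊢
    constructor <;> nlinarith [hbc.1, hbc.2, hbc'.1, hbc'.2]
  have haa := T3_sgn (4 * R ^ 2) _ _ (w * T) (by positivity) hl hl' hsg hsq hs.le hwT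
  have e1 := T3_dec R w T g v (by linarith) hw hT hg hgR hv hB a b
  have e2 := T3_dec R w T g' v (by linarith) hw hT hg' hgR' hv hB' a b
  have e3 := T3_Xb R g' (by linarith) hgR' a b
  -- a (X - X') = (a' - a) X' + (E' - E)
  have e4 : |fr g g v 0 0 * (Xf g a b - Xf g' a b)| ≤ 6 * R ^ 2 * (w * T) := by
    have h1 : fr g g v 0 0 * (Xf g a b - Xf g' a b) =
        (((v a b : ℤ) : ℝ) - fr g' g' v 0 0 * Xf g' a b) -
        (((v a b : ℤ) : ℝ) - fr g g v 0 0 * Xf g a b) -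
        (fr g g v 0 0 - fr g' g' v 0 0) * Xf g' a b := by ring
    have h2 : |(fr g g v 0 0 - fr g' g' v 0 0) * Xf g' a b| ≤ 2 * R ^ 2 * (w * T) := by
      rw [abs_mul]
      calc |fr g g v 0 0 - fr g' g' v 0 0| * |Xf g' a b| ≤ (w * T) * (2 * R ^ 2) :=
            mul_le_mul haa e3 (abs_nonneg _) hwT
        _ = 2 * R ^ 2 * (w * T) := by ring
    rw [h1]
    rw [abs_le] at e1 e2 h2 ⊢
    constructor <;> linarith [e1.1, e1.2, e2.1, e2.2, h2.1, h2.2]
  rw [abs_mul] at e4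
  calc |Xf g a b - Xf g' a b| = 1 * |Xf g a b - Xf g' a b| := by ring
    _ ≤ (4 * R ^ 2 * |fr g g v 0 0|) * |Xf g a b - Xf g' a b| :=
        mul_le_mul_of_nonneg_right hl (abs_nonneg _)
    _ = 4 * R ^ 2 * (|fr g g v 0 0| * |Xf g a b - Xf g' a b|) := by ring
    _ ≤ 4 * R ^ 2 * (6 * R ^ 2 * (w * T)) := mul_le_mul_of_nonneg_left e4 (by positivity)
    _ = 24 * R ^ 4 * (w * T) := by ring

theorem tT3 (hFb : S_Fb) : S_T3 := by
  intro R hR
  classical
  have hRk : ∀ n : ℕ, 1 ≤ R ^ n := fun n => one_le_pow₀ hR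
  refine ⟨20155392 * R ^ 18, by nlinarith [hRk 18], ?_⟩
  intro S B S0 hSR hK hB hS0 hsm hUn hSep F hFV hbad
  have hw0 : 0 < S.w := by unfold Sys.w; positivity
  have hw1 : S.w ≤ 1 := by
    unfold Sys.w
    rw [div_le_one (by positivity)]
    exact one_le_pow₀ hK
  have hwS : 0 < S.w * S0 := by positivity
  have hs4 : 4 * R ^ 2 * (S.w * S0) < 1 := by
    have h1 : 4 * R ^ 2 * (S.w * S0) < 20155392 * R ^ 18 * (S.w * S0) := by
      apply mul_lt_mul_of_pos_right _ hwS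
      have h2 : R ^ 2 ≤ R ^ 18 := pow_le_pow_right₀ hR (by norm_num)
      nlinarith [hRk 2, hRk 18]
    linarith
  -- choose the vectors
  have hch : ∀ i : S.ι, ∃ v : MZ, i ∈ F → (Tub S i S0 v ∧ v ≠ 0) := by
    intro i
    by_cases hi : i ∈ F
    · have h1 := hbad i hi
      unfold Gd at h1
      push Not at h1
      obtain ⟨v, hv1, hv2⟩ := h1
      exact ⟨v, fun _ => ⟨hv1, hv2⟩⟩
    · exact ⟨0, fun h => absurd h hi⟩
  choose vv hvv using hch
  set n : ℕ := ⌊4 * R ^ 2 * S0⌋₊ with hn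
  have hnle : (n : ℝ) ≤ 4 * R ^ 2 * S0 := Nat.floor_le (by positivity)
  let f : S.ι → (ℤ × ℤ × ℤ) × Bool := fun i =>
    ((vv i 0 0, vv i 0 1, vv i 1 0), decide (0 ≤ fr (S.g i) (S.g i) (vv i) 0 0))
  let I : Finset ℤ := Finset.Icc (-(n : ℤ)) (n : ℤ)
  let t : Finset ((ℤ × ℤ × ℤ) × Bool) := (I ×ˢ (I ×ˢ I)) ×ˢ (Finset.univ : Finset Bool)
  have hent : ∀ i ∈ F, ∀ a b, vv i a b ∈ I := by
    intro i hi a b
    obtain ⟨⟨_, hBx⟩, _⟩ := hvv i hi
    have hU := hUn i (hFV hi)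
    have hU2 : ∀ a b, |S.g i a b| ≤ R := fun a b => by rw [← hSR]; exact hU.2 a b
    have h7 := hFb.2.2.2.2.2.2.1 R S0 (S.g i) (S.g i) (vv i) hU.1 hU.1 hU2 hU2 (by
      intro c d
      have h01 : S.w * S0 ≤ S0 := by nlinarith
      obtain ⟨b1, b2, b3, b4⟩ := hBx
      fin_cases c <;> fin_cases d
      · exact b1
      · exact b3.trans h01
      · exact b4.trans h01
      · exact b2) a b
    have h8 : |vv i a b| ≤ (n : ℤ) := by
      have h5 : ((|vv i a b|.toNat : ℕ) : ℤ) = |vv i a b| := Int.toNat_of_nonneg (abs_nonneg _)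
      have h3 : |vv i a b|.toNat ≤ n := by
        rw [hn]
        apply Nat.le_floor
        have h4 : ((|vv i a b|.toNat : ℕ) : ℝ) = ((|vv i a b| : ℤ) : ℝ) := by
          exact_mod_cast h5
        rw [h4, Int.cast_abs]
        exact h7
      omega
    exact Finset.mem_Icc.mpr (abs_le.mp h8)
  have hmaps : ∀ i ∈ F, f i ∈ t := by
    intro i hi
    simp only [f, t, Finset.mem_product, Finset.mem_univ, and_true]
    exact ⟨hent i hi 0 0, hent i hi 0 1, hent i hi 1 0⟩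
  have hfib : ∀ y ∈ t, ((F.filter (fun i => f i = y)).card : ℝ) ≤
      B * (24 * R ^ 4 * S0) ^ 3 := by
    intro y _
    rcases (F.filter (fun i => f i = y)).eq_empty_or_nonempty with h0 | ⟨l, hl⟩
    · rw [h0]
      simp only [Finset.card_empty, Nat.cast_zero]
      positivity
    · rw [Finset.mem_filter] at hl
      obtain ⟨hlF, hly⟩ := hl
      have h1 := hSep (Xf (S.g l)) (24 * R ^ 4 * (S.w * S0)) (by
        have : 1 ≤ 24 * R ^ 4 * S0 := by nlinarith [hRk 4]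
        nlinarith) (F.filter (fun i => f i = y)) ((Finset.filter_subset _ _).trans hFV) (by
        intro i hi a b
        rw [Finset.mem_filter] at hi
        obtain ⟨hiF, hiy⟩ := hi
        obtain ⟨⟨htr, hBx⟩, hne⟩ := hvv i hiF
        obtain ⟨⟨htrl, hBxl⟩, hnel⟩ := hvv l hlF
        have hUi := hUn i (hFV hiF)
        have hUl := hUn l (hFV hlF)
        have hfe : f i = f l := hiy.trans hly.symm
        simp only [f, Prod.mk.injEq] at hfe
        obtain ⟨⟨e1, e2, e3⟩, e4⟩ := hfe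
        have hveq : vv i = vv l := by
          rw [Matrix.trace_fin_two] at htr htrl
          ext c d
          fin_cases c <;> fin_cases d
          · exact e1
          · exact e2
          · exact e3
          · change vv i 1 1 = vv l 1 1
            linarith
        rw [hveq] at hBx e4
        refine T3_close hFb R S.w S0 (S.g i) (S.g l) (vv l) hR hw0.le (by linarith) hUi.1
          (fun a b => by rw [← hSR]; exact hUi.2 a b) hUl.1
          (fun a b => by rw [← hSR]; exact hUl.2 a b) htrl hBx hBxl hnel hs4 ?_ a b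
        rw [decide_eq_decide] at e4
        by_cases h0 : 0 ≤ fr (S.g l) (S.g l) (vv l) 0 0
        · exact Or.inl ⟨e4.mpr h0, h0⟩
        · exact Or.inr ⟨not_le.mp (fun h => h0 (e4.mp h)), not_le.mp h0⟩)
      have h2 : 24 * R ^ 4 * (S.w * S0) / S.w = 24 * R ^ 4 * S0 := by
        field_simp
      rw [h2] at h1
      exact h1
  have hcard : (F.card : ℝ) ≤ (t.card : ℝ) * (B * (24 * R ^ 4 * S0) ^ 3) := by
    rw [Finset.card_eq_sum_card_fiberwise hmaps]
    push_cast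
    calc ∑ y ∈ t, ((F.filter (fun i => f i = y)).card : ℝ)
        ≤ ∑ _y ∈ t, B * (24 * R ^ 4 * S0) ^ 3 := Finset.sum_le_sum hfib
      _ = (t.card : ℝ) * (B * (24 * R ^ 4 * S0) ^ 3) := by
          rw [Finset.sum_const, nsmul_eq_mul]
  have htc : (t.card : ℝ) ≤ 2 * (9 * R ^ 2 * S0) ^ 3 := by
    have hI : I.card = 2 * n + 1 := by
      simp only [I, Int.card_Icc]
      omega
    have h1 : t.card = (2 * n + 1) * ((2 * n + 1) * (2 * n + 1)) * 2 := by
      simp only [t, Finset.card_product, hI, Finset.card_univ, Fintype.card_bool]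
    rw [h1]
    push_cast
    have h2 : 2 * (n : ℝ) + 1 ≤ 9 * R ^ 2 * S0 := by nlinarith [hRk 2]
    have h3 : (2 * (n : ℝ) + 1) ^ 3 ≤ (9 * R ^ 2 * S0) ^ 3 :=
      pow_le_pow_left₀ (by positivity) h2 3
    nlinarith
  calc (F.card : ℝ) ≤ (t.card : ℝ) * (B * (24 * R ^ 4 * S0) ^ 3) := hcard
    _ ≤ (2 * (9 * R ^ 2 * S0) ^ 3) * (B * (24 * R ^ 4 * S0) ^ 3) :=
        mul_le_mul_of_nonneg_right htc (by positivity)
    _ = 20155392 * R ^ 18 * B * S0 ^ 6 := by ring

end HSLow
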