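import Pool.Agent.Lib.HS.Bd.SpecLow
import Pool.Agent.Lib.HS.L.CL

/-!
H* Low TA: pairs of type A (spec HS/Bd/SpecLow, S_TA; helper5; the auxiliary lemmas follow helper33's C3).
-/

set_option autoImplicit false

namespace HSLow

open Matrix HSL

private lemma TA_frdet (a : MR) (v : MZ) (ha : a.det = 1) :
    (fr a a v).det = ((v.det : ℤ) : ℝ) := by
  unfold fr
  rw [det_mul, det_mul, det_adjugate]
  simp only [Fintype.card_fin, ha]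
  have : (toR v).det = ((v.det : ℤ) : ℝ) := by
    simp [toR, det_fin_two]
  rw [this]
  simp

private lemma TA_frtr (a : MR) (v : MZ) (ha : a.det = 1) :
    fr a a v 0 0 + fr a a v 1 1 = ((v.trace : ℤ) : ℝ) := by
  have h1 : (fr a a v).trace = ((v.trace : ℤ) : ℝ) := by
    unfold fr
    rw [Matrix.trace_mul_comm, ← Matrix.mul_assoc, Matrix.mul_adjugate, ha, one_smul,
      Matrix.one_mul]
    simp [toR, trace_fin_two]
  rw [trace_fin_two] at h1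
  exact h1

/-- determinant of a nonzero traceless vector of a thin tube -/
private lemma TA_det (hFb : S_Fb) (R w τ : ℝ) (a : MR) (v : MZ) (ha : a.det = 1)
    (hR : ∀ i j, |a i j| ≤ R) (hw : 0 ≤ w) (hw1 : w ≤ 1) (hτ : 0 ≤ τ) (hsm : 4 * R ^ 2 * (w * τ) < 1)
    (hv : v.trace = 0) (hP : v ≠ 0) (hB : Bx w τ (fr a a v)) :
    v.det ≠ 0 ∧ |((v.det : ℤ) : ℝ)| ≤ 2 * τ ^ 2 := by
  obtain ⟨b1, b2, b3, b4⟩ := hB
  have htr : fr a a v 1 1 = - fr a a v 0 0 := by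
    have h := TA_frtr a v ha
    rw [hv] at h
    push_cast at h
    linarith
  have hdet := TA_frdet a v ha
  rw [det_fin_two, htr] at hdet
  have hwτ : 0 ≤ w * τ := mul_nonneg hw hτ
  have hle : w * τ ≤ τ := by nlinarith
  have hprod : |fr a a v 0 1 * fr a a v 1 0| ≤ (w * τ) ^ 2 := by
    rw [abs_mul, sq]
    exact mul_le_mul b3 b4 (abs_nonneg _) hwτ
  have hsq : (fr a a v 0 0) ^ 2 ≤ τ ^ 2 := by
    have := abs_le.1 b1
    nlinarith [this.1, this.2]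
  constructor
  · intro h0
    rw [h0] at hdet
    simp only [Int.cast_zero] at hdet
    have hp := abs_le.1 hprod
    have h00 : (fr a a v 0 0) ^ 2 ≤ (w * τ) ^ 2 := by nlinarith [hp.1, hp.2]
    have h00' : |fr a a v 0 0| ≤ w * τ := abs_le_of_sq_le_sq h00 hwτ
    refine hP (hFb.2.2.2.2.2.2.2 R (w * τ) a a v ha ha hR hR ?_ hsm)
    intro i j
    fin_cases i <;> fin_cases j
    · exact h00'
    · exact b3
    · exact b4
    · show |fr a a v 1 1| ≤ w * τ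
      rw [htr, abs_neg]; exact h00'
  · rw [← hdet]
    have hp := abs_le.1 hprod
    have h2 : (w * τ) ^ 2 ≤ τ ^ 2 := by
      apply pow_le_pow_left₀ hwτ hle
    rw [abs_le]
    constructor <;> nlinarith [hp.1, hp.2, sq_nonneg (fr a a v 0 0)]

private lemma TA_fib {α β : Type} [DecidableEq β] (F : Finset α) (f : α → β) (b : ℝ)
    (h : ∀ y ∈ F.image f, ((F.filter (fun x => f x = y)).card : ℝ) ≤ b) :
    (F.card : ℝ) ≤ ((F.image f).card : ℝ) * b := by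
  have h1 : F.card = ∑ y ∈ F.image f, (F.filter (fun x => f x = y)).card :=
    Finset.card_eq_sum_card_fiberwise (fun u hu => Finset.mem_coe.2
      (Finset.mem_image_of_mem f (Finset.mem_coe.1 hu)))
  rw [h1]
  push_cast
  calc ∑ y ∈ F.image f, ((F.filter (fun x => f x = y)).card : ℝ) ≤ ∑ _y ∈ F.image f, b :=
        Finset.sum_le_sum h
    _ = _ := by rw [Finset.sum_const, nsmul_eq_mul]

/-- harmonic sum against a power -/
private lemma TA_harm (ε Z : ℝ) (hε : 0 < ε) (hZ : 1 ≤ Z) :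
    ∑ u ∈ Finset.Icc 1 ⌊Z ^ 2⌋₊, ((u : ℝ))⁻¹ ≤ (1 + 4 / ε) * Z ^ (ε / 2) := by
  have hZ2 : 1 ≤ Z ^ 2 := one_le_pow₀ hZ
  have h := harmonic_floor_le_one_add_log (Z ^ 2) hZ2
  rw [harmonic_eq_sum_Icc] at h
  push_cast at h
  refine h.trans ?_
  have h1 : Real.log (Z ^ 2) = 2 * Real.log Z := by
    rw [Real.log_pow]; push_cast; ring
  have h2 : Real.log Z ≤ Z ^ (ε / 2) / (ε / 2) := Real.log_le_rpow_div (by linarith) (by positivity)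
  have h3 : 1 ≤ Z ^ (ε / 2) := Real.one_le_rpow hZ (by positivity)
  have h4 : Z ^ (ε / 2) / (ε / 2) = 2 / ε * Z ^ (ε / 2) := by field_simp
  rw [h4] at h2
  have h5 : (1 + 4 / ε) * Z ^ (ε / 2) = Z ^ (ε / 2) + 2 * (2 / ε * Z ^ (ε / 2)) := by ring
  rw [h1, h5]
  linarith

/-- the data of one loop -/
private lemma TA_loop (hFb : S_Fb) {S : Sys} {k : ℕ} {Z C' : ℝ} (hC'def : C' = (2 * S.C) ^ k) (hC : 1 ≤ S.C)
    (hw : 0 ≤ S.w) (hw1 : S.w ≤ 1) (hU : S.Unim) {i : S.ι} (hi : i ∈ S.V) {H : Finset (S.ι × MZ)}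
    (hH : Hk S k Z i H) {t : (S.ι × MZ) × (S.ι × MZ)} (ht : t ∈ prs H) (htf : tf (lp t) ≠ 0) :
    1 ≤ ct (lp t) ∧ (ct (lp t) : ℝ) * (lvl (pp (lp t)) : ℝ) ≤ Z ^ 2 ∧ 0 < lvl (pp (lp t)) ∧
      (pp (lp t)).det = (lvl (pp (lp t)) : ℤ) ^ 2 ∧
      Bx S.w (2 * C' ^ 2 * (lvl (pp (lp t)) : ℝ)) (fr (S.g i) (S.g i) (pp (lp t))) ∧
      tf (pp (lp t)) ≠ 0 ∧ Tub S i (4 * C' ^ 2 * Z ^ 2 / (ct (lp t) : ℝ)) (tf (pp (lp t))) := by
  obtain ⟨h0, ⟨-, h2, h3, -, h5⟩, h6, -⟩ := loop_props hC hw hw1 hU hH ht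
  rw [← hC'def] at h5
  have hu : 0 < ct (lp t) := ct_pos h0
  have hu' : (0 : ℝ) < (ct (lp t) : ℝ) := by exact_mod_cast hu
  obtain ⟨n, hn⟩ : ∃ n : ℝ, n = (lvl (pp (lp t)) : ℝ) := ⟨_, rfl⟩
  rw [← hn] at h5 h6 ⊢
  obtain ⟨n1, n2, n3, n4⟩ := h5
  have hB : Bx S.w (2 * C' ^ 2 * n) (fr (S.g i) (S.g i) (pp (lp t))) := by
    refine ⟨?_, ?_, ?_, ?_⟩
    · refine n1.trans (le_of_eq ?_); ring
    · refine n2.trans (le_of_eq ?_); ring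
    · refine n3.trans (le_of_eq ?_); ring
    · refine n4.trans (le_of_eq ?_); ring
  have hT := hFb.2.2.2.2.1 S.w (2 * C' ^ 2 * n) (S.g i) (pp (lp t)) hw (hU i hi).1 hB
  refine ⟨hu, h6, h2, h3, hB, ?_, hT.1, ?_⟩
  · intro h
    apply htf
    rw [pp_eq (lp t), tf_smul, h, smul_zero]
  · refine hFb.2.2.1 S.w _ _ _ hw ?_ hT.2
    rw [le_div_iff₀ hu']
    have : 2 * (2 * C' ^ 2 * n) * (ct (lp t) : ℝ) = 4 * C' ^ 2 * ((ct (lp t) : ℝ) * n) := by ring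
    rw [this]
    exact mul_le_mul_of_nonneg_left h6 (by positivity)

/-- the pairs of one content -/
private lemma TA_one (hFb : S_Fb) {CL CF e : ℝ} (hCL : 1 ≤ CL) (hCF : 1 ≤ CF)
    (hLT : ∀ (S : Sys) (N τ : ℝ), 1 ≤ S.K → S.Unim → 1 ≤ N → 0 < τ → ∀ i ∈ S.V,
      (∀ n : MZ, ¬ Pln S N i n) → ∀ F : Finset MZ, (∀ v ∈ F, Tub S i τ v) →
      (∃ v ∈ F, ∃ v' ∈ F, brk v v' ≠ 0) →
      (F.card : ℝ) ≤ CL * (S.w ^ 2 * τ ^ 3 + S.w * τ ^ 2 / N))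
    (hF : ∀ Z : ℝ, 1 ≤ Z → ∀ v : MZ, v.det ≠ 0 → |((v.det : ℤ) : ℝ)| ≤ Z →
      ∀ S0 : Finset (MZ × ℕ), (∀ r ∈ S0, tf r.1 = v ∧ r.1.det = (r.2 : ℤ) ^ 2 ∧
        |((r.1.trace : ℤ) : ℝ)| ≤ Z ∧ 2 * (r.2 : ℝ) ≤ Z) → (S0.card : ℝ) ≤ CF * Z ^ e)
    {S : Sys} {k : ℕ} {B N Z C' R T : ℝ} (hC'def : C' = (2 * S.C) ^ k) (hC' : 1 ≤ C')
    (hC : 1 ≤ S.C) (hSR : S.R = R) (hK : 1 ≤ S.K) (hB : 1 ≤ B) (hN : 1 ≤ N) (hZ : 1 ≤ Z) (hT : T = 4 * C' ^ 2 * Z ^ 2)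
    (hsmall : 4 * R ^ 2 * (S.w * T) < 1) (hU : S.Unim) (hO : S.Ovl ((2 * S.C) ^ k) B) {i : S.ι} (hi : i ∈ S.V)
    (hnp : ∀ n : MZ, ¬ Pln S N i n) {H : Finset (S.ι × MZ)} (hH : Hk S k Z i H)
    {A : Finset ((S.ι × MZ) × (S.ι × MZ))} (hA : A ⊆ prs H) {u : ℕ} (hu : 1 ≤ u)
    (hAt : ∀ t ∈ A, tf (lp t) ≠ 0 ∧ ¬ R1 S i (T / (ct (lp t) : ℝ)) ∧ ct (lp t) = u) :
    (A.card : ℝ) ≤ CL * (S.w ^ 2 * T ^ 3 + S.w * T ^ 2 / N) * (CF * (64 * C' ^ 4 * Z ^ 4) ^ e) *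
      (B * 2 ^ (8 * k)) * ((u : ℝ))⁻¹ := by
  classical
  have hw0 : 0 < S.w := by unfold Sys.w; positivity
  have hw1 : S.w ≤ 1 := by
    unfold Sys.w
    rw [div_le_one (by positivity)]
    exact one_le_pow₀ hK
  have hZ2 : 1 ≤ Z ^ 2 := one_le_pow₀ hZ
  have hZ4 : Z ^ 2 ≤ Z ^ 4 := pow_le_pow_right₀ hZ (by norm_num)
  have hC'2 : 1 ≤ C' ^ 2 := one_le_pow₀ hC'
  have hC'4 : C' ^ 2 ≤ C' ^ 4 := pow_le_pow_right₀ hC' (by norm_num)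
  have hT1 : 1 ≤ T := by
    rw [hT]
    have := one_le_mul_of_one_le_of_one_le hC'2 hZ2
    linarith
  have hT0 : 0 < T := by linarith
  have hu1 : (1 : ℝ) ≤ (u : ℝ) := by exact_mod_cast hu
  have hu0 : (0 : ℝ) < (u : ℝ) := by linarith
  have hcz : 1 ≤ C' ^ 2 * Z ^ 2 := one_le_mul_of_one_le_of_one_le hC'2 hZ2
  have hcz4 : C' ^ 2 * Z ^ 2 ≤ C' ^ 4 * Z ^ 4 := mul_le_mul hC'4 hZ4 (by positivity) (by positivity)
  have hX : 0 ≤ S.w ^ 2 * T ^ 3 + S.w * T ^ 2 / N := by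
    have : 0 < N := by linarith
    positivity
  rcases A.eq_empty_or_nonempty with hemp | ⟨t0, ht0⟩
  · rw [hemp, Finset.card_empty, Nat.cast_zero]
    positivity
  obtain ⟨hgd, hgR⟩ := hU i hi
  rw [hSR] at hgR
  obtain ⟨τ, hτ⟩ : ∃ τ : ℝ, τ = T / (u : ℝ) := ⟨_, rfl⟩
  have hτ0 : 0 < τ := by rw [hτ]; positivity
  have hτT : τ ≤ T := by rw [hτ]; exact div_le_self hT0.le hu1
  have hsm : 4 * R ^ 2 * (S.w * τ) < 1 := by
    refine lt_of_le_of_lt ?_ hsmall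
    gcongr
  have key : ∀ t ∈ A, (u : ℝ) * (lvl (pp (lp t)) : ℝ) ≤ Z ^ 2 ∧ 0 < lvl (pp (lp t)) ∧
      (pp (lp t)).det = (lvl (pp (lp t)) : ℤ) ^ 2 ∧
      Bx S.w (2 * C' ^ 2 * (lvl (pp (lp t)) : ℝ)) (fr (S.g i) (S.g i) (pp (lp t))) ∧
      tf (pp (lp t)) ≠ 0 ∧ Tub S i τ (tf (pp (lp t))) := by
    intro t ht
    obtain ⟨a1, -, a3⟩ := hAt t ht
    obtain ⟨-, b2, b3, b4, b5, b6, b7⟩ := TA_loop hFb hC'def hC hw0.le hw1 hU hi hH (hA ht) a1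
    rw [a3] at b2 b7
    rw [← hT, ← hτ] at b7
    exact ⟨b2, b3, b4, b5, b6, b7⟩
  -- the traceless parts
  have hW : (((A.image lp).image (fun s => tf (pp s))).card : ℝ) ≤
      CL * (S.w ^ 2 * τ ^ 3 + S.w * τ ^ 2 / N) := by
    obtain ⟨-, a2, a3⟩ := hAt t0 ht0
    rw [a3, ← hτ] at a2
    unfold R1 at a2
    push Not at a2
    obtain ⟨v, v', hv, hv', hbr⟩ := a2
    have h1 := hLT S N τ hK hU hN hτ0 i hi hnp
      (insert v (insert v' ((A.image lp).image (fun s => tf (pp s))))) ?_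
      ⟨v, Finset.mem_insert_self _ _, v', Finset.mem_insert_of_mem (Finset.mem_insert_self _ _), hbr⟩
    · refine le_trans ?_ h1
      have h2 : ((A.image lp).image (fun s => tf (pp s))).card ≤
          (insert v (insert v' ((A.image lp).image (fun s => tf (pp s))))).card :=
        Finset.card_le_card ((Finset.subset_insert _ _).trans (Finset.subset_insert _ _))
      exact_mod_cast h2
    · intro y hy
      rw [Finset.mem_insert, Finset.mem_insert] at hy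
      rcases hy with rfl | rfl | hy
      · exact hv
      · exact hv'
      · obtain ⟨s, hs, rfl⟩ := Finset.mem_image.1 hy
        obtain ⟨t, ht, rfl⟩ := Finset.mem_image.1 hs
        exact (key t ht).2.2.2.2.2
  -- loops with given traceless part
  have hL : ((A.image lp).card : ℝ) ≤ (((A.image lp).image (fun s => tf (pp s))).card : ℝ) *
      (CF * (64 * C' ^ 4 * Z ^ 4) ^ e) := by
    refine TA_fib _ (fun s => tf (pp s)) _ ?_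
    intro y hy
    have hinj : Set.InjOn (fun s : MZ => ((pp s, lvl (pp s)) : MZ × ℕ))
        (((A.image lp).filter (fun s => tf (pp s) = y) : Finset MZ) : Set MZ) := by
      intro s hs s' hs' h
      have h1 := (Prod.mk.inj h).1
      obtain ⟨t, ht, rfl⟩ := Finset.mem_image.1 (Finset.mem_filter.1 (Finset.mem_coe.1 hs)).1
      obtain ⟨t', ht', rfl⟩ := Finset.mem_image.1 (Finset.mem_filter.1 (Finset.mem_coe.1 hs')).1
      rw [pp_eq (lp t), pp_eq (lp t'), (hAt t ht).2.2, (hAt t' ht').2.2, h1]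
    rw [← Finset.card_image_of_injOn hinj]
    have hyd : y.det ≠ 0 ∧ |((y.det : ℤ) : ℝ)| ≤ 2 * τ ^ 2 := by
      obtain ⟨s, hs, rfl⟩ := Finset.mem_image.1 hy
      obtain ⟨t, ht, rfl⟩ := Finset.mem_image.1 hs
      obtain ⟨-, -, -, -, b5, b6⟩ := key t ht
      exact TA_det hFb R S.w τ (S.g i) _ hgd hgR hw0.le hw1 hτ0.le hsm b6.1 b5 b6.2
    refine hF (64 * C' ^ 4 * Z ^ 4) (by nlinarith) y hyd.1 ?_ _ ?_
    · refine hyd.2.trans ?_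
      have h1 : τ ^ 2 ≤ T ^ 2 := pow_le_pow_left₀ hτ0.le hτT 2
      have h2 : 2 * T ^ 2 = 32 * (C' ^ 4 * Z ^ 4) := by rw [hT]; ring
      have h3 : 0 ≤ C' ^ 4 * Z ^ 4 := by positivity
      nlinarith
    · intro r hr
      obtain ⟨s, hs, rfl⟩ := Finset.mem_image.1 hr
      obtain ⟨hs1, hs2⟩ := Finset.mem_filter.1 hs
      obtain ⟨t, ht, rfl⟩ := Finset.mem_image.1 hs1
      obtain ⟨c1, -, c3, c4, -, -⟩ := key t ht
      have hn : (lvl (pp (lp t)) : ℝ) ≤ Z ^ 2 := by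
        have : (0 : ℝ) ≤ (lvl (pp (lp t)) : ℝ) := Nat.cast_nonneg _
        nlinarith
      have hn2 : C' ^ 2 * (lvl (pp (lp t)) : ℝ) ≤ C' ^ 2 * Z ^ 2 :=
        mul_le_mul_of_nonneg_left hn (by positivity)
      refine ⟨hs2, c3, ?_, ?_⟩
      · obtain ⟨q1, q2, -, -⟩ := c4
        show |(((pp (lp t)).trace : ℤ) : ℝ)| ≤ 64 * C' ^ 4 * Z ^ 4
        rw [← TA_frtr (S.g i) (pp (lp t)) hgd]
        refine (abs_add_le _ _).trans ?_
        nlinarith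
      · show 2 * ((lvl (pp (lp t)) : ℕ) : ℝ) ≤ 64 * C' ^ 4 * Z ^ 4
        nlinarith
  -- pairs with given loop
  have hAc : (A.card : ℝ) ≤ ((A.image lp).card : ℝ) * (B * 2 ^ (8 * k) * (u : ℝ)) := by
    refine TA_fib _ lp _ ?_
    intro s hs
    have h1 := mult S k Z B hB hO i hi H hH s (A.filter (fun t => lp t = s))
      ((Finset.filter_subset _ _).trans hA) (fun t ht => (Finset.mem_filter.1 ht).2)
    obtain ⟨t, ht, rfl⟩ := Finset.mem_image.1 hs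
    rw [(hAt t ht).2.2] at h1
    exact h1
  have hG : 0 ≤ CF * (64 * C' ^ 4 * Z ^ 4) ^ e := by positivity
  have hτ3 : S.w ^ 2 * τ ^ 3 + S.w * τ ^ 2 / N ≤
      (S.w ^ 2 * T ^ 3 + S.w * T ^ 2 / N) * (((u : ℝ))⁻¹ * ((u : ℝ))⁻¹) := by
    have hN0 : 0 < N := by linarith
    have h1 : τ = T * ((u : ℝ))⁻¹ := by rw [hτ]; rfl
    obtain ⟨x, hx⟩ : ∃ x : ℝ, x = ((u : ℝ))⁻¹ := ⟨_, rfl⟩
    have hx0 : 0 < x := by rw [hx]; positivity
    have hx1 : x ≤ 1 := by rw [hx]; exact inv_le_one_of_one_le₀ hu1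
    rw [h1, ← hx]
    have h2 : S.w ^ 2 * (T * x) ^ 3 ≤ S.w ^ 2 * T ^ 3 * (x * x) := by
      have h3 : x * (x * x) ≤ 1 * (x * x) := mul_le_mul_of_nonneg_right hx1 (by positivity)
      calc S.w ^ 2 * (T * x) ^ 3 = S.w ^ 2 * T ^ 3 * (x * (x * x)) := by ring
        _ ≤ S.w ^ 2 * T ^ 3 * (1 * (x * x)) := mul_le_mul_of_nonneg_left h3 (by positivity)
        _ = _ := by ring
    have h4 : S.w * (T * x) ^ 2 / N = S.w * T ^ 2 / N * (x * x) := by ring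
    rw [h4]
    linarith
  calc (A.card : ℝ) ≤ ((A.image lp).card : ℝ) * (B * 2 ^ (8 * k) * (u : ℝ)) := hAc
    _ ≤ ((CL * ((S.w ^ 2 * T ^ 3 + S.w * T ^ 2 / N) * (((u : ℝ))⁻¹ * ((u : ℝ))⁻¹))) *
          (CF * (64 * C' ^ 4 * Z ^ 4) ^ e)) * (B * 2 ^ (8 * k) * (u : ℝ)) := by
        refine mul_le_mul_of_nonneg_right ?_ (by positivity)
        refine hL.trans (mul_le_mul_of_nonneg_right ?_ hG)
        refine hW.trans (mul_le_mul_of_nonneg_left hτ3 (by linarith))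
    _ = _ := by
        field_simp

theorem tTA (hFb : S_Fb) (hPar : S_Par) (hLT : S_LT) (hFrm : S_Frm) (hFbr : S_Fbr) : S_TA := by
  classical
  have _ := hPar
  have _ := hFrm
  intro k C R ε hk hC hR hε
  obtain ⟨CL, hCL, hLT⟩ := hLT
  obtain ⟨CF, hCF, hF⟩ := hFbr (ε / 8) (by positivity)
  obtain ⟨C', hC'def⟩ : ∃ C' : ℝ, C' = (2 * C) ^ k := ⟨_, rfl⟩
  have hC' : 1 ≤ C' := by
    rw [hC'def]
    exact one_le_pow₀ (by linarith)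
  have hC'2 : 1 ≤ C' ^ 2 := one_le_pow₀ hC'
  have hR2 : 1 ≤ R ^ 2 := one_le_pow₀ hR
  have hx1 : 1 ≤ R ^ 2 * C' ^ 2 := one_le_mul_of_one_le_of_one_le hR2 hC'2
  obtain ⟨X, hX⟩ : ∃ X : ℝ, X = CL * (64 * C' ^ 6) * (CF * (64 * C' ^ 4) ^ (ε / 8)) *
    2 ^ (8 * k) * (1 + 4 / ε) := ⟨_, rfl⟩
  have hX0 : 0 ≤ X := by rw [hX]; positivity
  refine ⟨32 * (R ^ 2 * C' ^ 2) + X, by linarith, ?_⟩
  intro S B N Z hSC hSR hK hB hN hZ hsm hU hO i hi hnp H hH A hA hAt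
  have hw0 : 0 < S.w := by unfold Sys.w; positivity
  have hN0 : 0 < N := by linarith
  have hZ0 : 0 < Z := by linarith
  have hB0 : 0 < B := by linarith
  have hCL0 : 0 < CL := by linarith
  have hCF0 : 0 < CF := by linarith
  obtain ⟨T, hT⟩ : ∃ T : ℝ, T = 4 * C' ^ 2 * Z ^ 2 := ⟨_, rfl⟩
  have hsmall : 4 * R ^ 2 * (S.w * T) < 1 := by
    have h1 : 32 * (R ^ 2 * C' ^ 2) * (S.w * Z ^ 2) ≤ 1 := by
      refine le_trans ?_ hsm
      exact mul_le_mul_of_nonneg_right (by linarith) (by positivity)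
    have h2 : 4 * R ^ 2 * (S.w * T) = 16 * (R ^ 2 * C' ^ 2) * (S.w * Z ^ 2) := by rw [hT]; ring
    rw [h2]
    nlinarith
  have htau : tau C k Z = T := by
    unfold tau
    rw [← hC'def, hT]
  have hSC1 : 1 ≤ S.C := by rw [hSC]; exact hC
  have hC2 : C' = (2 * S.C) ^ k := by rw [hSC]; exact hC'def
  have hw1 : S.w ≤ 1 := by
    unfold Sys.w
    rw [div_le_one (by positivity)]
    exact one_le_pow₀ hK
  obtain ⟨G, hG⟩ : ∃ G : ℝ, G = CL * (S.w ^ 2 * T ^ 3 + S.w * T ^ 2 / N) *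
    (CF * (64 * C' ^ 4 * Z ^ 4) ^ (ε / 8)) * (B * 2 ^ (8 * k)) := ⟨_, rfl⟩
  have hT0 : 0 < T := by rw [hT]; positivity
  have hG0 : 0 ≤ G := by rw [hG]; positivity
  have hcard : (A.card : ℝ) ≤ G * ∑ u ∈ Finset.Icc 1 ⌊Z ^ 2⌋₊, ((u : ℝ))⁻¹ := by
    have h1 : A.card = ∑ u ∈ Finset.Icc 1 ⌊Z ^ 2⌋₊, (A.filter (fun t => ct (lp t) = u)).card := by
      refine Finset.card_eq_sum_card_fiberwise ?_
      intro t ht
      obtain ⟨b1, b2, b3, -⟩ := TA_loop hFb hC2 hSC1 hw0.le hw1 hU hi hH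
        (hA (Finset.mem_coe.1 ht)) (hAt t (Finset.mem_coe.1 ht)).1
      rw [Finset.coe_Icc, Set.mem_Icc]
      refine ⟨b1, Nat.le_floor ?_⟩
      have b3' : (1 : ℝ) ≤ (lvl (pp (lp t)) : ℝ) := by exact_mod_cast b3
      have : (0 : ℝ) ≤ (ct (lp t) : ℝ) := Nat.cast_nonneg _
      nlinarith
    rw [h1, Finset.mul_sum]
    push_cast
    refine Finset.sum_le_sum fun u hu => ?_
    rw [hG]
    refine TA_one hFb hCL hCF hLT hF hC2 hC' hSC1 hSR hK hB hN hZ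
      hT hsmall hU (by rw [hSC]; exact hO) hi hnp hH ((Finset.filter_subset _ _).trans hA)
      (Finset.mem_Icc.1 hu).1 ?_
    intro t ht
    obtain ⟨h2, h3⟩ := Finset.mem_filter.1 ht
    obtain ⟨h4, h5⟩ := hAt t h2
    rw [htau] at h5
    exact ⟨h4, h5, h3⟩
  refine hcard.trans ((mul_le_mul_of_nonneg_left (TA_harm ε Z hε hZ) hG0).trans ?_)
  have hpow : (64 * C' ^ 4 * Z ^ 4) ^ (ε / 8) = (64 * C' ^ 4) ^ (ε / 8) * Z ^ (ε / 2) := by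
    rw [Real.mul_rpow (by positivity) (by positivity), ← Real.rpow_natCast Z 4,
      ← Real.rpow_mul hZ0.le]
    congr 2
    push_cast
    ring
  have hZZ : Z ^ ε = Z ^ (ε / 2) * Z ^ (ε / 2) := by
    rw [← Real.rpow_add hZ0]; congr 1; ring
  have hY : S.w ^ 2 * T ^ 3 + S.w * T ^ 2 / N ≤
      64 * C' ^ 6 * (S.w ^ 2 * Z ^ 6 + S.w * Z ^ 4 / N) := by
    have h1 : S.w ^ 2 * T ^ 3 = 64 * C' ^ 6 * (S.w ^ 2 * Z ^ 6) := by rw [hT]; ring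
    have h2 : S.w * T ^ 2 / N = 16 * C' ^ 4 * (S.w * Z ^ 4 / N) := by rw [hT]; ring
    have h3 : C' ^ 4 ≤ C' ^ 6 := pow_le_pow_right₀ hC' (by norm_num)
    have h4 : 0 ≤ S.w * Z ^ 4 / N := by positivity
    have h5 : 16 * C' ^ 4 * (S.w * Z ^ 4 / N) ≤ 64 * C' ^ 6 * (S.w * Z ^ 4 / N) := by
      refine mul_le_mul_of_nonneg_right ?_ h4
      have : 0 ≤ C' ^ 4 := by positivity
      linarith
    rw [h1, h2]
    linarith
  have hfin : G * ((1 + 4 / ε) * Z ^ (ε / 2)) ≤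
      X * B * Z ^ ε * (S.w ^ 2 * Z ^ 6 + S.w * Z ^ 4 / N) := by
    calc G * ((1 + 4 / ε) * Z ^ (ε / 2)) = CL * (S.w ^ 2 * T ^ 3 + S.w * T ^ 2 / N) *
          ((CF * ((64 * C' ^ 4) ^ (ε / 8) * Z ^ (ε / 2))) * (B * 2 ^ (8 * k)) *
          ((1 + 4 / ε) * Z ^ (ε / 2))) := by rw [hG, hpow]; ring
      _ ≤ CL * (64 * C' ^ 6 * (S.w ^ 2 * Z ^ 6 + S.w * Z ^ 4 / N)) *
          ((CF * ((64 * C' ^ 4) ^ (ε / 8) * Z ^ (ε / 2))) * (B * 2 ^ (8 * k)) *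
          ((1 + 4 / ε) * Z ^ (ε / 2))) := by
          refine mul_le_mul_of_nonneg_right ?_ (by positivity)
          exact mul_le_mul_of_nonneg_left hY hCL0.le
      _ = _ := by rw [hX, hZZ]; ring
  refine hfin.trans ?_
  have h1 : 0 ≤ B * Z ^ ε * (S.w ^ 2 * Z ^ 6 + S.w * Z ^ 4 / N) := by positivity
  have h2 : 0 ≤ 32 * (R ^ 2 * C' ^ 2) * (B * Z ^ ε * (S.w ^ 2 * Z ^ 6 + S.w * Z ^ 4 / N)) :=
    mul_nonneg (by linarith) h1
  calc X * B * Z ^ ε * (S.w ^ 2 * Z ^ 6 + S.w * Z ^ 4 / N) =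
        X * (B * Z ^ ε * (S.w ^ 2 * Z ^ 6 + S.w * Z ^ 4 / N)) := by ring
    _ ≤ X * (B * Z ^ ε * (S.w ^ 2 * Z ^ 6 + S.w * Z ^ 4 / N)) +
        32 * (R ^ 2 * C' ^ 2) * (B * Z ^ ε * (S.w ^ 2 * Z ^ 6 + S.w * Z ^ 4 / N)) := by linarith
    _ = _ := by ring

end HSLow
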