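import Pool.Agent.Lib.HS.Bd.SpecLow

/-!
PROJECT H*, LOW BANDS (MP_a54f13_nt), module VX (spec helper41): a primitive traceless matrix of minimal gauge.
-/

set_option autoImplicit false

namespace HSLow

open Matrix HSL

/-- the gauge of a frame -/
private noncomputable def VX_gau (w : ℝ) (M : MR) : ℝ :=
  max (max |M 0 0| |M 1 1|) (max (|M 0 1| / w) (|M 1 0| / w))

private lemma VX_gau_iff (w D : ℝ) (M : MR) (hw : 0 < w) : Bx w D M ↔ VX_gau w M ≤ D := by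
  unfold Bx VX_gau
  rw [max_le_iff, max_le_iff, max_le_iff, div_le_iff₀' hw, div_le_iff₀' hw, and_assoc]

private lemma VX_two (v : MZ) (hv : v ≠ 0) : ∃ (c : ℤ) (v0 : MZ), 0 < c ∧ Prim v0 ∧ v = c • v0 := by
  have hc : (0 : ℤ) < (ct v : ℤ) := by exact_mod_cast ct_pos hv
  have hch : ∀ i j, ∃ t, v i j = (ct v : ℤ) * t := fun i j => ct_dvd v i j
  choose f hf using hch
  refine ⟨(ct v : ℤ), Matrix.of f, hc, ?_, ?_⟩
  · intro r hr
    have h1 : (ct v : ℤ) * r ∣ (ct v : ℤ) := by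
      apply dvd_ct
      intro i j
      rw [hf i j]
      exact mul_dvd_mul_left _ (hr i j)
    obtain ⟨t, ht⟩ := h1
    have h2 : r * t = 1 := by
      have : (ct v : ℤ) * (r * t) = (ct v : ℤ) * 1 := by rw [mul_one, ← mul_assoc, ← ht]
      exact mul_left_cancel₀ hc.ne' this
    exact IsUnit.of_mul_eq_one t h2
  · ext i j
    rw [Matrix.smul_apply, smul_eq_mul, Matrix.of_apply]
    exact hf i j

private lemma VX_fin (B : ℝ) : {v : MZ | ∀ i j, |((v i j : ℤ) : ℝ)| ≤ B}.Finite := by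
  have h1 : {r : Fin 2 → ℤ | ∀ j, r j ∈ Set.Icc (-⌈B⌉) ⌈B⌉}.Finite :=
    Set.Finite.pi' (fun _ => Set.finite_Icc _ _)
  have h2 : {v : Fin 2 → Fin 2 → ℤ | ∀ i, v i ∈ {r : Fin 2 → ℤ | ∀ j, r j ∈ Set.Icc (-⌈B⌉) ⌈B⌉}}.Finite :=
    Set.Finite.pi' (fun _ => h1)
  refine Set.Finite.subset h2 ?_
  intro v hv i j
  have h3 := abs_le.1 (hv i j)
  have h4 := Int.le_ceil B
  constructor
  · have : ((-⌈B⌉ : ℤ) : ℝ) ≤ ((v i j : ℤ) : ℝ) := by
      push_cast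
      linarith [h3.1]
    exact_mod_cast this
  · have : ((v i j : ℤ) : ℝ) ≤ ((⌈B⌉ : ℤ) : ℝ) := h3.2.trans h4
    exact_mod_cast this

private lemma VX_cell (hFb : S_Fb) (S : Sys) (hK : 1 ≤ S.K) (hU : S.Unim) (i : S.ι) (hi : i ∈ S.V) :
    ∃ v : MZ, v.trace = 0 ∧ Prim v ∧ ∀ (τ : ℝ) (v' : MZ), v' ≠ 0 → Tub S i τ v' → Tub S i τ v := by
  obtain ⟨_, _, _, hsm, _, _, hent, _⟩ := hFb
  obtain ⟨hdet, hent'⟩ := hU i hi
  have hK0 : 0 < S.K := by linarith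
  have hw : 0 < S.w := by
    unfold Sys.w
    positivity
  have hw1 : S.w ≤ 1 := by
    unfold Sys.w
    rw [div_le_one (by positivity)]
    exact one_le_pow₀ hK
  -- traceless nonzero matrices of bounded gauge
  obtain ⟨γ, hγ⟩ : ∃ γ : MZ → ℝ, ∀ v, γ v = VX_gau S.w (fr (S.g i) (S.g i) v) := ⟨_, fun _ => rfl⟩
  have hbx : ∀ (D : ℝ) (v : MZ), Bx S.w D (fr (S.g i) (S.g i) v) ↔ γ v ≤ D := by
    intro D v
    rw [hγ]
    exact VX_gau_iff _ _ _ hw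
  have hfin : ∀ T : ℝ, {v : MZ | (v ≠ 0 ∧ v.trace = 0) ∧ γ v ≤ T}.Finite := by
    intro T
    refine Set.Finite.subset (VX_fin (4 * S.R ^ 2 * T)) ?_
    rintro v ⟨-, hv⟩
    have hb := (hbx T v).2 hv
    have hT : 0 ≤ T := (abs_nonneg _).trans hb.1
    have hwT : S.w * T ≤ T := mul_le_of_le_one_left hT hw1
    refine hent S.R T (S.g i) (S.g i) v hdet hdet hent' hent' ?_
    intro a b
    fin_cases a <;> fin_cases b
    · exact hb.1
    · exact hb.2.2.1.trans hwT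
    · exact hb.2.2.2.trans hwT
    · exact hb.2.1
  -- a first nonzero traceless matrix
  have h1 : (!![1, 0; 0, -1] : MZ) ≠ 0 := by
    intro h
    have := congrFun (congrFun h 0) 0
    simp at this
  have h2 : (!![1, 0; 0, -1] : MZ).trace = 0 := by
    rw [Matrix.trace_fin_two]
    simp
  obtain ⟨v, ⟨⟨hv0, hvt⟩, hvT⟩, hmin⟩ := Set.exists_min_image _ γ (hfin (γ !![1, 0; 0, -1]))
    ⟨!![1, 0; 0, -1], ⟨h1, h2⟩, le_refl _⟩
  have hmin' : ∀ v' : MZ, v' ≠ 0 → v'.trace = 0 → γ v ≤ γ v' := by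
    intro v' hv' ht'
    rcases le_total (γ v') (γ !![1, 0; 0, -1]) with h | h
    · exact hmin v' ⟨⟨hv', ht'⟩, h⟩
    · exact hvT.trans h
  obtain ⟨c, v0, hc, hp, hcv⟩ := VX_two v hv0
  have hcR : (1 : ℝ) ≤ |(c : ℝ)| := by
    have : (1 : ℤ) ≤ c := hc
    have h3 : (1 : ℝ) ≤ (c : ℝ) := by exact_mod_cast this
    exact h3.trans (le_abs_self _)
  have hv0' : γ v0 ≤ γ v := by
    have h3 : Bx S.w (γ v) (fr (S.g i) (S.g i) (c • v0)) := by
      rw [← hcv]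
      exact (hbx _ _).2 le_rfl
    have h4 : γ v = |(c : ℝ)| * (γ v / |(c : ℝ)|) := by
      field_simp
    rw [h4] at h3
    have h5 := (hsm S.w (γ v / |(c : ℝ)|) (S.g i) (S.g i) c v0 hc.ne').1 h3
    have h6 := (hbx _ _).1 h5
    have h7 : 0 ≤ γ v := by
      rw [hγ]
      unfold VX_gau
      exact (abs_nonneg _).trans ((le_max_left _ _).trans (le_max_left _ _))
    exact h6.trans (div_le_self h7 hcR)
  have ht0 : v0.trace = 0 := by
    rw [hcv, Matrix.trace_smul, smul_eq_mul] at hvt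
    exact (mul_eq_zero.1 hvt).resolve_left hc.ne'
  refine ⟨v0, ht0, hp, ?_⟩
  rintro τ v' hv' ⟨ht', hb'⟩
  refine ⟨ht0, (hbx _ _).2 ?_⟩
  exact hv0'.trans ((hmin' v' hv' ht').trans ((hbx _ _).1 hb'))

theorem tVX (hFb : S_Fb) : S_VX := by
  classical
  intro S hK hU
  have h : ∀ i : S.ι, ∃ v : MZ, i ∈ S.V → (v.trace = 0 ∧ Prim v ∧
      ∀ (τ : ℝ) (v' : MZ), v' ≠ 0 → Tub S i τ v' → Tub S i τ v) := by
    intro i
    by_cases hi : i ∈ S.V
    · obtain ⟨v, hv⟩ := VX_cell hFb S hK hU i hi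
      exact ⟨v, fun _ => hv⟩
    · exact ⟨0, fun h => absurd h hi⟩
  choose vx hvx using h
  exact ⟨vx, fun i hi => hvx i hi⟩

end HSLow
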